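import Mathlib

set_option autoImplicit false
open Filter Topology

namespace Pool.Agent.Helper568.Basis

section general

variable {X : Type} [NormedAddCommGroup X] [NormedSpace ℝ X]

/-- evaluation as a linear map -/
noncomputable def evL (X : Type) [NormedAddCommGroup X] [NormedSpace ℝ X] (p : OnePoint ℕ) :
    C(OnePoint ℕ, X) →L[ℝ] X :=
  LinearMap.mkContinuous
    { toFun := fun s => s p
      map_add' := fun _ _ => rfl
      map_smul' := fun _ _ => rfl } 1 (by
      intro s; rw [one_mul]; exact s.norm_coe_le_norm p)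

lemma evL_apply (p : OnePoint ℕ) (s : C(OnePoint ℕ, X)) : evL X p s = s p := rfl

/-- The space of convergent sequences `s` in `X` with `s 0 = 0` and increments along `x n`. -/
noncomputable def Bsub (x : ℕ → X) : Submodule ℝ C(OnePoint ℕ, X) :=
  LinearMap.ker (evL X ((0 : ℕ) : OnePoint ℕ) : C(OnePoint ℕ, X) →ₗ[ℝ] X) ⊓
  ⨅ n : ℕ, (Submodule.span ℝ {x n}).comap
    ((evL X ((n + 1 : ℕ) : OnePoint ℕ) - evL X ((n : ℕ) : OnePoint ℕ) :
      C(OnePoint ℕ, X) →L[ℝ] X) : C(OnePoint ℕ, X) →ₗ[ℝ] X)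

lemma mem_Bsub {x : ℕ → X} {s : C(OnePoint ℕ, X)} : s ∈ Bsub x ↔
    s ((0 : ℕ) : OnePoint ℕ) = 0 ∧
      ∀ n : ℕ, ∃ c : ℝ, c • x n = s ((n + 1 : ℕ) : OnePoint ℕ) - s ((n : ℕ) : OnePoint ℕ) := by
  unfold Bsub
  rw [Submodule.mem_inf, Submodule.mem_iInf]
  apply and_congr
  · exact LinearMap.mem_ker
  · apply forall_congr'
    intro n
    rw [Submodule.mem_comap, Submodule.mem_span_singleton]
    rfl

lemma isClosed_Bsub (x : ℕ → X) : IsClosed (Bsub x : Set C(OnePoint ℕ, X)) := by
  unfold Bsub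
  rw [Submodule.coe_inf, Submodule.coe_iInf]
  apply IsClosed.inter
  · exact (evL X ((0 : ℕ) : OnePoint ℕ)).isClosed_ker
  · apply isClosed_iInter
    intro n
    have h : IsClosed (Submodule.span ℝ {x n} : Set X) :=
      Submodule.closed_of_finiteDimensional _
    exact h.preimage
      (evL X ((n + 1 : ℕ) : OnePoint ℕ) - evL X ((n : ℕ) : OnePoint ℕ)).continuous

/-- the `k`-th basis function -/
noncomputable def eb (x : ℕ → X) (k : ℕ) : C(OnePoint ℕ, X) :=
  OnePoint.continuousMapMkNat (fun n => if n ≤ k then 0 else x k) (x k) (by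
    apply Tendsto.congr' _ tendsto_const_nhds
    filter_upwards [eventually_gt_atTop k] with n hn
    rw [if_neg (by omega)])

omit [NormedSpace ℝ X] in
lemma eb_coe (x : ℕ → X) (k n : ℕ) : eb x k (n : OnePoint ℕ) = if n ≤ k then 0 else x k := rfl
omit [NormedSpace ℝ X] in
lemma eb_infty (x : ℕ → X) (k : ℕ) : eb x k (OnePoint.infty) = x k := rfl

lemma eb_mem (x : ℕ → X) (k : ℕ) : eb x k ∈ Bsub x := by
  rw [mem_Bsub]
  refine ⟨by rw [eb_coe, if_pos (Nat.zero_le _)], ?_⟩
  intro n
  rw [eb_coe, eb_coe]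
  by_cases h : n = k
  · subst h
    exact ⟨1, by rw [one_smul, if_neg (by omega), if_pos le_rfl, sub_zero]⟩
  · refine ⟨0, ?_⟩
    rw [zero_smul]
    by_cases h1 : n < k
    · rw [if_pos (by omega), if_pos (by omega), sub_zero]
    · rw [if_neg (by omega), if_neg (by omega), sub_self]

lemma sum_apply (x : ℕ → X) (a : ℕ → ℝ) (n : ℕ) (p : OnePoint ℕ) :
    (∑ i ∈ Finset.range n, a i • eb x i) p = ∑ i ∈ Finset.range n, a i • (eb x i p) := by
  change evL X p (∑ i ∈ Finset.range n, a i • eb x i) = _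
  rw [map_sum]
  apply Finset.sum_congr rfl
  intro i _
  rw [map_smul]; rfl

lemma sum_coe (x : ℕ → X) (a : ℕ → ℝ) (n m : ℕ) :
    (∑ i ∈ Finset.range n, a i • eb x i) (m : OnePoint ℕ)
      = ∑ i ∈ Finset.range (min n m), a i • x i := by
  rw [sum_apply]
  have h1 : ∀ i, a i • eb x i (m : OnePoint ℕ) = if i < m then a i • x i else 0 := by
    intro i
    rw [eb_coe]
    by_cases h : i < m
    · rw [if_neg (by omega), if_pos h]
    · rw [if_pos (by omega), if_neg h, smul_zero]
  simp_rw [h1]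
  rw [← Finset.sum_filter]
  apply Finset.sum_congr _ (fun _ _ => rfl)
  ext i
  simp [Finset.mem_filter, Finset.mem_range]

lemma sum_infty (x : ℕ → X) (a : ℕ → ℝ) (n : ℕ) :
    (∑ i ∈ Finset.range n, a i • eb x i) (OnePoint.infty)
      = ∑ i ∈ Finset.range n, a i • x i := by
  rw [sum_apply]; rfl

lemma monotone_norm (x : ℕ → X) (a : ℕ → ℝ) {n m : ℕ} (hnm : n ≤ m) :
    ‖∑ i ∈ Finset.range n, a i • eb x i‖ ≤ ‖∑ i ∈ Finset.range m, a i • eb x i‖ := by
  rw [ContinuousMap.norm_le _ (norm_nonneg _)]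
  intro p
  have key : ∀ l : ℕ, l ≤ n → ‖∑ i ∈ Finset.range l, a i • x i‖
      ≤ ‖∑ i ∈ Finset.range m, a i • eb x i‖ := by
    intro l hl
    have := (∑ i ∈ Finset.range m, a i • eb x i).norm_coe_le_norm ((l : ℕ) : OnePoint ℕ)
    rwa [sum_coe, min_eq_right (by omega)] at this
  induction p using OnePoint.rec with
  | infty => rw [sum_infty]; exact key n le_rfl
  | coe k => rw [sum_coe]; exact key _ (min_le_left _ _)

lemma tendsto_of_coeff (x : ℕ → X) {s : C(OnePoint ℕ, X)} (hs : s ((0 : ℕ) : OnePoint ℕ) = 0)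
    {a : ℕ → ℝ}
    (ha : ∀ n : ℕ, a n • x n = s ((n + 1 : ℕ) : OnePoint ℕ) - s ((n : ℕ) : OnePoint ℕ)) :
    Tendsto (fun n : ℕ => ∑ i ∈ Finset.range n, a i • eb x i) atTop (𝓝 s) := by
  have hsum : ∀ m : ℕ, ∑ i ∈ Finset.range m, a i • x i = s ((m : ℕ) : OnePoint ℕ) := by
    intro m
    induction m with
    | zero => rw [Finset.sum_range_zero, hs]
    | succ k ih => rw [Finset.sum_range_succ, ih, ha]; abel
  have hlim : Tendsto (fun n : ℕ => s (n : OnePoint ℕ)) atTop (𝓝 (s OnePoint.infty)) :=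
    (OnePoint.continuous_iff_from_nat _).1 s.continuous
  rw [Metric.tendsto_atTop] at hlim ⊢
  intro ε hε
  obtain ⟨N, hN⟩ := hlim (ε / 4) (by positivity)
  refine ⟨N, ?_⟩
  intro n hn
  rw [dist_eq_norm]
  apply lt_of_le_of_lt _ (by linarith : ε / 2 < ε)
  rw [ContinuousMap.norm_le _ (by positivity)]
  intro p
  rw [ContinuousMap.sub_apply]
  have hdist : ∀ m : ℕ, n ≤ m → ‖s ((n : ℕ) : OnePoint ℕ) - s ((m : ℕ) : OnePoint ℕ)‖ ≤ ε / 2 := by
    intro m hm
    have h1 := hN n hn
    have h2 := hN m (hn.trans hm)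
    rw [dist_eq_norm] at h1 h2
    have e : s ((n : ℕ) : OnePoint ℕ) - s ((m : ℕ) : OnePoint ℕ)
        = (s ((n : ℕ) : OnePoint ℕ) - s OnePoint.infty)
          - (s ((m : ℕ) : OnePoint ℕ) - s OnePoint.infty) := by abel
    rw [e]
    refine (norm_sub_le _ _).trans ?_
    linarith
  induction p using OnePoint.rec with
  | infty =>
    rw [sum_infty, hsum]
    have h1 := hN n hn
    rw [dist_eq_norm] at h1
    linarith
  | coe k =>
    rw [sum_coe, hsum]
    rcases le_total n k with h | h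
    · rw [min_eq_left h]; exact hdist k h
    · rw [min_eq_right h, sub_self, norm_zero]; positivity

lemma coeff_of_tendsto (x : ℕ → X) {s : C(OnePoint ℕ, X)} {a : ℕ → ℝ}
    (h : Tendsto (fun n : ℕ => ∑ i ∈ Finset.range n, a i • eb x i) atTop (𝓝 s)) (n : ℕ) :
    a n • x n = s ((n + 1 : ℕ) : OnePoint ℕ) - s ((n : ℕ) : OnePoint ℕ) := by
  have hval : ∀ m : ℕ, ∑ i ∈ Finset.range m, a i • x i = s ((m : ℕ) : OnePoint ℕ) := by
    intro m
    have h1 := ((evL X ((m : ℕ) : OnePoint ℕ)).continuous.tendsto s).comp h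
    have h2 : Tendsto (fun _ : ℕ => ∑ i ∈ Finset.range m, a i • x i) atTop
        (𝓝 (∑ i ∈ Finset.range m, a i • x i)) := tendsto_const_nhds
    refine tendsto_nhds_unique (h2.congr' ?_) h1
    filter_upwards [eventually_ge_atTop m] with n hn
    change _ = (∑ i ∈ Finset.range n, a i • eb x i) (m : OnePoint ℕ)
    rw [sum_coe, min_eq_right hn]
  rw [← hval, ← hval, Finset.sum_range_succ]; abel

/-- the space `B` -/
abbrev BB (x : ℕ → X) : Type := Bsub x

instance completeSpace_BB [CompleteSpace X] (x : ℕ → X) : CompleteSpace (BB x) :=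
  (isClosed_Bsub x).completeSpace_coe

/-- the basis vectors of `B` -/
noncomputable def ebB (x : ℕ → X) (k : ℕ) : BB x := ⟨eb x k, eb_mem x k⟩

lemma coe_sum (x : ℕ → X) (a : ℕ → ℝ) (n : ℕ) :
    ((∑ i ∈ Finset.range n, a i • ebB x i : BB x) : C(OnePoint ℕ, X))
      = ∑ i ∈ Finset.range n, a i • eb x i := by
  rw [Submodule.coe_sum]; rfl

theorem basis_BB {x : ℕ → X} (hx : ∀ n, x n ≠ 0) :
    (∀ s : BB x, ∃! a : ℕ → ℝ,
      Tendsto (fun n : ℕ => ∑ i ∈ Finset.range n, a i • ebB x i) atTop (𝓝 s)) ∧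
    (∀ (a : ℕ → ℝ) (n m : ℕ), n ≤ m →
      ‖∑ i ∈ Finset.range n, a i • ebB x i‖ ≤ ‖∑ i ∈ Finset.range m, a i • ebB x i‖) := by
  constructor
  · intro s
    obtain ⟨h0, h1⟩ := mem_Bsub.1 s.2
    choose a ha using h1
    refine ⟨a, ?_, ?_⟩
    · beta_reduce
      rw [tendsto_subtype_rng]
      simp_rw [coe_sum]
      exact tendsto_of_coeff x h0 ha
    · intro a' ha'
      rw [tendsto_subtype_rng] at ha'
      simp_rw [coe_sum] at ha'
      have h2 := coeff_of_tendsto x ha'
      ext n
      have h3 : a' n • x n = a n • x n := by rw [h2, ha]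
      exact smul_left_injective ℝ (hx n) h3
  · intro a n m hnm
    have := monotone_norm x a hnm
    rw [← coe_sum, ← coe_sum] at this
    exact this

lemma not_finiteDimensional_BB {x : ℕ → X} (hx : ∀ n, x n ≠ 0) : ¬ FiniteDimensional ℝ (BB x) := by
  intro hfin
  have hli : LinearIndependent ℝ (ebB x) := by
    rw [linearIndependent_iff']
    intro s g hg i hi
    classical
    -- extend to a sequence
    set a : ℕ → ℝ := fun k => if k ∈ s then g k else 0 with ha
    obtain ⟨N, hN⟩ : ∃ N, ∀ k ∈ s, k < N := ⟨s.sup id + 1, fun k hk =>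
      Nat.lt_succ_of_le (Finset.le_sup (f := id) hk)⟩
    have hzero : ∀ n, N ≤ n → ∑ k ∈ Finset.range n, a k • ebB x k = 0 := by
      intro n hn
      rw [← hg, ha]
      simp only [ite_smul, zero_smul]
      rw [← Finset.sum_filter]
      apply Finset.sum_congr _ (fun _ _ => rfl)
      ext k
      simp only [Finset.mem_filter, Finset.mem_range]
      constructor
      · exact fun h => h.2
      · intro h; exact ⟨lt_of_lt_of_le (hN k h) hn, h⟩
    have hT : Tendsto (fun n : ℕ => ∑ k ∈ Finset.range n, a k • ebB x k) atTop (𝓝 0) := by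
      apply Tendsto.congr' _ tendsto_const_nhds
      filter_upwards [eventually_ge_atTop N] with n hn
      exact (hzero n hn).symm
    have hT0 : Tendsto (fun n : ℕ => ∑ k ∈ Finset.range n, (fun _ => (0 : ℝ)) k • ebB x k) atTop
        (𝓝 0) := by simp
    have := ((basis_BB hx).1 0).unique hT hT0
    have h1 := congrFun this i
    simpa [ha, hi] using h1
  have := hli.finite
  exact not_finite ℕ

/-- embedding of `X` into `B` -/
noncomputable def iota (x : ℕ → X) (f : ℕ → X →L[ℝ] ℝ)
    (hlim : ∀ e : X, Tendsto (fun n : ℕ => ∑ i ∈ Finset.range n, f i e • x i) atTop (𝓝 e)) :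
    X →ₗ[ℝ] BB x where
  toFun e := ⟨OnePoint.continuousMapMkNat (fun n => ∑ i ∈ Finset.range n, f i e • x i) e (hlim e), by
    refine (mem_Bsub (x := x)).2 ⟨?_, ?_⟩
    · change ∑ i ∈ Finset.range 0, f i e • x i = 0
      exact Finset.sum_range_zero _
    intro n
    refine ⟨f n e, ?_⟩
    change _ = (∑ i ∈ Finset.range (n + 1), f i e • x i) - ∑ i ∈ Finset.range n, f i e • x i
    rw [Finset.sum_range_succ]; abel⟩
  map_add' e e' := by
    apply Subtype.ext
    ext p
    induction p using OnePoint.rec with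
    | infty => rfl
    | coe k =>
      change ∑ i ∈ Finset.range k, f i (e + e') • x i
        = (∑ i ∈ Finset.range k, f i e • x i) + ∑ i ∈ Finset.range k, f i e' • x i
      rw [← Finset.sum_add_distrib]
      apply Finset.sum_congr rfl
      intro i _
      rw [map_add, add_smul]
  map_smul' c e := by
    apply Subtype.ext
    ext p
    induction p using OnePoint.rec with
    | infty => rfl
    | coe k =>
      change ∑ i ∈ Finset.range k, f i (c • e) • x i
        = c • (∑ i ∈ Finset.range k, f i e • x i)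
      rw [Finset.smul_sum]
      apply Finset.sum_congr rfl
      intro i _
      rw [map_smul, smul_eq_mul, mul_smul]

variable {x : ℕ → X} {f : ℕ → X →L[ℝ] ℝ}
  {hlim : ∀ e : X, Tendsto (fun n : ℕ => ∑ i ∈ Finset.range n, f i e • x i) atTop (𝓝 e)}

lemma iota_infty (e : X) : (iota x f hlim e : C(OnePoint ℕ, X)) OnePoint.infty = e := rfl

lemma iota_coe (e : X) (n : ℕ) : (iota x f hlim e : C(OnePoint ℕ, X)) (n : OnePoint ℕ)
    = ∑ i ∈ Finset.range n, f i e • x i := rfl

lemma norm_iota (hbd : ∀ (n : ℕ) (e : X), ‖∑ i ∈ Finset.range n, f i e • x i‖ ≤ ‖e‖) (e : X) :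
    ‖iota x f hlim e‖ = ‖e‖ := by
  apply le_antisymm
  · change ‖(iota x f hlim e : C(OnePoint ℕ, X))‖ ≤ ‖e‖
    rw [ContinuousMap.norm_le _ (norm_nonneg _)]
    intro p
    induction p using OnePoint.rec with
    | infty => rw [iota_infty]
    | coe k => rw [iota_coe]; exact hbd k e
  · have := (iota x f hlim e : C(OnePoint ℕ, X)).norm_coe_le_norm OnePoint.infty
    rwa [iota_infty] at this

/-- the limit map from `B` to `X` -/
noncomputable def limB (x : ℕ → X) : BB x →L[ℝ] X := (evL X OnePoint.infty).comp (Bsub x).subtypeL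

lemma norm_limB_le (s : BB x) : ‖limB x s‖ ≤ ‖s‖ :=
  (s : C(OnePoint ℕ, X)).norm_coe_le_norm OnePoint.infty

lemma limB_iota (e : X) : limB x (iota x f hlim e) = e := rfl

end general

/-- A space in which no nonzero vector is Birkhoff orthogonal to a two dimensional subspace has
no monotone basis; only the first three vectors matter. -/
theorem abstract_no_basis {X B : Type} [NormedAddCommGroup X] [NormedSpace ℝ X]
    [NormedAddCommGroup B] [NormedSpace ℝ B] (io : X →ₗ[ℝ] B) (hnorm : ∀ e, ‖io e‖ = ‖e‖)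
    (hstrong : ∀ g g' h : X, (∀ c d : ℝ, c • g + d • g' = 0 → c = 0 ∧ d = 0) →
      (∀ c d s : ℝ, ‖c • g + d • g'‖ ≤ ‖c • g + d • g' + s • h‖) → h = 0)
    (f : ℕ → B) (hf : ∀ i, f i ∈ LinearMap.range io)
    (hbasis : ∀ x ∈ LinearMap.range io, ∃! a : ℕ → ℝ,
      Tendsto (fun n : ℕ => ∑ i ∈ Finset.range n, a i • f i) atTop (𝓝 x))
    (hmono : ∀ (a : ℕ → ℝ) (n m : ℕ), n ≤ m →
      ‖∑ i ∈ Finset.range n, a i • f i‖ ≤ ‖∑ i ∈ Finset.range m, a i • f i‖) : False := by
  choose g hg using hf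
  have h0 : Tendsto (fun n : ℕ => ∑ i ∈ Finset.range n, (fun _ => (0 : ℝ)) i • f i) atTop
      (𝓝 0) := by
    simp
  have huniq : ∀ c d s : ℝ, c • f 0 + d • f 1 + s • f 2 = 0 → c = 0 ∧ d = 0 ∧ s = 0 := by
    intro c d s h
    set a : ℕ → ℝ := fun k => if k = 0 then c else if k = 1 then d else if k = 2 then s else 0
      with ha
    have hT : Tendsto (fun n : ℕ => ∑ k ∈ Finset.range n, a k • f k) atTop (𝓝 0) := by
      apply Tendsto.congr' _ tendsto_const_nhds
      filter_upwards [eventually_ge_atTop 3] with n hn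
      obtain ⟨m, rfl⟩ := Nat.exists_eq_add_of_le hn
      rw [Finset.sum_range_add]
      have e1 : ∑ k ∈ Finset.range m, a (3 + k) • f (3 + k) = 0 := by
        apply Finset.sum_eq_zero
        intro k _
        rw [ha]
        simp only
        rw [if_neg (by omega), if_neg (by omega), if_neg (by omega), zero_smul]
      rw [e1, add_zero, Finset.sum_range_succ, Finset.sum_range_succ, Finset.sum_range_one]
      rw [← h]; simp [ha]
    have := (hbasis 0 (LinearMap.range io).zero_mem).unique hT h0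
    have i0 := congrFun this 0
    have i1 := congrFun this 1
    have i2 := congrFun this 2
    simp [ha] at i0 i1 i2
    exact ⟨i0, i1, i2⟩
  have hg2 : g 2 = 0 := by
    apply hstrong (g 0) (g 1)
    · intro c d h
      have := huniq c d 0 (by
        rw [← hg 0, ← hg 1, zero_smul, add_zero, ← map_smul, ← map_smul, ← map_add, h, map_zero])
      exact ⟨this.1, this.2.1⟩
    · intro c d s
      have := hmono (fun k => if k = 0 then c else if k = 1 then d else s) 2 3 (by norm_num)
      rw [Finset.sum_range_succ, Finset.sum_range_one, Finset.sum_range_succ,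
        Finset.sum_range_succ, Finset.sum_range_one] at this
      simp only [if_true, one_ne_zero, if_false, OfNat.ofNat_ne_zero,
        OfNat.ofNat_ne_one] at this
      rw [← hg 0, ← hg 1, ← hg 2, ← map_smul, ← map_smul, ← map_smul, ← map_add, ← map_add,
        hnorm, hnorm] at this
      exact this
  have := huniq 0 0 1 (by
    rw [← hg 2, hg2, map_zero]; simp)
  exact one_ne_zero this.2.2

end Pool.Agent.Helper568.Basis
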