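import Mathlib

/-! Completion of a seminormed vector space, as a Banach space with a dense linear map. -/

namespace Pool.Agent.Helper568.Compl

variable {𝕜 : Type} [RCLike 𝕜]

theorem exists_completion {V : Type} [AddCommGroup V] [Module 𝕜 V] (q : Seminorm 𝕜 V) :
    ∃ (U : Type) (_ : NormedAddCommGroup U) (_ : NormedSpace 𝕜 U) (_ : CompleteSpace U)
      (ι : V →ₗ[𝕜] U), DenseRange ι ∧ ∀ x, ‖ι x‖ = q x := by
  letI := AddGroupSeminorm.toSeminormedAddCommGroup q.toAddGroupSeminorm
  letI : NormedSpace 𝕜 V := { norm_smul_le := fun a b => (map_smul_eq_mul q a b).le }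
  refine ⟨UniformSpace.Completion V, inferInstance, inferInstance, inferInstance,
    (UniformSpace.Completion.toComplₗᵢ (𝕜 := 𝕜) (E := V)).toLinearMap, ?_, ?_⟩
  · exact UniformSpace.Completion.denseRange_coe
  · intro x
    exact (UniformSpace.Completion.toComplₗᵢ (𝕜 := 𝕜) (E := V)).norm_map x

/-- Norming functional for a seminorm. -/
theorem exists_functional {V : Type} [AddCommGroup V] [Module 𝕜 V] (q : Seminorm 𝕜 V) (x : V) :
    ∃ f : V →ₗ[𝕜] 𝕜, (∀ y, ‖f y‖ ≤ q y) ∧ f x = (q x : 𝕜) := by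
  obtain ⟨U, _, _, _, ι, -, hι⟩ := exists_completion q
  obtain ⟨g, hg, hgx⟩ := exists_dual_vector'' 𝕜 (ι x)
  refine ⟨g.toLinearMap.comp ι, fun y => ?_, ?_⟩
  · have := g.le_opNorm (ι y)
    rw [hι] at this
    simp only [LinearMap.comp_apply, ContinuousLinearMap.coe_coe]
    exact this.trans (by nlinarith [apply_nonneg q y])
  · simp only [LinearMap.comp_apply, ContinuousLinearMap.coe_coe, hgx, hι]

end Pool.Agent.Helper568.Compl
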