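import Mathlib

set_option autoImplicit false
open Filter Topology
open scoped RealInnerProductSpace

namespace Pool.Agent.Helper568.Cusp

/-- the signed square root -/
noncomputable def psi (s : ℝ) : ℝ := Real.sqrt s - Real.sqrt (-s)

/-- the function `|s|^{3/2}` -/
noncomputable def phi (s : ℝ) : ℝ := |s| * Real.sqrt |s|

lemma psi_zero : psi 0 = 0 := by simp [psi]

lemma continuous_psi : Continuous psi := by
  unfold psi; fun_prop

lemma psi_of_nonneg {s : ℝ} (hs : 0 ≤ s) : psi s = Real.sqrt s := by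
  unfold psi
  rw [Real.sqrt_eq_zero_of_nonpos (by linarith : -s ≤ 0)]; ring

lemma psi_neg (s : ℝ) : psi (-s) = - psi s := by
  unfold psi; rw [neg_neg]; ring

lemma abs_psi (s : ℝ) : |psi s| = Real.sqrt |s| := by
  rcases le_total 0 s with h | h
  · rw [psi_of_nonneg h, abs_of_nonneg (Real.sqrt_nonneg _), abs_of_nonneg h]
  · have h' : 0 ≤ -s := by linarith
    have : psi s = - psi (-s) := by rw [psi_neg]; ring
    rw [this, psi_of_nonneg h', abs_neg, abs_of_nonneg (Real.sqrt_nonneg _), abs_of_nonpos h]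

lemma psi_mul_self (s : ℝ) : psi s * s = phi s := by
  unfold phi
  rcases le_total 0 s with h | h
  · rw [psi_of_nonneg h, abs_of_nonneg h]; ring
  · have h' : 0 ≤ -s := by linarith
    have : psi s = - psi (-s) := by rw [psi_neg]; ring
    rw [this, psi_of_nonneg h', abs_of_nonpos h]; ring

lemma psi_mul {s r : ℝ} (hs : 0 ≤ s) : psi (s * r) = Real.sqrt s * psi r := by
  unfold psi
  rw [Real.sqrt_mul hs, show -(s * r) = s * (-r) by ring, Real.sqrt_mul hs]; ring

lemma psi_eq_zero_iff {s : ℝ} : psi s = 0 ↔ s = 0 := by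
  constructor
  · intro h
    have := abs_psi s
    rw [h, abs_zero] at this
    have h2 : |s| = 0 := (Real.sqrt_eq_zero (abs_nonneg s)).1 this.symm
    exact abs_eq_zero.1 h2
  · rintro rfl; exact psi_zero

lemma sqrt_sub_le {a b : ℝ} : |Real.sqrt a - Real.sqrt b| ≤ Real.sqrt |a - b| := by
  have key : ∀ x y : ℝ, y ≤ x → |Real.sqrt x - Real.sqrt y| ≤ Real.sqrt |x - y| := by
    intro x y hxy
    have h1 : Real.sqrt y ≤ Real.sqrt x := Real.sqrt_le_sqrt hxy
    rw [abs_of_nonneg (by linarith), abs_of_nonneg (by linarith)]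
    have h2 : Real.sqrt x ≤ Real.sqrt y + Real.sqrt (x - y) := by
      apply Real.sqrt_le_iff.2
      constructor
      · positivity
      · rcases le_total 0 y with hy | hy
        · nlinarith [Real.sq_sqrt hy, Real.sq_sqrt (by linarith : 0 ≤ x - y),
            mul_nonneg (Real.sqrt_nonneg y) (Real.sqrt_nonneg (x - y))]
        · rw [Real.sqrt_eq_zero_of_nonpos hy, zero_add, Real.sq_sqrt (by linarith)]
          linarith
    linarith
  rcases le_total b a with h | h
  · exact key a b h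
  · rw [abs_sub_comm, abs_sub_comm a b]; exact key b a h

lemma psi_holder (a b : ℝ) : |psi a - psi b| ≤ 2 * Real.sqrt |a - b| := by
  unfold psi
  have h1 := @sqrt_sub_le a b
  have h2 := @sqrt_sub_le (-a) (-b)
  rw [show -a - -b = -(a - b) by ring, abs_neg] at h2
  calc |Real.sqrt a - Real.sqrt (-a) - (Real.sqrt b - Real.sqrt (-b))|
      = |(Real.sqrt a - Real.sqrt b) - (Real.sqrt (-a) - Real.sqrt (-b))| := by ring_nf
    _ ≤ |Real.sqrt a - Real.sqrt b| + |Real.sqrt (-a) - Real.sqrt (-b)| := abs_sub _ _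
    _ ≤ 2 * Real.sqrt |a - b| := by linarith

/-- Young inequality with exponents 3 and 3/2, in square root variables. -/
lemma young {u v : ℝ} (hu : 0 ≤ u) (hv : 0 ≤ v) :
    (3 / 2) * (u * v ^ 2) ≤ v ^ 3 + (1 / 2) * u ^ 3 := by
  nlinarith [mul_nonneg (sq_nonneg (u - v)) (by linarith : 0 ≤ u + 2 * v)]

lemma phi_grad (a b : ℝ) : phi a + (3 / 2) * (psi a * (b - a)) ≤ phi b := by
  have h1 : psi a * b ≤ Real.sqrt |a| * |b| := by
    calc psi a * b ≤ |psi a * b| := le_abs_self _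
      _ = Real.sqrt |a| * |b| := by rw [abs_mul, abs_psi]
  have h2 := young (Real.sqrt_nonneg |a|) (Real.sqrt_nonneg |b|)
  have ha := Real.sq_sqrt (abs_nonneg a)
  have hb := Real.sq_sqrt (abs_nonneg b)
  have ea : phi a = Real.sqrt |a| ^ 3 := by
    unfold phi; nth_rewrite 1 [← ha]; ring
  have eb : phi b = Real.sqrt |b| ^ 3 := by
    unfold phi; nth_rewrite 1 [← hb]; ring
  have h3 : psi a * (b - a) = psi a * b - phi a := by rw [← psi_mul_self]; ring
  rw [h3, ea, eb]
  rw [hb] at h2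
  nlinarith

section hilbert

variable {H : Type*} [NormedAddCommGroup H] [InnerProductSpace ℝ H]

/-- derivative of `‖x‖^{3/2}` up to the factor `3/2`, in the direction `h` -/
noncomputable def LL (x h : H) : ℝ := (Real.sqrt ‖x‖)⁻¹ * ⟪x, h⟫

lemma LL_grad (x y : H) : phi ‖x‖ + (3 / 2) * LL x (y - x) ≤ phi ‖y‖ := by
  rcases eq_or_ne x 0 with rfl | hx
  · simp [LL, phi]; positivity
  have hx' : 0 < ‖x‖ := norm_pos_iff.2 hx
  have hs : 0 < Real.sqrt ‖x‖ := Real.sqrt_pos.2 hx'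
  have hxx : ⟪x, x⟫ = ‖x‖ ^ 2 := real_inner_self_eq_norm_sq x
  have e1 : LL x (y - x) = (Real.sqrt ‖x‖)⁻¹ * ⟪x, y⟫ - (Real.sqrt ‖x‖)⁻¹ * ‖x‖ ^ 2 := by
    unfold LL; rw [inner_sub_right, hxx]; ring
  have hsq := Real.sq_sqrt hx'.le
  have hsy := Real.sq_sqrt (norm_nonneg y)
  have e2 : (Real.sqrt ‖x‖)⁻¹ * ‖x‖ ^ 2 = Real.sqrt ‖x‖ ^ 3 := by
    have : ‖x‖ ^ 2 = (Real.sqrt ‖x‖) ^ 4 := by rw [show (4 : ℕ) = 2 * 2 by norm_num, pow_mul, hsq]
    rw [this]; field_simp
  have h1 : (Real.sqrt ‖x‖)⁻¹ * ⟪x, y⟫ ≤ Real.sqrt ‖x‖ * ‖y‖ := by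
    have h3 : ⟪x, y⟫ ≤ ‖x‖ * ‖y‖ := real_inner_le_norm x y
    calc (Real.sqrt ‖x‖)⁻¹ * ⟪x, y⟫ ≤ (Real.sqrt ‖x‖)⁻¹ * (‖x‖ * ‖y‖) := by
          apply mul_le_mul_of_nonneg_left h3 (by positivity)
      _ = Real.sqrt ‖x‖ * ‖y‖ := by
          nth_rewrite 2 [← hsq]; field_simp
  have h2 := young (Real.sqrt_nonneg ‖x‖) (Real.sqrt_nonneg ‖y‖)
  have ea : phi ‖x‖ = Real.sqrt ‖x‖ ^ 3 := by
    unfold phi; rw [abs_norm]; nth_rewrite 1 [← hsq]; ring
  have eb : phi ‖y‖ = Real.sqrt ‖y‖ ^ 3 := by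
    unfold phi; rw [abs_norm]; nth_rewrite 1 [← hsy]; ring
  rw [hsy] at h2
  rw [e1, e2, ea, eb]
  nlinarith

end hilbert

lemma tendsto_div_sqrt {f : ℝ → ℝ} (hf : DifferentiableAt ℝ f 0) :
    Tendsto (fun s => (f s - f 0) / Real.sqrt s) (𝓝[>] 0) (𝓝 0) := by
  have h1 := hf.hasDerivAt.tendsto_slope_zero
  simp only [zero_add, smul_eq_mul] at h1
  have h2 : Tendsto (fun s : ℝ => s⁻¹ * (f s - f 0)) (𝓝[>] 0) (𝓝 (deriv f 0)) :=
    h1.mono_left (nhdsWithin_mono _ (fun x hx => ne_of_gt hx))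
  have h3 : Tendsto (fun s : ℝ => Real.sqrt s) (𝓝[>] 0) (𝓝 0) := by
    have : Tendsto (fun s : ℝ => Real.sqrt s) (𝓝 0) (𝓝 (Real.sqrt 0)) :=
      Real.continuous_sqrt.tendsto 0
    rw [Real.sqrt_zero] at this
    exact this.mono_left nhdsWithin_le_nhds
  have h4 := h2.mul h3
  rw [mul_zero] at h4
  refine h4.congr' ?_
  filter_upwards [self_mem_nhdsWithin] with s hs
  have hs' : (0 : ℝ) < s := hs
  have hsq : Real.sqrt s * Real.sqrt s = s := Real.mul_self_sqrt hs'.le
  have hpos : 0 < Real.sqrt s := Real.sqrt_pos.2 hs'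
  nth_rewrite 1 [← hsq]
  field_simp

section main

variable {H : Type*} [NormedAddCommGroup H] [InnerProductSpace ℝ H]

/-- `‖x‖^{3/2} + ∑ |b j x|^{3/2}` -/
noncomputable def FF (b : ℕ → H →ₗ[ℝ] ℝ) (x : H) : ℝ := phi ‖x‖ + ∑' j, phi (b j x)

/-- the gradient term of the sum part -/
noncomputable def SS (b : ℕ → H →ₗ[ℝ] ℝ) (x h : H) : ℝ := ∑' j, psi (b j x) * b j h

lemma summable_bound {β : ℕ → ℝ} (hβ : Summable β) (hβ0 : ∀ j, 0 ≤ β j) (hβ1 : ∀ j, β j ≤ 1)
    (M : ℝ) (K : ℝ) : Summable (fun j => K * (Real.sqrt (β j * M) * (β j * M))) := by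
  apply Summable.mul_left
  have h1 : Summable (fun j => Real.sqrt |M| * |M| * β j) := hβ.mul_left _
  refine Summable.of_norm_bounded h1 ?_
  intro j
  rw [Real.norm_eq_abs, abs_mul, abs_of_nonneg (Real.sqrt_nonneg _), abs_mul, abs_of_nonneg (hβ0 j)]
  have h2 : Real.sqrt (β j * M) ≤ Real.sqrt |M| := by
    apply Real.sqrt_le_sqrt
    calc β j * M ≤ β j * |M| := by
          apply mul_le_mul_of_nonneg_left (le_abs_self M) (hβ0 j)
      _ ≤ 1 * |M| := by apply mul_le_mul_of_nonneg_right (hβ1 j) (abs_nonneg M)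
      _ = |M| := one_mul _
  calc Real.sqrt (β j * M) * (β j * |M|) ≤ Real.sqrt |M| * (β j * |M|) := by
        apply mul_le_mul_of_nonneg_right h2
        exact mul_nonneg (hβ0 j) (abs_nonneg M)
    _ = Real.sqrt |M| * |M| * β j := by ring

variable {b : ℕ → H →ₗ[ℝ] ℝ} {β : ℕ → ℝ}

lemma summable_phi (hβ : Summable β) (hβ0 : ∀ j, 0 ≤ β j) (hβ1 : ∀ j, β j ≤ 1)
    (hb : ∀ j x, |b j x| ≤ β j * ‖x‖) (x : H) : Summable (fun j => phi (b j x)) := by
  refine Summable.of_norm_bounded (summable_bound hβ hβ0 hβ1 ‖x‖ 1) ?_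
  intro j
  unfold phi
  rw [Real.norm_eq_abs, abs_mul, abs_abs, abs_of_nonneg (Real.sqrt_nonneg _), one_mul, mul_comm]
  apply mul_le_mul (Real.sqrt_le_sqrt (hb j x)) (hb j x) (abs_nonneg _) (Real.sqrt_nonneg _)

lemma summable_SS (hβ : Summable β) (hβ0 : ∀ j, 0 ≤ β j) (hβ1 : ∀ j, β j ≤ 1)
    (hb : ∀ j x, |b j x| ≤ β j * ‖x‖) (x h : H) : Summable (fun j => psi (b j x) * b j h) := by
  refine Summable.of_norm_bounded (summable_bound hβ hβ0 hβ1 (‖x‖ + ‖h‖) 1) ?_
  intro j
  rw [Real.norm_eq_abs, abs_mul, abs_psi, one_mul]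
  have h1 : |b j x| ≤ β j * (‖x‖ + ‖h‖) := (hb j x).trans
    (mul_le_mul_of_nonneg_left (by linarith [norm_nonneg h]) (hβ0 j))
  have h2 : |b j h| ≤ β j * (‖x‖ + ‖h‖) := (hb j h).trans
    (mul_le_mul_of_nonneg_left (by linarith [norm_nonneg x]) (hβ0 j))
  apply mul_le_mul (Real.sqrt_le_sqrt h1) h2 (abs_nonneg _) (Real.sqrt_nonneg _)

lemma FF_grad (hβ : Summable β) (hβ0 : ∀ j, 0 ≤ β j) (hβ1 : ∀ j, β j ≤ 1)
    (hb : ∀ j x, |b j x| ≤ β j * ‖x‖) (x y : H) :
    FF b x + (3 / 2) * (LL x (y - x) + SS b x (y - x)) ≤ FF b y := by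
  have h1 := LL_grad x y
  have s1 := summable_phi hβ hβ0 hβ1 hb x
  have s2 := summable_SS hβ hβ0 hβ1 hb x (y - x)
  have s3 := summable_phi hβ hβ0 hβ1 hb y
  have h2 : (∑' j, phi (b j x)) + (3 / 2) * SS b x (y - x) ≤ ∑' j, phi (b j y) := by
    unfold SS
    rw [← tsum_mul_left, ← Summable.tsum_add s1 (s2.mul_left _)]
    apply Summable.tsum_le_tsum _ (s1.add (s2.mul_left _)) s3
    intro j
    have := phi_grad (b j x) (b j y)
    rw [map_sub]
    exact this
  unfold FF
  linarith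

lemma LL_smul (x h : H) (t : ℝ) : LL x (t • h) = t * LL x h := by
  unfold LL; rw [inner_smul_right]; ring

lemma SS_smul (x h : H) (t : ℝ) : SS b x (t • h) = t * SS b x h := by
  unfold SS; rw [← tsum_mul_left]; congr 1; ext j; simp; ring

lemma tendsto_SS (hβ : Summable β) (hβ0 : ∀ j, 0 ≤ β j) (hβ1 : ∀ j, β j ≤ 1)
    (hb : ∀ j x, |b j x| ≤ β j * ‖x‖) (x h : H) :
    Tendsto (fun t : ℝ => SS b (x + t • h) h) (𝓝 0) (𝓝 (SS b x h)) := by
  unfold SS
  apply tendsto_tsum_of_dominated_convergence (summable_bound hβ hβ0 hβ1 (‖x‖ + ‖h‖) 1)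
  · intro j
    have : Continuous (fun t : ℝ => psi (b j (x + t • h)) * b j h) := by
      simp only [map_add, map_smul, smul_eq_mul]
      have := continuous_psi
      fun_prop
    have h2 := this.tendsto 0
    simpa using h2
  · have : ∀ᶠ t : ℝ in 𝓝 0, |t| < 1 := by
      have := Metric.ball_mem_nhds (0 : ℝ) one_pos
      filter_upwards [this] with t ht
      simpa using ht
    filter_upwards [this] with t ht j
    rw [Real.norm_eq_abs, abs_mul, abs_psi, one_mul]
    have h0 : ‖x + t • h‖ ≤ ‖x‖ + ‖h‖ := by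
      calc ‖x + t • h‖ ≤ ‖x‖ + ‖t • h‖ := norm_add_le _ _
        _ = ‖x‖ + |t| * ‖h‖ := by rw [norm_smul, Real.norm_eq_abs]
        _ ≤ ‖x‖ + 1 * ‖h‖ := by
            have := mul_le_mul_of_nonneg_right ht.le (norm_nonneg h); linarith
        _ = ‖x‖ + ‖h‖ := by rw [one_mul]
    have h1 : |b j (x + t • h)| ≤ β j * (‖x‖ + ‖h‖) := (hb j _).trans
      (mul_le_mul_of_nonneg_left h0 (hβ0 j))
    have h2 : |b j h| ≤ β j * (‖x‖ + ‖h‖) := (hb j h).trans
      (mul_le_mul_of_nonneg_left (by linarith [norm_nonneg x]) (hβ0 j))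
    apply mul_le_mul (Real.sqrt_le_sqrt h1) h2 (abs_nonneg _) (Real.sqrt_nonneg _)

lemma tendsto_LL {x : H} (hx : x ≠ 0) (h : H) :
    Tendsto (fun t : ℝ => LL (x + t • h) h) (𝓝 0) (𝓝 (LL x h)) := by
  have : ContinuousAt (fun t : ℝ => LL (x + t • h) h) 0 := by
    unfold LL
    apply ContinuousAt.mul
    · apply ContinuousAt.inv₀
      · fun_prop
      · simp only [zero_smul, add_zero]
        exact (Real.sqrt_pos.2 (norm_pos_iff.2 hx)).ne'
    · fun_prop
  have h2 := this.tendsto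
  simpa using h2

/-- if `t = 0` minimises `FF (x + t h)` then the gradient in direction `h` vanishes. -/
lemma grad_eq_zero (hβ : Summable β) (hβ0 : ∀ j, 0 ≤ β j) (hβ1 : ∀ j, β j ≤ 1)
    (hb : ∀ j x, |b j x| ≤ β j * ‖x‖) {x : H} (hx : x ≠ 0) {h : H}
    (hmin : ∀ t : ℝ, FF b x ≤ FF b (x + t • h)) : LL x h + SS b x h = 0 := by
  have key : ∀ t : ℝ, 0 ≤ t * (LL (x + t • h) h + SS b (x + t • h) h) := by
    intro t
    have h1 := FF_grad hβ hβ0 hβ1 hb (x + t • h) x
    rw [show x - (x + t • h) = (-t) • h by rw [neg_smul]; abel, LL_smul, SS_smul] at h1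
    have h2 := hmin t
    nlinarith
  have hlim : Tendsto (fun t : ℝ => LL (x + t • h) h + SS b (x + t • h) h) (𝓝 0)
      (𝓝 (LL x h + SS b x h)) := (tendsto_LL hx h).add (tendsto_SS hβ hβ0 hβ1 hb x h)
  apply le_antisymm
  · apply le_of_tendsto (hlim.mono_left (nhdsWithin_le_nhds (s := Set.Iio 0)))
    filter_upwards [self_mem_nhdsWithin] with t ht
    have ht' : t < 0 := ht
    have := key t
    nlinarith
  · apply ge_of_tendsto (hlim.mono_left (nhdsWithin_le_nhds (s := Set.Ioi 0)))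
    filter_upwards [self_mem_nhdsWithin] with t ht
    have ht' : 0 < t := ht
    have := key t
    nlinarith

lemma differentiableAt_psi {a : ℝ} (ha : a ≠ 0) : DifferentiableAt ℝ psi a := by
  unfold psi
  rcases lt_or_gt_of_ne ha with h | h
  · have e : (fun s : ℝ => Real.sqrt s - Real.sqrt (-s)) =ᶠ[𝓝 a] fun s => - Real.sqrt (-s) := by
      filter_upwards [eventually_lt_nhds h] with s hs
      rw [Real.sqrt_eq_zero_of_nonpos hs.le]; ring
    apply DifferentiableAt.congr_of_eventuallyEq _ e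
    apply DifferentiableAt.neg
    apply DifferentiableAt.sqrt (differentiableAt_id.neg)
    simpa using h.ne
  · have e : (fun s : ℝ => Real.sqrt s - Real.sqrt (-s)) =ᶠ[𝓝 a] fun s => Real.sqrt s := by
      filter_upwards [eventually_gt_nhds h] with s hs
      rw [Real.sqrt_eq_zero_of_nonpos (by linarith : -s ≤ 0)]; ring
    apply DifferentiableAt.congr_of_eventuallyEq _ e
    exact DifferentiableAt.sqrt differentiableAt_id ha

lemma differentiableAt_LL {z : H} (hz : z ≠ 0) (y h : H) :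
    DifferentiableAt ℝ (fun s : ℝ => LL (z + s • y) h) 0 := by
  unfold LL
  have hne : z + (0 : ℝ) • y ≠ 0 := by simpa using hz
  apply DifferentiableAt.mul
  · apply DifferentiableAt.inv
    · apply DifferentiableAt.sqrt
      · exact DifferentiableAt.norm ℝ (f := fun s : ℝ => z + s • y) (x := (0 : ℝ))
          (by fun_prop) hne
      · exact norm_ne_zero_iff.2 hne
    · exact (Real.sqrt_pos.2 (norm_pos_iff.2 hne)).ne'
  · apply DifferentiableAt.inner ℝ
    · fun_prop
    · fun_prop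

/-- the cusp of the gradient at a point `z` detects `b j h`. -/
lemma cusp (hβ : Summable β) (hβ0 : ∀ j, 0 ≤ β j) (hβ1 : ∀ j, β j ≤ 1)
    (hb : ∀ j x, |b j x| ≤ β j * ‖x‖) {z y h : H} (hz : z ≠ 0) (j : ℕ)
    (hgrad : ∀ s : ℝ, 0 ≤ s → LL (z + s • y) h + SS b (z + s • y) h = 0)
    (hjz : b j z = 0) (hjy : b j y ≠ 0) (hother : ∀ i, i ≠ j → b i z = 0 → b i y = 0) :
    b j h = 0 := by
  -- limit of the difference quotient of the sum
  have hlim1 : Tendsto (fun s : ℝ => ∑' i, ((psi (b i (z + s • y)) - psi (b i z)) / Real.sqrt s)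
      * b i h) (𝓝[>] 0) (𝓝 (∑' i, if i = j then psi (b j y) * b j h else 0)) := by
    apply tendsto_tsum_of_dominated_convergence
      (summable_bound hβ hβ0 hβ1 (‖y‖ + ‖h‖) 2)
    · intro i
      by_cases hij : i = j
      · subst hij
        rw [if_pos rfl]
        apply Tendsto.congr' _ tendsto_const_nhds
        filter_upwards [self_mem_nhdsWithin] with s hs
        have hs' : (0 : ℝ) < s := hs
        have hpos : 0 < Real.sqrt s := Real.sqrt_pos.2 hs'
        rw [map_add, hjz, zero_add, map_smul, smul_eq_mul, psi_mul hs'.le, psi_zero]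
        field_simp
        ring
      · rw [if_neg hij]
        by_cases hiz : b i z = 0
        · have hiy := hother i hij hiz
          apply Tendsto.congr _ tendsto_const_nhds
          intro s
          rw [map_add, map_smul, hiz, hiy]
          simp
        · have hd : DifferentiableAt ℝ (fun s : ℝ => psi (b i (z + s • y))) 0 := by
            simp only [map_add, map_smul, smul_eq_mul]
            apply DifferentiableAt.comp (g := psi) (0 : ℝ)
            · apply differentiableAt_psi; simpa using hiz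
            · fun_prop
          have h1 := (tendsto_div_sqrt hd).mul_const (b i h)
          simpa using h1
    · filter_upwards [self_mem_nhdsWithin] with s hs i
      have hs' : (0 : ℝ) < s := hs
      have hpos : 0 < Real.sqrt s := Real.sqrt_pos.2 hs'
      rw [Real.norm_eq_abs, abs_mul, abs_div, abs_of_pos hpos]
      have h1 := psi_holder (b i (z + s • y)) (b i z)
      rw [map_add, add_sub_cancel_left, map_smul, smul_eq_mul, abs_mul, abs_of_pos hs',
        Real.sqrt_mul hs'.le] at h1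
      rw [map_add, map_smul, smul_eq_mul]
      have h2 : |psi (b i z + s * b i y) - psi (b i z)| / Real.sqrt s
          ≤ 2 * Real.sqrt |b i y| := by
        rw [div_le_iff₀ hpos]
        calc _ ≤ 2 * (Real.sqrt s * Real.sqrt |b i y|) := h1
          _ = _ := by ring
      have h3 : Real.sqrt |b i y| ≤ Real.sqrt (β i * (‖y‖ + ‖h‖)) :=
        Real.sqrt_le_sqrt ((hb i y).trans
          (mul_le_mul_of_nonneg_left (by linarith [norm_nonneg h]) (hβ0 i)))
      have h4 : |b i h| ≤ β i * (‖y‖ + ‖h‖) := (hb i h).trans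
        (mul_le_mul_of_nonneg_left (by linarith [norm_nonneg y]) (hβ0 i))
      calc _ ≤ (2 * Real.sqrt (β i * (‖y‖ + ‖h‖))) * (β i * (‖y‖ + ‖h‖)) := by
            apply mul_le_mul (h2.trans (by linarith)) h4 (abs_nonneg _) (by positivity)
        _ = _ := by ring
  rw [tsum_ite_eq] at hlim1
  -- the same quotient through the smooth part
  have hlim2 := (tendsto_div_sqrt (differentiableAt_LL hz y h)).neg
  rw [neg_zero] at hlim2
  have heq : (fun s : ℝ => ∑' i, ((psi (b i (z + s • y)) - psi (b i z)) / Real.sqrt s) * b i h)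
      =ᶠ[𝓝[>] 0] (fun s : ℝ => -((LL (z + s • y) h - LL (z + (0:ℝ) • y) h) / Real.sqrt s)) := by
    filter_upwards [self_mem_nhdsWithin] with s hs
    have hs' : (0 : ℝ) < s := hs
    have g0 := hgrad 0 le_rfl
    have gs := hgrad s hs'.le
    have e1 : ∑' i, ((psi (b i (z + s • y)) - psi (b i z)) / Real.sqrt s) * b i h
        = (SS b (z + s • y) h - SS b z h) / Real.sqrt s := by
      unfold SS
      rw [← Summable.tsum_sub (summable_SS hβ hβ0 hβ1 hb _ _) (summable_SS hβ hβ0 hβ1 hb _ _),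
        ← tsum_div_const]
      congr 1; ext i; ring
    rw [e1]
    rw [zero_smul, add_zero] at g0 ⊢
    rw [← neg_div]
    congr 1
    linarith
  have hlim3 := hlim2.congr' heq.symm
  have := tendsto_nhds_unique hlim1 hlim3
  rcases mul_eq_zero.1 this with h0 | h0
  · exact absurd (psi_eq_zero_iff.1 h0) hjy
  · exact h0

end main

end Pool.Agent.Helper568.Cusp
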