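import Mathlib

set_option autoImplicit false

open Filter Set Topology

namespace Pool.Agent.Helper568.Dent

/-- a finitely additive probability content -/
structure Content (Ω : Type*) where
  d : Set Ω → ℝ
  nonneg : ∀ A, 0 ≤ d A
  empty : d ∅ = 0
  le_one : ∀ A, d A ≤ 1
  mono : ∀ A B, A ⊆ B → d A ≤ d B
  union_inter : ∀ A B, d (A ∪ B) + d (A ∩ B) = d A + d B

theorem Content.ad {Ω : Type*} (μ : Content Ω) (U : Ultrafilter ℕ) (A : ℕ → Set Ω) (c : ℝ)
    (hc : 0 < c) (h : ∀ᶠ l in (U : Filter ℕ), c ≤ μ.d (A l)) :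
    ∀ᶠ l in (U : Filter ℕ), ∃ δ > 0, ∀ᶠ l' in (U : Filter ℕ), δ ≤ μ.d (A l ∩ A l') := by
  by_contra hcon
  rw [← Ultrafilter.eventually_not] at hcon
  have hcon' : ∀ᶠ l in (U : Filter ℕ), ∀ δ > 0, ∀ᶠ l' in (U : Filter ℕ), μ.d (A l ∩ A l') < δ := by
    filter_upwards [hcon] with l hl δ hδ
    push Not at hl
    exact hl δ hδ
  have key : ∀ r : ℕ, ∃ B : Set Ω, r * (c / 2) ≤ μ.d B ∧
      ∀ δ > 0, ∀ᶠ l' in (U : Filter ℕ), μ.d (A l' ∩ B) < δ := by
    intro r
    induction r with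
    | zero =>
      refine ⟨∅, by simp [μ.empty], fun δ hδ => Eventually.of_forall fun l' => ?_⟩
      rw [inter_empty, μ.empty]
      exact hδ
    | succ r ih =>
      obtain ⟨B, hB1, hB2⟩ := ih
      obtain ⟨l, hl1, hl2, hl3⟩ := (h.and ((hB2 (c / 2) (by positivity)).and hcon')).exists
      refine ⟨B ∪ A l, ?_, fun δ hδ => ?_⟩
      · have h1 := μ.union_inter B (A l)
        rw [inter_comm] at h1
        push_cast
        linarith
      · filter_upwards [hB2 (δ / 2) (by positivity), hl3 (δ / 2) (by positivity)] with l' h1 h2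
        have h3 := μ.union_inter (A l' ∩ B) (A l' ∩ A l)
        have h4 := μ.nonneg ((A l' ∩ B) ∩ (A l' ∩ A l))
        rw [inter_union_distrib_left]
        rw [inter_comm (A l) (A l')] at h2
        linarith
  obtain ⟨r, hr⟩ := exists_nat_gt (1 / (c / 2))
  obtain ⟨B, hB, -⟩ := key r
  have h1 := μ.le_one B
  rw [div_lt_iff₀ (by positivity)] at hr
  linarith

/-- independence lemma -/
theorem Content.indep {Ω : Type*} (μ : Content Ω) (U : Ultrafilter ℕ)
    (hU : (U : Filter ℕ) ≤ atTop) (E : ℕ → Set Ω) (A : Bool → ℕ → Set Ω)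
    (hAE : ∀ b l, A b l ⊆ E l) (c : ℝ) (hc : 0 < c)
    (hE : ∀ᶠ l in (U : Filter ℕ), c ≤ μ.d (E l)) (L : Set ℕ) (hL : L ∈ (U : Filter ℕ))
    (𝒜 : Set Ω → Prop) (huniv : 𝒜 univ) (hint : ∀ B, 𝒜 B → ∀ b l, 𝒜 (B ∩ A b l))
    (hhalf : ∀ B, 𝒜 B → ∀ᶠ l in (U : Filter ℕ), ∀ b, μ.d (B ∩ E l) / 2 ≤ μ.d (B ∩ A b l)) :
    ∃ φ : ℕ → ℕ, StrictMono φ ∧ (∀ i, φ i ∈ L) ∧
      ∀ (k : ℕ) (e : ℕ → Bool), ∃ x : Ω, ∀ i < k, x ∈ A (e i) (φ i) := by
  classical
  let good : Set Ω → Prop := fun B => 𝒜 B ∧ ∃ δ > 0, ∀ᶠ l in (U : Filter ℕ), δ ≤ μ.d (B ∩ E l)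
  have hstep : ∀ B, good B → ∀ᶠ l in (U : Filter ℕ), ∀ b, good (B ∩ A b l) := by
    rintro B ⟨hB, δ, hδ, hBδ⟩
    have h1 : ∀ b, ∀ᶠ l in (U : Filter ℕ), δ / 2 ≤ μ.d (B ∩ A b l) := by
      intro b
      filter_upwards [hBδ, hhalf B hB] with l hl1 hl2
      linarith [hl2 b]
    have h2 : ∀ b, ∀ᶠ l in (U : Filter ℕ), good (B ∩ A b l) := by
      intro b
      filter_upwards [μ.ad U (fun l => B ∩ A b l) (δ / 2) (by positivity) (h1 b)] with l hl
      obtain ⟨δ', hδ', h3⟩ := hl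
      refine ⟨hint B hB b l, δ', hδ', ?_⟩
      filter_upwards [h3] with l' hl'
      refine hl'.trans (μ.mono _ _ ?_)
      exact inter_subset_inter_right _ (inter_subset_right.trans (hAE b l'))
    filter_upwards [h2 true, h2 false] with l h3 h4 b
    cases b
    · exact h4
    · exact h3
  -- states: (last index, finite family)
  let St := ℕ × Set (Set Ω)
  let P : St → Prop := fun s => s.2.Finite ∧ ∀ B ∈ s.2, good B
  have hnext : ∀ s : {s : St // P s}, ∃ s' : {s : St // P s}, s.1.1 < s'.1.1 ∧ s'.1.1 ∈ L ∧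
      s'.1.2 = ⋃ b : Bool, (fun B => B ∩ A b s'.1.1) '' s.1.2 := by
    rintro ⟨⟨m, F⟩, hF1, hF2⟩
    have h1 : ∀ᶠ l in (U : Filter ℕ), ∀ B ∈ F, ∀ b, good (B ∩ A b l) :=
      (hF1.eventually_all).2 fun B hB => hstep B (hF2 B hB)
    have h2 : ∀ᶠ l in (U : Filter ℕ), m < l := hU (eventually_gt_atTop m)
    obtain ⟨l, hl1, hl2, hl3⟩ := (h1.and (h2.and hL)).exists
    refine ⟨⟨(l, ⋃ b : Bool, (fun B => B ∩ A b l) '' F), ?_, ?_⟩, hl2, hl3, rfl⟩
    · exact finite_iUnion fun b => hF1.image _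
    · intro B hB
      obtain ⟨b, B', hB', rfl⟩ := mem_iUnion.1 hB
      exact hl1 B' hB' b
  choose nxt hnxt1 hnxt2 hnxt3 using hnext
  have hP0 : P (0, {univ}) := by
    refine ⟨finite_singleton _, fun B hB => ?_⟩
    rw [mem_singleton_iff] at hB
    subst hB
    refine ⟨huniv, c, hc, ?_⟩
    simpa using hE
  let st : ℕ → {s : St // P s} := fun n => Nat.rec ⟨(0, {univ}), hP0⟩ (fun _ s => nxt s) n
  have hst : ∀ n, st (n + 1) = nxt (st n) := fun n => rfl
  refine ⟨fun i => (st (i + 1)).1.1, ?_, ?_, ?_⟩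
  · refine strictMono_nat_of_lt_succ fun n => ?_
    change (st (n + 1)).1.1 < (st (n + 1 + 1)).1.1
    rw [hst (n + 1)]
    exact hnxt1 _
  · intro i
    change (st (i + 1)).1.1 ∈ L
    rw [hst]
    exact hnxt2 _
  · intro k e
    have h1 : ∃ B ∈ (st k).1.2, ∀ x ∈ B, ∀ i < k, x ∈ A (e i) ((st (i + 1)).1.1) := by
      induction k with
      | zero => exact ⟨univ, rfl, fun x _ i hi => absurd hi (Nat.not_lt_zero i)⟩
      | succ k ih =>
        obtain ⟨B, hB, hB2⟩ := ih
        refine ⟨B ∩ A (e k) ((st (k + 1)).1.1), ?_, ?_⟩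
        · have h3 : (st (k + 1)).1.2 = ⋃ b : Bool, (fun B => B ∩ A b (st (k + 1)).1.1) '' (st k).1.2 := by
            rw [hst]
            exact hnxt3 _
          rw [h3]
          exact mem_iUnion.2 ⟨e k, B, hB, rfl⟩
        · intro x hx i hi
          rcases Nat.lt_succ_iff_lt_or_eq.1 hi with h | rfl
          · exact hB2 x hx.1 i h
          · exact hx.2
    obtain ⟨B, hB, hB2⟩ := h1
    obtain ⟨-, δ, hδ, h4⟩ := (st k).2.2 B hB
    obtain ⟨l, hl⟩ := h4.exists
    have : (B ∩ E l).Nonempty := by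
      rw [nonempty_iff_ne_empty]
      intro h5
      rw [h5, μ.empty] at hl
      linarith
    obtain ⟨x, hx⟩ := this
    exact ⟨x, hB2 x hx.1⟩

theorem sum_range_mul_mod_div {M' : Type*} [AddCommMonoid M'] (n M : ℕ) (hn : 0 < n)
    (f : ℕ → ℕ → M') :
    ∑ j ∈ Finset.range (n * M), f (j % n) (j / n)
      = ∑ k ∈ Finset.range M, ∑ i ∈ Finset.range n, f i k := by
  induction M with
  | zero => simp
  | succ M ih =>
    rw [Nat.mul_succ, Finset.sum_range_add, ih, Finset.sum_range_succ]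
    congr 1
    refine Finset.sum_congr rfl fun i hi => ?_
    rw [Finset.mem_range] at hi
    rw [Nat.mul_add_mod, Nat.mod_eq_of_lt hi, Nat.mul_add_div hn, Nat.div_eq_of_lt hi, add_zero]

/-- natural density content along a divisibility chain -/
theorem exists_content (N : ℕ → ℕ) (hN : ∀ l, 0 < N l) (hd : ∀ l, N l ∣ N (l + 1)) :
    ∃ μ : Content ℕ, ∀ (l : ℕ) (A : Set ℕ), (∀ j, j ∈ A ↔ j % N l ∈ A) →
      μ.d A = (∑ j ∈ Finset.range (N l), A.indicator (fun _ => (1 : ℝ)) j) / N l := by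
  let a : Set ℕ → ℕ → ℝ := fun A l => (∑ j ∈ Finset.range (N l), A.indicator (fun _ => (1 : ℝ)) j) / N l
  have hNr : ∀ l, (0 : ℝ) < N l := fun l => Nat.cast_pos.2 (hN l)
  have hi0 : ∀ (A : Set ℕ) j, 0 ≤ A.indicator (fun _ => (1 : ℝ)) j := fun A j =>
    indicator_nonneg (fun _ _ => zero_le_one) j
  have hi1 : ∀ (A : Set ℕ) j, A.indicator (fun _ => (1 : ℝ)) j ≤ 1 := fun A j =>
    indicator_apply_le' (fun _ => le_rfl) (fun _ => zero_le_one)
  have ha0 : ∀ A l, 0 ≤ a A l := fun A l =>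
    div_nonneg (Finset.sum_nonneg fun j _ => hi0 A j) (hNr l).le
  have ha1 : ∀ A l, a A l ≤ 1 := by
    intro A l
    refine (div_le_one (hNr l)).2 ?_
    refine (Finset.sum_le_sum fun j _ => hi1 A j).trans ?_
    simp
  let V : Ultrafilter ℕ := hyperfilter ℕ
  have hVat : (V : Filter ℕ) ≤ atTop := Nat.hyperfilter_le_atTop
  have hlim : ∀ A, ∃ x : ℝ, Tendsto (a A) V (𝓝 x) := by
    intro A
    have h1 : ((V.map (a A) : Ultrafilter ℝ) : Filter ℝ) ≤ 𝓟 (Icc (0 : ℝ) 1) := by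
      rw [Ultrafilter.coe_map, le_principal_iff, mem_map]
      exact univ_mem' fun l => ⟨ha0 A l, ha1 A l⟩
    obtain ⟨x, -, hx⟩ := isCompact_Icc.ultrafilter_le_nhds _ h1
    exact ⟨x, hx⟩
  choose d hd' using hlim
  refine ⟨⟨d, ?_, ?_, ?_, ?_, ?_⟩, ?_⟩
  · exact fun A => ge_of_tendsto' (hd' A) (ha0 A)
  · have : a ∅ = fun _ => 0 := by
      funext l
      simp [a]
    have h2 := hd' ∅
    rw [this] at h2
    exact tendsto_nhds_unique h2 tendsto_const_nhds
  · exact fun A => le_of_tendsto' (hd' A) (ha1 A)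
  · intro A B hAB
    refine le_of_tendsto_of_tendsto' (hd' A) (hd' B) fun l => ?_
    refine div_le_div_of_nonneg_right (Finset.sum_le_sum fun j _ => ?_) (hNr l).le
    exact indicator_le_indicator_of_subset hAB (fun _ => zero_le_one) j
  · intro A B
    have h1 := (hd' (A ∪ B)).add (hd' (A ∩ B))
    have h2 := (hd' A).add (hd' B)
    refine tendsto_nhds_unique h1 (h2.congr fun l => ?_)
    change _ / _ + _ / _ = _ / _ + _ / _
    rw [← add_div, ← add_div, ← Finset.sum_add_distrib, ← Finset.sum_add_distrib]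
    congr 1
    refine Finset.sum_congr rfl fun j _ => ?_
    exact (congrFun (indicator_union_add_inter (fun _ => (1 : ℝ)) A B) j).symm
  · intro l A hA
    change d A = a A l
    have hdiv : ∀ l', l ≤ l' → N l ∣ N l' := by
      intro l' h
      induction l', h using Nat.le_induction with
      | base => exact dvd_rfl
      | succ m _ ih => exact ih.trans (hd m)
    have h1 : ∀ l', l ≤ l' → a A l' = a A l := by
      intro l' h
      obtain ⟨M, hM⟩ := hdiv l' h
      have hMpos : 0 < M := by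
        rcases Nat.eq_zero_or_pos M with h0 | h0
        · have := hN l'
          rw [hM, h0, mul_zero] at this
          exact absurd this (lt_irrefl _)
        · exact h0
      have h2 : (∑ j ∈ Finset.range (N l'), A.indicator (fun _ => (1 : ℝ)) j)
          = M * ∑ j ∈ Finset.range (N l), A.indicator (fun _ => (1 : ℝ)) j := by
        rw [hM]
        have h3 : ∀ j ∈ Finset.range (N l * M), A.indicator (fun _ => (1 : ℝ)) j
            = (fun i _ => A.indicator (fun _ => (1 : ℝ)) i : ℕ → ℕ → ℝ) (j % N l) (j / N l) := by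
          intro j _
          change A.indicator (fun _ => (1 : ℝ)) j = A.indicator (fun _ => (1 : ℝ)) (j % N l)
          by_cases hj : j ∈ A
          · rw [indicator_of_mem hj, indicator_of_mem ((hA j).1 hj)]
          · rw [indicator_of_notMem hj, indicator_of_notMem fun h => hj ((hA j).2 h)]
        rw [Finset.sum_congr rfl h3,
          sum_range_mul_mod_div _ _ (hN l) (fun i _ => A.indicator (fun _ => (1 : ℝ)) i)]
        simp
      change _ / _ = _ / _
      rw [h2, hM]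
      push_cast
      have := (hNr l).ne'
      have hM' : (M : ℝ) ≠ 0 := Nat.cast_ne_zero.2 hMpos.ne'
      field_simp
    have h2 : Tendsto (a A) V (𝓝 (a A l)) := by
      refine tendsto_const_nhds.congr' ?_
      filter_upwards [hVat (eventually_ge_atTop l)] with l' hl'
      exact (h1 l' hl').symm
    exact tendsto_nhds_unique (hd' A) h2

end Pool.Agent.Helper568.Dent
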