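import Pool.Agent.Helper568.Dent9

set_option autoImplicit false

open Filter Set Topology

namespace Pool.Agent.Helper568.Dent

/-- parameters: number of points, test coordinates, approximate values, tolerance, radius -/
abbrev Par := ℕ × Finset ℕ × ((ℕ × ℕ) →₀ ℚ) × ℚ × ℚ

/-- the basic convex compact sets -/
def AA (w : ℕ → ℝ) (Q : Set (ℕ → ℝ)) (p : Par) : Set (ℕ → ℝ) :=
  {t : ℕ → ℝ | t ∈ Q ∧ ∃ v : ℕ → ℕ → ℝ, (∀ j, v j ∈ Q) ∧
      (∀ j < p.1, ∀ i ∈ p.2.1, |v j i - (fun j i => ((p.2.2.1 (j, i) : ℚ) : ℝ)) j i| ≤ (p.2.2.2.1 : ℝ)) ∧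
        t - vav p.1 v ∈ NB w (p.2.2.2.2 : ℝ)}

theorem AA_compact (w : ℕ → ℝ) (Q : Set (ℕ → ℝ)) (hQ : IsCompact Q) (p : Par) :
    IsCompact (AA w Q p) := isCompact_proj Q hQ w _ p.1 p.2.1 _ _

theorem AA_convex (w : ℕ → ℝ) (Q : Set (ℕ → ℝ)) (hQ : Convex ℝ Q) (p : Par) :
    Convex ℝ (AA w Q p) := by
  rintro t ⟨ht, v, hv, hv1, hv2⟩ t' ⟨ht', v', hv', hv1', hv2'⟩ a b ha hb hab
  refine ⟨hQ ht ht' ha hb hab, fun j => a • v j + b • v' j, fun j => hQ (hv j) (hv' j) ha hb hab,
    fun j hj i hi => ?_, fun k => ?_⟩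
  · have h1 := hv1 j hj i hi
    have h2 := hv1' j hj i hi
    simp only [Pi.add_apply, Pi.smul_apply, smul_eq_mul] at h1 h2 ⊢
    set c : ℝ := ((p.2.2.1 (j, i) : ℚ) : ℝ)
    have e : a * v j i + b * v' j i - c = a * (v j i - c) + b * (v' j i - c) := by
      linear_combination c * hab
    rw [e]
    refine (abs_add_le _ _).trans ?_
    rw [abs_mul, abs_mul, abs_of_nonneg ha, abs_of_nonneg hb]
    have h3 := mul_le_mul_of_nonneg_left h1 ha
    have h4 := mul_le_mul_of_nonneg_left h2 hb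
    have h5 : a * (p.2.2.2.1 : ℝ) + b * p.2.2.2.1 = p.2.2.2.1 := by rw [← add_mul, hab, one_mul]
    linarith
  · have h1 := hv2 k
    have h2 := hv2' k
    have e : (a • t + b • t' - vav p.1 (fun j => a • v j + b • v' j)) k
        = a * (t - vav p.1 v) k + b * (t' - vav p.1 v') k := by
      simp only [Pi.sub_apply, Pi.add_apply, Pi.smul_apply, smul_eq_mul, vav_apply]
      rw [Finset.sum_add_distrib, ← Finset.mul_sum, ← Finset.mul_sum]
      ring
    rw [e]
    refine (abs_add_le _ _).trans ?_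
    rw [abs_mul, abs_mul, abs_of_nonneg ha, abs_of_nonneg hb]
    have h3 := mul_le_mul_of_nonneg_left h1 ha
    have h4 := mul_le_mul_of_nonneg_left h2 hb
    have h5 : a * ((p.2.2.2.2 : ℝ) * w k) + b * (p.2.2.2.2 * w k) = p.2.2.2.2 * w k := by
      rw [← add_mul, hab, one_mul]
    linarith

/-- The countable family of weak-star compact convex sets -/
def VV {X : Type*} [NormedAddCommGroup X] [NormedSpace ℝ X] (x : ℕ → X) (s : Finset Par) :
    Set (X →L[ℝ] ℝ) :=
  {f | ‖f‖ ≤ 1 ∧ ∀ p ∈ s, Phi x f ∈ AA (fun i => ‖x i‖) (Phi x '' Metric.closedBall 0 1) p}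

section

variable {X : Type*} [NormedAddCommGroup X] [NormedSpace ℝ X]

theorem Phi_ball_convex (x : ℕ → X) (R : ℝ) : Convex ℝ (Phi x '' Metric.closedBall 0 R) := by
  rintro _ ⟨f, hf, rfl⟩ _ ⟨g, hg, rfl⟩ a b ha hb hab
  refine ⟨a • f + b • g, (convex_closedBall (0 : X →L[ℝ] ℝ) R) hf hg ha hb hab, ?_⟩
  funext i
  simp [Phi]

theorem Phi_ball_compact (x : ℕ → X) (R : ℝ) : IsCompact (Phi x '' Metric.closedBall 0 R) := by
  have h1 := WeakDual.isCompact_closedBall (𝕜 := ℝ) (E := X) 0 R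
  have h2 : Continuous (fun f : WeakDual ℝ X => Phi x (WeakDual.toStrongDual f)) :=
    continuous_pi fun i => WeakDual.eval_continuous (x i)
  have h3 := h1.image h2
  convert h3 using 1
  ext y
  constructor
  · rintro ⟨f, hf, rfl⟩
    exact ⟨StrongDual.toWeakDual f, hf, rfl⟩
  · rintro ⟨f, hf, rfl⟩
    exact ⟨WeakDual.toStrongDual f, hf, rfl⟩

theorem VV_convex (x : ℕ → X) (s : Finset Par) : Convex ℝ (VV x s) := by
  intro f hf g hg a b ha hb hab
  refine ⟨?_, fun p hp => ?_⟩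
  · have h1 := (convex_closedBall (0 : X →L[ℝ] ℝ) 1) (mem_closedBall_zero_iff.2 hf.1)
      (mem_closedBall_zero_iff.2 hg.1) ha hb hab
    exact mem_closedBall_zero_iff.1 h1
  · have h1 : Phi x (a • f + b • g) = a • Phi x f + b • Phi x g := by
      funext i; simp [Phi]
    rw [h1]
    exact AA_convex _ _ (Phi_ball_convex x 1) p (hf.2 p hp) (hg.2 p hp) ha hb hab

theorem VV_compact (x : ℕ → X) (s : Finset Par) :
    IsCompact (WeakDual.toStrongDual ⁻¹' (VV x s) : Set (WeakDual ℝ X)) := by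
  have h1 := WeakDual.isCompact_closedBall (𝕜 := ℝ) (E := X) 0 1
  have h2 : Continuous (fun f : WeakDual ℝ X => Phi x (WeakDual.toStrongDual f)) :=
    continuous_pi fun i => WeakDual.eval_continuous (x i)
  have h3 : IsClosed {f : WeakDual ℝ X | ∀ p ∈ s, Phi x (WeakDual.toStrongDual f) ∈
      AA (fun i => ‖x i‖) (Phi x '' Metric.closedBall 0 1) p} := by
    have : {f : WeakDual ℝ X | ∀ p ∈ s, Phi x (WeakDual.toStrongDual f) ∈
      AA (fun i => ‖x i‖) (Phi x '' Metric.closedBall 0 1) p} = ⋂ p, ⋂ (_ : p ∈ s),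
        {f : WeakDual ℝ X | Phi x (WeakDual.toStrongDual f) ∈
      AA (fun i => ‖x i‖) (Phi x '' Metric.closedBall 0 1) p} := by
      ext f; simp
    rw [this]
    exact isClosed_iInter fun p => isClosed_iInter fun _ =>
      (AA_compact _ _ (Phi_ball_compact x 1) p).isClosed.preimage h2
  convert h1.inter_right h3 using 1
  ext f
  simp only [VV, mem_preimage, mem_inter_iff, mem_closedBall_zero_iff, mem_ofPred_eq]

/-- Every point of the dual ball is dented by a member of the countable family. -/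
theorem dented [CompleteSpace X] (x : ℕ → X) (hx : DenseRange x)
    (hX : ¬ ∃ (T : lp (fun _ : ℕ => ℝ) 1 →L[ℝ] X) (c : ℝ),
          0 < c ∧ ∀ v : lp (fun _ : ℕ => ℝ) 1, c * ‖v‖ ≤ ‖T v‖)
    (t : X →L[ℝ] ℝ) (ht : ‖t‖ ≤ 1) (ε : ℝ) (hε : 0 < ε) :
    ∃ s : Finset Par, t ∈ VV x s ∧ t ∉ closure (convexHull ℝ (VV x s \ Metric.ball t ε)) := by
  classical
  obtain ⟨ε', hε'0, hε'ε⟩ := exists_rat_btwn hε
  by_contra hcon
  push Not at hcon
  apply hX
  set Q : Set (ℕ → ℝ) := Phi x '' Metric.closedBall 0 1 with hQdef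
  refine l1_of_loc (Metric.closedBall 0 1) t (by simpa using ht) 1 ((ε' : ℝ) / 2) one_pos
    (fun f hf => by simpa using hf) (by positivity) ?_
  have hθ0 : ∀ l : ℕ, 0 ≤ (ε' : ℝ) / 2 / 8 * (1 - (1 / 2 : ℝ) ^ l) := by
    intro l
    have : ((1 : ℝ) / 2) ^ l ≤ 1 := pow_le_one₀ (by norm_num) (by norm_num)
    have h2 : 0 ≤ 1 - (1 / 2 : ℝ) ^ l := by linarith
    positivity
  intro l n S v G δ η hn hδ hη hv hvt
  set θ : ℚ := ε' / 2 / 8 * (1 - (1 / 2) ^ l) with hθdef
  have hθ : (θ : ℝ) = (ε' : ℝ) / 2 / 8 * (1 - (1 / 2 : ℝ) ^ l) := by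
    rw [hθdef]; push_cast; ring
  -- approximate G by the dense sequence
  have hG : ∀ g : X, ∃ i, ‖g - x i‖ ≤ δ / 4 := by
    intro g
    have h1 : ∃ y ∈ range x, dist g y < δ / 4 :=
      Metric.mem_closure_iff.1 (hx g) _ (by positivity)
    obtain ⟨_, ⟨i, rfl⟩, hi⟩ := h1
    exact ⟨i, by rw [← dist_eq_norm]; exact hi.le⟩
  choose idx hidx using hG
  -- rational approximations
  obtain ⟨q, hq0, hq1⟩ := exists_rat_btwn (show (0 : ℝ) < δ / 4 by positivity)
  have hr : ∀ s j i, ∃ r : ℚ, |v s j (x i) - r| ≤ q := by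
    intro s j i
    obtain ⟨r, hr1, hr2⟩ := exists_rat_btwn (show v s j (x i) - q < v s j (x i) by linarith)
    exact ⟨r, abs_le.2 ⟨by linarith, by linarith⟩⟩
  choose r hr using hr
  let F : Finset ℕ := G.image idx
  let c : ℕ → (ℕ × ℕ) →₀ ℚ := fun s => Finsupp.onFinset (Finset.range n ×ˢ F)
    (fun p => if p ∈ Finset.range n ×ˢ F then r s p.1 p.2 else 0)
    (fun p hp => by
      by_contra h
      exact hp (if_neg h))
  have hc : ∀ s, ∀ j < n, ∀ i ∈ F, c s (j, i) = r s j i := by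
    intro s j hj i hi
    change (if (j, i) ∈ Finset.range n ×ˢ F then r s j i else 0) = r s j i
    rw [if_pos]
    exact Finset.mem_product.2 ⟨Finset.mem_range.2 hj, hi⟩
  let par : ℕ → Par := fun s => (n, F, c s, q, θ)
  let sF : Finset Par := (Finset.range S).image par
  have htV : t ∈ VV x sF := by
    refine ⟨ht, fun p hp => ?_⟩
    obtain ⟨s, hs, rfl⟩ := Finset.mem_image.1 hp
    rw [Finset.mem_range] at hs
    refine ⟨⟨t, by simpa using ht, rfl⟩, fun j => Phi x (v s j), fun j => ⟨v s j, hv s j, rfl⟩,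
      fun j hj i hi => ?_, ?_⟩
    · simp only [par] at hj hi ⊢
      rw [hc s j hj i hi]
      exact hr s j i
    · simp only [par]
      rw [← Phi_av, ← Phi_sub, hθ]
      exact Phi_mem_NB x _ _ (hvt s hs)
  have htc : t ∈ closure (convexHull ℝ (VV x sF \ Metric.ball t ε')) := by
    refine closure_mono (convexHull_mono (sdiff_subset_sdiff_right ?_)) (hcon sF htV)
    exact Metric.ball_subset_ball hε'ε.le
  -- uniform approximation
  obtain ⟨y, hyc, hy⟩ := Metric.mem_closure_iff.1 htc (η / 2) (by positivity)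
  obtain ⟨M, u, hM, hu, hyu⟩ := unif_approx _ y hyc (η / 2) (by positivity)
  have htu : ‖t - av M u‖ ≤ η := by
    rw [dist_eq_norm] at hy
    have h1 : t - av M u = (t - y) + (y - av M u) := by abel
    rw [h1]
    have h2 : ‖y - av M u‖ ≤ η / 2 := hyu
    exact (norm_add_le _ _).trans (by linarith)
  -- functionals
  have hg : ∀ k, ∃ g : X, ‖g‖ ≤ 1 ∧ (ε' : ℝ) / 2 ≤ (t - u k) g := by
    intro k
    have h1 : (ε' : ℝ) ≤ ‖t - u k‖ := by
      have := (hu k).2
      rw [Metric.mem_ball, dist_comm, dist_eq_norm, not_lt] at this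
      exact this
    obtain ⟨g, hg1, hg2⟩ := (t - u k).exists_lt_apply_of_lt_opNorm (r := (ε' : ℝ) / 2) (by linarith)
    rcases le_abs.1 (show (ε' : ℝ) / 2 ≤ |(t - u k) g| from hg2.le) with h | h
    · exact ⟨g, hg1.le, h⟩
    · exact ⟨-g, by rw [norm_neg]; exact hg1.le, by rw [map_neg]; exact h⟩
  choose g hg using hg
  -- lifted tuples
  have hlift : ∀ k s, ∃ v' : ℕ → X →L[ℝ] ℝ, (∀ j, v' j ∈ Metric.closedBall (0 : X →L[ℝ] ℝ) 1 ∧
      ∀ y ∈ G, |v' j y - v s j y| ≤ δ) ∧
      (s < S → ‖u k - av n v'‖ ≤ (ε' : ℝ) / 2 / 8 * (1 - (1 / 2) ^ l)) := by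
    intro k s
    by_cases hs : s < S
    · obtain ⟨-, v', hv'Q, hv'c, hv'n⟩ := (hu k).1.2 (par s)
        (Finset.mem_image_of_mem _ (Finset.mem_range.2 hs))
      choose f hfR hfv using hv'Q
      simp only [par] at hv'c hv'n
      rw [hθ] at hv'n
      refine ⟨fun j => if j < n then f j else v s j, fun j => ?_, fun _ => ?_⟩
      · by_cases hj : j < n
        · simp only [hj, if_true]
          refine ⟨hfR j, fun y hy => ?_⟩
          have h2 := hv'c j hj (idx y) (Finset.mem_image_of_mem _ hy)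
          rw [hc s j hj _ (Finset.mem_image_of_mem _ hy), ← hfv j] at h2
          have h2' : |f j (x (idx y)) - r s j (idx y)| ≤ q := h2
          have h3' := hr s j (idx y)
          have h3 : |(f j - v s j) (x (idx y))| ≤ δ / 2 := by
            have e : (f j - v s j) (x (idx y)) = (f j (x (idx y)) - r s j (idx y))
              - (v s j (x (idx y)) - r s j (idx y)) := by
              rw [_root_.sub_apply]; ring
            rw [e]
            refine (abs_sub _ _).trans ?_
            linarith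
          have h4 : |(f j - v s j) (y - x (idx y))| ≤ δ / 2 := by
            refine ((f j - v s j).le_opNorm _).trans ?_
            have h5 : ‖f j - v s j‖ ≤ 2 := by
              have e1 : ‖f j‖ ≤ 1 := by simpa using hfR j
              have e2 : ‖v s j‖ ≤ 1 := by simpa using hv s j
              exact (norm_sub_le _ _).trans (by linarith)
            calc ‖f j - v s j‖ * ‖y - x (idx y)‖ ≤ 2 * (δ / 4) :=
                  mul_le_mul h5 (hidx y) (norm_nonneg _) (by positivity)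
              _ = δ / 2 := by ring
          have h6 : f j y - v s j y = (f j - v s j) (y - x (idx y)) + (f j - v s j) (x (idx y)) := by
            rw [map_sub, sub_add_cancel]; rfl
          rw [h6]
          exact (abs_add_le _ _).trans (by linarith)
        · simp only [hj, if_false]
          exact ⟨hv s j, fun y _ => by rw [sub_self, abs_zero]; exact hδ.le⟩
      · refine norm_le_of_Phi x hx _ _ (hθ0 l) ?_
        rw [Phi_sub, Phi_av]
        have h2 : vav n (fun j => Phi x (if j < n then f j else v s j)) = vav n v' :=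
          vav_congr n fun j hj => by simp only [hj, if_true]; exact hfv j
        rw [h2]
        exact hv'n
    · exact ⟨v s, fun j => ⟨hv s j, fun y _ => by rw [sub_self, abs_zero]; exact hδ.le⟩,
        fun h => absurd h hs⟩
  choose v' hv'1 hv'2 using hlift
  exact ⟨M, u, g, v', hM, hg, htu, hv'1, fun k s hs => hv'2 k s hs⟩

end

end Pool.Agent.Helper568.Dent
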