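import Mathlib

set_option autoImplicit false
set_option linter.unusedSectionVars false

open Filter Set Topology

namespace Pool.Agent.Helper568.Dent

variable {E : Type*} [NormedAddCommGroup E] [NormedSpace ℝ E]

theorem convexOn_infDist (V : Set E) (hV : Convex ℝ V) :
    ConvexOn ℝ univ (fun f => Metric.infDist f V) := by
  rcases V.eq_empty_or_nonempty with rfl | hne
  · simp only [Metric.infDist_empty]
    exact convexOn_const 0 convex_univ
  refine ⟨convex_univ, fun f _ g _ a b ha hb hab => ?_⟩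
  refine le_of_forall_pos_le_add fun ε hε => ?_
  obtain ⟨u, hu, hfu⟩ := (Metric.infDist_lt_iff hne).1 (show Metric.infDist f V < Metric.infDist f V + ε by linarith)
  obtain ⟨v, hv, hgv⟩ := (Metric.infDist_lt_iff hne).1 (show Metric.infDist g V < Metric.infDist g V + ε by linarith)
  have h1 : a • u + b • v ∈ V := hV hu hv ha hb hab
  refine (Metric.infDist_le_dist_of_mem h1).trans ?_
  rw [dist_eq_norm] at hfu hgv ⊢
  have h2 : a • f + b • g - (a • u + b • v) = a • (f - u) + b • (g - v) := by module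
  rw [h2]
  refine (norm_add_le _ _).trans ?_
  rw [norm_smul, norm_smul, Real.norm_of_nonneg ha, Real.norm_of_nonneg hb]
  simp only [smul_eq_mul]
  have h3 := mul_le_mul_of_nonneg_left hfu.le ha
  have h4 := mul_le_mul_of_nonneg_left hgv.le hb
  have h5 : a * ε + b * ε = ε := by rw [← add_mul, hab, one_mul]
  linarith

/-- first part -/
noncomputable def DD (V : Set E) (f : E) : ℝ := Metric.infDist f V ^ 2

theorem DD_convex (V : Set E) (hV : Convex ℝ V) : ConvexOn ℝ univ (DD V) :=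
  (convexOn_infDist V hV).pow (fun _ _ => Metric.infDist_nonneg) 2

theorem DD_neg_convex (V : Set E) (hV : Convex ℝ V) : ConvexOn ℝ univ (fun f => DD V (-f)) := by
  have h := (DD_convex V hV).comp_linearMap (-LinearMap.id : E →ₗ[ℝ] E)
  simpa [Function.comp_def] using h

noncomputable def TT (V : Set E) (f : E) : ℝ := DD V f + DD V (-f)

theorem TT_nonneg (V : Set E) (f : E) : 0 ≤ TT V f := add_nonneg (sq_nonneg _) (sq_nonneg _)

theorem TT_neg (V : Set E) (f : E) : TT V (-f) = TT V f := by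
  unfold TT
  rw [neg_neg, add_comm]

noncomputable def cc (k : ℕ) : ℝ := (1 / 2) ^ (k + 3)

theorem cc_pos (k : ℕ) : 0 < cc k := by unfold cc; positivity

theorem cc_hasSum : HasSum cc (1 / 4) := by
  have h := (hasSum_geometric_two).mul_left ((1 / 8 : ℝ))
  have e : (fun k : ℕ => (1 / 8 : ℝ) * (1 / 2) ^ k) = cc := by
    funext k
    unfold cc
    rw [pow_add]
    norm_num
    ring
  rw [e] at h
  have e2 : (1 / 8 : ℝ) * 2 = 1 / 4 := by norm_num
  rwa [e2] at h

noncomputable def PN (V : ℕ → Set E) (f : E) : ℝ := ‖f‖ ^ 2 + ∑' k, cc k * TT (V k) f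

section

variable (V : ℕ → Set E) (hV : ∀ k, Convex ℝ (V k)) (hV1 : ∀ k, V k ⊆ Metric.closedBall 0 1)

include hV1 in
theorem infDist_le (k : ℕ) (f : E) : Metric.infDist f (V k) ≤ ‖f‖ + 1 := by
  rcases (V k).eq_empty_or_nonempty with h | ⟨v, hv⟩
  · rw [h, Metric.infDist_empty]; positivity
  · refine (Metric.infDist_le_dist_of_mem hv).trans ?_
    rw [dist_eq_norm]
    have := hV1 k hv
    rw [mem_closedBall_zero_iff] at this
    exact (norm_sub_le _ _).trans (by linarith)

include hV1 in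
theorem TT_le (k : ℕ) (f : E) : TT (V k) f ≤ 2 * (‖f‖ + 1) ^ 2 := by
  unfold TT DD
  have h1 := infDist_le V hV1 k f
  have h2 := infDist_le V hV1 k (-f)
  rw [norm_neg] at h2
  have h3 : (0 : ℝ) ≤ Metric.infDist f (V k) := Metric.infDist_nonneg
  have h4 : (0 : ℝ) ≤ Metric.infDist (-f) (V k) := Metric.infDist_nonneg
  nlinarith [pow_le_pow_left₀ h3 h1 2, pow_le_pow_left₀ h4 h2 2]

include hV1 in
theorem summ (f : E) : Summable (fun k => cc k * TT (V k) f) := by
  refine Summable.of_nonneg_of_le (fun k => mul_nonneg (cc_pos k).le (TT_nonneg _ _))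
    (fun k => mul_le_mul_of_nonneg_left (TT_le V hV1 k f) (cc_pos k).le) ?_
  exact cc_hasSum.summable.mul_right _

include hV1 in
theorem PN_le (f : E) : PN V f ≤ ‖f‖ ^ 2 + (‖f‖ + 1) ^ 2 / 2 := by
  unfold PN
  have h1 : ∑' k, cc k * TT (V k) f ≤ ∑' k, cc k * (2 * (‖f‖ + 1) ^ 2) :=
    (summ V hV1 f).tsum_le_tsum (fun k => mul_le_mul_of_nonneg_left (TT_le V hV1 k f) (cc_pos k).le)
      (cc_hasSum.summable.mul_right _)
  rw [tsum_mul_right, cc_hasSum.tsum_eq] at h1
  linarith

theorem PN_ge (f : E) : ‖f‖ ^ 2 ≤ PN V f := by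
  unfold PN
  have : 0 ≤ ∑' k, cc k * TT (V k) f := tsum_nonneg fun k => mul_nonneg (cc_pos k).le (TT_nonneg _ _)
  linarith

theorem PN_neg (f : E) : PN V (-f) = PN V f := by
  unfold PN
  simp_rw [norm_neg, TT_neg]

include hV1 in
theorem PN_continuous : Continuous (PN V) := by
  rw [continuous_iff_continuousAt]
  intro f
  unfold PN
  refine ContinuousAt.add (by fun_prop) ?_
  refine tendsto_tsum_of_dominated_convergence
    (bound := fun k => cc k * (2 * (‖f‖ + 1 + 1) ^ 2)) (cc_hasSum.summable.mul_right _) ?_ ?_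
  · intro k
    have h : Continuous (fun g : E => cc k * TT (V k) g) := by
      unfold TT DD
      have h1 : Continuous (fun g : E => Metric.infDist g (V k)) := Metric.continuous_infDist_pt _
      exact continuous_const.mul ((h1.pow 2).add ((h1.comp continuous_neg).pow 2))
    exact h.continuousAt
  · have h1 : ∀ᶠ g in 𝓝 f, ‖g‖ < ‖f‖ + 1 :=
      (continuous_norm.continuousAt (x := f)).eventually (gt_mem_nhds (by linarith))
    filter_upwards [h1] with g hg k
    rw [Real.norm_of_nonneg (mul_nonneg (cc_pos k).le (TT_nonneg _ _))]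
    refine mul_le_mul_of_nonneg_left ((TT_le V hV1 k g).trans ?_) (cc_pos k).le
    have := norm_nonneg g
    gcongr

include hV hV1 in
theorem PN_gap {ι : Type} [Fintype ι] (w : ι → ℝ) (z : ι → E) (hw : ∀ i, 0 ≤ w i)
    (hw1 : ∑ i, w i = 1) (k₀ : ℕ) :
    PN V (∑ i, w i • z i) + cc k₀ * (∑ i, w i * DD (V k₀) (z i) - DD (V k₀) (∑ i, w i • z i))
      ≤ ∑ i, w i * PN V (z i) := by
  have hnorm : ‖∑ i, w i • z i‖ ^ 2 ≤ ∑ i, w i * ‖z i‖ ^ 2 := by
    have h := ((convexOn_norm (E := E) convex_univ).pow (fun _ _ => norm_nonneg _) 2).map_sum_le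
      (t := Finset.univ) (w := w) (p := z) (fun i _ => hw i) hw1 (fun i _ => mem_univ _)
    simpa using h
  have hD : ∀ k, DD (V k) (∑ i, w i • z i) ≤ ∑ i, w i * DD (V k) (z i) := by
    intro k
    have h := (DD_convex (V k) (hV k)).map_sum_le
      (t := Finset.univ) (w := w) (p := z) (fun i _ => hw i) hw1 (fun i _ => mem_univ _)
    simpa using h
  have hDn : ∀ k, DD (V k) (-∑ i, w i • z i) ≤ ∑ i, w i * DD (V k) (-z i) := by
    intro k
    have h := (DD_neg_convex (V k) (hV k)).map_sum_le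
      (t := Finset.univ) (w := w) (p := z) (fun i _ => hw i) hw1 (fun i _ => mem_univ _)
    simpa using h
  set y := ∑ i, w i • z i with hy
  let g : ℕ → ℝ := fun k => cc k * (∑ i, w i * TT (V k) (z i) - TT (V k) y)
  have hg0 : ∀ k, cc k * (∑ i, w i * DD (V k) (z i) - DD (V k) y) ≤ g k := by
    intro k
    refine mul_le_mul_of_nonneg_left ?_ (cc_pos k).le
    unfold TT
    simp_rw [mul_add, Finset.sum_add_distrib]
    linarith [hDn k]
  have hgn : ∀ k, 0 ≤ g k := fun k =>
    (mul_nonneg (cc_pos k).le (by linarith [hD k])).trans (hg0 k)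
  have hs : ∀ i, Summable (fun k => w i * (cc k * TT (V k) (z i))) := fun i =>
    (summ V hV1 (z i)).mul_left _
  have hs2 : Summable (fun k => ∑ i, w i * (cc k * TT (V k) (z i))) := summable_sum fun i _ => hs i
  have hge : ∀ k, g k = ∑ i, w i * (cc k * TT (V k) (z i)) - cc k * TT (V k) y := by
    intro k
    simp only [g]
    rw [mul_sub, Finset.mul_sum]
    congr 1
    exact Finset.sum_congr rfl fun i _ => by ring
  have hgs : Summable g := by
    have : g = fun k => ∑ i, w i * (cc k * TT (V k) (z i)) - cc k * TT (V k) y := funext hge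
    rw [this]
    exact hs2.sub (summ V hV1 y)
  have htsum : ∑' k, g k = ∑ i, w i * ∑' k, cc k * TT (V k) (z i) - ∑' k, cc k * TT (V k) y := by
    rw [tsum_congr hge, hs2.tsum_sub (summ V hV1 y), Summable.tsum_finsetSum fun i _ => hs i]
    congr 1
    exact Finset.sum_congr rfl fun i _ => by rw [tsum_mul_left]
  have h1 : g k₀ ≤ ∑' k, g k := hgs.le_tsum k₀ fun k _ => hgn k
  unfold PN
  simp_rw [mul_add, Finset.sum_add_distrib]
  linarith [hg0 k₀]

include hV hV1 in
theorem PN_ball_convex : Convex ℝ {f : E | PN V f ≤ 1} := by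
  intro f hf g hg a b ha hb hab
  have h := PN_gap V hV hV1 (ι := Bool) (fun i => if i then a else b) (fun i => if i then f else g)
    (by intro i; cases i <;> simpa) (by simpa using hab) 0
  have hD := (DD_convex (V 0) (hV 0)).2 (mem_univ f) (mem_univ g) ha hb hab
  simp only [Fintype.sum_bool, if_true, Bool.false_eq_true, if_false, smul_eq_mul] at h hD
  have h1 : 0 ≤ cc 0 * (a * DD (V 0) f + b * DD (V 0) g - DD (V 0) (a • f + b • g)) :=
    mul_nonneg (cc_pos 0).le (by linarith)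
  have h2 : a * PN V f ≤ a * 1 := mul_le_mul_of_nonneg_left hf ha
  have h3 : b * PN V g ≤ b * 1 := mul_le_mul_of_nonneg_left hg hb
  change PN V (a • f + b • g) ≤ 1
  linarith

include hV hV1 in
/-- every point of the level set is a denting point -/
theorem PN_denting (hdent : ∀ t : E, ‖t‖ ≤ 1 → ∀ ε : ℝ, 0 < ε → ∃ k, t ∈ V k ∧
      t ∉ closure (convexHull ℝ (V k \ Metric.ball t ε)))
    (f : E) (hf : PN V f = 1) (ε : ℝ) (hε : 0 < ε) :
    f ∉ closure (convexHull ℝ ({g : E | PN V g ≤ 1} \ Metric.ball f ε)) := by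
  classical
  intro hcl
  have hf1 : ‖f‖ ≤ 1 := by
    have h1 := PN_ge V f
    rw [hf] at h1
    nlinarith [norm_nonneg f]
  obtain ⟨k, hfV, hfd⟩ := hdent f hf1 (ε / 2) (by positivity)
  obtain ⟨η, hη, hηV⟩ : ∃ η > 0, ∀ y ∈ convexHull ℝ (V k \ Metric.ball f (ε / 2)), η ≤ ‖f - y‖ := by
    rw [Metric.mem_closure_iff] at hfd
    push Not at hfd
    obtain ⟨η, hη, h⟩ := hfd
    exact ⟨η, hη, fun y hy => by rw [← dist_eq_norm]; exact h y hy⟩
  -- parameters
  set κ' : ℝ := min (ε / 4) (η / 8) with hκ'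
  have hκ'0 : 0 < κ' := lt_min (by positivity) (by positivity)
  have hκ'1 : κ' ≤ ε / 4 := min_le_left _ _
  have hκ'2 : κ' ≤ η / 8 := min_le_right _ _
  set m₀ : ℝ := min (1 / 2) (η / 8) with hm₀
  have hm₀0 : 0 < m₀ := lt_min (by norm_num) (by positivity)
  have hm₀1 : m₀ ≤ 1 / 2 := min_le_left _ _
  have hm₀2 : m₀ ≤ η / 8 := min_le_right _ _
  set c := cc k with hc
  have hc0 : 0 < c := cc_pos k
  have hc1 : c ≤ 1 := by
    rw [hc]; unfold cc
    exact pow_le_one₀ (by norm_num) (by norm_num)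
  set κ : ℝ := min (min (η / 8) 1) (m₀ * κ' ^ 2 * c / 2) with hκ
  have hκ0 : 0 < κ := lt_min (lt_min (by positivity) one_pos) (by positivity)
  have hκ1 : κ ≤ η / 8 := (min_le_left _ _).trans (min_le_left _ _)
  have hκ2 : κ ≤ 1 := (min_le_left _ _).trans (min_le_right _ _)
  have hκ3 : κ ≤ m₀ * κ' ^ 2 * c / 2 := min_le_right _ _
  -- choose y
  have hev1 : ∀ᶠ y in 𝓝 f, 1 - κ < PN V y :=
    ((PN_continuous V hV1).continuousAt (x := f)).eventually (lt_mem_nhds (by rw [hf]; linarith))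
  have hev2 : ∀ᶠ y in 𝓝 f, ‖f - y‖ < κ := by
    filter_upwards [Metric.ball_mem_nhds f hκ0] with y hy
    rwa [Metric.mem_ball, dist_comm, dist_eq_norm] at hy
  obtain ⟨y, hyc, hy1, hy2⟩ :=
    ((mem_closure_iff_frequently.1 hcl).and_eventually (hev1.and hev2)).exists
  obtain ⟨ι, hι, w, z, hw, hw1, hz, hy⟩ := mem_convexHull_iff_exists_fintype.1 hyc
  have hgap := PN_gap V hV hV1 w z hw hw1 k
  rw [hy] at hgap
  have hsum1 : ∑ i, w i * PN V (z i) ≤ 1 := by
    rw [← hw1]
    refine Finset.sum_le_sum fun i _ => ?_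
    exact mul_le_of_le_one_right (hw i) (hz i).1
  have hDy : DD (V k) y ≤ κ ^ 2 := by
    unfold DD
    have h1 : Metric.infDist y (V k) ≤ κ := by
      refine (Metric.infDist_le_dist_of_mem hfV).trans ?_
      rw [dist_comm, dist_eq_norm]; exact hy2.le
    exact pow_le_pow_left₀ Metric.infDist_nonneg h1 2
  have hDz : c * ∑ i, w i * DD (V k) (z i) ≤ m₀ * κ' ^ 2 * c := by
    have h1 : c * DD (V k) y ≤ 1 * κ ^ 2 := mul_le_mul hc1 hDy (sq_nonneg _) zero_le_one
    have h2 : κ ^ 2 ≤ κ := by nlinarith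
    rw [mul_sub] at hgap
    linarith
  have hDz' : ∑ i, w i * DD (V k) (z i) ≤ m₀ * κ' ^ 2 := by
    rw [mul_comm c] at hDz
    exact le_of_mul_le_mul_right hDz hc0
  -- good indices
  set s : Finset ι := Finset.univ.filter (fun i => Metric.infDist (z i) (V k) < κ') with hs
  have hbad : ∑ i ∈ sᶜ, w i ≤ m₀ := by
    have h1 : (∑ i ∈ sᶜ, w i) * κ' ^ 2 ≤ ∑ i, w i * DD (V k) (z i) := by
      rw [Finset.sum_mul]
      refine (Finset.sum_le_sum fun i hi => ?_).trans
        (Finset.sum_le_sum_of_subset_of_nonneg (Finset.subset_univ sᶜ)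
          fun i _ _ => mul_nonneg (hw i) (sq_nonneg _))
      refine mul_le_mul_of_nonneg_left ?_ (hw i)
      have h2 : κ' ≤ Metric.infDist (z i) (V k) := by
        rw [hs, Finset.mem_compl, Finset.mem_filter] at hi
        push Not at hi
        exact hi (Finset.mem_univ _)
      exact pow_le_pow_left₀ hκ'0.le h2 2
    exact le_of_mul_le_mul_right (h1.trans hDz') (by positivity)
  have hsplit : ∑ i ∈ s, w i + ∑ i ∈ sᶜ, w i = 1 := by rw [Finset.sum_add_sum_compl, hw1]
  have hsplit2 : ∑ i ∈ s, w i • z i + ∑ i ∈ sᶜ, w i • z i = y := by rw [Finset.sum_add_sum_compl, hy]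
  set M : ℝ := ∑ i ∈ s, w i with hM
  have hcn : 0 ≤ ∑ i ∈ sᶜ, w i := Finset.sum_nonneg fun i _ => hw i
  have hM0 : 0 < M := by linarith
  have hM1 : M ≤ 1 := by linarith
  have hch : ∀ i, ∃ h : E, i ∈ s → h ∈ V k ∧ ‖z i - h‖ < κ' := by
    intro i
    by_cases hi : i ∈ s
    · have h1 : Metric.infDist (z i) (V k) < κ' := (Finset.mem_filter.1 hi).2
      obtain ⟨h, hh, hh2⟩ := (Metric.infDist_lt_iff ⟨f, hfV⟩).1 h1
      exact ⟨h, fun _ => ⟨hh, by rw [← dist_eq_norm]; exact hh2⟩⟩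
    · exact ⟨0, fun h => absurd h hi⟩
  choose h hh using hch
  set y' : E := M⁻¹ • ∑ i ∈ s, w i • h i with hy'
  have hy'c : y' ∈ convexHull ℝ (V k \ Metric.ball f (ε / 2)) := by
    rw [hy', Finset.smul_sum]
    simp_rw [smul_smul]
    refine (convex_convexHull ℝ _).sum_mem (fun i _ => mul_nonneg (inv_nonneg.2 hM0.le) (hw i)) ?_ ?_
    · rw [← Finset.mul_sum, ← hM, inv_mul_cancel₀ hM0.ne']
    · intro i hi
      refine subset_convexHull ℝ _ ⟨(hh i hi).1, fun hb => ?_⟩
      have h1 := (hz i).2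
      rw [Metric.mem_ball, dist_eq_norm, not_lt] at h1
      rw [Metric.mem_ball, dist_eq_norm] at hb
      have h2 := (hh i hi).2
      have h3 : ‖z i - f‖ ≤ ‖z i - h i‖ + ‖h i - f‖ := by
        have : z i - f = (z i - h i) + (h i - f) := by abel
        rw [this]; exact norm_add_le _ _
      linarith
  have hfar := hηV y' hy'c
  -- distance estimate
  have e1 : ‖∑ i ∈ sᶜ, w i • z i‖ ≤ m₀ := by
    refine (norm_sum_le _ _).trans ((Finset.sum_le_sum fun i _ => ?_).trans hbad)
    rw [norm_smul, Real.norm_of_nonneg (hw i)]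
    refine mul_le_of_le_one_right (hw i) ?_
    have h1 := (PN_ge V (z i)).trans (hz i).1
    nlinarith [norm_nonneg (z i)]
  have e2 : ‖∑ i ∈ s, w i • (z i - h i)‖ ≤ κ' := by
    refine (norm_sum_le _ _).trans ?_
    calc ∑ i ∈ s, ‖w i • (z i - h i)‖ ≤ ∑ i ∈ s, w i * κ' := Finset.sum_le_sum fun i hi => by
          rw [norm_smul, Real.norm_of_nonneg (hw i)]
          exact mul_le_mul_of_nonneg_left (hh i hi).2.le (hw i)
      _ = M * κ' := by rw [← Finset.sum_mul]
      _ ≤ κ' := mul_le_of_le_one_left hκ'0.le hM1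
  have e3 : ‖∑ i ∈ s, w i • h i‖ ≤ M := by
    refine (norm_sum_le _ _).trans (Finset.sum_le_sum fun i hi => ?_)
    rw [norm_smul, Real.norm_of_nonneg (hw i)]
    refine mul_le_of_le_one_right (hw i) ?_
    have := hV1 k (hh i hi).1
    rwa [mem_closedBall_zero_iff] at this
  have e4 : f - y' = (f - y) + ∑ i ∈ sᶜ, w i • z i + ∑ i ∈ s, w i • (z i - h i)
      + (1 - M⁻¹) • ∑ i ∈ s, w i • h i := by
    have h1 : ∑ i ∈ s, w i • (z i - h i) = ∑ i ∈ s, w i • z i - ∑ i ∈ s, w i • h i := by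
      rw [← Finset.sum_sub_distrib]
      exact Finset.sum_congr rfl fun i _ => smul_sub _ _ _
    rw [h1, hy', ← hsplit2]
    module
  have e5 : ‖(1 - M⁻¹) • ∑ i ∈ s, w i • h i‖ ≤ m₀ := by
    rw [norm_smul]
    have h2 : ‖1 - M⁻¹‖ = M⁻¹ - 1 := by
      rw [Real.norm_eq_abs, abs_sub_comm, abs_of_nonneg]
      have := (one_le_inv₀ hM0).2 hM1
      linarith
    rw [h2]
    have h5 : 0 ≤ M⁻¹ - 1 := by
      have := (one_le_inv₀ hM0).2 hM1
      linarith
    calc (M⁻¹ - 1) * ‖∑ i ∈ s, w i • h i‖ ≤ (M⁻¹ - 1) * M := mul_le_mul_of_nonneg_left e3 h5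
      _ = 1 - M := by field_simp
      _ ≤ m₀ := by linarith
  have e6 : ‖f - y'‖ ≤ κ + m₀ + κ' + m₀ := by
    rw [e4]
    refine (norm_add_le _ _).trans (add_le_add ((norm_add_le _ _).trans
      (add_le_add ((norm_add_le _ _).trans (add_le_add hy2.le e1)) e2)) e5)
  linarith

end

end Pool.Agent.Helper568.Dent
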