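import Pool.Agent.Helper568.Dent11
import Pool.Agent.Helper568.Dent10

set_option autoImplicit false
set_option linter.unusedSectionVars false

open Filter Set Topology Pointwise

namespace Pool.Agent.Helper568.Dent

variable {X : Type*} [NormedAddCommGroup X] [NormedSpace ℝ X]

/-- weak-star closed sublevel sets of the distance function -/
theorem isClosed_infDist (V : Set (X →L[ℝ] ℝ))
    (hV : IsCompact (WeakDual.toStrongDual ⁻¹' V : Set (WeakDual ℝ X))) (r : ℝ) :
    IsClosed {f : WeakDual ℝ X | Metric.infDist (WeakDual.toStrongDual f) V ≤ r} := by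
  rcases V.eq_empty_or_nonempty with rfl | hne
  · simp only [Metric.infDist_empty]
    exact isClosed_const
  have h1 : {f : WeakDual ℝ X | Metric.infDist (WeakDual.toStrongDual f) V ≤ r}
      = ⋂ n : ℕ, ((WeakDual.toStrongDual ⁻¹' V : Set (WeakDual ℝ X)) +
        (WeakDual.toStrongDual ⁻¹' (Metric.closedBall 0 (r + 1 / ((n : ℝ) + 1))) : Set (WeakDual ℝ X))) := by
    ext f
    simp only [mem_iInter]
    constructor
    · intro hf n
      have h2 : Metric.infDist (WeakDual.toStrongDual f) V < r + 1 / ((n : ℝ) + 1) := by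
        have : (0 : ℝ) < 1 / ((n : ℝ) + 1) := by positivity
        exact lt_of_le_of_lt hf (by linarith)
      obtain ⟨v, hv, hfv⟩ := (Metric.infDist_lt_iff hne).1 h2
      refine Set.mem_add.2 ⟨StrongDual.toWeakDual v, hv, f - StrongDual.toWeakDual v, ?_, ?_⟩
      · rw [mem_preimage, mem_closedBall_zero_iff]
        rw [dist_eq_norm] at hfv
        exact hfv.le
      · abel
    · intro hf
      change Metric.infDist (WeakDual.toStrongDual f) V ≤ r
      refine le_of_forall_pos_le_add fun ε hε => ?_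
      obtain ⟨n, hn⟩ := exists_nat_one_div_lt hε
      obtain ⟨v, hv, b, hb, hvb⟩ := Set.mem_add.1 (hf n)
      rw [mem_preimage, mem_closedBall_zero_iff] at hb
      have hv' : WeakDual.toStrongDual v ∈ V := hv
      refine (Metric.infDist_le_dist_of_mem hv').trans ?_
      rw [dist_eq_norm, ← hvb, map_add, add_sub_cancel_left]
      linarith
  rw [h1]
  refine isClosed_iInter fun n => ?_
  exact (hV.add (WeakDual.isCompact_closedBall (𝕜 := ℝ) (E := X) 0 _)).isClosed

theorem lsc_sq (u : WeakDual ℝ X → ℝ) (hu0 : ∀ f, 0 ≤ u f) (hu : ∀ r, IsClosed {f | u f ≤ r}) :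
    LowerSemicontinuous (fun f => u f ^ 2) := by
  rw [lowerSemicontinuous_iff_isClosed_preimage]
  intro y
  rcases lt_or_ge y 0 with hy | hy
  · have : (fun f => u f ^ 2) ⁻¹' Iic y = ∅ := by
      ext f
      simp only [mem_preimage, mem_Iic, mem_empty_iff_false, iff_false, not_le]
      exact lt_of_lt_of_le hy (sq_nonneg _)
    rw [this]
    exact isClosed_empty
  · have : (fun f => u f ^ 2) ⁻¹' Iic y = {f | u f ≤ Real.sqrt y} := by
      ext f
      simp only [mem_preimage, mem_Iic, mem_ofPred_eq]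
      exact (Real.le_sqrt (hu0 f) hy).symm
    rw [this]
    exact hu _

/-- the level set is weak-star closed -/
theorem PN_ball_closed (V : ℕ → Set (X →L[ℝ] ℝ)) (hV1 : ∀ k, V k ⊆ Metric.closedBall 0 1)
    (hVc : ∀ k, IsCompact (WeakDual.toStrongDual ⁻¹' V k : Set (WeakDual ℝ X))) :
    IsClosed {f : WeakDual ℝ X | PN V (WeakDual.toStrongDual f) ≤ 1} := by
  have hn : LowerSemicontinuous (fun f : WeakDual ℝ X => ‖WeakDual.toStrongDual f‖ ^ 2) := by
    refine lsc_sq (fun f => ‖WeakDual.toStrongDual f‖) (fun _ => norm_nonneg _) fun r => ?_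
    have h := WeakDual.isClosed_closedBall (𝕜 := ℝ) (E := X) 0 r
    convert h using 1
    ext f
    simp
  have hd : ∀ k, LowerSemicontinuous (fun f : WeakDual ℝ X => DD (V k) (WeakDual.toStrongDual f)) :=
    fun k => lsc_sq (fun f => Metric.infDist (WeakDual.toStrongDual f) (V k))
      (fun _ => Metric.infDist_nonneg) (isClosed_infDist (V k) (hVc k))
  have hdn : ∀ k, LowerSemicontinuous (fun f : WeakDual ℝ X => DD (V k) (-WeakDual.toStrongDual f)) :=
    fun k => lsc_sq (fun f => Metric.infDist (-WeakDual.toStrongDual f) (V k))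
      (fun _ => Metric.infDist_nonneg) fun r => (isClosed_infDist (V k) (hVc k) r).preimage
        (continuous_neg : Continuous fun f : WeakDual ℝ X => -f)
  have hT : ∀ k, LowerSemicontinuous (fun f : WeakDual ℝ X => cc k * TT (V k) (WeakDual.toStrongDual f)) := by
    intro k
    have h := (hd k).add (hdn k)
    exact (continuous_const.mul continuous_id : Continuous fun r : ℝ => cc k * r).comp_lowerSemicontinuous
      h (fun a b hab => mul_le_mul_of_nonneg_left hab (cc_pos k).le)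
  have hS : ∀ N : ℕ, LowerSemicontinuous (fun f : WeakDual ℝ X => ‖WeakDual.toStrongDual f‖ ^ 2 +
      ∑ k ∈ Finset.range N, cc k * TT (V k) (WeakDual.toStrongDual f)) := by
    intro N
    exact hn.add (lowerSemicontinuous_sum fun k _ => hT k)
  have h1 : {f : WeakDual ℝ X | PN V (WeakDual.toStrongDual f) ≤ 1} = ⋂ N : ℕ,
      (fun f : WeakDual ℝ X => ‖WeakDual.toStrongDual f‖ ^ 2 +
      ∑ k ∈ Finset.range N, cc k * TT (V k) (WeakDual.toStrongDual f)) ⁻¹' Iic 1 := by
    ext f
    simp only [mem_iInter, mem_preimage, mem_Iic, mem_ofPred_eq]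
    have hs := summ V hV1 (WeakDual.toStrongDual f)
    constructor
    · intro hf N
      refine le_trans ?_ hf
      unfold PN
      have := hs.sum_le_tsum (Finset.range N) fun k _ => mul_nonneg (cc_pos k).le (TT_nonneg _ _)
      linarith
    · intro hf
      unfold PN
      exact le_of_tendsto' ((hs.hasSum.tendsto_sum_nat).const_add _) hf
  rw [h1]
  exact isClosed_iInter fun N => (hS N).isClosed_preimage 1

/-- The dual renorming: forward direction -/
theorem alur_of_family (V : ℕ → Set (X →L[ℝ] ℝ)) (hV : ∀ k, Convex ℝ (V k))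
    (hV1 : ∀ k, V k ⊆ Metric.closedBall 0 1)
    (hVc : ∀ k, IsCompact (WeakDual.toStrongDual ⁻¹' V k : Set (WeakDual ℝ X)))
    (hdent : ∀ t : X →L[ℝ] ℝ, ‖t‖ ≤ 1 → ∀ ε : ℝ, 0 < ε → ∃ k, t ∈ V k ∧
      t ∉ closure (convexHull ℝ (V k \ Metric.ball t ε))) :
    ∃ N : X → ℝ, (∀ x y, N (x + y) ≤ N x + N y) ∧ (∀ (r : ℝ) (x : X), N (r • x) = |r| * N x) ∧
      (∃ c C : ℝ, 0 < c ∧ ∀ x, c * ‖x‖ ≤ N x ∧ N x ≤ C * ‖x‖) ∧
      ∀ f : X →L[ℝ] ℝ, (∀ x, f x ≤ N x) → (∀ ε : ℝ, 0 < ε → ∃ x, N x ≤ 1 ∧ 1 - ε < f x) →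
        (f ∈ Set.extremePoints ℝ {g : X →L[ℝ] ℝ | ∀ x, g x ≤ N x} ∧
         ∀ ε : ℝ, 0 < ε → ∃ F : Finset ((X →L[ℝ] ℝ) →L[ℝ] ℝ), ∃ δ : ℝ, 0 < δ ∧
           ∀ g : X →L[ℝ] ℝ, (∀ x, g x ≤ N x) → (∀ φ ∈ F, |φ (g - f)| < δ) → ‖g - f‖ < ε) := by
  classical
  set B : Set (X →L[ℝ] ℝ) := {f | PN V f ≤ 1} with hB
  have hBn : ∀ f ∈ B, ‖f‖ ≤ 1 := by
    intro f hf
    have h1 := (PN_ge V f).trans hf
    nlinarith [norm_nonneg f]
  have hBneg : ∀ f ∈ B, -f ∈ B := fun f hf => by
    change PN V (-f) ≤ 1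
    rw [PN_neg]; exact hf
  have hBball : ∀ f : X →L[ℝ] ℝ, ‖f‖ ≤ 1 / 4 → f ∈ B := by
    intro f hf
    refine (PN_le V hV1 f).trans ?_
    nlinarith [norm_nonneg f]
  have hB0 : (0 : X →L[ℝ] ℝ) ∈ B := hBball 0 (by simp)
  have hBconv : Convex ℝ B := PN_ball_convex V hV hV1
  let N : X → ℝ := fun x => sSup ((fun f : X →L[ℝ] ℝ => f x) '' B)
  have hbdd : ∀ x, BddAbove ((fun f : X →L[ℝ] ℝ => f x) '' B) := by
    intro x
    refine ⟨‖x‖, ?_⟩
    rintro _ ⟨f, hf, rfl⟩
    have h1 := f.le_opNorm x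
    have h2 := mul_le_mul_of_nonneg_right (hBn f hf) (norm_nonneg x)
    exact (le_abs_self _).trans (h1.trans (by linarith))
  have hne : ∀ x, ((fun f : X →L[ℝ] ℝ => f x) '' B).Nonempty := fun x => ⟨_, 0, hB0, rfl⟩
  have hle : ∀ f ∈ B, ∀ x, f x ≤ N x := fun f hf x => le_csSup (hbdd x) ⟨f, hf, rfl⟩
  have hNle : ∀ x r, (∀ f ∈ B, f x ≤ r) → N x ≤ r := fun x r h =>
    csSup_le (hne x) (by rintro _ ⟨f, hf, rfl⟩; exact h f hf)
  have hadd : ∀ x y, N (x + y) ≤ N x + N y := by
    intro x y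
    refine hNle _ _ fun f hf => ?_
    rw [map_add]
    exact add_le_add (hle f hf x) (hle f hf y)
  have hpos : ∀ (r : ℝ) (x : X), 0 ≤ r → N (r • x) ≤ r * N x := by
    intro r x hr
    refine hNle _ _ fun f hf => ?_
    rw [map_smul, smul_eq_mul]
    exact mul_le_mul_of_nonneg_left (hle f hf x) hr
  have hneg : ∀ x, N (-x) ≤ N x := by
    intro x
    refine hNle _ _ fun f hf => ?_
    have h1 := hle (-f) (hBneg f hf) x
    rw [map_neg]
    simpa using h1
  have hneg' : ∀ x, N (-x) = N x := fun x => le_antisymm (hneg x) (by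
    have := hneg (-x)
    rwa [neg_neg] at this)
  have hhom_pos : ∀ (r : ℝ) (x : X), 0 < r → N (r • x) = r * N x := by
    intro r x hr
    refine le_antisymm (hpos r x hr.le) ?_
    have h1 := hpos r⁻¹ (r • x) (inv_nonneg.2 hr.le)
    rw [smul_smul, inv_mul_cancel₀ hr.ne', one_smul] at h1
    rwa [le_inv_mul_iff₀ hr] at h1
  have hN0 : N 0 = 0 := by
    refine le_antisymm (hNle _ _ fun f _ => by rw [map_zero]) ?_
    have := hle 0 hB0 0
    simpa using this
  have hhom : ∀ (r : ℝ) (x : X), N (r • x) = |r| * N x := by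
    intro r x
    rcases lt_trichotomy r 0 with hr | hr | hr
    · have h1 : r • x = -((-r) • x) := by rw [neg_smul, neg_neg]
      rw [h1, hneg', hhom_pos (-r) x (by linarith), abs_of_neg hr]
    · rw [hr, zero_smul, abs_zero, zero_mul, hN0]
    · rw [hhom_pos r x hr, abs_of_pos hr]
  have hlow : ∀ x, 1 / 4 * ‖x‖ ≤ N x := by
    intro x
    obtain ⟨g, hg1, hg2⟩ := exists_dual_vector'' ℝ x
    have h1 : (1 / 4 : ℝ) • g ∈ B := hBball _ (by
      rw [norm_smul, Real.norm_of_nonneg (by norm_num)]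
      linarith)
    have h2 := hle _ h1 x
    rw [_root_.smul_apply, smul_eq_mul, hg2] at h2
    simpa using h2
  have hup : ∀ x, N x ≤ 1 * ‖x‖ := by
    intro x
    refine hNle _ _ fun f hf => ?_
    have h1 := f.le_opNorm x
    have h2 := mul_le_mul_of_nonneg_right (hBn f hf) (norm_nonneg x)
    exact (le_abs_self _).trans (h1.trans h2)
  -- the dual ball is B
  have hdual : {g : X →L[ℝ] ℝ | ∀ x, g x ≤ N x} = B := by
    refine Subset.antisymm (fun g hg => ?_) fun g hg => hle g hg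
    by_contra hgB
    have hcl : IsClosed (WeakDual.toStrongDual ⁻¹' B : Set (WeakDual ℝ X)) := PN_ball_closed V hV1 hVc
    have hcv : Convex ℝ (WeakDual.toStrongDual ⁻¹' B : Set (WeakDual ℝ X)) := hBconv
    have : LocallyConvexSpace ℝ (WeakDual ℝ X) :=
      inferInstanceAs (LocallyConvexSpace ℝ (WeakBilin (topDualPairing ℝ X)))
    obtain ⟨φ, u, hφ1, hφ2⟩ := geometric_hahn_banach_closed_point hcv hcl
      (x := StrongDual.toWeakDual g) hgB
    obtain ⟨x, hx⟩ := LinearMap.dualEmbedding_surjective (topDualPairing ℝ X) φ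
    have hx' : ∀ f : WeakDual ℝ X, φ f = f x := by
      intro f
      rw [← hx]
      rfl
    have h1 : N x ≤ u := hNle _ _ fun f hf => by
      have := hφ1 (StrongDual.toWeakDual f) hf
      rw [hx'] at this
      exact this.le
    have h2 : u < g x := by
      rw [hx'] at hφ2
      exact hφ2
    linarith [hg x]
  refine ⟨N, hadd, hhom, ⟨1 / 4, 1, by norm_num, fun x => ⟨hlow x, hup x⟩⟩, fun f hf hfs => ?_⟩
  have hfB : f ∈ B := by rw [← hdual]; exact hf
  -- PN f = 1
  have hf1 : PN V f = 1 := by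
    refine le_antisymm hfB (not_lt.1 fun hlt => ?_)
    have hcont : ContinuousAt (fun r : ℝ => PN V (r • f)) 1 :=
      ((PN_continuous V hV1).comp (continuous_id.smul continuous_const)).continuousAt
    have h1 : ∀ᶠ r in 𝓝 (1 : ℝ), PN V (r • f) < 1 :=
      hcont.eventually (gt_mem_nhds (by simpa using hlt))
    obtain ⟨κ, hκ, hκ2⟩ := Metric.eventually_nhds_iff.1 h1
    have h2 : PN V ((1 + κ / 2) • f) < 1 := by
      apply hκ2
      rw [Real.dist_eq, add_sub_cancel_left, abs_of_pos (by positivity)]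
      linarith
    have h3 : (1 + κ / 2) • f ∈ B := h2.le
    have hk1 : (0 : ℝ) < 1 + κ / 2 := by positivity
    obtain ⟨x, hx1, hx2⟩ := hfs (1 - 1 / (1 + κ / 2)) (by
      have : 1 / (1 + κ / 2) < 1 := by
        rw [div_lt_one hk1]; linarith
      linarith)
    have h4 := hle _ h3 x
    rw [_root_.smul_apply, smul_eq_mul] at h4
    have h5 : 1 / (1 + κ / 2) < f x := by linarith
    rw [div_lt_iff₀ hk1] at h5
    linarith
  have hden : ∀ ε : ℝ, 0 < ε → f ∉ closure (convexHull ℝ (B \ Metric.ball f ε)) := fun ε hε =>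
    PN_denting V hV hV1 hdent f hf1 ε hε
  rw [hdual]
  refine ⟨mem_extremePoints_iff_left.2 ⟨hfB, fun a ha b hb hab => ?_⟩, fun ε hε => ?_⟩
  · by_contra haf
    have hpos1 : 0 < ‖a - f‖ := norm_pos_iff.2 (sub_ne_zero.2 haf)
    have hbf : b ≠ f := by
      intro h
      obtain ⟨α, β, hα, hβ, hαβ, h1⟩ := hab
      apply haf
      rw [h] at h1
      have h2 : α • (a - f) = 0 := by
        have h3 : f = α • f + β • f := by rw [← add_smul, hαβ, one_smul]
        have h4 : α • a + β • f = α • f + β • f := by rw [h1]; exact h3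
        rw [smul_sub, sub_eq_zero]
        exact add_right_cancel h4
      exact sub_eq_zero.1 ((smul_eq_zero.1 h2).resolve_left hα.ne')
    have hpos2 : 0 < ‖b - f‖ := norm_pos_iff.2 (sub_ne_zero.2 hbf)
    have hε : 0 < min ‖a - f‖ ‖b - f‖ := lt_min hpos1 hpos2
    apply hden _ hε
    refine subset_closure ?_
    have ha' : a ∈ B \ Metric.ball f (min ‖a - f‖ ‖b - f‖) := ⟨ha, by
      rw [Metric.mem_ball, dist_eq_norm, not_lt]; exact min_le_left _ _⟩
    have hb' : b ∈ B \ Metric.ball f (min ‖a - f‖ ‖b - f‖) := ⟨hb, by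
      rw [Metric.mem_ball, dist_eq_norm, not_lt]; exact min_le_right _ _⟩
    exact (convex_convexHull ℝ _).openSegment_subset
      (subset_convexHull ℝ _ ha') (subset_convexHull ℝ _ hb') hab
  · obtain ⟨φ, u, hφ1, hφ2⟩ := geometric_hahn_banach_closed_point (convex_convexHull ℝ _).closure
      isClosed_closure (hden ε hε)
    refine ⟨{φ}, φ f - u, by linarith, fun g hg hgφ => ?_⟩
    have hgB : g ∈ B := by rw [← hdual]; exact hg
    by_contra hcon
    have h1 : g ∈ closure (convexHull ℝ (B \ Metric.ball f ε)) := by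
      refine subset_closure (subset_convexHull ℝ _ ⟨hgB, ?_⟩)
      rw [Metric.mem_ball, dist_eq_norm]
      exact hcon
    have h2 := hφ1 g h1
    have h3 := hgφ φ (Finset.mem_singleton_self φ)
    rw [map_sub] at h3
    have h4 := (abs_lt.1 h3).1
    linarith

end Pool.Agent.Helper568.Dent
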