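import Mathlib

set_option autoImplicit false
set_option linter.unusedSectionVars false

open Filter Set Topology

namespace Pool.Agent.Helper568.Dent

section GM

variable {K : Type*} [TopologicalSpace K] [CompactSpace K]

/-- multiplication of a functional by a continuous function -/
noncomputable def mulW (g : C(K, ℝ)) (Λ : WeakDual ℝ C(K, ℝ)) : WeakDual ℝ C(K, ℝ) :=
  StrongDual.toWeakDual ((WeakDual.toStrongDual Λ).comp (ContinuousLinearMap.mul ℝ C(K, ℝ) g))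

theorem mulW_apply (g : C(K, ℝ)) (Λ : WeakDual ℝ C(K, ℝ)) (u : C(K, ℝ)) : mulW g Λ u = Λ (g * u) := rfl

theorem mulW_continuous (g : C(K, ℝ)) : Continuous (mulW g) :=
  WeakDual.continuous_of_continuous_eval fun u => WeakDual.eval_continuous (g * u)

/-- the perturbation `(1 + g) Λ` -/
noncomputable def pert (g : C(K, ℝ)) (Λ : WeakDual ℝ C(K, ℝ)) : WeakDual ℝ C(K, ℝ) := Λ + mulW g Λ

theorem pert_apply (g : C(K, ℝ)) (Λ : WeakDual ℝ C(K, ℝ)) (u : C(K, ℝ)) :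
    pert g Λ u = Λ u + Λ (g * u) := rfl

theorem pert_continuous (g : C(K, ℝ)) : Continuous (pert g) :=
  continuous_id.add (mulW_continuous g)

def Pos (Λ : WeakDual ℝ C(K, ℝ)) : Prop := ∀ g : C(K, ℝ), 0 ≤ g → 0 ≤ Λ g

theorem Pos.abs_le {Λ : WeakDual ℝ C(K, ℝ)} (h : Pos Λ) (u : C(K, ℝ)) : |Λ u| ≤ ‖u‖ * Λ 1 := by
  have h1 : 0 ≤ Λ (‖u‖ • (1 : C(K, ℝ)) - u) := h _ (by
    intro k
    have := (_root_.abs_le.1 (u.norm_coe_le_norm k)).2
    change (0 : ℝ) ≤ ‖u‖ * 1 - u k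
    linarith)
  have h2 : 0 ≤ Λ (‖u‖ • (1 : C(K, ℝ)) + u) := h _ (by
    intro k
    have := (_root_.abs_le.1 (u.norm_coe_le_norm k)).1
    change (0 : ℝ) ≤ ‖u‖ * 1 + u k
    linarith)
  rw [map_sub, map_smul, smul_eq_mul] at h1
  rw [map_add, map_smul, smul_eq_mul] at h2
  exact _root_.abs_le.2 ⟨by linarith, by linarith⟩

def SS (h : ℕ → C(K, ℝ)) : Set (WeakDual ℝ C(K, ℝ)) :=
  {Λ | Pos Λ ∧ Λ 1 ≤ 2 ∧ ∃ m, ∀ A : Finset ℕ, (∃ n ∈ A, m ≤ n) → Λ (∏ n ∈ A, h n) = 0}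

theorem isClosed_Pos : IsClosed {Λ : WeakDual ℝ C(K, ℝ) | Pos Λ} := by
  have : {Λ : WeakDual ℝ C(K, ℝ) | Pos Λ} = ⋂ g : C(K, ℝ), ⋂ (_ : 0 ≤ g), {Λ | 0 ≤ Λ g} := by
    ext Λ; simp [Pos]
  rw [this]
  exact isClosed_iInter fun g => isClosed_iInter fun _ =>
    isClosed_le continuous_const (WeakDual.eval_continuous g)

theorem isCompact_PosBall : IsCompact {Λ : WeakDual ℝ C(K, ℝ) | Pos Λ ∧ Λ 1 ≤ 2} := by
  have h1 := WeakDual.isCompact_closedBall (𝕜 := ℝ) (E := C(K, ℝ)) 0 2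
  have h2 : IsClosed {Λ : WeakDual ℝ C(K, ℝ) | Pos Λ ∧ Λ 1 ≤ 2} :=
    isClosed_Pos.inter (isClosed_le (WeakDual.eval_continuous 1) continuous_const)
  refine h1.of_isClosed_subset h2 ?_
  rintro Λ ⟨hp, h1⟩
  rw [mem_preimage, mem_closedBall_zero_iff]
  refine ContinuousLinearMap.opNorm_le_bound _ (by norm_num) fun u => ?_
  have h3 := hp.abs_le u
  have h4 : ‖u‖ * Λ 1 ≤ ‖u‖ * 2 := mul_le_mul_of_nonneg_left h1 (norm_nonneg _)
  change |Λ u| ≤ 2 * ‖u‖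
  linarith

theorem SS_pert (h : ℕ → C(K, ℝ)) (hsq : ∀ n, h n * h n = 1) (n : ℕ) (Λ : WeakDual ℝ C(K, ℝ))
    (hΛ : Λ ∈ SS h) (h2 : Λ 1 + Λ (h n) ≤ 2) : pert (h n) Λ ∈ SS h := by
  obtain ⟨hp, -, m, hm⟩ := hΛ
  have hge : ∀ k, -1 ≤ h n k := by
    intro k
    have h1 : h n k * h n k = 1 := by
      have := congrArg (fun u : C(K, ℝ) => u k) (hsq n)
      simpa using this
    nlinarith
  refine ⟨fun g hg => ?_, ?_, max m (n + 1), fun A hA => ?_⟩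
  · rw [pert_apply, ← map_add]
    apply hp
    intro k
    have h1 : (0 : ℝ) ≤ g k := hg k
    have h3 := hge k
    change (0 : ℝ) ≤ g k + h n k * g k
    nlinarith
  · rw [pert_apply, mul_one]
    exact h2
  · obtain ⟨p, hpA, hpm⟩ := hA
    have hpm1 : m ≤ p := (le_max_left _ _).trans hpm
    have hpn : n < p := lt_of_lt_of_le (Nat.lt_succ_self n) ((le_max_right _ _).trans hpm)
    rw [pert_apply, hm A ⟨p, hpA, hpm1⟩, zero_add]
    by_cases hnA : n ∈ A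
    · have e : h n * ∏ i ∈ A, h i = ∏ i ∈ A.erase n, h i := by
        rw [← Finset.mul_prod_erase A h hnA, ← mul_assoc, hsq, one_mul]
      rw [e]
      exact hm _ ⟨p, Finset.mem_erase.2 ⟨hpn.ne', hpA⟩, hpm1⟩
    · have e : h n * ∏ i ∈ A, h i = ∏ i ∈ insert n A, h i := (Finset.prod_insert hnA).symm
      rw [e]
      exact hm _ ⟨p, Finset.mem_insert_of_mem hpA, hpm1⟩

theorem SS_closure_pert (h : ℕ → C(K, ℝ)) (hsq : ∀ n, h n * h n = 1) (n : ℕ)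
    (Λ : WeakDual ℝ C(K, ℝ)) (hΛ : Λ ∈ closure (SS h)) (h2 : Λ 1 + Λ (h n) < 2) :
    pert (h n) Λ ∈ closure (SS h) := by
  have hO : IsOpen {Λ : WeakDual ℝ C(K, ℝ) | Λ 1 + Λ (h n) < 2} :=
    isOpen_lt ((WeakDual.eval_continuous 1).add (WeakDual.eval_continuous (h n))) continuous_const
  have h3 : Λ ∈ closure ({Λ : WeakDual ℝ C(K, ℝ) | Λ 1 + Λ (h n) < 2} ∩ SS h) :=
    hO.inter_closure ⟨h2, hΛ⟩
  exact map_mem_closure (pert_continuous (h n)) h3 fun Λ' h' => SS_pert h hsq n Λ' h'.2 (le_of_lt h'.1)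

/-- existence of the Haar-like functional -/
theorem exists_haar (h : ℕ → C(K, ℝ)) (hreal : ∀ a : ℕ → ℝ, (∀ n, a n = 1 ∨ a n = -1) →
      ∃ k : K, ∀ n, h n k = a n) :
    ∃ Λ : WeakDual ℝ C(K, ℝ), Pos Λ ∧ Λ 1 = 1 ∧ ∀ A : Finset ℕ, A.Nonempty → Λ (∏ n ∈ A, h n) = 0 := by
  classical
  have key : ∀ m : ℕ, ∀ a : ℕ → ℝ, (∀ n, a n = 1 ∨ a n = -1) → ∃ Λ : WeakDual ℝ C(K, ℝ),
      Pos Λ ∧ Λ 1 = 1 ∧ (∀ A : Finset ℕ, (∃ n ∈ A, n < m) → Λ (∏ n ∈ A, h n) = 0) ∧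
        (∀ A : Finset ℕ, (∀ n ∈ A, m ≤ n) → Λ (∏ n ∈ A, h n) = ∏ n ∈ A, a n) := by
    intro m
    induction m with
    | zero =>
      intro a ha
      obtain ⟨k, hk⟩ := hreal a ha
      let Λ : WeakDual ℝ C(K, ℝ) := StrongDual.toWeakDual (ContinuousMap.evalCLM ℝ k)
      have hΛ : ∀ u, Λ u = u k := fun u => rfl
      refine ⟨Λ, fun g hg => ?_, ?_, ?_, ?_⟩
      · rw [hΛ]; exact hg k
      · rw [hΛ]; rfl
      · rintro A ⟨n, -, hn⟩
        exact absurd hn (Nat.not_lt_zero n)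
      · intro A _
        rw [hΛ, ContinuousMap.coe_prod, Finset.prod_apply]
        exact Finset.prod_congr rfl fun n _ => hk n
    | succ m ih =>
      intro a ha
      obtain ⟨Λ₁, hp1, h11, hz1, hv1⟩ := ih (Function.update a m 1) (by
        intro n
        by_cases hn : n = m
        · subst hn; left; simp
        · rw [Function.update_of_ne hn]; exact ha n)
      obtain ⟨Λ₂, hp2, h12, hz2, hv2⟩ := ih (Function.update a m (-1)) (by
        intro n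
        by_cases hn : n = m
        · subst hn; right; simp
        · rw [Function.update_of_ne hn]; exact ha n)
      let Λ : WeakDual ℝ C(K, ℝ) := (1 / 2 : ℝ) • (Λ₁ + Λ₂)
      have hΛ : ∀ u, Λ u = 1 / 2 * (Λ₁ u + Λ₂ u) := fun u => rfl
      refine ⟨Λ, fun g hg => ?_, ?_, ?_, ?_⟩
      · rw [hΛ]
        have := hp1 g hg
        have := hp2 g hg
        positivity
      · rw [hΛ, h11, h12]; norm_num
      · rintro A ⟨n, hnA, hn⟩
        rw [hΛ]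
        by_cases hex : ∃ n ∈ A, n < m
        · rw [hz1 A hex, hz2 A hex]; norm_num
        · push Not at hex
          have hnm : n = m := le_antisymm (Nat.lt_succ_iff.1 hn) (hex n hnA)
          subst hnm
          rw [hv1 A hex, hv2 A hex]
          have e : ∀ c : ℝ, ∏ i ∈ A, Function.update a n c i = c * ∏ i ∈ A.erase n, a i := by
            intro c
            rw [← Finset.mul_prod_erase A _ hnA, Function.update_self]
            congr 1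
            exact Finset.prod_congr rfl fun i hi => Function.update_of_ne (Finset.ne_of_mem_erase hi) _ _
          rw [e, e]
          ring
      · intro A hA
        rw [hΛ]
        have hA' : ∀ n ∈ A, m ≤ n := fun n hn => (Nat.le_succ m).trans (hA n hn)
        rw [hv1 A hA', hv2 A hA']
        have e : ∀ c : ℝ, ∏ i ∈ A, Function.update a m c i = ∏ i ∈ A, a i := by
          intro c
          refine Finset.prod_congr rfl fun i hi => Function.update_of_ne ?_ _ _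
          have := hA i hi
          omega
        rw [e, e]
        ring
  -- compactness
  let F : ℕ → Set (WeakDual ℝ C(K, ℝ)) := fun m => {Λ | (Pos Λ ∧ Λ 1 ≤ 2) ∧ Λ 1 = 1 ∧
    ∀ A : Finset ℕ, (∃ n ∈ A, n < m) → Λ (∏ n ∈ A, h n) = 0}
  have hFcl : ∀ m, IsClosed (F m) := by
    intro m
    refine isCompact_PosBall.isClosed.inter ((isClosed_eq (WeakDual.eval_continuous 1)
      continuous_const).inter ?_)
    have : {Λ : WeakDual ℝ C(K, ℝ) | ∀ A : Finset ℕ, (∃ n ∈ A, n < m) → Λ (∏ n ∈ A, h n) = 0}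
        = ⋂ A : Finset ℕ, ⋂ (_ : ∃ n ∈ A, n < m), {Λ | Λ (∏ n ∈ A, h n) = 0} := by
      ext Λ; simp
    have h2 : IsClosed (⋂ A : Finset ℕ, ⋂ (_ : ∃ n ∈ A, n < m),
        {Λ : WeakDual ℝ C(K, ℝ) | Λ (∏ n ∈ A, h n) = 0}) :=
      isClosed_iInter fun A => isClosed_iInter fun _ =>
        isClosed_eq (WeakDual.eval_continuous _) continuous_const
    rw [← this] at h2
    exact h2
  have hFne : (⋂ m, F m).Nonempty := by
    refine IsCompact.nonempty_iInter_of_sequence_nonempty_isCompact_isClosed F ?_ ?_ ?_ hFcl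
    · intro m Λ hΛ
      exact ⟨hΛ.1, hΛ.2.1, fun A ⟨n, hnA, hn⟩ => hΛ.2.2 A ⟨n, hnA, hn.trans (Nat.lt_succ_self m)⟩⟩
    · intro m
      obtain ⟨Λ, hp, h1, hz, -⟩ := key m (fun _ => 1) (fun _ => Or.inl rfl)
      exact ⟨Λ, ⟨hp, by rw [h1]; norm_num⟩, h1, hz⟩
    · exact isCompact_PosBall.of_isClosed_subset (hFcl 0) fun Λ hΛ => hΛ.1
  obtain ⟨Λ, hΛ⟩ := hFne
  rw [mem_iInter] at hΛ
  refine ⟨Λ, (hΛ 0).1.1, (hΛ 0).2.1, fun A ⟨n, hn⟩ => (hΛ (n + 1)).2.2 A ⟨n, hn, Nat.lt_succ_self n⟩⟩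

theorem generic_measure (h : ℕ → C(K, ℝ)) (hsq : ∀ n, h n * h n = 1)
    (hreal : ∀ a : ℕ → ℝ, (∀ n, a n = 1 ∨ a n = -1) → ∃ k : K, ∀ n, h n k = a n)
    {P : Type*} [Countable P] (C : P → Set (WeakDual ℝ C(K, ℝ))) (hC : ∀ p, IsClosed (C p)) :
    ∃ Λ : WeakDual ℝ C(K, ℝ), Pos Λ ∧ 1 / 2 < Λ 1 ∧ Λ 1 < 3 / 2 ∧
      (∀ N : ℕ, ∃ n ≥ N, |Λ (h n)| < (1 / 2) ^ N ∧ ∀ k < N, |Λ (h k * h n)| < (1 / 2) ^ N) ∧
      ∀ p, Λ ∈ C p → ∃ O ∈ 𝓝 Λ, ∀ n, |Λ (h n)| < 1 / 2 → pert (h n) Λ ∈ O → pert (h n) Λ ∈ C p := by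
  classical
  set 𝒬 := closure (SS h) with h𝒬
  have hSSsub : SS h ⊆ {Λ : WeakDual ℝ C(K, ℝ) | Pos Λ ∧ Λ 1 ≤ 2} := fun Λ hΛ => ⟨hΛ.1, hΛ.2.1⟩
  have hQsub : 𝒬 ⊆ {Λ : WeakDual ℝ C(K, ℝ) | Pos Λ ∧ Λ 1 ≤ 2} :=
    closure_minimal hSSsub isCompact_PosBall.isClosed
  have hQc : IsCompact 𝒬 := isCompact_PosBall.of_isClosed_subset isClosed_closure hQsub
  have : CompactSpace 𝒬 := isCompact_iff_compactSpace.1 hQc
  let U : ℕ → Set (WeakDual ℝ C(K, ℝ)) := fun N =>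
    {Λ | ∃ n ≥ N, |Λ (h n)| < (1 / 2) ^ N ∧ ∀ k < N, |Λ (h k * h n)| < (1 / 2) ^ N}
  have hUo : ∀ N, IsOpen (U N) := by
    intro N
    have h1 : U N = ⋃ n, ⋃ (_ : n ≥ N), ({Λ | |Λ (h n)| < (1 / 2) ^ N} ∩
        ⋂ k ∈ Finset.range N, {Λ | |Λ (h k * h n)| < (1 / 2) ^ N}) := by
      ext Λ
      simp only [U, mem_ofPred_eq, mem_iUnion, mem_inter_iff, mem_iInter, Finset.mem_range]
      constructor
      · rintro ⟨n, hn, h1, h2⟩
        exact ⟨n, hn, h1, h2⟩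
      · rintro ⟨n, hn, h1, h2⟩
        exact ⟨n, hn, h1, h2⟩
    rw [h1]
    refine isOpen_iUnion fun n => isOpen_iUnion fun _ => IsOpen.inter ?_ ?_
    · exact isOpen_lt (WeakDual.eval_continuous _).abs continuous_const
    · exact isOpen_biInter_finset fun k _ =>
        isOpen_lt (WeakDual.eval_continuous _).abs continuous_const
  have hSU : ∀ N, SS h ⊆ U N := by
    rintro N Λ ⟨-, -, m, hm⟩
    refine ⟨max N m, le_max_left _ _, ?_, fun k hk => ?_⟩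
    · have h1 := hm {max N m} ⟨max N m, Finset.mem_singleton_self _, le_max_right _ _⟩
      rw [Finset.prod_singleton] at h1
      rw [h1, abs_zero]; positivity
    · have hne : k ≠ max N m := (lt_of_lt_of_le hk (le_max_left _ _)).ne
      have h1 := hm {k, max N m} ⟨max N m, by simp, le_max_right _ _⟩
      rw [Finset.prod_pair hne] at h1
      rw [h1, abs_zero]; positivity
  let f : ℕ ⊕ P → Set 𝒬 := fun k => match k with
    | Sum.inl N => ((↑) ⁻¹' (U N) : Set 𝒬)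
    | Sum.inr p => (frontier ((↑) ⁻¹' (C p) : Set 𝒬))ᶜ
  have hfo : ∀ k, IsOpen (f k) := by
    rintro (N | p)
    · exact (hUo N).preimage continuous_subtype_val
    · exact isClosed_frontier.isOpen_compl
  have hdense : Dense ((↑) ⁻¹' (SS h) : Set 𝒬) := by
    intro x
    rw [closure_subtype, Subtype.image_preimage_coe, inter_eq_right.2 subset_closure]
    exact x.2
  have hfd : ∀ k, Dense (f k) := by
    rintro (N | p)
    · exact hdense.mono (preimage_mono (hSU N))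
    · rw [← interior_eq_empty_iff_dense_compl]
      exact interior_frontier ((hC p).preimage continuous_subtype_val)
  have hW : IsOpen ((↑) ⁻¹' {Λ : WeakDual ℝ C(K, ℝ) | 1 / 2 < Λ 1 ∧ Λ 1 < 3 / 2} : Set 𝒬) := by
    refine IsOpen.preimage continuous_subtype_val ?_
    exact (isOpen_lt continuous_const (WeakDual.eval_continuous 1)).inter
      (isOpen_lt (WeakDual.eval_continuous 1) continuous_const)
  have hWne : ((↑) ⁻¹' {Λ : WeakDual ℝ C(K, ℝ) | 1 / 2 < Λ 1 ∧ Λ 1 < 3 / 2} : Set 𝒬).Nonempty := by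
    obtain ⟨Λ, hp, h1, hz⟩ := exists_haar h hreal
    refine ⟨⟨Λ, subset_closure ⟨hp, by rw [h1]; norm_num, 0, fun A ⟨n, hn, _⟩ => hz A ⟨n, hn⟩⟩⟩, ?_⟩
    simp only [mem_preimage, mem_ofPred_eq]
    rw [h1]
    norm_num
  obtain ⟨⟨Λ, hΛQ⟩, hΛW, hΛ⟩ := (dense_iInter_of_isOpen hfo hfd).inter_open_nonempty _ hW hWne
  rw [mem_iInter] at hΛ
  refine ⟨Λ, (hQsub hΛQ).1, hΛW.1, hΛW.2, fun N => hΛ (Sum.inl N), fun p hp => ?_⟩
  have h1 : (⟨Λ, hΛQ⟩ : 𝒬) ∉ frontier ((↑) ⁻¹' (C p) : Set 𝒬) := hΛ (Sum.inr p)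
  have h2 : (⟨Λ, hΛQ⟩ : 𝒬) ∈ interior ((↑) ⁻¹' (C p) : Set 𝒬) := by
    by_contra h
    exact h1 ⟨subset_closure hp, h⟩
  rw [mem_interior_iff_mem_nhds, nhds_subtype_eq_comap, mem_comap] at h2
  obtain ⟨O, hO, hO2⟩ := h2
  refine ⟨O, hO, fun n hn hnO => ?_⟩
  have h3 : pert (h n) Λ ∈ 𝒬 := by
    refine SS_closure_pert h hsq n Λ hΛQ ?_
    have h4 := (abs_lt.1 hn).2
    have h5 : Λ 1 < 3 / 2 := hΛW.2
    linarith
  exact hO2 (show (⟨pert (h n) Λ, h3⟩ : 𝒬) ∈ (↑) ⁻¹' O from hnO)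

end GM

end Pool.Agent.Helper568.Dent
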