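import Pool.Agent.Helper568.Dent13

set_option autoImplicit false
set_option linter.unusedSectionVars false

open Filter Set Topology

namespace Pool.Agent.Helper568.Dent

section WN

variable {K : Type*} [TopologicalSpace K] [CompactSpace K]

/-- the module action `g ↦ g Λ` -/
noncomputable def Lm (Λ : WeakDual ℝ C(K, ℝ)) : C(K, ℝ) →ₗ[ℝ] StrongDual ℝ C(K, ℝ) where
  toFun g := (WeakDual.toStrongDual Λ).comp (ContinuousLinearMap.mul ℝ C(K, ℝ) g)
  map_add' g g' := by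
    ext u
    simp [add_mul]
  map_smul' r g := by
    ext u
    simp

theorem Lm_apply (Λ : WeakDual ℝ C(K, ℝ)) (g u : C(K, ℝ)) : Lm Λ g u = Λ (g * u) := rfl

theorem cs_ineq {Λ : WeakDual ℝ C(K, ℝ)} (hp : Pos Λ) (g u : C(K, ℝ)) {s : ℝ} (hs : 0 < s) :
    |Λ (g * u)| ≤ (s ^ 2 * Λ (g * g) + Λ (u * u)) / (2 * s) := by
  have h1 : 0 ≤ Λ ((s • g + u) * (s • g + u)) := hp _ fun k => mul_self_nonneg ((s • g + u) k)
  have h2 : 0 ≤ Λ ((s • g - u) * (s • g - u)) := hp _ fun k => mul_self_nonneg ((s • g - u) k)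
  have e1 : (s • g + u) * (s • g + u) = (s ^ 2) • (g * g) + (2 * s) • (g * u) + u * u := by
    ext k; simp; ring
  have e2 : (s • g - u) * (s • g - u) = (s ^ 2) • (g * g) - (2 * s) • (g * u) + u * u := by
    ext k; simp; ring
  rw [e1, map_add, map_add, map_smul, map_smul, smul_eq_mul, smul_eq_mul] at h1
  rw [e2, map_add, map_sub, map_smul, map_smul, smul_eq_mul, smul_eq_mul] at h2
  rw [le_div_iff₀ (by positivity)]
  rcases abs_cases (Λ (g * u)) with ⟨h, -⟩ | ⟨h, -⟩ <;> rw [h] <;> nlinarith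

theorem norm_Lm_le {Λ : WeakDual ℝ C(K, ℝ)} (hp : Pos Λ) (h1 : Λ 1 ≤ 3 / 2) (g : C(K, ℝ)) {s : ℝ}
    (hs : 0 < s) : ‖Lm Λ g‖ ≤ (s ^ 2 * Λ (g * g) + 3 / 2) / (2 * s) := by
  have hgg : 0 ≤ Λ (g * g) := hp _ fun k => mul_self_nonneg (g k)
  refine ContinuousLinearMap.opNorm_le_of_unit_norm (by positivity) fun u hu => ?_
  rw [Real.norm_eq_abs, Lm_apply]
  refine (cs_ineq hp g u hs).trans ?_
  have h2 := (_root_.abs_le.1 (hp.abs_le (u * u))).2
  have h3 : ‖u * u‖ ≤ 1 := (norm_mul_le u u).trans (by rw [hu]; norm_num)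
  have h4 : 0 ≤ Λ 1 := hp _ fun k => zero_le_one
  have h5 : Λ (u * u) ≤ 3 / 2 := by nlinarith [norm_nonneg (u * u)]
  gcongr

theorem quad_bound {Λ : WeakDual ℝ C(K, ℝ)} (hp : Pos Λ) (h1 : Λ 1 ≤ 3 / 2)
    (e : ℕ → C(K, ℝ)) (he : ∀ n, e n * e n = 1)
    (horth : ∀ i j, i < j → |Λ (e i * e j)| ≤ (1 / 2) ^ j) (a : ℕ → ℝ) (M : ℝ)
    (hM : ∀ j, |a j| ≤ M) (J : ℕ) :
    Λ ((∑ j ∈ Finset.range J, a j • e j) * (∑ j ∈ Finset.range J, a j • e j)) ≤
      3 / 2 * (∑ j ∈ Finset.range J, a j ^ 2) +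
        2 * M ^ 2 * ∑ j ∈ Finset.range J, ((j : ℝ) * (1 / 2) ^ j) := by
  have hM0 : 0 ≤ M := (abs_nonneg _).trans (hM 0)
  induction J with
  | zero => simp
  | succ J ih =>
    rw [Finset.sum_range_succ, Finset.sum_range_succ (fun j => a j ^ 2),
      Finset.sum_range_succ (fun j : ℕ => (j : ℝ) * (1 / 2) ^ j)]
    set G := ∑ j ∈ Finset.range J, a j • e j with hG
    have e1 : (G + a J • e J) * (G + a J • e J) = G * G + (2 * a J) • (G * e J) + (a J ^ 2) • 1 := by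
      rw [← he J]
      ext k; simp; ring
    rw [e1, map_add, map_add, map_smul, map_smul, smul_eq_mul, smul_eq_mul]
    have h2 : |Λ (G * e J)| ≤ M * ((J : ℝ) * (1 / 2) ^ J) := by
      have e2 : G * e J = ∑ j ∈ Finset.range J, a j • (e j * e J) := by
        rw [hG, Finset.sum_mul]
        exact Finset.sum_congr rfl fun j _ => smul_mul_assoc _ _ _
      rw [e2, map_sum]
      calc |∑ j ∈ Finset.range J, Λ (a j • (e j * e J))|
          ≤ ∑ j ∈ Finset.range J, |Λ (a j • (e j * e J))| := Finset.abs_sum_le_sum_abs _ _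
        _ ≤ ∑ j ∈ Finset.range J, M * (1 / 2) ^ J := by
            refine Finset.sum_le_sum fun j hj => ?_
            rw [map_smul, smul_eq_mul, abs_mul]
            exact mul_le_mul (hM j) (horth j J (Finset.mem_range.1 hj)) (abs_nonneg _) hM0
        _ = M * ((J : ℝ) * (1 / 2) ^ J) := by
            rw [Finset.sum_const, Finset.card_range, nsmul_eq_mul]; ring
    have h3 : 2 * a J * Λ (G * e J) ≤ 2 * M ^ 2 * ((J : ℝ) * (1 / 2) ^ J) := by
      calc 2 * a J * Λ (G * e J) ≤ |2 * a J * Λ (G * e J)| := le_abs_self _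
        _ = 2 * (|a J| * |Λ (G * e J)|) := by
            rw [abs_mul, abs_mul, abs_of_pos (by norm_num : (0 : ℝ) < 2)]; ring
        _ ≤ 2 * (M * (M * ((J : ℝ) * (1 / 2) ^ J))) := by
            gcongr
            exact hM J
        _ = _ := by ring
    have h4 : a J ^ 2 * Λ 1 ≤ a J ^ 2 * (3 / 2) := mul_le_mul_of_nonneg_left h1 (sq_nonneg _)
    nlinarith

theorem weak_null {Λ : WeakDual ℝ C(K, ℝ)} (hp : Pos Λ) (h1 : Λ 1 ≤ 3 / 2)
    (e : ℕ → C(K, ℝ)) (he : ∀ n, e n * e n = 1)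
    (horth : ∀ i j, i < j → |Λ (e i * e j)| ≤ (1 / 2) ^ j)
    (Ψ : StrongDual ℝ C(K, ℝ) →ₗ[ℝ] ℝ) (B : ℝ) (hΨ0 : 0 ≤ B) (hΨ : ∀ Λ', |Ψ Λ'| ≤ B * ‖Λ'‖) :
    Tendsto (fun j => Ψ (Lm Λ (e j))) atTop (𝓝 0) := by
  set a : ℕ → ℝ := fun j => Ψ (Lm Λ (e j)) with ha
  have hsmm : Summable (fun j : ℕ => (j : ℝ) * (1 / 2 : ℝ) ^ j) := by
    have := summable_pow_mul_geometric_of_norm_lt_one (R := ℝ) 1 (r := 1 / 2) (by norm_num)
    simpa using this
  set D := ∑' j : ℕ, ((j : ℝ) * (1 / 2 : ℝ) ^ j) with hD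
  have hnn : ∀ j : ℕ, 0 ≤ (j : ℝ) * (1 / 2 : ℝ) ^ j := fun j => by positivity
  have hD0 : 0 ≤ D := tsum_nonneg hnn
  have hΛee : ∀ j, Λ (e j * e j) ≤ 3 / 2 := fun j => by rw [he]; exact h1
  -- the bound on `a`
  have haM : ∀ j, |a j| ≤ B * (3 / 2) := by
    intro j
    have h2 : ‖Lm Λ (e j)‖ ≤ 3 / 2 := by
      refine (norm_Lm_le hp h1 (e j) (s := 1) one_pos).trans ?_
      have := hΛee j
      rw [div_le_iff₀ (by norm_num)]
      linarith
    calc |a j| ≤ B * ‖Lm Λ (e j)‖ := hΨ _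
      _ ≤ B * (3 / 2) := by gcongr
  set M := B * (3 / 2) with hM
  set s : ℝ := 2 / (3 * (B + 1)) with hs
  have hs0 : 0 < s := by rw [hs]; positivity
  have hbd : ∀ J, ∑ j ∈ Finset.range J, a j ^ 2 ≤
      2 * (B * ((s ^ 2 * (2 * M ^ 2 * D) + 3 / 2) / (2 * s))) := by
    intro J
    set S := ∑ j ∈ Finset.range J, a j ^ 2 with hS
    set G := ∑ j ∈ Finset.range J, a j • e j with hG
    have hS0 : 0 ≤ S := Finset.sum_nonneg fun j _ => sq_nonneg _
    have e1 : Ψ (Lm Λ G) = S := by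
      rw [hG, map_sum, map_sum, hS]
      refine Finset.sum_congr rfl fun j _ => ?_
      rw [map_smul, map_smul, smul_eq_mul, sq]
    have h2 : Λ (G * G) ≤ 3 / 2 * S + 2 * M ^ 2 * D := by
      refine (quad_bound hp h1 e he horth a M haM J).trans ?_
      have : ∑ j ∈ Finset.range J, ((j : ℝ) * (1 / 2) ^ j) ≤ D := hsmm.sum_le_tsum _ fun j _ => hnn j
      gcongr
    have h3 : S ≤ B * ((s ^ 2 * (3 / 2 * S + 2 * M ^ 2 * D) + 3 / 2) / (2 * s)) := by
      calc S = Ψ (Lm Λ G) := e1.symm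
        _ ≤ |Ψ (Lm Λ G)| := le_abs_self _
        _ ≤ B * ‖Lm Λ G‖ := hΨ _
        _ ≤ B * ((s ^ 2 * Λ (G * G) + 3 / 2) / (2 * s)) := by
            gcongr
            exact norm_Lm_le hp h1 G hs0
        _ ≤ _ := by gcongr
    have e2 : B * ((s ^ 2 * (3 / 2 * S + 2 * M ^ 2 * D) + 3 / 2) / (2 * s)) =
        B * s * (3 / 4) * S + B * ((s ^ 2 * (2 * M ^ 2 * D) + 3 / 2) / (2 * s)) := by
      field_simp
      ring
    have h4 : B * s * (3 / 4) ≤ 1 / 2 := by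
      have e3 : B * s * (3 / 4) = (B / (B + 1)) / 2 := by
        rw [hs]; field_simp; ring
      have h5 : B / (B + 1) ≤ 1 := by
        rw [div_le_one (by positivity)]; linarith
      rw [e3]; linarith
    rw [e2] at h3
    have h6 : B * s * (3 / 4) * S ≤ 1 / 2 * S := mul_le_mul_of_nonneg_right h4 hS0
    linarith
  have hsum : Summable (fun j => a j ^ 2) := summable_of_sum_range_le (fun j => sq_nonneg _) hbd
  have h5 := hsum.tendsto_atTop_zero
  have h6 : Tendsto (fun j => |a j|) atTop (𝓝 0) := by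
    have h7 := h5.sqrt
    rw [Real.sqrt_zero] at h7
    refine h7.congr fun j => ?_
    exact Real.sqrt_sq_eq_abs _
  exact (tendsto_zero_iff_abs_tendsto_zero _).2 h6

end WN

end Pool.Agent.Helper568.Dent
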