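import Pool.Agent.Helper568.Dent14

set_option autoImplicit false
set_option linter.unusedSectionVars false

open Filter Set Topology

namespace Pool.Agent.Helper568.Dent

section Conv

variable {X : Type*} [NormedAddCommGroup X] [NormedSpace ℝ X]

/-- every sign pattern is realised on the basis by a bounded functional -/
theorem exists_sign_functional (T : lp (fun _ : ℕ => ℝ) 1 →L[ℝ] X) (c : ℝ) (hc : 0 < c)
    (hT : ∀ y, c * ‖y‖ ≤ ‖T y‖) (a : ℕ → ℝ) (ha : ∀ n, a n = 1 ∨ a n = -1) :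
    ∃ k : StrongDual ℝ X, ‖k‖ ≤ c⁻¹ ∧ ∀ n, k (T (lp.single 1 n 1)) = a n := by
  classical
  have hs : ∀ v : lp (fun _ : ℕ => ℝ) 1, Summable (fun i => ‖v i‖) := by
    intro v
    have := (lp.memℓp v).summable (by norm_num)
    simpa using this
  have hn : ∀ v : lp (fun _ : ℕ => ℝ) 1, ‖v‖ = ∑' i, ‖v i‖ := by
    intro v
    rw [lp.norm_eq_tsum_rpow (by norm_num)]
    simp
  have ha1 : ∀ n, |a n| = 1 := by
    intro n
    rcases ha n with h | h <;> rw [h] <;> simp
  have hle : ∀ (v : lp (fun _ : ℕ => ℝ) 1) i, ‖v i * a i‖ ≤ ‖v i‖ := by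
    intro v i
    rw [norm_mul, Real.norm_eq_abs (a i), ha1, mul_one]
  have hs2 : ∀ v : lp (fun _ : ℕ => ℝ) 1, Summable (fun i => v i * a i) := fun v =>
    Summable.of_norm_bounded (hs v) (hle v)
  let S : lp (fun _ : ℕ => ℝ) 1 →ₗ[ℝ] ℝ :=
    { toFun := fun v => ∑' i, v i * a i
      map_add' := fun v w => by
        rw [← (hs2 v).tsum_add (hs2 w)]
        exact tsum_congr fun i => by rw [lp.coeFn_add, Pi.add_apply, add_mul]
      map_smul' := fun r v => by
        rw [RingHom.id_apply, ← (hs2 v).tsum_const_smul r]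
        exact tsum_congr fun i => by
          rw [lp.coeFn_smul, Pi.smul_apply, smul_eq_mul, smul_eq_mul, mul_assoc] }
  have hSd : ∀ v, S v = ∑' i, v i * a i := fun v => rfl
  have hSn : ∀ v, ‖S v‖ ≤ ‖v‖ := by
    intro v
    rw [hSd, hn]
    exact tsum_of_norm_bounded (hs v).hasSum (hle v)
  have hinj : Function.Injective (T : lp (fun _ : ℕ => ℝ) 1 →ₗ[ℝ] X) := by
    intro u v huv
    have huv' : T u = T v := huv
    have h1 := hT (u - v)
    rw [map_sub, huv', sub_self, norm_zero] at h1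
    have h2 : ‖u - v‖ ≤ 0 := by
      by_contra hcon
      push Not at hcon
      have := mul_pos hc hcon
      linarith
    exact sub_eq_zero.1 (norm_le_zero_iff.1 h2)
  let eqv := LinearEquiv.ofInjective (T : lp (fun _ : ℕ => ℝ) 1 →ₗ[ℝ] X) hinj
  have heqv : ∀ v, ((eqv v : (T : lp (fun _ : ℕ => ℝ) 1 →ₗ[ℝ] X).range) : X) = T v := fun v => rfl
  let k0 : (T : lp (fun _ : ℕ => ℝ) 1 →ₗ[ℝ] X).range →ₗ[ℝ] ℝ := S ∘ₗ eqv.symm.toLinearMap
  have hk0 : ∀ v, k0 (eqv v) = S v := by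
    intro v
    change S (eqv.symm (eqv v)) = S v
    rw [LinearEquiv.symm_apply_apply]
  have hk0n : ∀ z, ‖k0 z‖ ≤ c⁻¹ * ‖z‖ := by
    intro z
    obtain ⟨v, rfl⟩ := eqv.surjective z
    rw [hk0]
    have h1 := hT v
    have h2 : ‖eqv v‖ = ‖T v‖ := rfl
    rw [h2]
    refine (hSn v).trans ?_
    rw [inv_mul_eq_div, le_div_iff₀ hc]
    linarith
  let k1 : StrongDual ℝ (T : lp (fun _ : ℕ => ℝ) 1 →ₗ[ℝ] X).range := k0.mkContinuous c⁻¹ hk0n
  obtain ⟨k, hk, hkn⟩ := exists_extension_norm_eq _ k1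
  refine ⟨k, ?_, fun n => ?_⟩
  · rw [hkn]
    exact LinearMap.mkContinuous_norm_le _ (by positivity) _
  · have h1 := hk (eqv (lp.single 1 n 1))
    rw [heqv] at h1
    rw [h1]
    change k0 (eqv (lp.single 1 n 1)) = a n
    rw [hk0, hSd, tsum_eq_single n]
    · simp
    · intro m hm
      rw [lp.single_apply, Pi.single_eq_of_ne hm, zero_mul]

end Conv

end Pool.Agent.Helper568.Dent
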