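import Pool.Agent.Helper568.Dent15

set_option autoImplicit false
set_option linter.unusedSectionVars false

open Filter Set Topology

namespace Pool.Agent.Helper568.Dent

section Conv

variable {X : Type*} [NormedAddCommGroup X] [NormedSpace ℝ X]

theorem subseq {K : Type*} [TopologicalSpace K] [CompactSpace K] (h : ℕ → C(K, ℝ))
    (Λ : WeakDual ℝ C(K, ℝ))
    (hseq : ∀ N : ℕ, ∃ n ≥ N, |Λ (h n)| < (1 / 2) ^ N ∧ ∀ k < N, |Λ (h k * h n)| < (1 / 2) ^ N) :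
    ∃ n : ℕ → ℕ, (∀ j, |Λ (h (n j))| ≤ (1 / 2) ^ j) ∧
      ∀ i j, i < j → |Λ (h (n i) * h (n j))| ≤ (1 / 2) ^ j := by
  choose p hp1 hp2 hp3 using hseq
  let M : ℕ → ℕ := fun j => Nat.rec 0 (fun _ m => p m + 1) j
  have hM : ∀ j, M (j + 1) = p (M j) + 1 := fun j => rfl
  have hMj : ∀ j, j ≤ M j := by
    intro j
    induction j with
    | zero => exact Nat.zero_le _
    | succ j ih =>
      rw [hM]
      have := hp1 (M j)
      omega
  have hMm : StrictMono M := strictMono_nat_of_lt_succ fun j => by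
    rw [hM]
    have := hp1 (M j)
    omega
  have hpow : ∀ j, ((1 : ℝ) / 2) ^ (M j) ≤ (1 / 2) ^ j := fun j =>
    pow_le_pow_of_le_one (by norm_num) (by norm_num) (hMj j)
  refine ⟨fun j => p (M j), fun j => (hp2 (M j)).le.trans (hpow j), fun i j hij => ?_⟩
  refine (hp3 (M j) (p (M i)) ?_).le.trans (hpow j)
  have h1 : M (i + 1) ≤ M j := hMm.monotone hij
  rw [hM] at h1
  omega

/-- If `X` contains `ℓ₁`, no dual norm has all its sphere points weak-to-norm continuous. -/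
theorem not_l1_of_wn (N : X → ℝ)
    (hN2 : ∀ (r : ℝ) (x : X), N (r • x) = |r| * N x)
    (hN3 : ∃ c C : ℝ, 0 < c ∧ ∀ x, c * ‖x‖ ≤ N x ∧ N x ≤ C * ‖x‖)
    (hwn : ∀ f : X →L[ℝ] ℝ, (∀ x, f x ≤ N x) → (∀ ε : ℝ, 0 < ε → ∃ x, N x ≤ 1 ∧ 1 - ε < f x) →
         ∀ ε : ℝ, 0 < ε → ∃ F : Finset ((X →L[ℝ] ℝ) →L[ℝ] ℝ), ∃ δ : ℝ, 0 < δ ∧
           ∀ g : X →L[ℝ] ℝ, (∀ x, g x ≤ N x) → (∀ φ ∈ F, |φ (g - f)| < δ) → ‖g - f‖ < ε) :
    ¬ ∃ T : lp (fun _ : ℕ => ℝ) 1 →L[ℝ] X, ∃ c : ℝ, 0 < c ∧ ∀ y, c * ‖y‖ ≤ ‖T y‖ := by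
  classical
  rintro ⟨T, c, hc, hT⟩
  obtain ⟨c1, C1, hc1, hN3⟩ := hN3
  have hN0 : ∀ x, 0 ≤ N x := fun x => (by positivity : 0 ≤ c1 * ‖x‖).trans (hN3 x).1
  set y : ℕ → X := fun n => T (lp.single 1 n 1) with hy
  have hyT : ∀ n, ‖y n‖ ≤ ‖T‖ := by
    intro n
    refine (T.le_opNorm _).trans ?_
    rw [lp.norm_single (by norm_num)]
    simp
  let Kset : Set (WeakDual ℝ X) :=
    {k | ‖WeakDual.toStrongDual k‖ ≤ c⁻¹ ∧ ∀ n, k (y n) = 1 ∨ k (y n) = -1}
  have hKc : IsCompact Kset := by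
    have h1 := WeakDual.isCompact_closedBall (𝕜 := ℝ) (E := X) 0 c⁻¹
    have h2 : IsClosed {k : WeakDual ℝ X | ∀ n, k (y n) = 1 ∨ k (y n) = -1} := by
      have : {k : WeakDual ℝ X | ∀ n, k (y n) = 1 ∨ k (y n) = -1} =
          ⋂ n, ((fun k : WeakDual ℝ X => k (y n)) ⁻¹' ({1, -1} : Set ℝ)) := by
        ext k; simp
      rw [this]
      exact isClosed_iInter fun n => (Set.toFinite ({1, -1} : Set ℝ)).isClosed.preimage
        (WeakDual.eval_continuous (y n))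
    have h3 : Kset = (WeakDual.toStrongDual ⁻¹' Metric.closedBall 0 c⁻¹ : Set (WeakDual ℝ X)) ∩
        {k : WeakDual ℝ X | ∀ n, k (y n) = 1 ∨ k (y n) = -1} := by
      ext k
      simp only [Kset, mem_ofPred_eq, mem_inter_iff, mem_preimage, mem_closedBall_zero_iff]
    rw [h3]
    exact h1.inter_right h2
  have : CompactSpace Kset := isCompact_iff_compactSpace.1 hKc
  let h : ℕ → C(Kset, ℝ) := fun n =>
    ⟨fun k => k.1 (y n), (WeakDual.eval_continuous (y n)).comp continuous_subtype_val⟩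
  let ev : X →ₗ[ℝ] C(Kset, ℝ) :=
    { toFun := fun x => ⟨fun k => k.1 x, (WeakDual.eval_continuous x).comp continuous_subtype_val⟩
      map_add' := fun x x' => by ext k; exact map_add (WeakDual.toStrongDual k.1) x x'
      map_smul' := fun r x => by ext k; exact map_smul (WeakDual.toStrongDual k.1) r x }
  have hevy : ∀ n, ev (y n) = h n := fun n => rfl
  have hev : ∀ x, ‖ev x‖ ≤ c⁻¹ * ‖x‖ := by
    intro x
    rw [ContinuousMap.norm_le _ (by positivity)]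
    intro k
    exact ((WeakDual.toStrongDual k.1).le_opNorm x).trans
      (mul_le_mul_of_nonneg_right k.2.1 (norm_nonneg _))
  have hsq : ∀ n, h n * h n = 1 := by
    intro n
    ext k
    change k.1 (y n) * k.1 (y n) = 1
    rcases k.2.2 n with h | h <;> rw [h] <;> norm_num
  have hreal : ∀ a : ℕ → ℝ, (∀ n, a n = 1 ∨ a n = -1) → ∃ k : Kset, ∀ n, h n k = a n := by
    intro a ha
    obtain ⟨k, hk1, hk2⟩ := exists_sign_functional T c hc hT a ha
    refine ⟨⟨StrongDual.toWeakDual k, hk1, fun n => ?_⟩, fun n => hk2 n⟩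
    have : (StrongDual.toWeakDual k) (y n) = a n := hk2 n
    rw [this]
    exact ha n
  have hGb : ∀ (Λ' : StrongDual ℝ C(Kset, ℝ)) (x : X),
      ‖(Λ'.toLinearMap ∘ₗ ev) x‖ ≤ ‖Λ'‖ * c⁻¹ * ‖x‖ := by
    intro Λ' x
    refine (Λ'.le_opNorm (ev x)).trans ?_
    rw [mul_assoc]
    exact mul_le_mul_of_nonneg_left (hev x) (norm_nonneg _)
  let Gl : StrongDual ℝ C(Kset, ℝ) →ₗ[ℝ] (X →L[ℝ] ℝ) :=
    { toFun := fun Λ' => (Λ'.toLinearMap ∘ₗ ev).mkContinuous (‖Λ'‖ * c⁻¹) (hGb Λ')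
      map_add' := fun a b => by ext x; rfl
      map_smul' := fun r a => by ext x; rfl }
  have hGl : ∀ Λ' x, Gl Λ' x = Λ' (ev x) := fun Λ' x => rfl
  have hGln : ∀ Λ', ‖Gl Λ'‖ ≤ ‖Λ'‖ * c⁻¹ := fun Λ' =>
    LinearMap.mkContinuous_norm_le _ (by positivity) (hGb Λ')
  obtain ⟨Λ, hp, h1, h2, hseq, hgen⟩ := generic_measure h hsq hreal (P := ℚ)
    (fun q => {Λ | ∀ x, Λ (ev x) ≤ q * N x}) (fun q => by
      have : {Λ : WeakDual ℝ C(Kset, ℝ) | ∀ x, Λ (ev x) ≤ q * N x} =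
          ⋂ x, {Λ | Λ (ev x) ≤ q * N x} := by ext Λ; simp
      rw [this]
      exact isClosed_iInter fun x => isClosed_le (WeakDual.eval_continuous _) continuous_const)
  obtain ⟨n, hn1, hn2⟩ := subseq h Λ hseq
  have hwnull := fun Ψ B hΨ0 hΨ => weak_null hp h2.le (fun j => h (n j)) (fun j => hsq (n j)) hn2 Ψ B hΨ0 hΨ
  have hpert : Tendsto (fun j => pert (h (n j)) Λ) atTop (𝓝 Λ) := by
    rw [tendsto_iff_forall_eval_tendsto_topDualPairing]
    intro u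
    have h3 := hwnull
      { toFun := fun Λ' => Λ' u
        map_add' := fun a b => rfl
        map_smul' := fun r a => rfl } ‖u‖ (norm_nonneg _) (fun Λ' => by
          rw [mul_comm]; exact Λ'.le_opNorm u)
    have h4 : Tendsto (fun j => Λ u + Λ (h (n j) * u)) atTop (𝓝 (Λ u + 0)) :=
      tendsto_const_nhds.add h3
    rw [add_zero] at h4
    exact h4
  have hev2 : ∀ q : ℚ, (∀ x, Λ (ev x) ≤ q * N x) →
      ∀ᶠ j in atTop, ∀ x, Λ (ev x) + Λ (h (n j) * ev x) ≤ q * N x := by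
    intro q hq
    obtain ⟨O, hO, hO2⟩ := hgen q hq
    filter_upwards [hpert hO, eventually_ge_atTop 2] with j hj hj2
    refine hO2 (n j) ?_ hj
    refine (hn1 j).trans_lt ?_
    calc ((1 : ℝ) / 2) ^ j ≤ (1 / 2) ^ 2 := pow_le_pow_of_le_one (by norm_num) (by norm_num) hj2
      _ < 1 / 2 := by norm_num
  have hq14 : ∀ j ≥ 2, |Λ (h (n j))| ≤ 1 / 4 := by
    intro j hj
    refine (hn1 j).trans ?_
    calc ((1 : ℝ) / 2) ^ j ≤ (1 / 2) ^ 2 := pow_le_pow_of_le_one (by norm_num) (by norm_num) hj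
      _ = 1 / 4 := by norm_num
  set f : X →L[ℝ] ℝ := Gl (WeakDual.toStrongDual Λ) with hf
  have hfx : ∀ x, f x = Λ (ev x) := fun x => rfl
  set u : ℕ → X →L[ℝ] ℝ := fun j => Gl (Lm Λ (h (n j))) with hu
  have hux : ∀ j x, u j x = Λ (h (n j) * ev x) := fun j x => rfl
  have huy : ∀ j, u j (y (n j)) = Λ 1 := by
    intro j
    rw [hux, hevy, hsq]
  have hfy : ∀ j, f (y (n j)) = Λ (h (n j)) := fun j => by rw [hfx, hevy]
  -- the optimal constant
  set A : Set ℝ := {q : ℝ | 0 ≤ q ∧ ∀ x, f x ≤ q * N x} with hA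
  have hAne : A.Nonempty := by
    refine ⟨‖f‖ / c1, by positivity, fun x => ?_⟩
    have h3 := (le_abs_self _).trans (f.le_opNorm x)
    refine h3.trans ?_
    rw [div_mul_eq_mul_div, le_div_iff₀ hc1]
    have := mul_le_mul_of_nonneg_left (hN3 x).1 (norm_nonneg f)
    nlinarith
  have hAbdd : BddBelow A := ⟨0, fun q hq => hq.1⟩
  set qs := sInf A with hqs
  have hqs0 : 0 ≤ qs := le_csInf hAne fun q hq => hq.1
  have hNx0 : ∀ x, N x = 0 → f x = 0 := by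
    intro x hx
    have h3 := (hN3 x).1
    rw [hx] at h3
    have h4 : ‖x‖ ≤ 0 := by
      by_contra hcon
      push Not at hcon
      have := mul_pos hc1 hcon
      linarith
    rw [norm_le_zero_iff.1 h4, map_zero]
  have hfqs : ∀ x, f x ≤ qs * N x := by
    intro x
    rcases (hN0 x).eq_or_lt with hx | hx
    · rw [← hx, hNx0 x hx.symm, mul_zero]
    · rw [← div_le_iff₀ hx]
      refine le_csInf hAne fun q hq => ?_
      rw [div_le_iff₀ hx]
      exact hq.2 x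
  have hfq : ∀ q : ℚ, qs ≤ q → ∀ x, Λ (ev x) ≤ q * N x := fun q hq x =>
    (hfqs x).trans (mul_le_mul_of_nonneg_right hq (hN0 x))
  rcases hqs0.eq_or_lt with hq0 | hq0
  · -- `f = 0`
    obtain ⟨q, hqpos, hq⟩ := exists_rat_btwn
      (show (0 : ℝ) < 1 / (8 * (|C1| * ‖T‖ + 1)) by positivity)
    have h3 := hev2 q (hfq q (by rw [← hq0]; exact hqpos.le))
    obtain ⟨j, hj, hj2⟩ := (h3.and (eventually_ge_atTop 2)).exists
    have h4 := hj (y (n j))
    have h5 : Λ (ev (y (n j))) = Λ (h (n j)) := by rw [hevy]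
    have h6 : Λ (h (n j) * ev (y (n j))) = Λ 1 := by rw [hevy, hsq]
    rw [h5, h6] at h4
    have h7 := (_root_.abs_le.1 (hq14 j hj2)).1
    have h8 : N (y (n j)) ≤ |C1| * ‖T‖ := by
      refine (hN3 _).2.trans ?_
      exact mul_le_mul (le_abs_self _) (hyT _) (norm_nonneg _) (abs_nonneg _)
    have h9 : (q : ℝ) * N (y (n j)) ≤ q * (|C1| * ‖T‖ + 1) :=
      mul_le_mul_of_nonneg_left (h8.trans (by linarith)) hqpos.le
    rw [lt_div_iff₀ (by positivity)] at hq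
    linarith
  · set g0 : X →L[ℝ] ℝ := qs⁻¹ • f with hg0
    have hg0x : ∀ x, g0 x = qs⁻¹ * f x := fun x => rfl
    have hg0N : ∀ x, g0 x ≤ N x := by
      intro x
      rw [hg0x, inv_mul_le_iff₀ hq0]
      exact hfqs x
    have hg0s : ∀ ε : ℝ, 0 < ε → ∃ x, N x ≤ 1 ∧ 1 - ε < g0 x := by
      intro ε hε
      by_contra hcon
      push Not at hcon
      have h3 : 0 ≤ 1 - ε := by
        have h4 := hcon 0 (by
          have := hN2 0 0
          rw [smul_zero, abs_zero, zero_mul] at this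
          rw [this]; norm_num)
        rwa [map_zero] at h4
      have h5 : (1 - ε) * qs ∈ A := by
        refine ⟨by positivity, fun x => ?_⟩
        rcases (hN0 x).eq_or_lt with hx | hx
        · rw [← hx, hNx0 x hx.symm, mul_zero]
        · have h6 := hcon ((N x)⁻¹ • x) (by
            rw [hN2, abs_of_pos (by positivity), inv_mul_cancel₀ hx.ne'])
          rw [hg0x, map_smul, smul_eq_mul] at h6
          have h7 : qs⁻¹ * ((N x)⁻¹ * f x) = f x / (qs * N x) := by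
            field_simp
          rw [h7, div_le_iff₀ (by positivity)] at h6
          linarith
      have h8 : qs ≤ (1 - ε) * qs := csInf_le hAbdd h5
      nlinarith
    obtain ⟨F, δ, hδ, hF⟩ := hwn g0 hg0N hg0s (1 / (8 * qs * (‖T‖ + 1))) (by positivity)
    have hcont : ∀ᶠ q in 𝓝 qs, (∀ φ ∈ F, |(q⁻¹ - qs⁻¹) * φ f| < δ / 2) ∧ q < 2 * qs := by
      refine ((Finset.eventually_all F).2 fun φ _ => ?_).and (eventually_lt_nhds (by linarith))
      have h3 : ContinuousAt (fun q : ℝ => |(q⁻¹ - qs⁻¹) * φ f|) qs :=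
        (((continuousAt_inv₀ hq0.ne').sub continuousAt_const).mul continuousAt_const).abs
      have h4 : (fun q : ℝ => |(q⁻¹ - qs⁻¹) * φ f|) qs < δ / 2 := by
        simp only [sub_self, zero_mul, abs_zero]; positivity
      exact h3.eventually (gt_mem_nhds h4)
    obtain ⟨η, hη, hηq⟩ := Metric.eventually_nhds_iff.1 hcont
    obtain ⟨q, hq1, hq2⟩ := exists_rat_btwn (show qs < qs + η by linarith)
    obtain ⟨hqF, hq2s⟩ := hηq (y := (q : ℝ)) (by
      rw [Real.dist_eq, abs_of_pos (by linarith)]; linarith)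
    have hqpos : (0 : ℝ) < q := hq0.trans hq1
    have hunull : ∀ φ ∈ F, ∀ᶠ j in atTop, |(q : ℝ)⁻¹ * φ (u j)| < δ / 2 := by
      intro φ _
      have h3 := hwnull (φ.toLinearMap ∘ₗ Gl) (‖φ‖ * c⁻¹) (by positivity) (fun Λ' => by
        refine (φ.le_opNorm (Gl Λ')).trans ?_
        have := mul_le_mul_of_nonneg_left (hGln Λ') (norm_nonneg φ)
        refine this.trans (le_of_eq ?_)
        ring)
      have h4 : Tendsto (fun j => |(q : ℝ)⁻¹ * φ (u j)|) atTop (𝓝 |(q : ℝ)⁻¹ * 0|) :=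
        (h3.const_mul _).abs
      rw [mul_zero, abs_zero] at h4
      exact h4.eventually (gt_mem_nhds (by positivity))
    obtain ⟨j, ⟨hj1, hj2⟩, hj3⟩ := (((hev2 q (hfq q hq1.le)).and
      ((Finset.eventually_all F).2 hunull)).and (eventually_ge_atTop 2)).exists
    set g' : X →L[ℝ] ℝ := (q : ℝ)⁻¹ • (f + u j) with hg'
    have hg'N : ∀ x, g' x ≤ N x := by
      intro x
      change (q : ℝ)⁻¹ * (f x + u j x) ≤ N x
      rw [inv_mul_le_iff₀ hqpos, hfx, hux]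
      exact hj1 x
    have hdiff : g' - g0 = (q : ℝ)⁻¹ • u j + ((q : ℝ)⁻¹ - qs⁻¹) • f := by
      rw [hg', hg0]
      module
    have hclose : ∀ φ ∈ F, |φ (g' - g0)| < δ := by
      intro φ hφ
      rw [hdiff, map_add, map_smul, map_smul, smul_eq_mul, smul_eq_mul]
      have h3 := hj2 φ hφ
      have h4 := hqF φ hφ
      exact (abs_add_le _ _).trans_lt (by linarith)
    have h5 := hF g' hg'N hclose
    have h6 : (g' - g0) (y (n j)) ≤ 1 / (8 * qs * (‖T‖ + 1)) * ‖T‖ := by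
      refine (le_abs_self _).trans (((g' - g0).le_opNorm _).trans ?_)
      exact mul_le_mul h5.le (hyT _) (norm_nonneg _) (by positivity)
    have h7 : (g' - g0) (y (n j)) = (q : ℝ)⁻¹ * Λ 1 + ((q : ℝ)⁻¹ - qs⁻¹) * Λ (h (n j)) := by
      rw [hdiff]
      change (q : ℝ)⁻¹ * u j (y (n j)) + ((q : ℝ)⁻¹ - qs⁻¹) * f (y (n j)) = _
      rw [huy, hfy]
    have h8 : 1 / (8 * qs * (‖T‖ + 1)) * ‖T‖ < 1 / (8 * qs) := by
      rw [div_mul_eq_mul_div, div_lt_div_iff₀ (by positivity) (by positivity)]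
      nlinarith [norm_nonneg T, mul_pos hq0 hq0]
    have h9 : (2 * qs)⁻¹ ≤ (q : ℝ)⁻¹ := inv_anti₀ hqpos hq2s.le
    have h10 : (q : ℝ)⁻¹ ≤ qs⁻¹ := inv_anti₀ hq0 hq1.le
    have h11 : (2 * qs)⁻¹ = qs⁻¹ / 2 := by field_simp
    have h12 : 1 / (8 * qs) = qs⁻¹ / 8 := by field_simp
    have h13 := _root_.abs_le.1 (hq14 j hj3)
    have h14 : 0 < qs⁻¹ := inv_pos.2 hq0
    rw [h12] at h8
    rw [h11] at h9
    rw [h7] at h6
    have h15 : (q : ℝ)⁻¹ * (1 / 2) ≤ (q : ℝ)⁻¹ * Λ 1 :=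
      mul_le_mul_of_nonneg_left h1.le (inv_pos.2 hqpos).le
    have h16 : ((q : ℝ)⁻¹ - qs⁻¹) * (1 / 4) ≤ ((q : ℝ)⁻¹ - qs⁻¹) * Λ (h (n j)) :=
      mul_le_mul_of_nonpos_left h13.2 (by linarith)
    linarith

end Conv

end Pool.Agent.Helper568.Dent
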