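import Pool.Agent.Helper568.Dent11

set_option autoImplicit false
set_option linter.unusedSectionVars false

open Filter Set Topology

namespace Pool.Agent.Helper568.Dent

variable {E : Type*} [NormedAddCommGroup E] [NormedSpace ℝ E]

/-- combined convex function -/
noncomputable def QN (θ : ℕ → E → ℝ) (f : E) : ℝ := ‖f‖ ^ 2 + ∑' k, cc k * (θ k f + θ k (-f))

section

variable (θ : ℕ → E → ℝ) (hθc : ∀ k, ConvexOn ℝ univ (θ k)) (hθn : ∀ k f, 0 ≤ θ k f)
  (hθb : ∀ k f, θ k f ≤ (‖f‖ + 1) ^ 2)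

include hθn hθb in
theorem qsumm (f : E) : Summable (fun k => cc k * (θ k f + θ k (-f))) := by
  refine Summable.of_nonneg_of_le (fun k => mul_nonneg (cc_pos k).le (add_nonneg (hθn _ _) (hθn _ _)))
    (fun k => mul_le_mul_of_nonneg_left (?_ : θ k f + θ k (-f) ≤ 2 * (‖f‖ + 1) ^ 2) (cc_pos k).le) ?_
  · have h1 := hθb k f
    have h2 := hθb k (-f)
    rw [norm_neg] at h2
    linarith
  · exact cc_hasSum.summable.mul_right _

include hθn hθb in
theorem QN_le (f : E) : QN θ f ≤ ‖f‖ ^ 2 + (‖f‖ + 1) ^ 2 / 2 := by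
  unfold QN
  have h1 : ∑' k, cc k * (θ k f + θ k (-f)) ≤ ∑' k, cc k * (2 * (‖f‖ + 1) ^ 2) :=
    (qsumm θ hθn hθb f).tsum_le_tsum (fun k => mul_le_mul_of_nonneg_left (by
      have h1 := hθb k f
      have h2 := hθb k (-f)
      rw [norm_neg] at h2
      linarith) (cc_pos k).le) (cc_hasSum.summable.mul_right _)
  rw [tsum_mul_right, cc_hasSum.tsum_eq] at h1
  linarith

include hθn in
theorem QN_ge (f : E) : ‖f‖ ^ 2 ≤ QN θ f := by
  unfold QN
  have : 0 ≤ ∑' k, cc k * (θ k f + θ k (-f)) :=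
    tsum_nonneg fun k => mul_nonneg (cc_pos k).le (add_nonneg (hθn _ _) (hθn _ _))
  linarith

theorem QN_neg (f : E) : QN θ (-f) = QN θ f := by
  unfold QN
  simp_rw [norm_neg, neg_neg, add_comm (θ _ (-f))]

include hθc hθn hθb in
theorem QN_gap (f g : E) (a b : ℝ) (ha : 0 ≤ a) (hb : 0 ≤ b) (hab : a + b = 1) (k₀ : ℕ) :
    QN θ (a • f + b • g) + cc k₀ * (a * θ k₀ f + b * θ k₀ g - θ k₀ (a • f + b • g))
      ≤ a * QN θ f + b * QN θ g := by
  have hnorm : ‖a • f + b • g‖ ^ 2 ≤ a * ‖f‖ ^ 2 + b * ‖g‖ ^ 2 := by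
    have h := ((convexOn_norm (E := E) convex_univ).pow (fun _ _ => norm_nonneg _) 2).2
      (mem_univ f) (mem_univ g) ha hb hab
    simpa using h
  have hD : ∀ k, θ k (a • f + b • g) ≤ a * θ k f + b * θ k g := by
    intro k
    have h := (hθc k).2 (mem_univ f) (mem_univ g) ha hb hab
    simpa using h
  have hDn : ∀ k, θ k (-(a • f + b • g)) ≤ a * θ k (-f) + b * θ k (-g) := by
    intro k
    have h := (hθc k).2 (mem_univ (-f)) (mem_univ (-g)) ha hb hab
    have e : -(a • f + b • g) = a • (-f) + b • (-g) := by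
      rw [smul_neg, smul_neg]; abel
    rw [e]
    simpa using h
  set y := a • f + b • g with hy
  let T : ℕ → E → ℝ := fun k f => θ k f + θ k (-f)
  let G : ℕ → ℝ := fun k => cc k * (a * T k f + b * T k g - T k y)
  have hg0 : ∀ k, cc k * (a * θ k f + b * θ k g - θ k y) ≤ G k := by
    intro k
    refine mul_le_mul_of_nonneg_left ?_ (cc_pos k).le
    simp only [T]
    linarith [hDn k]
  have hgn : ∀ k, 0 ≤ G k := fun k =>
    (mul_nonneg (cc_pos k).le (by linarith [hD k])).trans (hg0 k)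
  have hsf := qsumm θ hθn hθb f
  have hsg := qsumm θ hθn hθb g
  have hsy := qsumm θ hθn hθb y
  have hge : ∀ k, G k = a * (cc k * (θ k f + θ k (-f))) + b * (cc k * (θ k g + θ k (-g)))
      - cc k * (θ k y + θ k (-y)) := by
    intro k
    simp only [G, T]
    ring
  have hs2 := (hsf.mul_left a).add (hsg.mul_left b)
  have hgs : Summable G := by
    rw [funext hge]
    exact hs2.sub hsy
  have htsum : ∑' k, G k = a * (∑' k, cc k * (θ k f + θ k (-f))) +
      b * (∑' k, cc k * (θ k g + θ k (-g))) - ∑' k, cc k * (θ k y + θ k (-y)) := by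
    rw [tsum_congr hge, hs2.tsum_sub hsy, (hsf.mul_left a).tsum_add (hsg.mul_left b), tsum_mul_left,
      tsum_mul_left]
  have h1 : G k₀ ≤ ∑' k, G k := hgs.le_tsum k₀ fun k _ => hgn k
  have h2 := hg0 k₀
  unfold QN
  nlinarith

include hθc hθn hθb in
theorem QN_convex : ConvexOn ℝ univ (QN θ) := by
  refine ⟨convex_univ, fun f _ g _ a b ha hb hab => ?_⟩
  have h1 := QN_gap θ hθc hθn hθb f g a b ha hb hab 0
  have h2 := (hθc 0).2 (mem_univ f) (mem_univ g) ha hb hab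
  simp only [smul_eq_mul] at h2 ⊢
  have h3 : 0 ≤ cc 0 * (a * θ 0 f + b * θ 0 g - θ 0 (a • f + b • g)) :=
    mul_nonneg (cc_pos 0).le (by linarith)
  linarith

include hθc hθn hθb in
theorem QN_continuous : Continuous (QN θ) := by
  rw [← continuousOn_univ]
  have h := (ConvexOn.continuousOn_tfae (isOpen_univ) ⟨(0 : E), mem_univ _⟩
    (QN_convex θ hθc hθn hθb)).out 1 3
  rw [h]
  refine ⟨0, mem_univ _, ?_⟩
  refine ⟨1 ^ 2 + (1 + 1) ^ 2 / 2, ?_⟩
  rw [eventually_map]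
  filter_upwards [Metric.ball_mem_nhds (0 : E) one_pos] with f hf
  rw [mem_ball_zero_iff] at hf
  refine (QN_le θ hθn hθb f).trans ?_
  have := norm_nonneg f
  gcongr

/-- the level set -/
def LB : Set E := {f | QN θ f ≤ 1}

include hθc hθn hθb in
theorem LB_convex : Convex ℝ (LB θ) := by
  have h := (QN_convex θ hθc hθn hθb).convex_le 1
  simpa [LB] using h

include hθc hθn hθb in
theorem LB_closed : IsClosed (LB θ) := isClosed_le (QN_continuous θ hθc hθn hθb) continuous_const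

include hθn hθb in
theorem LB_ball : Metric.ball (0 : E) (1 / 4) ⊆ LB θ := by
  intro f hf
  rw [mem_ball_zero_iff] at hf
  refine (QN_le θ hθn hθb f).trans ?_
  nlinarith [norm_nonneg f]

include hθn in
theorem LB_sub : LB θ ⊆ Metric.closedBall (0 : E) 1 := by
  intro f hf
  rw [mem_closedBall_zero_iff]
  have h1 := (QN_ge θ hθn f).trans hf
  nlinarith [norm_nonneg f]

include hθn hθb in
theorem LB_nhds : LB θ ∈ 𝓝 (0 : E) :=
  mem_of_superset (Metric.ball_mem_nhds _ (by norm_num)) (LB_ball θ hθn hθb)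

include hθn hθb in
theorem LB_abs : Absorbent ℝ (LB θ) := absorbent_nhds_zero (LB_nhds θ hθn hθb)

theorem LB_neg : ∀ f ∈ LB θ, -f ∈ LB θ := fun f hf => by
  change QN θ (-f) ≤ 1
  rw [QN_neg]; exact hf

/-- the norm -/
noncomputable def NL (f : E) : ℝ := gauge (LB θ) f

include hθc hθn hθb in
theorem NL_add (f g : E) : NL θ (f + g) ≤ NL θ f + NL θ g :=
  gauge_add_le (LB_convex θ hθc hθn hθb) (LB_abs θ hθn hθb) f g

theorem NL_smul (r : ℝ) (f : E) : NL θ (r • f) = |r| * NL θ f := by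
  unfold NL
  rcases le_total 0 r with hr | hr
  · rw [gauge_smul_of_nonneg hr, abs_of_nonneg hr, smul_eq_mul]
  · have e : r • f = -((-r) • f) := by rw [neg_smul, neg_neg]
    rw [e, gauge_neg (LB_neg θ), gauge_smul_of_nonneg (by linarith), abs_of_nonpos hr, smul_eq_mul]

include hθn hθb in
theorem NL_ge (f : E) : ‖f‖ ≤ NL θ f := by
  have h := le_gauge_of_subset_closedBall (x := f) (LB_abs θ hθn hθb) zero_le_one (LB_sub θ hθn)
  rwa [div_one] at h

include hθn hθb in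
theorem NL_le (f : E) : NL θ f ≤ 4 * ‖f‖ := by
  have h := mul_gauge_le_norm (x := f) (LB_ball θ hθn hθb)
  unfold NL
  linarith

include hθc hθn hθb in
theorem NL_le_one_iff (f : E) : NL θ f ≤ 1 ↔ QN θ f ≤ 1 := by
  unfold NL
  rw [gauge_le_one_iff_mem_closure (LB_convex θ hθc hθn hθb) (LB_nhds θ hθn hθb),
    (LB_closed θ hθc hθn hθb).closure_eq]
  rfl

include hθc hθn hθb in
theorem QN_near (v : E) (hv : QN θ v ≤ 1) : (1 + (1 - QN θ v) / 9) * NL θ v ≤ 1 := by
  set κ := 1 - QN θ v with hκ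
  have hκ0 : 0 ≤ κ := by linarith
  have hκ1 : κ ≤ 1 := by
    have := (sq_nonneg ‖v‖).trans (QN_ge θ hθn v)
    linarith
  have hv1 : ‖v‖ ≤ 1 := by
    have h1 := (QN_ge θ hθn v).trans hv
    nlinarith [norm_nonneg v]
  have h2v : QN θ ((2 : ℝ) • v) ≤ 9 := by
    refine (QN_le θ hθn hθb _).trans ?_
    rw [norm_smul, Real.norm_of_nonneg (by norm_num : (0 : ℝ) ≤ 2)]
    nlinarith [norm_nonneg v]
  have h3 : QN θ ((1 + κ / 9) • v) ≤ 1 := by
    have h4 := (QN_convex θ hθc hθn hθb).2 (mem_univ v) (mem_univ ((2 : ℝ) • v))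
      (show 0 ≤ 1 - κ / 9 by linarith) (show 0 ≤ κ / 9 by linarith) (by ring)
    have e : (1 - κ / 9) • v + (κ / 9) • ((2 : ℝ) • v) = (1 + κ / 9) • v := by module
    rw [e, smul_eq_mul, smul_eq_mul] at h4
    have h5 : QN θ v = 1 - κ := by rw [hκ]; ring
    rw [h5] at h4
    nlinarith
  have h6 := (NL_le_one_iff θ hθc hθn hθb _).2 h3
  rw [NL_smul, abs_of_pos (by linarith)] at h6
  exact h6

include hθc hθn hθb in
theorem QN_eq_one (v : E) (hv : NL θ v = 1) : QN θ v = 1 := by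
  have h1 := (NL_le_one_iff θ hθc hθn hθb v).1 hv.le
  have h2 := QN_near θ hθc hθn hθb v h1
  rw [hv] at h2
  linarith

include hθc hθn hθb in
/-- deficit estimate on the sphere -/
theorem deficit (u v : E) (hu : NL θ u = 1) (hv : NL θ v = 1) (k : ℕ) (c : ℝ)
    (hc : 0 < c) (huv : 2 * c ≤ NL θ (u + v)) :
    cc k * (θ k u / 2 + θ k v / 2 - θ k ((1 / 2 : ℝ) • u + (1 / 2 : ℝ) • v)) ≤ 9 * (1 / c - 1) := by
  have h1 := QN_gap θ hθc hθn hθb u v (1 / 2) (1 / 2) (by norm_num) (by norm_num) (by norm_num) k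
  rw [QN_eq_one θ hθc hθn hθb u hu, QN_eq_one θ hθc hθn hθb v hv] at h1
  set w := (1 / 2 : ℝ) • u + (1 / 2 : ℝ) • v with hw
  have hw1 : QN θ w ≤ 1 := by
    have := (QN_convex θ hθc hθn hθb).2 (mem_univ u) (mem_univ v)
      (show (0 : ℝ) ≤ 1 / 2 by norm_num) (show (0 : ℝ) ≤ 1 / 2 by norm_num) (by norm_num)
    rw [QN_eq_one θ hθc hθn hθb u hu, QN_eq_one θ hθc hθn hθb v hv] at this
    refine this.trans ?_
    norm_num
  have h2 := QN_near θ hθc hθn hθb w hw1
  have h3 : NL θ w = NL θ (u + v) / 2 := by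
    have e : w = (1 / 2 : ℝ) • (u + v) := by rw [hw, smul_add]
    rw [e, NL_smul, abs_of_pos (by norm_num)]
    ring
  have h4 : c ≤ NL θ w := by rw [h3]; linarith
  have h5 : 0 ≤ (1 - QN θ w) / 9 := by linarith
  have h6 : (1 + (1 - QN θ w) / 9) * c ≤ 1 :=
    (mul_le_mul_of_nonneg_left h4 (by linarith)).trans h2
  have h7 : (1 - QN θ w) / 9 ≤ 1 / c - 1 := by
    rw [le_sub_iff_add_le, le_div_iff₀ hc]
    linarith
  linarith

end

end Pool.Agent.Helper568.Dent
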