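import Pool.Agent.Helper568.Dent17

set_option autoImplicit false
set_option linter.unusedSectionVars false

open Filter Set Topology

namespace Pool.Agent.Helper568.Dent

variable {E : Type*} [NormedAddCommGroup E] [NormedSpace ℝ E]

open Classical in
/-- distance to the far part -/
noncomputable def phi (V : Set E) (ε : ℝ) (t f : E) : ℝ :=
  if (V \ Metric.ball t ε).Nonempty then Metric.infDist f (convexHull ℝ (V \ Metric.ball t ε)) else 1

/-- distance to the near part -/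
noncomputable def psi (ε : ℝ) (t f : E) : ℝ := Metric.infDist f (Metric.closedBall t ε)

noncomputable def aa (V : Set E) (ε r : ℝ) (t f : E) : ℝ :=
  (phi V ε t f ^ 2 + r * psi ε t f ^ 2) / 2

noncomputable def th (V : Set E) (ε r : ℝ) (f : E) : ℝ :=
  ⨆ t : Metric.closedBall (0 : E) 1, aa V ε r t f

theorem phi_nonneg (V : Set E) (ε : ℝ) (t f : E) : 0 ≤ phi V ε t f := by
  unfold phi
  split_ifs
  · exact Metric.infDist_nonneg
  · exact zero_le_one

theorem psi_nonneg (ε : ℝ) (t f : E) : 0 ≤ psi ε t f := Metric.infDist_nonneg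

theorem phi_le (V : Set E) (hV1 : V ⊆ Metric.closedBall 0 1) (ε : ℝ) (t f : E) :
    phi V ε t f ≤ ‖f‖ + 1 := by
  unfold phi
  split_ifs with h
  · obtain ⟨v, hv⟩ := h
    refine (Metric.infDist_le_dist_of_mem (subset_convexHull ℝ _ hv)).trans ?_
    rw [dist_eq_norm]
    have h1 := hV1 hv.1
    rw [mem_closedBall_zero_iff] at h1
    exact (norm_sub_le _ _).trans (by linarith)
  · linarith [norm_nonneg f]

theorem phi_convex (V : Set E) (ε : ℝ) (t : E) : ConvexOn ℝ univ (phi V ε t) := by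
  unfold phi
  split_ifs with h
  · exact convexOn_infDist _ (convex_convexHull ℝ _)
  · exact convexOn_const 1 convex_univ

theorem phi_mem (V : Set E) (ε : ℝ) (t f : E) (hf : f ∈ V) (h : 0 < phi V ε t f) :
    f ∈ Metric.ball t ε := by
  by_contra hcon
  have h1 : f ∈ V \ Metric.ball t ε := ⟨hf, hcon⟩
  unfold phi at h
  rw [if_pos ⟨f, h1⟩, Metric.infDist_zero_of_mem (subset_convexHull ℝ _ h1)] at h
  exact lt_irrefl _ h

theorem phi_pos (V : Set E) (ε : ℝ) (t : E)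
    (h : t ∉ closure (convexHull ℝ (V \ Metric.ball t ε))) : 0 < phi V ε t t := by
  unfold phi
  split_ifs with hne
  · exact (Metric.infDist_pos_iff_notMem_closure hne.convexHull).1 h
  · exact zero_lt_one

theorem psi_le (ε : ℝ) (hε : 0 < ε) (t f : E) (ht : ‖t‖ ≤ 1) : psi ε t f ≤ ‖f‖ + 1 := by
  refine (Metric.infDist_le_dist_of_mem (Metric.mem_closedBall_self hε.le)).trans ?_
  rw [dist_eq_norm]
  exact (norm_sub_le _ _).trans (by linarith)

theorem psi_convex (ε : ℝ) (t : E) : ConvexOn ℝ univ (psi ε t) :=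
  convexOn_infDist _ (convex_closedBall t ε)

theorem psi_zero (ε : ℝ) (t f : E) (h : f ∈ Metric.ball t ε) : psi ε t f = 0 :=
  Metric.infDist_zero_of_mem (Metric.ball_subset_closedBall h)

theorem psi_lt (ε η : ℝ) (hε : 0 < ε) (t f : E) (h : psi ε t f < η) : ‖f - t‖ ≤ ε + η := by
  obtain ⟨y, hy, hfy⟩ := (Metric.infDist_lt_iff ⟨t, Metric.mem_closedBall_self hε.le⟩).1 h
  rw [Metric.mem_closedBall, dist_eq_norm] at hy
  rw [dist_eq_norm] at hfy
  have : f - t = (f - y) + (y - t) := by abel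
  rw [this]
  exact (norm_add_le _ _).trans (by linarith)

theorem aa_nonneg (V : Set E) (ε r : ℝ) (hr : 0 ≤ r) (t f : E) : 0 ≤ aa V ε r t f := by
  unfold aa
  positivity

theorem aa_le (V : Set E) (hV1 : V ⊆ Metric.closedBall 0 1) (ε r : ℝ) (hε : 0 < ε) (hr : 0 ≤ r)
    (hr1 : r ≤ 1) (t f : E) (ht : ‖t‖ ≤ 1) : aa V ε r t f ≤ (‖f‖ + 1) ^ 2 := by
  unfold aa
  have h1 := pow_le_pow_left₀ (phi_nonneg V ε t f) (phi_le V hV1 ε t f) 2
  have h2 := pow_le_pow_left₀ (psi_nonneg ε t f) (psi_le ε hε t f ht) 2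
  have h3 : r * psi ε t f ^ 2 ≤ 1 * (‖f‖ + 1) ^ 2 := mul_le_mul hr1 h2 (sq_nonneg _) zero_le_one
  linarith

theorem aa_convex (V : Set E) (ε r : ℝ) (hr : 0 ≤ r) (t : E) : ConvexOn ℝ univ (aa V ε r t) := by
  have h1 : ConvexOn ℝ univ (fun f => phi V ε t f ^ 2) :=
    (phi_convex V ε t).pow (fun _ _ => phi_nonneg _ _ _ _) 2
  have h2 : ConvexOn ℝ univ (fun f => psi ε t f ^ 2) :=
    (psi_convex ε t).pow (fun _ _ => psi_nonneg _ _ _) 2
  refine ⟨convex_univ, fun f _ g _ a b ha hb hab => ?_⟩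
  have h3 := h1.2 (mem_univ f) (mem_univ g) ha hb hab
  have h4 := h2.2 (mem_univ f) (mem_univ g) ha hb hab
  simp only [smul_eq_mul] at h3 h4 ⊢
  unfold aa
  have h5 := mul_le_mul_of_nonneg_left h4 hr
  linarith

section

variable (V : Set E) (hV1 : V ⊆ Metric.closedBall 0 1) (ε r : ℝ) (hε : 0 < ε) (hr : 0 ≤ r)
    (hr1 : r ≤ 1)

include hV1 hε hr hr1 in
theorem th_bdd (f : E) :
    BddAbove (range fun t : Metric.closedBall (0 : E) 1 => aa V ε r t f) := by
  refine ⟨(‖f‖ + 1) ^ 2, ?_⟩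
  rintro _ ⟨t, rfl⟩
  exact aa_le V hV1 ε r hε hr hr1 t f (mem_closedBall_zero_iff.1 t.2)

include hV1 hε hr hr1 in
theorem le_th (f t : E) (ht : ‖t‖ ≤ 1) : aa V ε r t f ≤ th V ε r f :=
  le_ciSup (th_bdd V hV1 ε r hε hr hr1 f) ⟨t, mem_closedBall_zero_iff.2 ht⟩

include hV1 hε hr hr1 in
theorem th_le (f : E) : th V ε r f ≤ (‖f‖ + 1) ^ 2 := by
  have : Nonempty (Metric.closedBall (0 : E) 1) := ⟨⟨0, Metric.mem_closedBall_self zero_le_one⟩⟩
  exact ciSup_le fun t => aa_le V hV1 ε r hε hr hr1 t f (mem_closedBall_zero_iff.1 t.2)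

include hV1 hε hr hr1 in
theorem th_nonneg (f : E) : 0 ≤ th V ε r f :=
  (aa_nonneg V ε r hr 0 f).trans (le_th V hV1 ε r hε hr hr1 f 0 (by simp))

include hV1 hε hr hr1 in
theorem th_convex : ConvexOn ℝ univ (th V ε r) := by
  have : Nonempty (Metric.closedBall (0 : E) 1) := ⟨⟨0, Metric.mem_closedBall_self zero_le_one⟩⟩
  refine ⟨convex_univ, fun f _ g _ a b ha hb hab => ?_⟩
  refine ciSup_le fun t => ?_
  have h1 := (aa_convex V ε r hr t).2 (mem_univ f) (mem_univ g) ha hb hab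
  refine h1.trans ?_
  have ht := mem_closedBall_zero_iff.1 t.2
  simp only [smul_eq_mul]
  have h2 := mul_le_mul_of_nonneg_left (le_th V hV1 ε r hε hr hr1 f t ht) ha
  have h3 := mul_le_mul_of_nonneg_left (le_th V hV1 ε r hε hr hr1 g t ht) hb
  linarith

include hV1 hε hr hr1 in
theorem local_lur (hr0 : 0 < r) (u g : E) (huV : u ∈ V) (s : ℝ) (hs : s ≤ phi V ε u u ^ 2)
    (hrs : r ≤ s / 16) (δ : ℝ) (hδ0 : 0 < δ) (hδs : δ ≤ s / 32) (hδr : 16 * δ < r * ε ^ 2)
    (hdef : th V ε r u / 2 + th V ε r g / 2 - th V ε r ((1 / 2 : ℝ) • u + (1 / 2 : ℝ) • g) ≤ δ) :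
    ‖g - u‖ ≤ 3 * ε := by
  have : Nonempty (Metric.closedBall (0 : E) 1) := ⟨⟨0, Metric.mem_closedBall_self zero_le_one⟩⟩
  have hu1 : ‖u‖ ≤ 1 := mem_closedBall_zero_iff.1 (hV1 huV)
  set w := (1 / 2 : ℝ) • u + (1 / 2 : ℝ) • g with hw
  obtain ⟨⟨t, ht⟩, htw⟩ := exists_lt_of_lt_ciSup (show th V ε r w - δ < th V ε r w by linarith)
  have ht1 : ‖t‖ ≤ 1 := mem_closedBall_zero_iff.1 ht
  simp only at htw
  have hau := le_th V hV1 ε r hε hr hr1 u t ht1
  have hag := le_th V hV1 ε r hε hr hr1 g t ht1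
  have huu := le_th V hV1 ε r hε hr hr1 u u hu1
  have h12 : (0 : ℝ) ≤ 1 / 2 := by norm_num
  have hconv := (aa_convex V ε r hr t).2 (mem_univ u) (mem_univ g) h12 h12 (by norm_num)
  have hφc := ((phi_convex V ε t).pow (fun _ _ => phi_nonneg _ _ _ _) 2).2 (mem_univ u) (mem_univ g)
    h12 h12 (by norm_num)
  have hψc := (psi_convex ε t).2 (mem_univ u) (mem_univ g) h12 h12 (by norm_num)
  simp only [smul_eq_mul, Pi.pow_apply] at hconv hφc hψc
  rw [← hw] at hconv hφc hψc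
  have hs2 : s / 2 ≤ aa V ε r u u := by
    unfold aa
    have : 0 ≤ r * psi ε u u ^ 2 := by positivity
    linarith
  have h1 : th V ε r u - aa V ε r t u ≤ 4 * δ := by linarith
  have hψu := pow_le_pow_left₀ (psi_nonneg ε t u) (psi_le ε hε t u ht1) 2
  have h2 : r * psi ε t u ^ 2 ≤ s / 4 := by
    have h3 : (‖u‖ + 1) ^ 2 ≤ 4 := by nlinarith [norm_nonneg u]
    calc r * psi ε t u ^ 2 ≤ (s / 16) * 4 := by
          refine mul_le_mul hrs (hψu.trans h3) (sq_nonneg _) (by linarith)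
      _ = s / 4 := by ring
  have hspos : 0 < s := by linarith
  have hφu : 0 < phi V ε t u ^ 2 := by
    have h3 : s / 2 - 4 * δ ≤ aa V ε r t u := by linarith
    unfold aa at h3
    linarith
  have hφu' : 0 < phi V ε t u := by
    rcases (phi_nonneg V ε t u).eq_or_lt with h | h
    · rw [← h] at hφu; norm_num at hφu
    · exact h
  have hub := phi_mem V ε t u huV hφu'
  have hψ0 := psi_zero ε t u hub
  rw [hψ0] at hψc
  have hψw : psi ε t w ^ 2 ≤ psi ε t g ^ 2 / 4 := by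
    have h3 := pow_le_pow_left₀ (psi_nonneg ε t w) hψc 2
    nlinarith
  have h4 : r * psi ε t g ^ 2 ≤ 16 * δ := by
    have h5 : aa V ε r t u / 2 + aa V ε r t g / 2 - aa V ε r t w ≤ 2 * δ := by linarith
    unfold aa at h5
    rw [hψ0] at h5
    have h6 := mul_le_mul_of_nonneg_left hψw hr
    nlinarith
  have h5 : psi ε t g < ε := by
    by_contra hcon
    push Not at hcon
    have h6 := pow_le_pow_left₀ hε.le hcon 2
    have h7 := mul_le_mul_of_nonneg_left h6 hr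
    linarith
  have h6 := psi_lt ε ε hε t g h5
  rw [Metric.mem_ball, dist_eq_norm] at hub
  have h7 : g - u = (g - t) - (u - t) := by abel
  rw [h7]
  exact (norm_sub_le _ _).trans (by linarith)

end

/-- A countable family of sets denting every point of the ball gives a LUR norm. -/
theorem lur_of_family (V : ℕ → Set E) (hV1 : ∀ k, V k ⊆ Metric.closedBall 0 1)
    (hdent : ∀ t : E, ‖t‖ ≤ 1 → ∀ ε : ℝ, 0 < ε → ∃ k, t ∈ V k ∧
      t ∉ closure (convexHull ℝ (V k \ Metric.ball t ε))) :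
    ∃ N : E → ℝ, (∀ f g, N (f + g) ≤ N f + N g) ∧ (∀ (r : ℝ) (f : E), N (r • f) = |r| * N f) ∧
      (∀ f, ‖f‖ ≤ N f ∧ N f ≤ 4 * ‖f‖) ∧
      ∀ (f : E) (g : ℕ → E), Tendsto (fun n => N (g n)) atTop (𝓝 (N f)) →
        Tendsto (fun n => N (f + g n)) atTop (𝓝 (2 * N f)) →
        Tendsto (fun n => N (g n - f)) atTop (𝓝 0) := by
  obtain ⟨σ, hσ⟩ := exists_surjective_nat (ℕ × ℕ × ℕ)
  let θ : ℕ → E → ℝ := fun n => th (V (σ n).1) (1 / (((σ n).2.1 : ℝ) + 1)) ((1 / 2) ^ (σ n).2.2)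
  have he : ∀ e : ℕ, (0 : ℝ) < 1 / ((e : ℝ) + 1) := fun e => by positivity
  have hm : ∀ m : ℕ, (0 : ℝ) < (1 / 2) ^ m := fun m => by positivity
  have hm1 : ∀ m : ℕ, ((1 : ℝ) / 2) ^ m ≤ 1 := fun m => pow_le_one₀ (by norm_num) (by norm_num)
  have hθc : ∀ k, ConvexOn ℝ univ (θ k) := fun k => th_convex _ (hV1 _) _ _ (he _) (hm _).le (hm1 _)
  have hθn : ∀ k f, 0 ≤ θ k f := fun k f => th_nonneg _ (hV1 _) _ _ (he _) (hm _).le (hm1 _) f
  have hθb : ∀ k f, θ k f ≤ (‖f‖ + 1) ^ 2 := fun k f =>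
    th_le _ (hV1 _) _ _ (he _) (hm _).le (hm1 _) f
  have hsph : ∀ u : E, NL θ u = 1 → ∀ ε₀ : ℝ, 0 < ε₀ → ∃ c : ℝ, c < 1 ∧ ∀ v : E, NL θ v = 1 →
      2 * c ≤ NL θ (u + v) → ‖v - u‖ ≤ ε₀ := by
    intro u hu ε₀ hε₀
    obtain ⟨e, hee⟩ := exists_nat_one_div_lt (show 0 < ε₀ / 3 by positivity)
    set ε : ℝ := 1 / ((e : ℝ) + 1) with hε
    have hu1 : ‖u‖ ≤ 1 := (NL_ge θ hθn hθb u).trans hu.le
    obtain ⟨k, huk, hd⟩ := hdent u hu1 ε (he e)
    have hφ := phi_pos (V k) ε u hd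
    set s := phi (V k) ε u u ^ 2 with hs
    have hs0 : 0 < s := by positivity
    obtain ⟨m, hmm⟩ := exists_pow_lt_of_lt_one (show 0 < s / 16 by positivity)
      (show (1 : ℝ) / 2 < 1 by norm_num)
    obtain ⟨n, hn⟩ := hσ (k, e, m)
    set r : ℝ := (1 / 2) ^ m with hr
    have hr0 : 0 < r := hm m
    set δ := min (s / 32) (r * ε ^ 2 / 32) with hδ
    have hε0 : 0 < ε := he e
    have hδ0 : 0 < δ := lt_min (by positivity) (by positivity)
    have hcn := cc_pos n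
    refine ⟨1 / (1 + cc n * δ / 9), ?_, fun v hv huv => ?_⟩
    · rw [div_lt_one (by positivity)]
      have : 0 < cc n * δ / 9 := by positivity
      linarith
    · have h1 := deficit θ hθc hθn hθb u v hu hv n _ (by positivity) huv
      rw [one_div_one_div] at h1
      have h2 : cc n * (θ n u / 2 + θ n v / 2 - θ n ((1 / 2 : ℝ) • u + (1 / 2 : ℝ) • v))
          ≤ cc n * δ := by
        refine h1.trans (le_of_eq ?_)
        ring
      have h3 := le_of_mul_le_mul_left h2 hcn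
      have h4 : θ n = th (V k) ε r := by
        simp only [θ, hn]
        rfl
      rw [h4] at h3
      have h5 := local_lur (V k) (hV1 k) ε r hε0 hr0.le (hm1 m) hr0 u v huk s le_rfl hmm.le δ hδ0
        (min_le_left _ _) (by
          have h6 : δ ≤ r * ε ^ 2 / 32 := min_le_right _ _
          have h7 : 0 < r * ε ^ 2 := by positivity
          linarith) h3
      linarith
  refine ⟨NL θ, NL_add θ hθc hθn hθb, NL_smul θ, fun f => ⟨NL_ge θ hθn hθb f, NL_le θ hθn hθb f⟩, ?_⟩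
  intro f g hg hfg
  have hN0 : ∀ f, 0 ≤ NL θ f := fun f => (norm_nonneg f).trans (NL_ge θ hθn hθb f)
  rcases (hN0 f).eq_or_lt with hf0 | ha
  · have hf : f = 0 := by
      have := NL_ge θ hθn hθb f
      rw [← hf0] at this
      exact norm_le_zero_iff.1 this
    rw [← hf0] at hg
    simpa [hf] using hg
  · set a := NL θ f with haf
    set b : ℕ → ℝ := fun n => NL θ (g n) with hb
    have hb0 : ∀ᶠ n in atTop, 0 < b n := hg.eventually (lt_mem_nhds ha)
    set u := a⁻¹ • f with hu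
    set v : ℕ → E := fun n => (b n)⁻¹ • g n with hv
    have hNu : NL θ u = 1 := by
      rw [hu, NL_smul, abs_of_pos (inv_pos.2 ha), ← haf, inv_mul_cancel₀ ha.ne']
    have hNv : ∀ᶠ n in atTop, NL θ (v n) = 1 := by
      filter_upwards [hb0] with n hn
      rw [hv]
      simp only
      rw [NL_smul, abs_of_pos (inv_pos.2 hn)]
      exact inv_mul_cancel₀ hn.ne'
    have hlow : ∀ n, a⁻¹ * NL θ (f + g n) - |a⁻¹ - (b n)⁻¹| * b n ≤ NL θ (u + v n) := by
      intro n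
      have e1 : a⁻¹ • (f + g n) = (u + v n) + (a⁻¹ - (b n)⁻¹) • g n := by
        rw [hu, hv]
        module
      have h1 := NL_add θ hθc hθn hθb (u + v n) ((a⁻¹ - (b n)⁻¹) • g n)
      rw [← e1, NL_smul, NL_smul, abs_of_pos (inv_pos.2 ha)] at h1
      simp only [hb]
      linarith
    have hlim : Tendsto (fun n => a⁻¹ * NL θ (f + g n) - |a⁻¹ - (b n)⁻¹| * b n) atTop (𝓝 2) := by
      have h1 : Tendsto (fun n => a⁻¹ * NL θ (f + g n) - |a⁻¹ - (b n)⁻¹| * b n) atTop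
          (𝓝 (a⁻¹ * (2 * a) - |a⁻¹ - a⁻¹| * a)) :=
        (hfg.const_mul _).sub (((tendsto_const_nhds.sub (hg.inv₀ ha.ne')).abs).mul hg)
      have e2 : a⁻¹ * (2 * a) - |a⁻¹ - a⁻¹| * a = 2 := by
        rw [sub_self, abs_zero, zero_mul, sub_zero]
        field_simp
      rwa [e2] at h1
    have hvu : Tendsto v atTop (𝓝 u) := by
      rw [Metric.tendsto_atTop']
      intro ε hε
      obtain ⟨c, hc1, hc⟩ := hsph u hNu (ε / 2) (by positivity)
      have h1 : ∀ᶠ n in atTop, 2 * c < a⁻¹ * NL θ (f + g n) - |a⁻¹ - (b n)⁻¹| * b n :=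
        hlim.eventually (lt_mem_nhds (by linarith))
      obtain ⟨n₀, hn₀⟩ := eventually_atTop.1 (h1.and hNv)
      refine ⟨n₀, fun n hn => ?_⟩
      obtain ⟨h2, h3⟩ := hn₀ n hn.le
      have h4 := hc (v n) h3 (h2.le.trans (hlow n))
      rw [dist_eq_norm]
      linarith
    have hgf : Tendsto g atTop (𝓝 f) := by
      have h1 : Tendsto (fun n => b n • v n) atTop (𝓝 (a • u)) := hg.smul hvu
      have e3 : a • u = f := by
        rw [hu, smul_smul, mul_inv_cancel₀ ha.ne', one_smul]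
      rw [e3] at h1
      refine h1.congr' ?_
      filter_upwards [hb0] with n hn
      rw [hv]
      simp only
      rw [smul_smul, mul_inv_cancel₀ hn.ne', one_smul]
    have h1 : Tendsto (fun n => 4 * ‖g n - f‖) atTop (𝓝 (4 * ‖f - f‖)) :=
      ((hgf.sub_const f).norm).const_mul 4
    rw [sub_self, norm_zero, mul_zero] at h1
    exact squeeze_zero (fun n => hN0 _) (fun n => NL_le θ hθn hθb _) h1

end Pool.Agent.Helper568.Dent
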