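import Pool.Agent.Helper568.Dent1

set_option autoImplicit false

open Filter Set Topology

namespace Pool.Agent.Helper568.Dent

variable {X : Type*} [NormedAddCommGroup X] [NormedSpace ℝ X]

/-- averages over an initial segment -/
noncomputable def av (n : ℕ) (v : ℕ → X →L[ℝ] ℝ) : X →L[ℝ] ℝ :=
  (n : ℝ)⁻¹ • ∑ j ∈ Finset.range n, v j

theorem av_apply (n : ℕ) (v : ℕ → X →L[ℝ] ℝ) (x : X) :
    av n v x = (n : ℝ)⁻¹ * ∑ j ∈ Finset.range n, v j x := by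
  simp [av]

theorem av_mul (n M : ℕ) (hn : 0 < n) (f : ℕ → ℕ → X →L[ℝ] ℝ) :
    av (n * M) (fun j => f (j % n) (j / n)) = av M (fun k => av n (fun i => f i k)) := by
  unfold av
  rw [sum_range_mul_mod_div n M hn f, ← Finset.smul_sum, smul_smul]
  push_cast
  rw [mul_inv, mul_comm]

theorem av_const (n : ℕ) (hn : 0 < n) (f : X →L[ℝ] ℝ) : av n (fun _ => f) = f := by
  unfold av
  rw [Finset.sum_const, Finset.card_range, ← Nat.cast_smul_eq_nsmul ℝ, smul_smul,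
    inv_mul_cancel₀ (Nat.cast_ne_zero.2 hn.ne'), one_smul]

theorem av_congr (n : ℕ) {f g : ℕ → X →L[ℝ] ℝ} (h : ∀ i < n, f i = g i) : av n f = av n g := by
  unfold av
  rw [Finset.sum_congr rfl fun i hi => h i (Finset.mem_range.1 hi)]

theorem norm_av_sub_le (M : ℕ) (hM : 0 < M) (u w : ℕ → X →L[ℝ] ℝ) (θ : ℝ)
    (h : ∀ k < M, ‖u k - w k‖ ≤ θ) : ‖av M u - av M w‖ ≤ θ := by
  have hM' : (0 : ℝ) < M := Nat.cast_pos.2 hM
  have h0 : av M u - av M w = (M : ℝ)⁻¹ • ∑ j ∈ Finset.range M, (u j - w j) := by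
    rw [Finset.sum_sub_distrib, smul_sub]
    rfl
  rw [h0, norm_smul, Real.norm_of_nonneg (inv_nonneg.2 hM'.le), inv_mul_le_iff₀ hM']
  refine (norm_sum_le _ _).trans ((Finset.sum_le_card_nsmul _ _ θ fun k hk =>
    h k (Finset.mem_range.1 hk)).trans ?_)
  rw [Finset.card_range, nsmul_eq_mul]

/-- The local property used in the recursion. -/
def Loc (Kh : Set (X →L[ℝ] ℝ)) (t : X →L[ℝ] ℝ) (c₀ : ℝ) (θ : ℕ → ℝ) : Prop :=
  ∀ (l n S : ℕ) (v : ℕ → ℕ → X →L[ℝ] ℝ) (G : Finset X) (δ η : ℝ), 0 < n → 0 < δ → 0 < η →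
    (∀ s j, v s j ∈ Kh) → (∀ s < S, ‖t - av n (v s)‖ ≤ θ l) →
    ∃ (M : ℕ) (u : ℕ → X →L[ℝ] ℝ) (g : ℕ → X) (v' : ℕ → ℕ → ℕ → X →L[ℝ] ℝ), 0 < M ∧
      (∀ k, ‖g k‖ ≤ 1 ∧ c₀ ≤ (t - u k) (g k)) ∧ ‖t - av M u‖ ≤ η ∧
      (∀ k s j, v' k s j ∈ Kh ∧ ∀ x ∈ G, |v' k s j x - v s j x| ≤ δ) ∧
      (∀ k, ∀ s < S, ‖u k - av n (v' k s)‖ ≤ θ l)

theorem step (Kh : Set (X →L[ℝ] ℝ)) (t : X →L[ℝ] ℝ) (c₀ c : ℝ) (θ η δ : ℕ → ℝ)
    (hδ : ∀ l, 0 < δ l) (hη : ∀ l, 0 < η l) (hθη : ∀ l, θ l + η l ≤ θ (l + 1))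
    (hc : ∀ l, c + 2 * θ l ≤ c₀) (hloc : Loc Kh t c₀ θ) (l n : ℕ) (T : ℕ → ℕ → X →L[ℝ] ℝ)
    (G : Finset X) (hn : 0 < n) (hT : ∀ s j, T s j ∈ Kh)
    (hTp : ∀ s j, T s j = T (s % 2 ^ l) (j % n)) (hTa : ∀ s, ‖t - av n (T s)‖ ≤ θ l) :
    ∃ (M : ℕ) (g : ℕ → X) (T' : ℕ → ℕ → X →L[ℝ] ℝ) (G' : Finset X), 0 < M ∧
      (∀ s j, T' s j ∈ Kh) ∧
      (∀ s j, T' s j = T' (s % 2 ^ (l + 1)) (j % (n * M))) ∧
      (∀ s, ‖t - av (n * M) (T' s)‖ ≤ θ (l + 1)) ∧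
      (∀ s j, s.testBit l = false → T' s j = T s j) ∧
      (∀ s j, ∀ x ∈ G, |T' s j x - T s j x| ≤ δ l) ∧
      (∀ k < M, ‖g k‖ ≤ 1 ∧ g k ∈ G') ∧ G ⊆ G' ∧
      (∀ s k, k < M → c ≤ (n : ℝ)⁻¹ * ∑ i ∈ Finset.range n,
        (T s i (g k) - T' (s % 2 ^ l + 2 ^ l) (i + n * k) (g k))) := by
  classical
  obtain ⟨M, u, g, v', hM, hg, hu, hv', hv'a⟩ := hloc l n (2 ^ l) T G (δ l) (η l) hn (hδ l) (hη l)
    hT (fun s _ => hTa s)
  let T' : ℕ → ℕ → X →L[ℝ] ℝ := fun s j =>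
    if s.testBit l then v' (j / n % M) (s % 2 ^ l) (j % n) else T s j
  have h2l : 0 < 2 ^ l := by positivity
  have hTs : ∀ s j, T s j = T s (j % n) := by
    intro s j
    rw [hTp s j, hTp s (j % n), Nat.mod_mod]
  have hTs' : ∀ s j, T s j = T (s % 2 ^ l) j := by
    intro s j
    rw [hTp s j, hTp (s % 2 ^ l) j, Nat.mod_mod]
  refine ⟨M, g, T', G ∪ (Finset.range M).image g, hM, ?_, ?_, ?_, ?_, ?_, ?_, ?_, ?_⟩
  · intro s j
    simp only [T']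
    split_ifs
    · exact (hv' _ _ _).1
    · exact hT _ _
  · intro s j
    simp only [T']
    have h1 : (s % 2 ^ (l + 1)).testBit l = s.testBit l := by
      rw [Nat.testBit_mod_two_pow]
      simp
    have h2 : s % 2 ^ (l + 1) % 2 ^ l = s % 2 ^ l :=
      Nat.mod_mod_of_dvd _ (pow_dvd_pow 2 (Nat.le_succ l))
    have h3 : j % (n * M) % n = j % n := Nat.mod_mod_of_dvd _ (dvd_mul_right _ _)
    have h4 : j % (n * M) / n % M = j / n % M := by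
      rw [Nat.mod_mul_right_div_self, Nat.mod_mod]
    rw [h1, h2, h3, h4]
    split_ifs
    · rfl
    · rw [hTp s j, hTp (s % 2 ^ (l + 1)), h2, h3]
  · intro s
    by_cases hs : s.testBit l
    · have h1 : T' s = fun j => (fun i k => v' (k % M) (s % 2 ^ l) i) (j % n) (j / n) := by
        funext j
        simp only [T', hs, if_true]
      rw [h1, av_mul n M hn (fun i k => v' (k % M) (s % 2 ^ l) i)]
      have h2 : ‖av M u - av M (fun k => av n (fun i => v' (k % M) (s % 2 ^ l) i))‖ ≤ θ l := by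
        refine norm_av_sub_le M hM _ _ _ fun k hk => ?_
        have := hv'a k (s % 2 ^ l) (Nat.mod_lt _ h2l)
        rw [Nat.mod_eq_of_lt hk]
        exact this
      calc _ = ‖(t - av M u) + (av M u - av M (fun k => av n (fun i => v' (k % M) (s % 2 ^ l) i)))‖ := by
            congr 1; abel
        _ ≤ η l + θ l := (norm_add_le _ _).trans (add_le_add hu h2)
        _ ≤ θ (l + 1) := by rw [add_comm]; exact hθη l
    · have h1 : T' s = fun j => (fun i _ => T s i : ℕ → ℕ → X →L[ℝ] ℝ) (j % n) (j / n) := by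
        funext j
        simp only [T', hs]
        exact hTs s j
      rw [h1, av_mul n M hn (fun i _ => T s i), av_const M hM]
      have := hη l
      exact (hTa s).trans (by linarith [hθη l])
  · intro s j hs
    simp only [T', hs]
    rfl
  · intro s j x hx
    simp only [T']
    split_ifs
    · have := (hv' (j / n % M) (s % 2 ^ l) (j % n)).2 x hx
      rwa [← hTp s j] at this
    · rw [sub_self, abs_zero]
      exact (hδ l).le
  · intro k hk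
    exact ⟨(hg k).1, Finset.mem_union_right _ (Finset.mem_image_of_mem _ (Finset.mem_range.2 hk))⟩
  · exact Finset.subset_union_left
  · intro s k hk
    have hn' : (n : ℝ) ≠ 0 := Nat.cast_ne_zero.2 hn.ne'
    have h0 : ∀ i ∈ Finset.range n, T s i (g k) - T' (s % 2 ^ l + 2 ^ l) (i + n * k) (g k)
        = T s i (g k) - v' k (s % 2 ^ l) i (g k) := by
      intro i hi
      rw [Finset.mem_range] at hi
      have h1 : (s % 2 ^ l + 2 ^ l).testBit l = true := by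
        rw [add_comm, Nat.testBit_two_pow_add_eq, Nat.testBit_lt_two_pow (Nat.mod_lt _ h2l)]
        rfl
      have h2 : (s % 2 ^ l + 2 ^ l) % 2 ^ l = s % 2 ^ l := by
        rw [Nat.add_mod_right, Nat.mod_mod]
      have h3 : (i + n * k) % n = i := by
        rw [Nat.add_mul_mod_self_left, Nat.mod_eq_of_lt hi]
      have h4 : (i + n * k) / n % M = k := by
        rw [Nat.add_mul_div_left _ _ hn, Nat.div_eq_of_lt hi, zero_add, Nat.mod_eq_of_lt hk]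
      simp only [T', h1, if_true, h2, h3, h4]
    rw [Finset.sum_congr rfl h0, Finset.sum_sub_distrib, mul_sub]
    have h1 := av_apply n (T s) (g k)
    have h2 := av_apply n (v' k (s % 2 ^ l)) (g k)
    rw [← h1, ← h2]
    have h3 : |(t - av n (T s)) (g k)| ≤ θ l := by
      refine ((t - av n (T s)).le_opNorm (g k)).trans ?_
      exact (mul_le_of_le_one_right (norm_nonneg _) (hg k).1).trans (hTa s)
    have h4 : |(u k - av n (v' k (s % 2 ^ l))) (g k)| ≤ θ l := by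
      refine ((u k - av n (v' k (s % 2 ^ l))).le_opNorm (g k)).trans ?_
      exact (mul_le_of_le_one_right (norm_nonneg _) (hg k).1).trans
        (hv'a k _ (Nat.mod_lt _ h2l))
    have h5 := (hg k).2
    rw [_root_.sub_apply] at h3 h4 h5
    have h6 := abs_le.1 h3
    have h7 := abs_le.1 h4
    have := hc l
    linarith [h6.1, h6.2, h7.1, h7.2]

/-- The whole recursion. -/
theorem recursion (Kh : Set (X →L[ℝ] ℝ)) (t : X →L[ℝ] ℝ) (ht : t ∈ Kh) (c₀ c : ℝ) (θ η δ : ℕ → ℝ)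
    (hδ : ∀ l, 0 < δ l) (hη : ∀ l, 0 < η l) (hθ0 : 0 ≤ θ 0) (hθη : ∀ l, θ l + η l ≤ θ (l + 1))
    (hc : ∀ l, c + 2 * θ l ≤ c₀) (hloc : Loc Kh t c₀ θ) :
    ∃ (n M : ℕ → ℕ) (g : ℕ → ℕ → X) (T : ℕ → ℕ → ℕ → X →L[ℝ] ℝ) (G : ℕ → Finset X),
      (∀ l, 0 < n l) ∧ (∀ l, 0 < M l) ∧ (∀ l, n (l + 1) = n l * M l) ∧
      (∀ l s j, T l s j ∈ Kh) ∧
      (∀ l s j, T l s j = T l (s % 2 ^ l) (j % n l)) ∧
      (∀ l s j, s.testBit l = false → T (l + 1) s j = T l s j) ∧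
      (∀ l s j, ∀ x ∈ G l, |T (l + 1) s j x - T l s j x| ≤ δ l) ∧
      (∀ l, ∀ k < M l, ‖g l k‖ ≤ 1 ∧ g l k ∈ G (l + 1)) ∧ (∀ l, G l ⊆ G (l + 1)) ∧
      (∀ l s k, k < M l → c ≤ (n l : ℝ)⁻¹ * ∑ i ∈ Finset.range (n l),
        (T l s i (g l k) - T (l + 1) (s % 2 ^ l + 2 ^ l) (i + n l * k) (g l k))) := by
  let St := ℕ × (ℕ → ℕ → X →L[ℝ] ℝ) × Finset X
  let P : ℕ → St → Prop := fun l st => 0 < st.1 ∧ (∀ s j, st.2.1 s j ∈ Kh) ∧
    (∀ s j, st.2.1 s j = st.2.1 (s % 2 ^ l) (j % st.1)) ∧ (∀ s, ‖t - av st.1 (st.2.1 s)‖ ≤ θ l)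
  have hstep : ∀ l (st : {st : St // P l st}), ∃ (M : ℕ) (g : ℕ → X) (st' : {st : St // P (l + 1) st}),
      0 < M ∧ st'.1.1 = st.1.1 * M ∧
      (∀ s j, s.testBit l = false → st'.1.2.1 s j = st.1.2.1 s j) ∧
      (∀ s j, ∀ x ∈ st.1.2.2, |st'.1.2.1 s j x - st.1.2.1 s j x| ≤ δ l) ∧
      (∀ k < M, ‖g k‖ ≤ 1 ∧ g k ∈ st'.1.2.2) ∧ st.1.2.2 ⊆ st'.1.2.2 ∧
      (∀ s k, k < M → c ≤ (st.1.1 : ℝ)⁻¹ * ∑ i ∈ Finset.range st.1.1,
        (st.1.2.1 s i (g k) - st'.1.2.1 (s % 2 ^ l + 2 ^ l) (i + st.1.1 * k) (g k))) := by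
    rintro l ⟨⟨n, T, G⟩, h1, h2, h3, h4⟩
    obtain ⟨M, g, T', G', hM, a1, a2, a3, a4, a5, a6, a7, a8⟩ :=
      step Kh t c₀ c θ η δ hδ hη hθη hc hloc l n T G h1 h2 h3 h4
    exact ⟨M, g, ⟨(n * M, T', G'), Nat.mul_pos h1 hM, a1, a2, a3⟩, hM, rfl, a4, a5, a6, a7, a8⟩
  choose M g nxt hM hn hbit hclose hg hGG hq using hstep
  have hP0 : P 0 (1, fun _ _ => t, ∅) := by
    refine ⟨one_pos, fun _ _ => ht, fun _ _ => rfl, fun s => ?_⟩
    change ‖t - av 1 (fun _ => t)‖ ≤ θ 0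
    rw [av_const 1 one_pos, sub_self, norm_zero]
    exact hθ0
  let st : (l : ℕ) → {st : St // P l st} := fun l =>
    Nat.rec (motive := fun l => {st : St // P l st}) ⟨(1, fun _ _ => t, ∅), hP0⟩ (fun l s => nxt l s) l
  have hst : ∀ l, st (l + 1) = nxt l (st l) := fun l => rfl
  refine ⟨fun l => (st l).1.1, fun l => M l (st l), fun l => g l (st l), fun l => (st l).1.2.1,
    fun l => (st l).1.2.2, fun l => (st l).2.1, fun l => hM _ _, fun l => ?_,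
    fun l => (st l).2.2.1, fun l => (st l).2.2.2.1, fun l => ?_, fun l => ?_, fun l => ?_,
    fun l => ?_, fun l => ?_⟩
  · change (st (l + 1)).1.1 = _
    rw [hst]; exact hn l (st l)
  · change ∀ s j, s.testBit l = false → (st (l + 1)).1.2.1 s j = _
    rw [hst]; exact hbit l (st l)
  · change ∀ s j, ∀ x ∈ (st l).1.2.2, |(st (l + 1)).1.2.1 s j x - _| ≤ _
    rw [hst]; exact hclose l (st l)
  · change ∀ k < _, _ ∧ _ ∈ (st (l + 1)).1.2.2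
    rw [hst]; exact hg l (st l)
  · change _ ⊆ (st (l + 1)).1.2.2
    rw [hst]; exact hGG l (st l)
  · change ∀ s k, k < _ → c ≤ _ * ∑ i ∈ _, (_ - (st (l + 1)).1.2.1 _ _ _)
    rw [hst]; exact hq l (st l)

end Pool.Agent.Helper568.Dent
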