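import Pool.Agent.Helper568.Dent2

set_option autoImplicit false

open Filter Set Topology

namespace Pool.Agent.Helper568.Dent

/-- independent bounded sequences span `ℓ₁` -/
theorem l1_of_indep {X : Type*} [NormedAddCommGroup X] [NormedSpace ℝ X] [CompleteSpace X]
    (x : ℕ → X) (hx : ∀ i, ‖x i‖ ≤ 1) (R κ a : ℝ) (hR : 0 < R) (hκ : 0 < κ)
    (hind : ∀ (k : ℕ) (e : ℕ → Bool), ∃ f : X →L[ℝ] ℝ, ‖f‖ ≤ R ∧
      ∀ i < k, (e i = true → a + κ ≤ f (x i)) ∧ (e i = false → f (x i) ≤ a)) :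
    ∃ (T : lp (fun _ : ℕ => ℝ) 1 →L[ℝ] X) (c : ℝ),
          0 < c ∧ ∀ v : lp (fun _ : ℕ => ℝ) 1, c * ‖v‖ ≤ ‖T v‖ := by
  have hs : ∀ v : lp (fun _ : ℕ => ℝ) 1, Summable (fun i => ‖v i‖) := by
    intro v
    have := (lp.memℓp v).summable (by norm_num)
    simpa using this
  have hn : ∀ v : lp (fun _ : ℕ => ℝ) 1, ‖v‖ = ∑' i, ‖v i‖ := by
    intro v
    rw [lp.norm_eq_tsum_rpow (by norm_num)]
    simp
  have hle : ∀ (v : lp (fun _ : ℕ => ℝ) 1) i, ‖v i • x i‖ ≤ ‖v i‖ := by
    intro v i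
    rw [norm_smul]
    exact mul_le_of_le_one_right (norm_nonneg _) (hx i)
  have hs2 : ∀ v : lp (fun _ : ℕ => ℝ) 1, Summable (fun i => v i • x i) := fun v =>
    Summable.of_norm_bounded (hs v) (hle v)
  let T0 : lp (fun _ : ℕ => ℝ) 1 →ₗ[ℝ] X :=
    { toFun := fun v => ∑' i, v i • x i
      map_add' := fun v w => by
        rw [← (hs2 v).tsum_add (hs2 w)]
        exact tsum_congr fun i => by rw [lp.coeFn_add, Pi.add_apply, add_smul]
      map_smul' := fun r v => by
        rw [RingHom.id_apply, ← (hs2 v).tsum_const_smul r]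
        exact tsum_congr fun i => by rw [lp.coeFn_smul, Pi.smul_apply, smul_smul, smul_eq_mul] }
  have hT0 : ∀ v, T0 v = ∑' i, v i • x i := fun v => rfl
  have hT0n : ∀ v, ‖T0 v‖ ≤ 1 * ‖v‖ := by
    intro v
    rw [one_mul, hT0, hn]
    exact tsum_of_norm_bounded (hs v).hasSum (hle v)
  let T : lp (fun _ : ℕ => ℝ) 1 →L[ℝ] X := T0.mkContinuous 1 hT0n
  refine ⟨T, κ / (2 * R), by positivity, fun v => ?_⟩
  have hTv : T v = ∑' i, v i • x i := rfl
  have hfin : ∀ k, κ / (2 * R) * ∑ i ∈ Finset.range k, ‖v i‖ ≤ ‖∑ i ∈ Finset.range k, v i • x i‖ := by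
    intro k
    obtain ⟨f, hf, hf2⟩ := hind k (fun i => decide (0 ≤ v i))
    obtain ⟨f', hf', hf2'⟩ := hind k (fun i => !decide (0 ≤ v i))
    have h1 : κ * ∑ i ∈ Finset.range k, ‖v i‖ ≤ (f - f') (∑ i ∈ Finset.range k, v i • x i) := by
      rw [map_sum, Finset.mul_sum]
      refine Finset.sum_le_sum fun i hi => ?_
      rw [Finset.mem_range] at hi
      have e1 := hf2 i hi
      have e2 := hf2' i hi
      rw [map_smul, smul_eq_mul, _root_.sub_apply, Real.norm_eq_abs]
      by_cases hv : 0 ≤ v i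
      · simp only [hv, decide_true, Bool.not_true, forall_const] at e1 e2
        have e3 := e1.1
        have e4 := e2.2
        rw [abs_of_nonneg hv]
        have : κ ≤ f (x i) - f' (x i) := by linarith
        nlinarith
      · simp only [hv, decide_false, Bool.not_false, forall_const] at e1 e2
        have e3 := e1.2
        have e4 := e2.1
        rw [abs_of_neg (not_le.1 hv)]
        have : κ ≤ f' (x i) - f (x i) := by linarith
        nlinarith [not_le.1 hv]
    have h2 : (f - f') (∑ i ∈ Finset.range k, v i • x i)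
        ≤ 2 * R * ‖∑ i ∈ Finset.range k, v i • x i‖ := by
      refine (le_abs_self _).trans (((f - f').le_opNorm _).trans ?_)
      refine mul_le_mul_of_nonneg_right ?_ (norm_nonneg _)
      exact (norm_sub_le _ _).trans (by linarith)
    rw [div_mul_eq_mul_div, div_le_iff₀ (by positivity)]
    linarith
  have h3 : Tendsto (fun k => κ / (2 * R) * ∑ i ∈ Finset.range k, ‖v i‖) atTop
      (𝓝 (κ / (2 * R) * ‖v‖)) := by
    rw [hn v]
    exact ((hs v).hasSum.tendsto_sum_nat).const_mul _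
  have h4 : Tendsto (fun k => ‖∑ i ∈ Finset.range k, v i • x i‖) atTop (𝓝 ‖T v‖) := by
    rw [hTv]
    exact ((hs2 v).hasSum.tendsto_sum_nat).norm
  exact le_of_tendsto_of_tendsto' h3 h4 hfin

end Pool.Agent.Helper568.Dent
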