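import Pool.Agent.Helper568.Dent3

set_option autoImplicit false

open Filter Set Topology

namespace Pool.Agent.Helper568.Dent

theorem markov (N : ℕ) (hN : 0 < N) (q : ℕ → ℝ) (D c : ℝ) (hD : 0 < D) (hc : 0 ≤ c)
    (hq : ∀ j < N, q j ≤ D) (h : c ≤ (N : ℝ)⁻¹ * ∑ j ∈ Finset.range N, q j) :
    c / (2 * D) ≤ (∑ j ∈ Finset.range N, {j | c / 2 ≤ q j}.indicator (fun _ => (1 : ℝ)) j) / N := by
  have hN' : (0 : ℝ) < N := Nat.cast_pos.2 hN
  have h1 : ∀ j ∈ Finset.range N, q j ≤ c / 2 + D * {j | c / 2 ≤ q j}.indicator (fun _ => (1 : ℝ)) j := by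
    intro j hj
    rw [Finset.mem_range] at hj
    by_cases hjc : c / 2 ≤ q j
    · rw [indicator_of_mem (by exact hjc)]
      have := hq j hj
      linarith
    · rw [indicator_of_notMem (by exact hjc), mul_zero, add_zero]
      exact (not_le.1 hjc).le
  have h2 := Finset.sum_le_sum h1
  rw [Finset.sum_add_distrib, Finset.sum_const, Finset.card_range, nsmul_eq_mul, ← Finset.mul_sum] at h2
  set S := ∑ j ∈ Finset.range N, {j | c / 2 ≤ q j}.indicator (fun _ => (1 : ℝ)) j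
  have h3 : c * N ≤ N * (c / 2) + D * S := by
    rw [inv_mul_eq_div, le_div_iff₀ hN'] at h
    linarith
  rw [div_le_div_iff₀ (by positivity) hN']
  linarith

/-- choice of a branch of the tree of indices which is good infinitely often -/
theorem branch (n : ℕ → ℕ) (hn : ∀ l, 0 < n l) (hdvd : ∀ l, n l ∣ n (l + 1)) (F : ℕ → Set ℕ)
    (hF : ∀ l j, j ∈ F l ↔ j % n (l + 1) ∈ F l) (c : ℝ) (hc : 0 < c)
    (hd : ∀ l, c ≤ (∑ j ∈ Finset.range (n (l + 1)), (F l).indicator (fun _ => (1 : ℝ)) j) / n (l + 1)) :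
    ∃ (j : ℕ → ℕ) (φ : ℕ → ℕ), StrictMono φ ∧ (∀ l, j l < n l) ∧ (∀ l, j (l + 1) % n l = j l) ∧
      ∀ i, j (φ i + 1) ∈ F (φ i) := by
  obtain ⟨μ, hμ⟩ := exists_content (fun l => n (l + 1)) (fun l => hn _) (fun l => hdvd _)
  let U : Ultrafilter ℕ := hyperfilter ℕ
  have hU : (U : Filter ℕ) ≤ atTop := Nat.hyperfilter_le_atTop
  have hE : ∀ᶠ l in (U : Filter ℕ), c ≤ μ.d (F l) := Eventually.of_forall fun l => by
    rw [hμ l (F l) (hF l)]
    exact hd l
  obtain ⟨φ, hφ, -, hφ2⟩ := μ.indep U hU F (fun _ l => F l) (fun _ _ => subset_rfl) c hc hE univ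
    univ_mem (fun _ => True) trivial (fun _ _ _ _ => trivial)
    (fun B _ => Eventually.of_forall fun l b => by
      have := μ.nonneg (B ∩ F l)
      linarith)
  choose b hb using fun k => hφ2 k (fun _ => true)
  have hj : ∀ l, ∃ r < n l, ∀ᶠ k in (U : Filter ℕ), b k % n l = r := by
    intro l
    have h1 : (⋃ r ∈ (Finset.range (n l) : Set ℕ), {k | b k % n l = r}) ∈ (U : Filter ℕ) := by
      convert univ_mem
      rw [eq_univ_iff_forall]
      intro k
      simp only [Finset.coe_range, mem_iUnion, mem_ofPred_eq, mem_Iio]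
      exact ⟨_, Nat.mod_lt _ (hn l), rfl⟩
    obtain ⟨r, hr, hr2⟩ := (Ultrafilter.finite_biUnion_mem_iff (Finset.finite_toSet _)).1 h1
    exact ⟨r, by simpa using hr, hr2⟩
  choose j hj1 hj2 using hj
  refine ⟨j, φ, hφ, hj1, ?_, ?_⟩
  · intro l
    obtain ⟨k, h1, h2⟩ := ((hj2 (l + 1)).and (hj2 l)).exists
    rw [← h1, ← h2, Nat.mod_mod_of_dvd _ (hdvd l)]
  · intro i
    have h1 : ∀ᶠ k in (U : Filter ℕ), i < k := hU (eventually_gt_atTop i)
    obtain ⟨k, h2, h3⟩ := (h1.and (hj2 (φ i + 1))).exists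
    have h4 := hb k i h2
    rw [hF] at h4
    rwa [h3] at h4

theorem Content.le_sum {Ω ι : Type*} (μ : Content Ω) (s : Finset ι) (A : ι → Set Ω) :
    μ.d (⋃ i ∈ s, A i) ≤ ∑ i ∈ s, μ.d (A i) := by
  classical
  induction s using Finset.induction_on with
  | empty => simp [μ.empty]
  | insert a s ha ih =>
    rw [Finset.sum_insert ha, Finset.set_biUnion_insert]
    have h1 := μ.union_inter (A a) (⋃ i ∈ s, A i)
    have h2 := μ.nonneg (A a ∩ ⋃ i ∈ s, A i)
    linarith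

variable {X : Type*} [NormedAddCommGroup X] [NormedSpace ℝ X]

theorem close_iter (t : ℕ → ℕ → X →L[ℝ] ℝ) (G : ℕ → Finset X) (κ : ℝ)
    (hclose : ∀ l s, ∀ x ∈ G l, |t (l + 1) s x - t l s x| ≤ κ * (1 / 2) ^ (l + 1))
    (hG : ∀ l, G l ⊆ G (l + 1)) (l m s : ℕ) (hlm : l ≤ m) (x : X) (hx : x ∈ G l) :
    |t m s x - t l s x| ≤ κ * ((1 / 2) ^ l - (1 / 2) ^ m) := by
  have hGm : ∀ m, l ≤ m → G l ⊆ G m := by
    intro m h
    induction m, h using Nat.le_induction with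
    | base => exact subset_rfl
    | succ m _ ih => exact ih.trans (hG m)
  induction m, hlm using Nat.le_induction with
  | base => simp
  | succ m h ih =>
    have h1 := hclose m s x (hGm m h hx)
    have h2 : t (m + 1) s x - t l s x = (t (m + 1) s x - t m s x) + (t m s x - t l s x) := by ring
    rw [h2]
    refine (abs_add_le _ _).trans ?_
    have h3 : ((1 : ℝ) / 2) ^ (m + 1) = (1 / 2) ^ m / 2 := by rw [pow_succ]; ring
    rw [h3] at h1 ⊢
    linarith

/-- from a tree with large splittings to independence -/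
theorem tree_indep (Kh : Set (X →L[ℝ] ℝ)) (R c κ : ℝ) (hR : 0 < R) (hc : 0 < c) (hκ : 0 < κ)
    (hκc : 8 * κ ≤ c / 4) (hKR : ∀ f ∈ Kh, ‖f‖ ≤ R)
    (t : ℕ → ℕ → X →L[ℝ] ℝ) (g : ℕ → X) (G : ℕ → Finset X) (φ : ℕ → ℕ) (hφ : StrictMono φ)
    (htK : ∀ l s, t l s ∈ Kh) (htp : ∀ l s, t l s = t l (s % 2 ^ l))
    (hbit : ∀ l s, s.testBit l = false → t (l + 1) s = t l s)
    (hclose : ∀ l s, ∀ x ∈ G l, |t (l + 1) s x - t l s x| ≤ κ * (1 / 2) ^ (l + 1))
    (hg : ∀ l, ‖g l‖ ≤ 1 ∧ g l ∈ G (l + 1)) (hG : ∀ l, G l ⊆ G (l + 1))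
    (hq : ∀ i, c / 2 ≤ (((2 ^ φ i : ℕ) : ℝ))⁻¹ * ∑ s ∈ Finset.range (2 ^ φ i),
      (t (φ i) s (g (φ i)) - t (φ i + 1) (s % 2 ^ φ i + 2 ^ φ i) (g (φ i)))) :
    ∃ (ψ : ℕ → ℕ) (a : ℝ), ∀ (k : ℕ) (e : ℕ → Bool), ∃ f ∈ Kh, ∀ i < k,
      (e i = true → a + κ ≤ f (g (ψ i))) ∧ (e i = false → f (g (ψ i)) ≤ a) := by
  -- values
  let hi : ℕ → ℕ → ℝ := fun l s => t l s (g l)
  let lo : ℕ → ℕ → ℝ := fun l s => t (l + 1) (s % 2 ^ l + 2 ^ l) (g l)
  have hval : ∀ f ∈ Kh, ∀ l, |f (g l)| ≤ R := by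
    intro f hf l
    refine (f.le_opNorm (g l)).trans ?_
    calc ‖f‖ * ‖g l‖ ≤ R * 1 := mul_le_mul (hKR f hf) (hg l).1 (norm_nonneg _) hR.le
      _ = R := mul_one R
  have hlo : ∀ l s, |lo l s| ≤ R := fun l s => hval _ (htK _ _) l
  have hhi : ∀ l s, |hi l s| ≤ R := fun l s => hval _ (htK _ _) l
  have hlop : ∀ l s, lo l s = lo l (s % 2 ^ l) := by
    intro l s
    simp only [lo, Nat.mod_mod]
  have hhip : ∀ l s, hi l s = hi l (s % 2 ^ l) := by
    intro l s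
    simp only [hi]
    rw [htp]
  obtain ⟨P, hP⟩ := exists_nat_gt (2 * R / κ)
  have hP' : 2 * R < P * κ := by rwa [div_lt_iff₀ hκ] at hP
  let E : ℕ → ℕ → Set ℕ := fun p l =>
    {s | -R + p * κ ≤ lo l s ∧ lo l s ≤ -R + (p + 1) * κ ∧ lo l s + 8 * κ ≤ hi l s}
  have hEp : ∀ p l s, s ∈ E p l ↔ s % 2 ^ l ∈ E p l := by
    intro p l s
    simp only [E, mem_ofPred_eq]
    rw [hlop l s, hhip l s]
  obtain ⟨μ, hμ⟩ := exists_content (fun l => 2 ^ l) (fun l => by positivity)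
    (fun l => pow_dvd_pow 2 (Nat.le_succ l))
  -- big measure
  have hbig : ∀ i, c / 2 / (2 * (2 * R)) ≤ μ.d (⋃ p ∈ Finset.range (P + 1), E p (φ i)) := by
    intro i
    have h1 := markov (2 ^ φ i) (by positivity) (fun s => hi (φ i) s - lo (φ i) s) (2 * R) (c / 2)
      (by positivity) (by positivity)
      (fun j _ => by
        have h1 := abs_le.1 (hhi (φ i) j)
        have h2 := abs_le.1 (hlo (φ i) j)
        change hi (φ i) j - lo (φ i) j ≤ 2 * R
        linarith [h1.2, h2.1]) (hq i)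
    have h2 : ∀ j, j ∈ {s | c / 2 / 2 ≤ hi (φ i) s - lo (φ i) s} ↔
        j % 2 ^ φ i ∈ {s | c / 2 / 2 ≤ hi (φ i) s - lo (φ i) s} := by
      intro j
      simp only [mem_ofPred_eq]
      rw [hlop _ j, hhip _ j]
    rw [← hμ (φ i) _ h2] at h1
    refine h1.trans (μ.mono _ _ ?_)
    intro s hs
    simp only [mem_ofPred_eq] at hs
    have h3 := abs_le.1 (hlo (φ i) s)
    have h4 : 0 ≤ (lo (φ i) s + R) / κ := div_nonneg (by linarith [h3.1]) hκ.le
    simp only [mem_iUnion, Finset.mem_range]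
    refine ⟨⌊(lo (φ i) s + R) / κ⌋₊, ?_, ?_, ?_, ?_⟩
    · rw [Nat.floor_lt h4, div_lt_iff₀ hκ]
      push_cast
      nlinarith [h3.2]
    · have := Nat.floor_le h4
      rw [le_div_iff₀ hκ] at this
      linarith
    · have := (Nat.lt_floor_add_one ((lo (φ i) s + R) / κ)).le
      rw [div_le_iff₀ hκ] at this
      linarith
    · linarith
  -- ultrafilter on the range of φ
  have hNB : (atTop ⊓ 𝓟 (range φ) : Filter ℕ).NeBot := by
    rw [inf_principal_neBot_iff]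
    intro s hs
    obtain ⟨m, hm⟩ := mem_atTop_sets.1 hs
    exact ⟨φ m, hm _ (hφ.id_le m), m, rfl⟩
  let U : Ultrafilter ℕ := Ultrafilter.of (atTop ⊓ 𝓟 (range φ))
  have hU0 : (U : Filter ℕ) ≤ atTop ⊓ 𝓟 (range φ) := Ultrafilter.of_le _
  have hU : (U : Filter ℕ) ≤ atTop := hU0.trans inf_le_left
  have hUr : range φ ∈ (U : Filter ℕ) := hU0.trans inf_le_right (mem_principal_self _)
  -- pigeonhole
  set c₂ : ℝ := c / 2 / (2 * (2 * R)) / (P + 1) with hc₂
  have hc₂0 : 0 < c₂ := by positivity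
  have hpig : ∀ i, ∃ p ∈ (Finset.range (P + 1) : Set ℕ), c₂ ≤ μ.d (E p (φ i)) := by
    intro i
    by_contra hcon
    push Not at hcon
    have h1 := (hbig i).trans (μ.le_sum _ _)
    have h2 : ∑ p ∈ Finset.range (P + 1), μ.d (E p (φ i)) < ∑ _p ∈ Finset.range (P + 1), c₂ :=
      Finset.sum_lt_sum_of_nonempty ⟨0, by simp⟩ fun p hp => hcon p (Finset.mem_coe.2 hp)
    rw [Finset.sum_const, Finset.card_range, nsmul_eq_mul] at h2
    have h3 : ((P + 1 : ℕ) : ℝ) * c₂ = c / 2 / (2 * (2 * R)) := by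
      rw [hc₂]
      push_cast
      field_simp
    linarith
  have hp : ∃ p ∈ (Finset.range (P + 1) : Set ℕ), {l | c₂ ≤ μ.d (E p l)} ∈ (U : Filter ℕ) := by
    refine (Ultrafilter.finite_biUnion_mem_iff (Finset.finite_toSet _)).1 ?_
    refine mem_of_superset hUr ?_
    rintro _ ⟨i, rfl⟩
    obtain ⟨p, hp, hp2⟩ := hpig i
    exact mem_biUnion hp hp2
  obtain ⟨p, -, hp⟩ := hp
  -- apply independence
  obtain ⟨ψ, hψ, -, hψ2⟩ := μ.indep U hU (E p) (fun b l => E p l ∩ {s | s.testBit l = !b})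
    (fun _ _ => inter_subset_left) c₂ hc₂0 hp univ univ_mem
    (fun B => ∃ m, ∀ s, s ∈ B ↔ s % 2 ^ m ∈ B) ⟨0, fun s => by simp⟩
    (by
      rintro B ⟨m, hm⟩ b l
      refine ⟨max m (l + 1), fun s => ?_⟩
      have e1 : s % 2 ^ max m (l + 1) % 2 ^ m = s % 2 ^ m :=
        Nat.mod_mod_of_dvd _ (pow_dvd_pow 2 (le_max_left _ _))
      have e2 : s % 2 ^ max m (l + 1) % 2 ^ l = s % 2 ^ l :=
        Nat.mod_mod_of_dvd _ (pow_dvd_pow 2 ((Nat.le_succ l).trans (le_max_right _ _)))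
      have e3 : (s % 2 ^ max m (l + 1)).testBit l = s.testBit l := by
        rw [Nat.testBit_mod_two_pow]
        have : l < max m (l + 1) := lt_of_lt_of_le (Nat.lt_succ_self l) (le_max_right _ _)
        simp [this]
      simp only [mem_inter_iff, mem_ofPred_eq]
      rw [hm s, hm (s % 2 ^ max m (l + 1)), e1, hEp p l s, hEp p l (s % 2 ^ max m (l + 1)), e2, e3])
    (by
      rintro B ⟨m, hm⟩
      filter_upwards [hU (eventually_ge_atTop m)] with l hl b
      have f1 : ∀ s, s ∈ B ∩ E p l ↔ s % 2 ^ l ∈ B ∩ E p l := by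
        intro s
        rw [mem_inter_iff, mem_inter_iff, hm s, hm (s % 2 ^ l),
          Nat.mod_mod_of_dvd _ (pow_dvd_pow 2 hl), hEp p l s]
      have f2 : ∀ s, s ∈ B ∩ (E p l ∩ {s | s.testBit l = !b}) ↔
          s % 2 ^ (l + 1) ∈ B ∩ (E p l ∩ {s | s.testBit l = !b}) := by
        intro s
        have e3 : (s % 2 ^ (l + 1)).testBit l = s.testBit l := by
          rw [Nat.testBit_mod_two_pow]
          simp
        have e4 : s % 2 ^ (l + 1) % 2 ^ l = s % 2 ^ l :=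
          Nat.mod_mod_of_dvd _ (pow_dvd_pow 2 (Nat.le_succ l))
        have e5 : ∀ r, r ∈ B ∩ (E p l ∩ {s | s.testBit l = !b}) ↔
            (r ∈ B ∩ E p l ∧ r.testBit l = !b) := by
          intro r
          rw [← inter_assoc]
          rfl
        rw [e5, e5, f1 s, f1 (s % 2 ^ (l + 1)), e4, e3]
      rw [hμ l _ f1, hμ (l + 1) _ f2]
      have f3 : ∑ j ∈ Finset.range (2 ^ (l + 1)),
          (B ∩ (E p l ∩ {s | s.testBit l = !b})).indicator (fun _ => (1 : ℝ)) j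
          = ∑ j ∈ Finset.range (2 ^ l), (B ∩ E p l).indicator (fun _ => (1 : ℝ)) j := by
        have f4 : ∀ j ∈ Finset.range (2 ^ l * 2),
            (B ∩ (E p l ∩ {s | s.testBit l = !b})).indicator (fun _ => (1 : ℝ)) j
            = (fun i k => (if (decide (k % 2 = 1)) = !b then
                (B ∩ E p l).indicator (fun _ => (1 : ℝ)) i else 0) : ℕ → ℕ → ℝ) (j % 2 ^ l) (j / 2 ^ l) := by
          intro j _
          have g1 : j.testBit l = decide (j / 2 ^ l % 2 = 1) := by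
            rw [Nat.testBit_eq_decide_div_mod_eq]
          change _ = if (decide (j / 2 ^ l % 2 = 1)) = !b then
                (B ∩ E p l).indicator (fun _ => (1 : ℝ)) (j % 2 ^ l) else 0
          rw [← g1]
          by_cases hb : j.testBit l = !b
          · rw [if_pos hb]
            by_cases hj : j ∈ B ∩ E p l
            · have hj' : j ∈ B ∩ (E p l ∩ {s | s.testBit l = !b}) := ⟨hj.1, hj.2, hb⟩
              rw [indicator_of_mem ((f1 j).1 hj), indicator_of_mem hj']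
            · rw [indicator_of_notMem (fun h => hj ((f1 j).2 h)),
                indicator_of_notMem (fun h => hj ⟨h.1, h.2.1⟩)]
          · rw [if_neg hb, indicator_of_notMem (fun h => hb h.2.2)]
        rw [pow_succ, Finset.sum_congr rfl f4,
          sum_range_mul_mod_div (2 ^ l) 2 (by positivity) (fun i k => (if (decide (k % 2 = 1)) = !b then
                (B ∩ E p l).indicator (fun _ => (1 : ℝ)) i else 0))]
        rw [Finset.sum_range_succ, Finset.sum_range_one]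
        cases b <;> simp
      rw [f3]
      push_cast
      rw [pow_succ, div_div])
  refine ⟨ψ, -R + (p + 1) * κ + κ, fun k e => ?_⟩
  obtain ⟨s, hs⟩ := hψ2 k e
  obtain ⟨m, hm⟩ : ∃ m, ∀ i < k, ψ i + 1 ≤ m := by
    refine ⟨ψ k + 1, fun i hi => ?_⟩
    have := hψ hi
    omega
  refine ⟨t m s, htK _ _, fun i hi' => ?_⟩
  obtain ⟨⟨-, hE2, hE3⟩, hbit'⟩ := hs i hi'
  have hcl := close_iter t G κ hclose hG (ψ i + 1) m s (hm i hi') (g (ψ i)) (hg _).2
  have hcl' : κ * (((1 : ℝ) / 2) ^ (ψ i + 1) - (1 / 2) ^ m) ≤ κ := by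
    refine mul_le_of_le_one_right hκ.le ?_
    have h1 : ((1 : ℝ) / 2) ^ (ψ i + 1) ≤ 1 := pow_le_one₀ (by norm_num) (by norm_num)
    have h2 : (0 : ℝ) ≤ (1 / 2) ^ m := by positivity
    linarith
  have hcl2 := abs_le.1 (hcl.trans hcl')
  constructor
  · intro he
    have hb0 : s.testBit (ψ i) = false := by
      have : s.testBit (ψ i) = !(e i) := hbit'
      rw [this, he]; rfl
    have h1 := hbit (ψ i) s hb0
    rw [h1] at hcl2
    have h2 : t (ψ i) s (g (ψ i)) = hi (ψ i) s := rfl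
    rw [h2] at hcl2
    -- lower bound for lo
    have h3 : -R + p * κ ≤ lo (ψ i) s := (hs i hi').1.1
    linarith [hcl2.1]
  · intro he
    have hb1 : s.testBit (ψ i) = true := by
      have : s.testBit (ψ i) = !(e i) := hbit'
      rw [this, he]; rfl
    have h1 : t (ψ i + 1) s = t (ψ i + 1) (s % 2 ^ ψ i + 2 ^ ψ i) := by
      rw [htp (ψ i + 1) s]
      congr 1
      rw [Nat.testBit_eq_decide_div_mod_eq, decide_eq_true_eq] at hb1
      rw [pow_succ, Nat.mod_mul, hb1, mul_one]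
    rw [h1] at hcl2
    have h2 : t (ψ i + 1) (s % 2 ^ ψ i + 2 ^ ψ i) (g (ψ i)) = lo (ψ i) s := rfl
    rw [h2] at hcl2
    linarith [hcl2.2]

end Pool.Agent.Helper568.Dent
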