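import Pool.Agent.Helper568.Dent4

set_option autoImplicit false

open Filter Set Topology

namespace Pool.Agent.Helper568.Dent

variable {X : Type*} [NormedAddCommGroup X] [NormedSpace ℝ X]

/-- Theorem A: the local property at a single point produces a copy of `ℓ₁`. -/
theorem l1_of_loc [CompleteSpace X] (Kh : Set (X →L[ℝ] ℝ)) (t₀ : X →L[ℝ] ℝ) (ht₀ : t₀ ∈ Kh)
    (R c₀ : ℝ) (hR : 0 < R) (hKR : ∀ f ∈ Kh, ‖f‖ ≤ R) (hc₀ : 0 < c₀)
    (hloc : Loc Kh t₀ c₀ (fun l => c₀ / 8 * (1 - (1 / 2) ^ l))) :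
    ∃ (T : lp (fun _ : ℕ => ℝ) 1 →L[ℝ] X) (c : ℝ),
          0 < c ∧ ∀ v : lp (fun _ : ℕ => ℝ) 1, c * ‖v‖ ≤ ‖T v‖ := by
  set c : ℝ := c₀ / 2 with hc
  set κ : ℝ := c / 32 with hκ
  have hc0 : 0 < c := by positivity
  have hκ0 : 0 < κ := by positivity
  obtain ⟨n, M, g, T, G, hn, hM, hnM, hTK, hTp, hbit, hclose, hg, hG, hq⟩ :=
    recursion Kh t₀ ht₀ c₀ c (fun l => c₀ / 8 * (1 - (1 / 2) ^ l))
      (fun l => c₀ / 8 * (1 / 2) ^ (l + 1)) (fun l => κ * (1 / 2) ^ (l + 1))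
      (fun l => by positivity) (fun l => by positivity) (by simp)
      (fun l => by
        have : ((1 : ℝ) / 2) ^ (l + 1) = (1 / 2) ^ l / 2 := by rw [pow_succ]; ring
        simp only [this]
        apply le_of_eq
        ring)
      (fun l => by
        have : (0 : ℝ) ≤ (1 / 2) ^ l := by positivity
        change c₀ / 2 + 2 * (c₀ / 8 * (1 - (1 / 2) ^ l)) ≤ c₀
        nlinarith) hloc
  have hdvd : ∀ l, n l ∣ n (l + 1) := fun l => ⟨M l, hnM l⟩
  -- k-index
  have hkmod : ∀ l j, j % n (l + 1) / n l % M l = j / n l % M l := by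
    intro l j
    rw [hnM, Nat.mod_mul_right_div_self, Nat.mod_mod]
  have hT1 : ∀ l s j, T l s j = T l s (j % n l) := by
    intro l s j
    rw [hTp l s j, hTp l s (j % n l), Nat.mod_mod]
  have hT2 : ∀ l s j, T l s j = T l (s % 2 ^ l) j := by
    intro l s j
    rw [hTp l s j, hTp l (s % 2 ^ l) j, Nat.mod_mod]
  have hT3 : ∀ l s j, T l s (j % n (l + 1)) = T l s j := by
    intro l s j
    rw [hT1 l s (j % n (l + 1)), Nat.mod_mod_of_dvd _ (hdvd l), ← hT1]
  let D : ℕ → ℕ → ℕ → ℝ := fun l j s =>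
    T l s j (g l (j / n l % M l)) - T (l + 1) (s % 2 ^ l + 2 ^ l) j (g l (j / n l % M l))
  let q : ℕ → ℕ → ℝ := fun l j => ((2 ^ l : ℕ) : ℝ)⁻¹ * ∑ s ∈ Finset.range (2 ^ l), D l j s
  have hqp : ∀ l j, q l j = q l (j % n (l + 1)) := by
    intro l j
    simp only [q, D]
    rw [hkmod]
    congr 1
    refine Finset.sum_congr rfl fun s _ => ?_
    rw [hT3, ← hT1 (l + 1) (s % 2 ^ l + 2 ^ l) j]
  let F : ℕ → Set ℕ := fun l => {j | c / 2 ≤ q l j}
  have hF : ∀ l j, j ∈ F l ↔ j % n (l + 1) ∈ F l := by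
    intro l j
    simp only [F, mem_ofPred_eq]
    rw [hqp]
  have hval : ∀ f ∈ Kh, ∀ l, ∀ k < M l, |f (g l k)| ≤ R := by
    intro f hf l k hk
    refine (f.le_opNorm _).trans ?_
    calc ‖f‖ * ‖g l k‖ ≤ R * 1 := mul_le_mul (hKR f hf) (hg l k hk).1 (norm_nonneg _) hR.le
      _ = R := mul_one R
  have hDle : ∀ l j s, D l j s ≤ 2 * R := by
    intro l j s
    have h1 := abs_le.1 (hval _ (hTK l s j) l (j / n l % M l) (Nat.mod_lt _ (hM l)))
    have h2 := abs_le.1 (hval _ (hTK (l + 1) (s % 2 ^ l + 2 ^ l) j) l (j / n l % M l)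
      (Nat.mod_lt _ (hM l)))
    simp only [D]
    linarith [h1.2, h2.1]
  have h2l : ∀ l : ℕ, (0 : ℝ) < ((2 ^ l : ℕ) : ℝ) := fun l => by positivity
  have hqle : ∀ l j, q l j ≤ 2 * R := by
    intro l j
    simp only [q]
    rw [inv_mul_le_iff₀ (h2l l)]
    refine (Finset.sum_le_card_nsmul _ _ (2 * R) fun s _ => hDle l j s).trans ?_
    rw [Finset.card_range, nsmul_eq_mul]
  have havg : ∀ l, c ≤ ((n (l + 1) : ℕ) : ℝ)⁻¹ * ∑ j ∈ Finset.range (n (l + 1)), q l j := by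
    intro l
    have hn' : (0 : ℝ) < n l := Nat.cast_pos.2 (hn l)
    have hM' : (0 : ℝ) < M l := Nat.cast_pos.2 (hM l)
    let f : ℕ → ℕ → ℝ := fun i k => ((2 ^ l : ℕ) : ℝ)⁻¹ * ∑ s ∈ Finset.range (2 ^ l),
      (T l s i (g l k) - T (l + 1) (s % 2 ^ l + 2 ^ l) (i + n l * k) (g l k))
    have h1 : ∀ j ∈ Finset.range (n l * M l), q l j = f (j % n l) (j / n l) := by
      intro j hj
      rw [Finset.mem_range] at hj
      have hk : j / n l < M l := Nat.div_lt_of_lt_mul hj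
      simp only [q, D, f]
      rw [Nat.mod_eq_of_lt hk, Nat.mod_add_div]
      congr 1
      refine Finset.sum_congr rfl fun s _ => ?_
      rw [← hT1 l s j]
    have h2 : ∀ k < M l, n l * c ≤ ∑ i ∈ Finset.range (n l), f i k := by
      intro k hk
      simp only [f]
      rw [← Finset.mul_sum, Finset.sum_comm]
      rw [le_inv_mul_iff₀ (h2l l)]
      have h3 : ∀ s ∈ Finset.range (2 ^ l), (n l : ℝ) * c ≤ ∑ i ∈ Finset.range (n l),
          (T l s i (g l k) - T (l + 1) (s % 2 ^ l + 2 ^ l) (i + n l * k) (g l k)) := by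
        intro s _
        have := hq l s k hk
        rwa [le_inv_mul_iff₀ hn'] at this
      have h4 := Finset.card_nsmul_le_sum _ _ _ h3
      rwa [Finset.card_range, nsmul_eq_mul] at h4
    rw [hnM, Finset.sum_congr rfl h1, sum_range_mul_mod_div (n l) (M l) (hn l) f]
    have h5 := Finset.card_nsmul_le_sum (Finset.range (M l)) _ _
      fun k hk => h2 k (Finset.mem_range.1 hk)
    rw [Finset.card_range, nsmul_eq_mul] at h5
    push_cast
    rw [le_inv_mul_iff₀ (by positivity)]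
    linarith
  have hd : ∀ l, c / (2 * (2 * R)) ≤
      (∑ j ∈ Finset.range (n (l + 1)), (F l).indicator (fun _ => (1 : ℝ)) j) / n (l + 1) := fun l =>
    markov (n (l + 1)) (hn _) (q l) (2 * R) c (by positivity) hc0.le (fun j _ => hqle l j) (havg l)
  obtain ⟨j, φ, hφ, hjn, hjj, hjF⟩ := branch n hn hdvd F hF (c / (2 * (2 * R))) (by positivity) hd
  -- the tree along the branch
  let t : ℕ → ℕ → X →L[ℝ] ℝ := fun l s => T l s (j l)
  let gs : ℕ → X := fun l => g l (j (l + 1) / n l % M l)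
  have htj : ∀ l s, T l s (j (l + 1)) = t l s := by
    intro l s
    rw [hT1, hjj]
  obtain ⟨ψ, a, hψ⟩ := tree_indep Kh R c κ hR hc0 hκ0 (by rw [hκ]; linarith) hKR t gs G φ hφ
    (fun l s => hTK _ _ _) (fun l s => hT2 l s (j l))
    (fun l s hs => by
      change T (l + 1) s (j (l + 1)) = t l s
      rw [hbit l s _ hs, htj])
    (fun l s x hx => by
      have := hclose l s (j (l + 1)) x hx
      rwa [htj] at this)
    (fun l => hg l _ (Nat.mod_lt _ (hM l))) hG
    (fun i => by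
      have h1 : c / 2 ≤ q (φ i) (j (φ i + 1)) := hjF i
      simp only [q, D] at h1
      simp only [htj] at h1
      exact h1)
  exact l1_of_indep (fun i => gs (ψ i)) (fun i => (hg _ _ (Nat.mod_lt _ (hM _))).1) R κ a hR hκ0
    (fun k e => by
      obtain ⟨f, hf, hf2⟩ := hψ k e
      exact ⟨f, hKR f hf, hf2⟩)

end Pool.Agent.Helper568.Dent
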