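import Mathlib

set_option autoImplicit false

open Filter Set Topology

namespace Pool.Agent.Helper568.Dent

section LL1

variable {V : Type*} [AddCommGroup V] [Module ℝ V] [TopologicalSpace V] [IsTopologicalAddGroup V]
  [ContinuousSMul ℝ V] [T2Space V]

theorem ll1 (Q H : Set V) (hQ : IsCompact Q) (hQc : Convex ℝ Q) (hH : IsCompact H)
    (hHc : Convex ℝ H) (hHQ : H ⊆ Q) (t : V) (ht : t ∈ Q.extremePoints ℝ) (htH : t ∉ H) (κ : ℝ)
    (hκ : 0 < κ) :
    ∀ᶠ y in 𝓝 t, ∀ (ι : Type) [Fintype ι] (w : ι → ℝ) (z : ι → V), (∀ i, 0 ≤ w i) →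
      ∑ i, w i = 1 → (∀ i, z i ∈ Q) → ∑ i, w i • z i = y →
      ∑ i, w i * H.indicator (fun _ => (1 : ℝ)) (z i) ≤ κ := by
  classical
  set Z : Set V := (fun p : ℝ × V × V => p.1 • p.2.1 + (1 - p.1) • p.2.2) '' (Icc κ 1 ×ˢ H ×ˢ Q) with hZ
  have hZc : IsCompact Z := (isCompact_Icc.prod (hH.prod hQ)).image (by fun_prop)
  have htZ : t ∉ Z := by
    rintro ⟨⟨r, a, b⟩, ⟨hr, ha, hb⟩, hy⟩
    simp only at hr ha hb hy
    rcases eq_or_lt_of_le hr.2 with h1 | h1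
    · rw [h1] at hy
      simp only [one_smul, sub_self, zero_smul, add_zero] at hy
      exact htH (hy ▸ ha)
    · have h2 : t ∈ openSegment ℝ a b := ⟨r, 1 - r, hκ.trans_le hr.1, by linarith, by ring, hy⟩
      exact htH ((ht.2 (hHQ ha) hb h2) ▸ ha)
  filter_upwards [hZc.isClosed.isOpen_compl.mem_nhds htZ] with y hy ι _ w z hw hw1 hz hyz
  by_contra hcon
  push Not at hcon
  apply hy
  set s : Finset ι := Finset.univ.filter (fun i => z i ∈ H) with hs
  set m : ℝ := ∑ i, w i * H.indicator (fun _ => (1 : ℝ)) (z i) with hm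
  have hms : m = ∑ i ∈ s, w i := by
    rw [hm, hs, Finset.sum_filter]
    refine Finset.sum_congr rfl fun i _ => ?_
    by_cases h : z i ∈ H
    · rw [indicator_of_mem h, if_pos h, mul_one]
    · rw [indicator_of_notMem h, if_neg h, mul_zero]
  have hsplit : ∑ i ∈ s, w i + ∑ i ∈ sᶜ, w i = 1 := by rw [Finset.sum_add_sum_compl, hw1]
  have hsplit2 : ∑ i ∈ s, w i • z i + ∑ i ∈ sᶜ, w i • z i = y := by rw [Finset.sum_add_sum_compl, hyz]
  have hcomp0 : 0 ≤ ∑ i ∈ sᶜ, w i := Finset.sum_nonneg fun i _ => hw i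
  have hm1 : m ≤ 1 := by rw [hms]; linarith
  have hm0 : 0 < m := hκ.trans hcon
  have ha : m⁻¹ • ∑ i ∈ s, w i • z i ∈ H := by
    rw [Finset.smul_sum]
    simp_rw [smul_smul]
    refine hHc.sum_mem (fun i _ => mul_nonneg (inv_nonneg.2 hm0.le) (hw i)) ?_ ?_
    · rw [← Finset.mul_sum, ← hms, inv_mul_cancel₀ hm0.ne']
    · intro i hi
      exact (Finset.mem_filter.1 hi).2
  rcases eq_or_lt_of_le hm1 with h1 | h1
  · have hzero : ∑ i ∈ sᶜ, w i • z i = 0 := by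
      have h2 : ∑ i ∈ sᶜ, w i = 0 := by rw [← hms, h1] at hsplit; linarith
      have h3 := (Finset.sum_eq_zero_iff_of_nonneg fun i _ => hw i).1 h2
      exact Finset.sum_eq_zero fun i hi => by rw [h3 i hi, zero_smul]
    refine ⟨(m, m⁻¹ • ∑ i ∈ s, w i • z i, m⁻¹ • ∑ i ∈ s, w i • z i), ⟨⟨hcon.le, hm1⟩, ha, hHQ ha⟩, ?_⟩
    simp only
    rw [h1]
    simp only [inv_one, one_smul, sub_self, zero_smul, add_zero]
    rw [← hsplit2, hzero, add_zero]
  · have hb : (1 - m)⁻¹ • ∑ i ∈ sᶜ, w i • z i ∈ Q := by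
      rw [Finset.smul_sum]
      simp_rw [smul_smul]
      have h2 : 0 < 1 - m := by linarith
      refine hQc.sum_mem (fun i _ => mul_nonneg (inv_nonneg.2 h2.le) (hw i)) ?_ (fun i _ => hz i)
      rw [← Finset.mul_sum]
      have h3 : ∑ i ∈ sᶜ, w i = 1 - m := by rw [hms]; linarith
      rw [h3, inv_mul_cancel₀ h2.ne']
    refine ⟨(m, m⁻¹ • ∑ i ∈ s, w i • z i, (1 - m)⁻¹ • ∑ i ∈ sᶜ, w i • z i),
      ⟨⟨hcon.le, hm1⟩, ha, hb⟩, ?_⟩
    simp only
    rw [smul_smul, smul_smul, mul_inv_cancel₀ hm0.ne', mul_inv_cancel₀ (by linarith), one_smul,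
      one_smul, hsplit2]

end LL1

/-- locality of convex combinations near an extreme point -/
theorem ll (Q : Set (ℕ → ℝ)) (hQ : IsCompact Q) (hQc : Convex ℝ Q) (t : ℕ → ℝ)
    (ht : t ∈ Q.extremePoints ℝ) (O : Set (ℕ → ℝ)) (hO : O ∈ 𝓝 t) (κ : ℝ) (hκ : 0 < κ) :
    ∀ᶠ y in 𝓝 t, ∀ (ι : Type) [Fintype ι] (w : ι → ℝ) (z : ι → ℕ → ℝ), (∀ i, 0 ≤ w i) →
      ∑ i, w i = 1 → (∀ i, z i ∈ Q) → ∑ i, w i • z i = y →
      ∑ i, w i * Oᶜ.indicator (fun _ => (1 : ℝ)) (z i) ≤ κ := by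
  classical
  rw [nhds_pi, Filter.mem_pi] at hO
  obtain ⟨I, hI, S, hS, hSO⟩ := hO
  have hS' : ∀ i, ∃ ρ > 0, Metric.ball (t i) ρ ⊆ S i := fun i => Metric.mem_nhds_iff.1 (hS i)
  choose ρ hρ hρS using hS'
  let H : ℕ × Bool → Set (ℕ → ℝ) := fun p =>
    Q ∩ {u | ρ p.1 ≤ (if p.2 then (1 : ℝ) else -1) * (u p.1 - t p.1)}
  have hHcl : ∀ p : ℕ × Bool, IsClosed {u : ℕ → ℝ | ρ p.1 ≤ (if p.2 then (1 : ℝ) else -1) * (u p.1 - t p.1)} :=
    fun p => isClosed_le continuous_const (by fun_prop)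
  have hHcv : ∀ p : ℕ × Bool, Convex ℝ {u : ℕ → ℝ | ρ p.1 ≤ (if p.2 then (1 : ℝ) else -1) * (u p.1 - t p.1)} := by
    intro p u hu v hv a b ha hb hab
    simp only [mem_ofPred_eq, Pi.add_apply, Pi.smul_apply, smul_eq_mul] at hu hv ⊢
    have e1 : (if p.2 then (1 : ℝ) else -1) * (a * u p.1 + b * v p.1 - t p.1)
      = a * ((if p.2 then (1 : ℝ) else -1) * (u p.1 - t p.1))
        + b * ((if p.2 then (1 : ℝ) else -1) * (v p.1 - t p.1)) := by
      linear_combination (if p.2 then (1 : ℝ) else -1) * t p.1 * hab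
    rw [e1]
    have h1 := mul_le_mul_of_nonneg_left hu ha
    have h2 := mul_le_mul_of_nonneg_left hv hb
    have h3 : ρ p.1 = a * ρ p.1 + b * ρ p.1 := by rw [← add_mul, hab, one_mul]
    rw [h3]
    exact add_le_add h1 h2
  set J : Finset (ℕ × Bool) := hI.toFinset ×ˢ Finset.univ with hJ
  set κ' : ℝ := κ / (J.card + 1) with hκ'
  have hκ'0 : 0 < κ' := by positivity
  have hev : ∀ p ∈ J, ∀ᶠ y in 𝓝 t, ∀ (ι : Type) [Fintype ι] (w : ι → ℝ) (z : ι → ℕ → ℝ),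
      (∀ i, 0 ≤ w i) → ∑ i, w i = 1 → (∀ i, z i ∈ Q) → ∑ i, w i • z i = y →
      ∑ i, w i * (H p).indicator (fun _ => (1 : ℝ)) (z i) ≤ κ' := by
    intro p _
    refine ll1 Q (H p) hQ hQc (hQ.inter_right (hHcl p)) (hQc.inter (hHcv p)) inter_subset_left t ht
      ?_ κ' hκ'0
    rintro ⟨-, h⟩
    simp only [mem_ofPred_eq, sub_self, mul_zero] at h
    exact absurd h (not_le.2 (hρ _))
  filter_upwards [(Finset.eventually_all J).2 hev] with y hy ι _ w z hw hw1 hz hyz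
  have h1 : ∀ i, Oᶜ.indicator (fun _ => (1 : ℝ)) (z i)
      ≤ ∑ p ∈ J, (H p).indicator (fun _ => (1 : ℝ)) (z i) := by
    intro i
    by_cases hi : z i ∈ O
    · rw [indicator_of_notMem (by simpa using hi)]
      exact Finset.sum_nonneg fun p _ => indicator_nonneg (fun _ _ => zero_le_one) _
    · rw [indicator_of_mem (by simpa using hi)]
      have h2 : z i ∉ I.pi S := fun h => hi (hSO h)
      rw [Set.mem_pi] at h2
      push Not at h2
      obtain ⟨k, hk, hkS⟩ := h2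
      have h3 : z i k ∉ Metric.ball (t k) (ρ k) := fun h => hkS (hρS k h)
      rw [Metric.mem_ball, Real.dist_eq, not_lt] at h3
      have h4 : ∃ b : Bool, z i ∈ H (k, b) := by
        rcases le_abs.1 h3 with h | h
        · exact ⟨true, hz i, by simpa using h⟩
        · refine ⟨false, hz i, ?_⟩
          simp only [mem_ofPred_eq, Bool.false_eq_true, if_false]
          linarith
      obtain ⟨b, hb⟩ := h4
      have h5 : ((k, b) : ℕ × Bool) ∈ J := by
        rw [hJ, Finset.mem_product]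
        exact ⟨by simpa using hk, Finset.mem_univ _⟩
      calc (1 : ℝ) = (H (k, b)).indicator (fun _ => (1 : ℝ)) (z i) :=
            (indicator_of_mem hb (fun _ => (1 : ℝ))).symm
        _ ≤ _ := Finset.single_le_sum (f := fun p => (H p).indicator (fun _ => (1 : ℝ)) (z i))
            (fun p _ => indicator_nonneg (fun _ _ => zero_le_one) _) h5
  calc ∑ i, w i * Oᶜ.indicator (fun _ => (1 : ℝ)) (z i)
      ≤ ∑ i, w i * ∑ p ∈ J, (H p).indicator (fun _ => (1 : ℝ)) (z i) :=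
        Finset.sum_le_sum fun i _ => mul_le_mul_of_nonneg_left (h1 i) (hw i)
    _ = ∑ p ∈ J, ∑ i, w i * (H p).indicator (fun _ => (1 : ℝ)) (z i) := by
        simp_rw [Finset.mul_sum]
        rw [Finset.sum_comm]
    _ ≤ ∑ _p ∈ J, κ' := Finset.sum_le_sum fun p hp => hy p hp ι w z hw hw1 hz hyz
    _ ≤ κ := by
        rw [Finset.sum_const, nsmul_eq_mul, hκ', mul_div_assoc', div_le_iff₀ (by positivity)]
        nlinarith

end Pool.Agent.Helper568.Dent
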