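import Pool.Agent.Helper568.Dent6

set_option autoImplicit false

open Filter Set Topology

namespace Pool.Agent.Helper568.Dent

/-- norm-type constraint -/
def NB (w : ℕ → ℝ) (θ : ℝ) : Set (ℕ → ℝ) := {y | ∀ i, |y i| ≤ θ * w i}

noncomputable def vav (n : ℕ) (v : ℕ → ℕ → ℝ) : ℕ → ℝ := (n : ℝ)⁻¹ • ∑ j ∈ Finset.range n, v j

theorem vav_apply (n : ℕ) (v : ℕ → ℕ → ℝ) (i : ℕ) :
    vav n v i = (n : ℝ)⁻¹ * ∑ j ∈ Finset.range n, v j i := by
  simp [vav]

theorem vav_congr (n : ℕ) {v v' : ℕ → ℕ → ℝ} (h : ∀ j < n, v j = v' j) : vav n v = vav n v' := by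
  unfold vav
  rw [Finset.sum_congr rfl fun i hi => h i (Finset.mem_range.1 hi)]

theorem isClosed_NB (w : ℕ → ℝ) (θ : ℝ) : IsClosed (NB w θ) := by
  have : NB w θ = ⋂ i, {y : ℕ → ℝ | |y i| ≤ θ * w i} := by
    ext y; simp [NB]
  rw [this]
  exact isClosed_iInter fun i => isClosed_le (by fun_prop) continuous_const

theorem continuous_vav (n : ℕ) : Continuous (fun v : ℕ → ℕ → ℝ => vav n v) := by
  unfold vav
  fun_prop

/-- closedness of projections -/
theorem isCompact_proj (Q : Set (ℕ → ℝ)) (hQ : IsCompact Q) (w : ℕ → ℝ) (θ : ℝ) (n : ℕ)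
    (F : Finset ℕ) (c : ℕ → ℕ → ℝ) (δ : ℝ) :
    IsCompact {t : ℕ → ℝ | t ∈ Q ∧ ∃ v : ℕ → ℕ → ℝ, (∀ j, v j ∈ Q) ∧
      (∀ j < n, ∀ i ∈ F, |v j i - c j i| ≤ δ) ∧ t - vav n v ∈ NB w θ} := by
  have h1 : IsCompact (Q ×ˢ (Set.pi univ fun _ : ℕ => Q)) := hQ.prod (isCompact_univ_pi fun _ => hQ)
  have h2 : IsClosed {p : (ℕ → ℝ) × (ℕ → ℕ → ℝ) | (∀ j < n, ∀ i ∈ F, |p.2 j i - c j i| ≤ δ) ∧
      p.1 - vav n p.2 ∈ NB w θ} := by
    refine IsClosed.inter (s₁ := {p : (ℕ → ℝ) × (ℕ → ℕ → ℝ) | ∀ j < n, ∀ i ∈ F, |p.2 j i - c j i| ≤ δ})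
      (s₂ := {p : (ℕ → ℝ) × (ℕ → ℕ → ℝ) | p.1 - vav n p.2 ∈ NB w θ}) ?_ ?_
    · have h3 : {p : (ℕ → ℝ) × (ℕ → ℕ → ℝ) | ∀ j < n, ∀ i ∈ F, |p.2 j i - c j i| ≤ δ}
          = ⋂ j, ⋂ (_ : j < n), ⋂ i, ⋂ (_ : i ∈ F), {p | |p.2 j i - c j i| ≤ δ} := by
        ext p; simp
      rw [h3]
      refine isClosed_iInter fun j => isClosed_iInter fun _ => isClosed_iInter fun i =>
        isClosed_iInter fun _ => isClosed_le (by fun_prop) continuous_const
    · exact (isClosed_NB w θ).preimage (continuous_fst.sub ((continuous_vav n).comp continuous_snd))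
  have h3 := (h1.inter_right h2).image continuous_fst
  convert h3 using 1
  ext t
  constructor
  · rintro ⟨ht, v, hv, h4, h5⟩
    exact ⟨(t, v), ⟨⟨ht, fun j _ => hv j⟩, h4, h5⟩, rfl⟩
  · rintro ⟨⟨t', v⟩, ⟨⟨ht, hv⟩, h4, h5⟩, rfl⟩
    exact ⟨ht, v, fun j => hv j (mem_univ j), h4, h5⟩

/-- generic points in the closure of the extreme points -/
theorem exists_generic (Q : Set (ℕ → ℝ)) (hQ : IsCompact Q) (hQc : Convex ℝ Q) (hQne : Q.Nonempty)
    {P : Type*} [Countable P] (A : P → Set (ℕ → ℝ)) (hA : ∀ p, IsCompact (A p)) :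
    ∃ t ∈ Q.extremePoints ℝ, ∀ p, t ∈ A p →
      ∃ O ∈ 𝓝 t, ∀ u ∈ closure (Q.extremePoints ℝ), u ∈ O → u ∈ A p := by
  set s := Q.extremePoints ℝ with hs
  set C := closure s with hC
  have hsne : s.Nonempty := hQ.extremePoints_nonempty hQne
  have hsQ : s ⊆ Q := extremePoints_subset
  have hCQ : C ⊆ Q := closure_minimal hsQ hQ.isClosed
  have hCc : IsCompact C := hQ.of_isClosed_subset isClosed_closure hCQ
  have : CompactSpace C := isCompact_iff_compactSpace.1 hCc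
  have : Nonempty C := (hsne.mono subset_closure).to_subtype
  -- the non extreme sets
  let B : ℕ × ℚ → Set (ℕ → ℝ) := fun r =>
    {t | ∃ a ∈ Q, ∃ b ∈ Q, t = (1 / 2 : ℝ) • (a + b) ∧ (r.2 : ℝ) ≤ a r.1 - b r.1}
  have hB : ∀ r, IsCompact (B r) := by
    intro r
    have h1 : IsCompact ((Q ×ˢ Q) ∩ {p : (ℕ → ℝ) × (ℕ → ℝ) | (r.2 : ℝ) ≤ p.1 r.1 - p.2 r.1}) :=
      (hQ.prod hQ).inter_right (isClosed_le continuous_const (by fun_prop))
    have h2 := h1.image (f := fun p : (ℕ → ℝ) × (ℕ → ℝ) => (1 / 2 : ℝ) • (p.1 + p.2)) (by fun_prop)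
    convert h2 using 1
    ext t
    constructor
    · rintro ⟨a, ha, b, hb, h3, h4⟩
      exact ⟨(a, b), ⟨⟨ha, hb⟩, h4⟩, h3.symm⟩
    · rintro ⟨⟨a, b⟩, ⟨⟨ha, hb⟩, h4⟩, h3⟩
      exact ⟨a, ha, b, hb, h3.symm, h4⟩
  let f : P ⊕ (ℕ × {q : ℚ // 0 < q}) → Set C := fun k => match k with
    | Sum.inl p => (frontier ((↑) ⁻¹' (A p) : Set C))ᶜ
    | Sum.inr r => ((↑) ⁻¹' (B (r.1, r.2.1)) : Set C)ᶜ
  have hfo : ∀ k, IsOpen (f k) := by
    rintro (p | r)
    · exact isClosed_frontier.isOpen_compl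
    · exact ((hB _).isClosed.preimage continuous_subtype_val).isOpen_compl
  have hfd : ∀ k, Dense (f k) := by
    rintro (p | r)
    · rw [← interior_eq_empty_iff_dense_compl]
      exact interior_frontier ((hA p).isClosed.preimage continuous_subtype_val)
    · have h1 : Dense ((↑) ⁻¹' s : Set C) := by
        intro x
        rw [closure_subtype, Subtype.image_preimage_coe, inter_eq_right.2 subset_closure]
        exact x.2
      refine h1.mono ?_
      rintro ⟨x, hx⟩ hxs ⟨a, ha, b, hb, h3, h4⟩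
      have h5 : x ∈ s := hxs
      have h6 : x ∈ openSegment ℝ a b := by
        refine ⟨1 / 2, 1 / 2, by norm_num, by norm_num, by norm_num, ?_⟩
        rw [← smul_add]; exact h3.symm
      have h7 := (mem_extremePoints.1 h5).2 a ha b hb h6
      have h8 : (0 : ℝ) < r.2.1 := Rat.cast_pos.2 r.2.2
      simp only at h4
      rw [h7.1, h7.2, sub_self] at h4
      linarith
  obtain ⟨⟨t, htC⟩, ht⟩ := (dense_iInter_of_isOpen hfo hfd).nonempty
  rw [mem_iInter] at ht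
  have htext : t ∈ s := by
    refine mem_extremePoints_iff_left.2 ⟨hCQ htC, fun a ha b hb hab => ?_⟩
    obtain ⟨α, β, hα, hβ, hαβ, habt⟩ := hab
    by_contra hat
    have hne : a ≠ b := by
      intro h
      apply hat
      rw [← habt, ← h, ← add_smul, hαβ, one_smul]
    obtain ⟨i, hi⟩ := Function.ne_iff.1 hne
    set ε : ℝ := min α β with hε
    have hε0 : 0 < ε := lt_min hα hβ
    have hεα : ε ≤ α := min_le_left _ _
    have hεβ : ε ≤ β := min_le_right _ _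
    have hp1 : (α + ε) • a + (β - ε) • b ∈ Q :=
      hQc ha hb (by linarith) (by linarith) (by linarith)
    have hp2 : (α - ε) • a + (β + ε) • b ∈ Q :=
      hQc ha hb (by linarith) (by linarith) (by linarith)
    have ht1 : t = (1 / 2 : ℝ) • (((α + ε) • a + (β - ε) • b) + ((α - ε) • a + (β + ε) • b)) := by
      rw [← habt]
      module
    have ht2 : t = (1 / 2 : ℝ) • (((α - ε) • a + (β + ε) • b) + ((α + ε) • a + (β - ε) • b)) := by
      rw [← habt]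
      module
    rcases lt_or_gt_of_ne hi with h | h
    · obtain ⟨q, hq0, hq1⟩ := exists_rat_btwn (show (0 : ℝ) < 2 * ε * (b i - a i) by
        have : 0 < b i - a i := by linarith
        positivity)
      have hq0' : 0 < q := by exact_mod_cast hq0
      refine ht (Sum.inr (i, ⟨q, hq0'⟩)) ⟨_, hp2, _, hp1, ht2, ?_⟩
      simp only [Pi.add_apply, Pi.smul_apply, smul_eq_mul]
      nlinarith
    · obtain ⟨q, hq0, hq1⟩ := exists_rat_btwn (show (0 : ℝ) < 2 * ε * (a i - b i) by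
        have : 0 < a i - b i := by linarith
        positivity)
      have hq0' : 0 < q := by exact_mod_cast hq0
      refine ht (Sum.inr (i, ⟨q, hq0'⟩)) ⟨_, hp1, _, hp2, ht1, ?_⟩
      simp only [Pi.add_apply, Pi.smul_apply, smul_eq_mul]
      nlinarith
  refine ⟨t, htext, fun p hp => ?_⟩
  have h1 : (⟨t, htC⟩ : C) ∉ frontier ((↑) ⁻¹' (A p) : Set C) := ht (Sum.inl p)
  have h2 : (⟨t, htC⟩ : C) ∈ interior ((↑) ⁻¹' (A p) : Set C) := by
    by_contra h
    exact h1 ⟨subset_closure hp, h⟩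
  rw [mem_interior_iff_mem_nhds, nhds_subtype_eq_comap, mem_comap] at h2
  obtain ⟨O, hO, hO2⟩ := h2
  exact ⟨O, hO, fun u hu huO => hO2 (show (⟨u, hu⟩ : C) ∈ (↑) ⁻¹' O from huO)⟩

end Pool.Agent.Helper568.Dent
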