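import Pool.Agent.Helper568.Dent7

set_option autoImplicit false

open Filter Set Topology

namespace Pool.Agent.Helper568.Dent

theorem vav_const (n : ℕ) (hn : 0 < n) (z : ℕ → ℝ) : vav n (fun _ => z) = z := by
  unfold vav
  rw [Finset.sum_const, Finset.card_range, ← Nat.cast_smul_eq_nsmul ℝ, smul_smul,
    inv_mul_cancel₀ (Nat.cast_ne_zero.2 hn.ne'), one_smul]

theorem vav_sum (n : ℕ) {ι : Type} [Fintype ι] (a : ι → ℝ) (x : ι → ℕ → ℕ → ℝ) :
    vav n (fun j => ∑ i, a i • x i j) = ∑ i, a i • vav n (x i) := by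
  unfold vav
  rw [Finset.sum_comm, Finset.smul_sum]
  refine Finset.sum_congr rfl fun i _ => ?_
  rw [← Finset.smul_sum, smul_comm]

theorem generic_lsc (Q : Set (ℕ → ℝ)) (hQ : IsCompact Q) (hQc : Convex ℝ Q) (hQne : Q.Nonempty)
    (w : ℕ → ℝ) (hw : ∀ i, 0 ≤ w i) (θ : ℕ → ℝ) (hθ : ∀ l, 0 ≤ θ l) :
    ∃ t ∈ Q.extremePoints ℝ, ∀ (l n : ℕ) (v : ℕ → ℕ → ℝ) (F : Finset ℕ) (δ : ℝ), 0 < n → 0 < δ →
      (∀ j, v j ∈ Q) → t - vav n v ∈ NB w (θ l) →
      ∀ᶠ t' in 𝓝 t, t' ∈ Q → ∃ v' : ℕ → ℕ → ℝ, (∀ j, v' j ∈ Q) ∧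
        (∀ j < n, ∀ i ∈ F, |v' j i - v j i| ≤ δ) ∧ t' - vav n v' ∈ NB w (θ l) := by
  classical
  obtain ⟨t, ht, htA⟩ := exists_generic Q hQ hQc hQne
    (P := ℕ × ℕ × Finset ℕ × ((ℕ × ℕ) →₀ ℚ) × ℚ)
    (fun p => {t : ℕ → ℝ | t ∈ Q ∧ ∃ v : ℕ → ℕ → ℝ, (∀ j, v j ∈ Q) ∧
      (∀ j < p.2.1, ∀ i ∈ p.2.2.1, |v j i - (fun j i => ((p.2.2.2.1 (j, i) : ℚ) : ℝ)) j i| ≤ (p.2.2.2.2 : ℝ)) ∧
        t - vav p.2.1 v ∈ NB w (θ p.1)})
    (fun p => isCompact_proj Q hQ w (θ p.1) p.2.1 p.2.2.1 _ _)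
  refine ⟨t, ht, fun l n v F δ hn hδ hv hvt => ?_⟩
  have htQ : t ∈ Q := ht.1
  -- rational approximations
  obtain ⟨q, hq0, hq1⟩ := exists_rat_btwn (show (0 : ℝ) < δ / 4 by positivity)
  have hr : ∀ j i, ∃ r : ℚ, |v j i - r| ≤ q := by
    intro j i
    obtain ⟨r, hr1, hr2⟩ := exists_rat_btwn (show v j i - q < v j i by linarith)
    exact ⟨r, abs_le.2 ⟨by linarith, by linarith⟩⟩
  choose r hr using hr
  let c : (ℕ × ℕ) →₀ ℚ := Finsupp.onFinset (Finset.range n ×ˢ F)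
    (fun p => if p ∈ Finset.range n ×ˢ F then r p.1 p.2 else 0)
    (fun p hp => by
      by_contra h
      exact hp (if_neg h))
  have hc : ∀ j < n, ∀ i ∈ F, c (j, i) = r j i := by
    intro j hj i hi
    change (if (j, i) ∈ Finset.range n ×ˢ F then r j i else 0) = r j i
    rw [if_pos]
    exact Finset.mem_product.2 ⟨Finset.mem_range.2 hj, hi⟩
  obtain ⟨O, hO, hO2⟩ := htA (l, n, F, c, q) ⟨htQ, v, hv, fun j hj i hi => by
    simp only
    rw [hc j hj i hi]
    exact hr j i, hvt⟩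
  have hch : ∀ u : ℕ → ℝ, ∃ x : ℕ → ℕ → ℝ, u ∈ Q.extremePoints ℝ →
      ((∀ j, x j ∈ Q) ∧ (∀ k, |(u - vav n x) k| ≤ θ l * w k) ∧
        (u ∈ O → ∀ j < n, ∀ i ∈ F, |x j i - v j i| ≤ δ / 2) ∧ (u ∉ O → ∀ j, x j = u)) := by
    intro u
    by_cases huO : u ∈ O
    · by_cases hue : u ∈ Q.extremePoints ℝ
      · obtain ⟨-, x, hx1, hx2, hx3⟩ := hO2 u (subset_closure hue) huO
        refine ⟨x, fun _ => ⟨hx1, hx3, fun _ j hj i hi => ?_, fun h => absurd huO h⟩⟩
        have h1 := hx2 j hj i hi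
        simp only at h1
        rw [hc j hj i hi] at h1
        have h2 := hr j i
        have h3 : x j i - v j i = (x j i - r j i) - (v j i - r j i) := by ring
        rw [h3]
        refine (abs_sub _ _).trans ?_
        linarith
      · exact ⟨fun _ => u, fun h => absurd h hue⟩
    · refine ⟨fun _ => u, fun hu => ⟨fun _ => hu.1, fun k => ?_, fun h => absurd h huO, fun _ _ => rfl⟩⟩
      rw [vav_const n hn, sub_self, Pi.zero_apply, abs_zero]
      exact mul_nonneg (hθ l) (hw k)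
  choose x hx using hch
  -- bound
  obtain ⟨D, hD⟩ := (hQ.prod hQ).exists_bound_of_continuousOn
    (f := fun p : (ℕ → ℝ) × (ℕ → ℝ) => ∑ i ∈ F, |p.1 i - p.2 i|) (by fun_prop)
  have hD' : ∀ a ∈ Q, ∀ b ∈ Q, ∀ i ∈ F, |a i - b i| ≤ D := by
    intro a ha b hb i hi
    have h1 := hD (a, b) ⟨ha, hb⟩
    rw [Real.norm_of_nonneg (Finset.sum_nonneg fun i _ => abs_nonneg _)] at h1
    exact (Finset.single_le_sum (f := fun i => |a i - b i|) (fun i _ => abs_nonneg _) hi).trans h1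
  have hD0 : 0 ≤ D := by
    have h1 := hD (t, t) ⟨htQ, htQ⟩
    exact (norm_nonneg _).trans h1
  set κ : ℝ := δ / (2 * (D + 1)) with hκ
  have hκ0 : 0 < κ := by positivity
  have hκD : D * κ ≤ δ / 2 := by
    rw [hκ, mul_div_assoc', div_le_div_iff₀ (by positivity) (by norm_num)]
    nlinarith
  have hll := ll Q hQ hQc t ht O hO κ hκ0
  obtain ⟨O', hO'sub, hO'open, htO'⟩ := mem_nhds_iff.1 hll
  set Z : Set (ℕ → ℝ) := {t : ℕ → ℝ | t ∈ Q ∧ ∃ v' : ℕ → ℕ → ℝ, (∀ j, v' j ∈ Q) ∧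
      (∀ j < n, ∀ i ∈ F, |v' j i - v j i| ≤ δ) ∧ t - vav n v' ∈ NB w (θ l)} with hZ
  have hZcl : IsClosed Z := (isCompact_proj Q hQ w (θ l) n F v δ).isClosed
  have hclaim : O' ∩ convexHull ℝ (Q.extremePoints ℝ) ⊆ Z := by
    rintro y ⟨hyO, hyc⟩
    have hyQ : y ∈ Q := convexHull_min extremePoints_subset hQc hyc
    obtain ⟨ι, hι, a, z, ha, ha1, hz, hy⟩ := mem_convexHull_iff_exists_fintype.1 hyc
    have hmass := hO'sub hyO ι a z ha ha1 (fun i => (hz i).1) hy
    refine ⟨hyQ, fun j => ∑ i, a i • x (z i) j, fun j => ?_, fun j hj i hi => ?_, fun k => ?_⟩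
    · exact hQc.sum_mem (fun i _ => ha i) ha1 fun i _ => (hx (z i) (hz i)).1 j
    · have h1 : (∑ k, a k • x (z k) j) i - v j i = ∑ k, a k * (x (z k) j i - v j i) := by
        simp_rw [mul_sub, Finset.sum_sub_distrib, ← Finset.sum_mul, ha1, one_mul]
        simp
      rw [h1]
      calc |∑ k, a k * (x (z k) j i - v j i)| ≤ ∑ k, |a k * (x (z k) j i - v j i)| :=
            Finset.abs_sum_le_sum_abs _ _
        _ ≤ ∑ k, (a k * (δ / 2) + D * (a k * Oᶜ.indicator (fun _ => (1 : ℝ)) (z k))) := by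
            refine Finset.sum_le_sum fun k _ => ?_
            rw [abs_mul, abs_of_nonneg (ha k)]
            by_cases hk : z k ∈ O
            · rw [indicator_of_notMem (by simpa using hk), mul_zero, mul_zero, add_zero]
              exact mul_le_mul_of_nonneg_left ((hx (z k) (hz k)).2.2.1 hk j hj i hi) (ha k)
            · rw [indicator_of_mem (by simpa using hk), mul_one, mul_comm D]
              have h2 : |x (z k) j i - v j i| ≤ D :=
                hD' _ ((hx (z k) (hz k)).1 j) _ (hv j) i hi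
              have h3 := mul_le_mul_of_nonneg_left h2 (ha k)
              have h4 : 0 ≤ a k * (δ / 2) := mul_nonneg (ha k) (by positivity)
              linarith
        _ = δ / 2 + D * ∑ k, a k * Oᶜ.indicator (fun _ => (1 : ℝ)) (z k) := by
            rw [Finset.sum_add_distrib, ← Finset.sum_mul, ha1, one_mul, ← Finset.mul_sum]
        _ ≤ δ / 2 + D * κ := by
            have := mul_le_mul_of_nonneg_left hmass hD0
            linarith
        _ ≤ δ := by linarith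
    · have h1 : (y - vav n (fun j => ∑ i, a i • x (z i) j)) k
          = ∑ i, a i * (z i - vav n (x (z i))) k := by
        rw [vav_sum, ← hy, Pi.sub_apply, Finset.sum_apply, Finset.sum_apply, ← Finset.sum_sub_distrib]
        refine Finset.sum_congr rfl fun i _ => ?_
        simp only [Pi.smul_apply, smul_eq_mul, Pi.sub_apply]
        ring
      rw [h1]
      calc |∑ i, a i * (z i - vav n (x (z i))) k| ≤ ∑ i, |a i * (z i - vav n (x (z i))) k| :=
            Finset.abs_sum_le_sum_abs _ _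
        _ ≤ ∑ i, a i * (θ l * w k) := by
            refine Finset.sum_le_sum fun i _ => ?_
            rw [abs_mul, abs_of_nonneg (ha i)]
            exact mul_le_mul_of_nonneg_left ((hx (z i) (hz i)).2.1 k) (ha i)
        _ = θ l * w k := by rw [← Finset.sum_mul, ha1, one_mul]
  filter_upwards [hO'open.mem_nhds htO'] with t' ht' ht'Q
  have h1 : t' ∈ closure (convexHull ℝ (Q.extremePoints ℝ)) := by
    rw [closure_convexHull_extremePoints hQ hQc]
    exact ht'Q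
  have h2 : t' ∈ closure (O' ∩ convexHull ℝ (Q.extremePoints ℝ)) :=
    hO'open.inter_closure ⟨ht', h1⟩
  exact ((closure_minimal hclaim hZcl) h2).2

end Pool.Agent.Helper568.Dent
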