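import Pool.Agent.Helper568.Dent8
import Pool.Agent.Helper568.Dent5

set_option autoImplicit false

open Filter Set Topology

namespace Pool.Agent.Helper568.Dent

/-- approximation of convex combinations by uniform averages -/
theorem unif_approx {E : Type*} [NormedAddCommGroup E] [NormedSpace ℝ E] (S : Set E) (y : E)
    (hy : y ∈ convexHull ℝ S) (η : ℝ) (hη : 0 < η) :
    ∃ (M : ℕ) (u : ℕ → E), 0 < M ∧ (∀ k, u k ∈ S) ∧
      ‖y - (M : ℝ)⁻¹ • ∑ k ∈ Finset.range M, u k‖ ≤ η := by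
  let 𝒬 : Set E := {y | ∃ (M : ℕ) (u : ℕ → E), 0 < M ∧ (∀ k, u k ∈ S) ∧
    y = (M : ℝ)⁻¹ • ∑ k ∈ Finset.range M, u k}
  have hSQ : S ⊆ 𝒬 := fun z hz => ⟨1, fun _ => z, one_pos, fun _ => hz, by simp⟩
  have hrep : ∀ (M L : ℕ) (u : ℕ → E), 0 < M → 0 < L →
      ((M * L : ℕ) : ℝ)⁻¹ • ∑ k ∈ Finset.range (M * L), u (k % M)
        = (M : ℝ)⁻¹ • ∑ k ∈ Finset.range M, u k := by
    intro M L u hM hL
    have h1 : ∑ k ∈ Finset.range (M * L), u (k % M)
        = ∑ _k ∈ Finset.range L, ∑ i ∈ Finset.range M, u i :=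
      sum_range_mul_mod_div M L hM (fun i _ => u i)
    rw [h1, Finset.sum_const, Finset.card_range, ← Nat.cast_smul_eq_nsmul ℝ, smul_smul]
    congr 1
    push_cast
    have : (L : ℝ) ≠ 0 := Nat.cast_ne_zero.2 hL.ne'
    have : (M : ℝ) ≠ 0 := Nat.cast_ne_zero.2 hM.ne'
    field_simp
  have hcomb : ∀ x ∈ 𝒬, ∀ y ∈ 𝒬, ∀ a b : ℝ, 0 ≤ a → 0 ≤ b → a + b = 1 → a • x + b • y ∈ closure 𝒬 := by
    rintro _ ⟨M, u, hM, hu, rfl⟩ _ ⟨M', u', hM', hu', rfl⟩ a b ha hb hab
    set L := M * M' with hL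
    have hL0 : 0 < L := Nat.mul_pos hM hM'
    set x := (M : ℝ)⁻¹ • ∑ k ∈ Finset.range M, u k with hx
    set y := (M' : ℝ)⁻¹ • ∑ k ∈ Finset.range M', u' k with hy
    have hx' : (L : ℝ)⁻¹ • ∑ k ∈ Finset.range L, u (k % M) = x := hrep M M' u hM hM'
    have hy' : (L : ℝ)⁻¹ • ∑ k ∈ Finset.range L, u' (k % M') = y := by
      rw [hL, mul_comm M M']
      exact hrep M' M u' hM' hM
    have hmem : ∀ (N p : ℕ), 0 < N → p ≤ N →
        ((p : ℝ) / N) • x + (1 - (p : ℝ) / N) • y ∈ 𝒬 := by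
      intro N p hN hp
      refine ⟨L * N, fun k => (fun i q => if q < p then u (i % M) else u' (i % M')) (k % L) (k / L),
        Nat.mul_pos hL0 hN, fun k => ?_, ?_⟩
      · simp only
        split_ifs
        · exact hu _
        · exact hu' _
      · rw [sum_range_mul_mod_div L N hL0 (fun i q => if q < p then u (i % M) else u' (i % M'))]
        have h1 : ∀ q ∈ Finset.range N, ∑ i ∈ Finset.range L, (if q < p then u (i % M) else u' (i % M'))
            = if q < p then (L : ℝ) • x else (L : ℝ) • y := by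
          intro q _
          have hL' : (L : ℝ) ≠ 0 := Nat.cast_ne_zero.2 hL0.ne'
          split_ifs
          · rw [← hx', smul_smul, mul_inv_cancel₀ hL', one_smul]
          · rw [← hy', smul_smul, mul_inv_cancel₀ hL', one_smul]
        rw [Finset.sum_congr rfl h1, ← Finset.sum_filter_add_sum_filter_not _ (fun q => q < p)]
        have h2 : ∑ q ∈ (Finset.range N).filter (fun q => q < p), (if q < p then (L : ℝ) • x else (L : ℝ) • y)
            = (p : ℝ) • (L : ℝ) • x := by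
          rw [Finset.sum_congr rfl fun q hq => if_pos (Finset.mem_filter.1 hq).2, Finset.sum_const]
          have : (Finset.range N).filter (fun q => q < p) = Finset.range p := by
            ext q; simp only [Finset.mem_filter, Finset.mem_range]; omega
          rw [this, Finset.card_range, ← Nat.cast_smul_eq_nsmul ℝ]
        have h3 : ∑ q ∈ (Finset.range N).filter (fun q => ¬ q < p), (if q < p then (L : ℝ) • x else (L : ℝ) • y)
            = ((N : ℝ) - p) • (L : ℝ) • y := by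
          rw [Finset.sum_congr rfl fun q hq => if_neg (Finset.mem_filter.1 hq).2, Finset.sum_const]
          have : (Finset.range N).filter (fun q => ¬ q < p) = Finset.Ico p N := by
            ext q; simp only [Finset.mem_filter, Finset.mem_range, Finset.mem_Ico]; omega
          rw [this, Nat.card_Ico, ← Nat.cast_smul_eq_nsmul ℝ, Nat.cast_sub hp]
        rw [h2, h3]
        push_cast
        have hL' : (L : ℝ) ≠ 0 := Nat.cast_ne_zero.2 hL0.ne'
        have hN' : (N : ℝ) ≠ 0 := Nat.cast_ne_zero.2 hN.ne'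
        have e1 : ((L : ℝ) * N)⁻¹ * (p * L) = p / N := by field_simp
        have e2 : ((L : ℝ) * N)⁻¹ * ((N - p) * L) = 1 - p / N := by field_simp
        rw [← e2, ← e1]
        module
    have ha1 : a ≤ 1 := by linarith
    have hb' : b = 1 - a := by linarith
    rw [hb']
    have hlim : Tendsto (fun N : ℕ => (⌊a * (N : ℝ)⌋₊ : ℝ) / (N : ℝ)) atTop (𝓝 a) :=
      (tendsto_nat_floor_mul_div_atTop ha).comp tendsto_natCast_atTop_atTop
    have hlim2 : Tendsto (fun N : ℕ => ((⌊a * (N : ℝ)⌋₊ : ℝ) / (N : ℝ)) • x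
        + (1 - (⌊a * (N : ℝ)⌋₊ : ℝ) / (N : ℝ)) • y) atTop (𝓝 (a • x + (1 - a) • y)) :=
      (hlim.smul_const x).add ((tendsto_const_nhds.sub hlim).smul_const y)
    refine mem_closure_of_tendsto hlim2 ?_
    filter_upwards [eventually_gt_atTop 0] with N hN
    refine hmem N _ hN ?_
    have h1 : (⌊a * (N : ℝ)⌋₊ : ℝ) ≤ a * N := Nat.floor_le (by positivity)
    have h2 : a * (N : ℝ) ≤ N := mul_le_of_le_one_left (Nat.cast_nonneg _) ha1
    exact_mod_cast h1.trans h2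
  have hconv : Convex ℝ (closure 𝒬) := by
    intro x hx y hy a b ha hb hab
    have := map_mem_closure₂ (f := fun x y : E => a • x + b • y) (by fun_prop) hx hy
      (fun x hx y hy => hcomb x hx y hy a b ha hb hab)
    rwa [closure_closure] at this
  have hy' : y ∈ closure 𝒬 := convexHull_min (hSQ.trans subset_closure) hconv hy
  obtain ⟨z, ⟨M, u, hM, hu, rfl⟩, hz⟩ := Metric.mem_closure_iff.1 hy' η hη
  rw [dist_eq_norm] at hz
  exact ⟨M, u, hM, hu, hz.le⟩

section Phi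

variable {X : Type*} [NormedAddCommGroup X] [NormedSpace ℝ X]

/-- evaluation on a sequence -/
def Phi (x : ℕ → X) (f : X →L[ℝ] ℝ) : ℕ → ℝ := fun i => f (x i)

theorem Phi_continuous (x : ℕ → X) : Continuous (Phi x) := by
  unfold Phi
  fun_prop

theorem Phi_sub (x : ℕ → X) (f g : X →L[ℝ] ℝ) : Phi x (f - g) = Phi x f - Phi x g := by
  funext i; simp [Phi]

theorem Phi_av (x : ℕ → X) (n : ℕ) (v : ℕ → X →L[ℝ] ℝ) : Phi x (av n v) = vav n (fun j => Phi x (v j)) := by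
  funext i
  rw [vav_apply]
  exact av_apply n v (x i)

theorem Phi_sum (x : ℕ → X) {ι : Type} (s : Finset ι) (a : ι → ℝ) (z : ι → X →L[ℝ] ℝ) :
    Phi x (∑ i ∈ s, a i • z i) = ∑ i ∈ s, a i • Phi x (z i) := by
  funext k
  simp [Phi]

theorem norm_le_of_Phi (x : ℕ → X) (hx : DenseRange x) (f : X →L[ℝ] ℝ) (θ : ℝ) (hθ : 0 ≤ θ)
    (h : Phi x f ∈ NB (fun i => ‖x i‖) θ) : ‖f‖ ≤ θ := by
  refine ContinuousLinearMap.opNorm_le_bound _ hθ fun y => ?_
  have h1 : IsClosed {y : X | ‖f y‖ ≤ θ * ‖y‖} := isClosed_le (by fun_prop) (by fun_prop)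
  exact h1.closure_subset_iff.2 (by rintro _ ⟨i, rfl⟩; exact h i) (hx y)

theorem Phi_mem_NB (x : ℕ → X) (f : X →L[ℝ] ℝ) (θ : ℝ) (h : ‖f‖ ≤ θ) :
    Phi x f ∈ NB (fun i => ‖x i‖) θ := by
  intro i
  exact (f.le_opNorm (x i)).trans (mul_le_mul_of_nonneg_right h (norm_nonneg _))

theorem Phi_injective (x : ℕ → X) (hx : DenseRange x) : Function.Injective (Phi x) := by
  intro f g h
  have h1 : Phi x (f - g) ∈ NB (fun i => ‖x i‖) 0 := by
    rw [Phi_sub, h, sub_self]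
    intro i
    simp
  have := norm_le_of_Phi x hx (f - g) 0 le_rfl h1
  exact sub_eq_zero.1 (norm_le_zero_iff.1 this)

theorem lmv (x : ℕ → X) (t : X →L[ℝ] ℝ) (K' : Set (X →L[ℝ] ℝ)) (Q : Set (ℕ → ℝ)) (hQ : IsCompact Q)
    (hQc : Convex ℝ Q) (R : ℝ) (hR : 0 < R) (hKR : ∀ f ∈ K', ‖f‖ ≤ R) (hKQ : ∀ f ∈ K', Phi x f ∈ Q)
    (ht : Phi x t ∈ Q.extremePoints ℝ) (htc : t ∈ closure (convexHull ℝ K')) (O : Set (ℕ → ℝ))
    (hO : O ∈ 𝓝 (Phi x t)) (η : ℝ) (hη : 0 < η) :
    ∃ (M : ℕ) (u : ℕ → X →L[ℝ] ℝ), 0 < M ∧ (∀ k, u k ∈ K' ∧ Phi x (u k) ∈ O) ∧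
      ‖t - av M u‖ ≤ η := by
  classical
  set κ : ℝ := min (η / (8 * R)) (1 / 2) with hκ
  have hκ0 : 0 < κ := lt_min (by positivity) (by norm_num)
  have hκ1 : κ ≤ η / (8 * R) := min_le_left _ _
  have hκ2 : κ ≤ 1 / 2 := min_le_right _ _
  have hκR : κ * R ≤ η / 8 := by
    have := mul_le_mul_of_nonneg_right hκ1 hR.le
    have h2 : η / (8 * R) * R = η / 8 := by field_simp
    linarith
  have hll := ll Q hQ hQc (Phi x t) ht O hO κ hκ0
  have hll2 := (Phi_continuous x).continuousAt.eventually hll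
  have hball : ∀ᶠ f in 𝓝 t, ‖t - f‖ < η / 4 := by
    have := Metric.ball_mem_nhds t (show 0 < η / 4 by positivity)
    filter_upwards [this] with f hf
    rwa [Metric.mem_ball, dist_comm, dist_eq_norm] at hf
  obtain ⟨y, hyc, hy1, hy2⟩ :=
    ((mem_closure_iff_frequently.1 htc).and_eventually (hll2.and hball)).exists
  obtain ⟨ι, hι, a, z, ha, ha1, hz, hy⟩ := mem_convexHull_iff_exists_fintype.1 hyc
  have hmass := hy1 ι a (fun i => Phi x (z i)) ha ha1 (fun i => hKQ _ (hz i)) (by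
    rw [← hy]
    exact (Phi_sum x Finset.univ a z).symm)
  set s : Finset ι := Finset.univ.filter (fun i => Phi x (z i) ∈ O) with hs
  have hcompl : ∑ i ∈ sᶜ, a i ≤ κ := by
    refine le_trans (le_of_eq ?_) hmass
    rw [hs, Finset.compl_filter, Finset.sum_filter]
    refine Finset.sum_congr rfl fun i _ => ?_
    by_cases h : Phi x (z i) ∈ O
    · rw [if_neg (not_not.2 h), indicator_of_notMem (by simpa using h), mul_zero]
    · rw [if_pos h, indicator_of_mem (by simpa using h), mul_one]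
  have hsplit : ∑ i ∈ s, a i + ∑ i ∈ sᶜ, a i = 1 := by rw [Finset.sum_add_sum_compl, ha1]
  have hsplit2 : ∑ i ∈ s, a i • z i + ∑ i ∈ sᶜ, a i • z i = y := by rw [Finset.sum_add_sum_compl, hy]
  set m : ℝ := ∑ i ∈ s, a i with hm
  have hcn : 0 ≤ ∑ i ∈ sᶜ, a i := Finset.sum_nonneg fun i _ => ha i
  have hm0 : 0 < m := by linarith
  have hm1 : m ≤ 1 := by linarith
  set y' : X →L[ℝ] ℝ := m⁻¹ • ∑ i ∈ s, a i • z i with hy'
  have hy'c : y' ∈ convexHull ℝ {f | f ∈ K' ∧ Phi x f ∈ O} := by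
    rw [hy', Finset.smul_sum]
    simp_rw [smul_smul]
    refine (convex_convexHull ℝ _).sum_mem (fun i _ => mul_nonneg (inv_nonneg.2 hm0.le) (ha i)) ?_ ?_
    · rw [← Finset.mul_sum, ← hm, inv_mul_cancel₀ hm0.ne']
    · intro i hi
      exact subset_convexHull ℝ _ ⟨hz i, (Finset.mem_filter.1 hi).2⟩
  have hsum : ∀ s : Finset ι, ‖∑ i ∈ s, a i • z i‖ ≤ (∑ i ∈ s, a i) * R := by
    intro s
    refine (norm_sum_le _ _).trans ?_
    rw [Finset.sum_mul]
    refine Finset.sum_le_sum fun i _ => ?_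
    rw [norm_smul, Real.norm_of_nonneg (ha i)]
    exact mul_le_mul_of_nonneg_left (hKR _ (hz i)) (ha i)
  have hyy' : ‖y - y'‖ ≤ η / 4 := by
    have h1 : y - y' = ∑ i ∈ sᶜ, a i • z i + (1 - m⁻¹) • ∑ i ∈ s, a i • z i := by
      rw [← hsplit2, hy']
      module
    rw [h1]
    refine (norm_add_le _ _).trans ?_
    rw [norm_smul]
    have h2 : ‖1 - m⁻¹‖ = m⁻¹ - 1 := by
      rw [Real.norm_eq_abs, abs_sub_comm, abs_of_nonneg]
      have := (one_le_inv₀ hm0).2 hm1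
      linarith
    rw [h2]
    have h3 := hsum s
    have h4 := hsum sᶜ
    have h5 : 0 ≤ m⁻¹ - 1 := by
      have := (one_le_inv₀ hm0).2 hm1
      linarith
    have h6 : (m⁻¹ - 1) * ‖∑ i ∈ s, a i • z i‖ ≤ (m⁻¹ - 1) * (m * R) :=
      mul_le_mul_of_nonneg_left h3 h5
    have h7 : (m⁻¹ - 1) * (m * R) = (1 - m) * R := by
      field_simp
    have h8 : (1 - m) * R ≤ κ * R := mul_le_mul_of_nonneg_right (by linarith) hR.le
    have h9 : (∑ i ∈ sᶜ, a i) * R ≤ κ * R := mul_le_mul_of_nonneg_right hcompl hR.le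
    linarith
  obtain ⟨M, u, hM, hu, hyu⟩ := unif_approx _ y' hy'c (η / 2) (by positivity)
  refine ⟨M, u, hM, hu, ?_⟩
  have h1 : t - av M u = (t - y) + (y - y') + (y' - av M u) := by abel
  rw [h1]
  have h2 : ‖y' - av M u‖ ≤ η / 2 := hyu
  calc _ ≤ ‖t - y‖ + ‖y - y'‖ + ‖y' - av M u‖ := (norm_add_le _ _).trans
        (add_le_add (norm_add_le _ _) le_rfl)
    _ ≤ η := by linarith

end Phi

end Pool.Agent.Helper568.Dent
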