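import Mathlib
import Pool.Agent.Helper568.Compl

/-! Closing-off: good sets for seminorms on finitely supported functions. -/

open Cardinal

namespace Pool.Agent.Helper568.Elastic

open scoped Classical

variable {𝕜 : Type} [RCLike 𝕜] {Γ : Type}

/-- Every functional bounded by a multiple of `p` has countable support. -/
def CS (p : Seminorm 𝕜 (Γ →₀ 𝕜)) : Prop :=
  ∀ f : (Γ →₀ 𝕜) →ₗ[𝕜] 𝕜, (∃ C : ℝ, ∀ x, ‖f x‖ ≤ C * p x) →
    {γ | f (Finsupp.single γ 1) ≠ 0}.Countable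

/-- Restriction to `A` is a contraction. -/
def Good (p : Seminorm 𝕜 (Γ →₀ 𝕜)) (A : Set Γ) : Prop :=
  ∀ x : Γ →₀ 𝕜, p (x.filter (· ∈ A)) ≤ p x

theorem mk_field_le : #𝕜 ≤ 𝔠 := by
  have h : Function.Injective (fun x : 𝕜 => (RCLike.re x, RCLike.im x)) := by
    intro x y hxy
    simp only [Prod.mk.injEq] at hxy
    exact RCLike.ext hxy.1 hxy.2
  refine (Cardinal.mk_le_of_injective h).trans ?_
  rw [Cardinal.mk_prod, Cardinal.lift_id, Cardinal.mk_real, Cardinal.continuum_mul_self]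

theorem lin_eq_of_agree (f : (Γ →₀ 𝕜) →ₗ[𝕜] 𝕜) (x y : Γ →₀ 𝕜)
    (h : ∀ γ, f (Finsupp.single γ 1) ≠ 0 → x γ = y γ) : f x = f y := by
  rw [← sub_eq_zero, ← map_sub]
  conv_lhs => rw [← Finsupp.sum_single (x - y)]
  rw [Finsupp.sum, map_sum]
  refine Finset.sum_eq_zero fun γ hγ => ?_
  have h1 : (Finsupp.single γ ((x - y) γ) : Γ →₀ 𝕜) = ((x - y) γ) • Finsupp.single γ 1 := by
    rw [Finsupp.smul_single, smul_eq_mul, mul_one]
  rw [h1, map_smul]
  by_cases h2 : f (Finsupp.single γ 1) = 0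
  · rw [h2, smul_zero]
  · have := h γ h2
    rw [Finsupp.sub_apply, this, sub_self, zero_smul]

theorem exists_supp (P : Seminorm 𝕜 (Γ →₀ 𝕜)) (h : CS P) (x : Γ →₀ 𝕜) :
    ∃ S : Set Γ, S.Countable ∧ ∀ y : Γ →₀ 𝕜, (∀ γ ∈ S, x γ = y γ) → P x ≤ P y := by
  obtain ⟨f, hf, hfx⟩ := Compl.exists_functional P x
  refine ⟨_, h f ⟨1, fun y => by rw [one_mul]; exact hf y⟩, fun y hy => ?_⟩
  have h1 : f x = f y := lin_eq_of_agree f x y fun γ hγ => hy γ hγ
  have h2 := hf y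
  rw [← h1, hfx] at h2
  simpa [abs_of_nonneg (apply_nonneg P x)] using h2

/-- One closing-off step. -/
def step (S : (Γ →₀ 𝕜) → Set Γ) (B : Set Γ) : Set Γ :=
  B ∪ ⋃ x ∈ {x : Γ →₀ 𝕜 | (x.support : Set Γ) ⊆ B}, S x

/-- Closure. -/
def clo (S : (Γ →₀ 𝕜) → Set Γ) (B : Set Γ) : Set Γ := ⋃ k : ℕ, (step S)^[k] B

theorem step_mono (S : (Γ →₀ 𝕜) → Set Γ) : Monotone (step S) := by
  intro B C h
  unfold step
  refine Set.union_subset_union h ?_
  refine Set.biUnion_subset_biUnion_left ?_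
  intro x hx
  exact hx.trans h

theorem subset_step (S : (Γ →₀ 𝕜) → Set Γ) (B : Set Γ) : B ⊆ step S B :=
  Set.subset_union_left

theorem iter_mono (S : (Γ →₀ 𝕜) → Set Γ) (B : Set Γ) : Monotone fun k => (step S)^[k] B := by
  refine monotone_nat_of_le_succ fun k => ?_
  rw [Function.iterate_succ_apply']
  exact subset_step S _

theorem clo_mono (S : (Γ →₀ 𝕜) → Set Γ) : Monotone (clo S) := by
  intro B C h
  refine Set.iUnion_mono fun k => ?_
  exact (step_mono S).iterate k h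

theorem subset_clo (S : (Γ →₀ 𝕜) → Set Γ) (B : Set Γ) : B ⊆ clo S B :=
  Set.subset_iUnion (fun k => (step S)^[k] B) 0

theorem clo_closed (S : (Γ →₀ 𝕜) → Set Γ) (B : Set Γ) (x : Γ →₀ 𝕜)
    (hx : (x.support : Set Γ) ⊆ clo S B) : S x ⊆ clo S B := by
  have key : ∀ s : Finset Γ, (s : Set Γ) ⊆ clo S B → ∃ k, (s : Set Γ) ⊆ (step S)^[k] B := by
    intro s
    induction s using Finset.induction_on with
    | empty => exact fun _ => ⟨0, by simp⟩
    | insert a s ha ih =>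
      intro h
      rw [Finset.coe_insert, Set.insert_subset_iff] at h
      obtain ⟨k, hk⟩ := ih h.2
      obtain ⟨l, hl⟩ := Set.mem_iUnion.1 h.1
      refine ⟨max k l, ?_⟩
      rw [Finset.coe_insert, Set.insert_subset_iff]
      exact ⟨iter_mono S B (le_max_right k l) hl, hk.trans (iter_mono S B (le_max_left k l))⟩
  obtain ⟨k, hk⟩ := key x.support hx
  intro γ hγ
  refine Set.mem_iUnion.2 ⟨k + 1, ?_⟩
  rw [Function.iterate_succ_apply']
  exact Or.inr (Set.mem_biUnion hk hγ)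

theorem good_clo (P : Seminorm 𝕜 (Γ →₀ 𝕜)) (S : (Γ →₀ 𝕜) → Set Γ)
    (hS : ∀ x y : Γ →₀ 𝕜, (∀ γ ∈ S x, x γ = y γ) → P x ≤ P y) (B : Set Γ) :
    Good P (clo S B) := by
  intro x
  refine hS _ _ fun γ hγ => ?_
  have : γ ∈ clo S B := by
    refine clo_closed S B (x.filter (· ∈ clo S B)) ?_ hγ
    intro δ hδ
    simp only [Finsupp.support_filter, Finset.coe_filter, Set.mem_ofPred_eq] at hδ
    exact hδ.2
  rw [Finsupp.filter_apply_pos _ _ this]

theorem mk_finsupp_le {B : Set Γ} {lam : Cardinal.{0}} (hl : 𝔠 ≤ lam) (hB : #B ≤ lam) :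
    #{x : Γ →₀ 𝕜 | (x.support : Set Γ) ⊆ B} ≤ lam := by
  have e : {x : Γ →₀ 𝕜 | (x.support : Set Γ) ⊆ B} ≃ (B →₀ 𝕜) :=
    (Finsupp.supportedEquivFinsupp (M := 𝕜) (R := 𝕜) B).toEquiv
  rw [Cardinal.mk_congr e]
  rcases isEmpty_or_nonempty B with h | h
  · have : #(B →₀ 𝕜) ≤ 1 := by
      rw [Cardinal.le_one_iff_subsingleton]
      infer_instance
    exact this.trans ((Cardinal.one_le_aleph0.trans aleph0_le_continuum).trans hl)
  · have : Infinite 𝕜 := by
      have : Infinite ℝ := inferInstance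
      exact Infinite.of_injective (fun r : ℝ => (r : 𝕜)) RCLike.ofReal_injective
    rw [Cardinal.mk_finsupp_of_infinite']
    exact max_le hB (mk_field_le.trans hl)

theorem mk_step_le {B : Set Γ} {lam : Cardinal.{0}} (hl : 𝔠 ≤ lam) (hB : #B ≤ lam)
    (S : (Γ →₀ 𝕜) → Set Γ) (hS : ∀ x, (S x).Countable) : #(step S B) ≤ lam := by
  have hl0 : ℵ₀ ≤ lam := aleph0_le_continuum.trans hl
  refine (Cardinal.mk_union_le _ _).trans ?_
  refine Cardinal.add_le_of_le hl0 hB ?_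
  refine (Cardinal.mk_biUnion_le _ _).trans ?_
  refine Cardinal.mul_le_of_le hl0 (mk_finsupp_le hl hB) ?_
  refine ciSup_le' fun x => ?_
  exact (Cardinal.le_aleph0_iff_set_countable.2 (hS _)).trans hl0

theorem mk_clo_le {B : Set Γ} {lam : Cardinal.{0}} (hl : 𝔠 ≤ lam) (hB : #B ≤ lam)
    (S : (Γ →₀ 𝕜) → Set Γ) (hS : ∀ x, (S x).Countable) : #(clo S B) ≤ lam := by
  have hl0 : ℵ₀ ≤ lam := aleph0_le_continuum.trans hl
  refine (Cardinal.mk_iUnion_le _).trans ?_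
  refine Cardinal.mul_le_of_le hl0 (by simpa using hl0) ?_
  refine ciSup_le' fun k => ?_
  induction k with
  | zero => exact hB
  | succ k ih => rw [Function.iterate_succ_apply']; exact mk_step_le hl ih S hS

end Pool.Agent.Helper568.Elastic
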