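import Mathlib
import Pool.Agent.Helper568.Elastic1

/-! The tree-glued seminorm. -/

open Cardinal

namespace Pool.Agent.Helper568.Elastic

open scoped Classical

/-- Index set with levels. -/
abbrev Lam (T : ℕ → Type) : Type := Σ n, T n

/-- Indices of level at most `n`. -/
def Lev (T : ℕ → Type) (n : ℕ) : Set (Lam T) := {γ | γ.1 ≤ n}

variable (𝕜 : Type) [RCLike 𝕜] (T : ℕ → Type)

/-- Admissible seminorms. -/
def PP : Set (Seminorm 𝕜 (Lam T →₀ 𝕜)) :=
  {p | (∀ γ, p (Finsupp.single γ 1) ≤ 1) ∧ (∀ n, Good p (Lev T n)) ∧ CS p}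

variable {𝕜 T}

/-- Restriction of `p` to level `≤ n`. -/
noncomputable def rst (p : PP 𝕜 T) (n : ℕ) : (Lam T →₀ 𝕜) → ℝ :=
  fun x => p.1 (x.filter (· ∈ Lev T n))

variable (𝕜 T)

/-- Nodes at level `n`. -/
abbrev R (n : ℕ) : Set ((Lam T →₀ 𝕜) → ℝ) := Set.range (fun p : PP 𝕜 T => rst p n)

/-- Index set of the glued space. -/
abbrev Theta : Type := Σ n, T n × R 𝕜 T n

variable {𝕜 T}

/-- Embedding of the branch `p`. -/
noncomputable def iota (p : PP 𝕜 T) : Lam T → Theta 𝕜 T :=
  fun γ => ⟨γ.1, γ.2, ⟨rst p γ.1, ⟨p, rfl⟩⟩⟩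

theorem iota_inj (p : PP 𝕜 T) : Function.Injective (iota p) := by
  rintro ⟨n, t⟩ ⟨m, s⟩ h
  simp only [iota, Sigma.mk.injEq] at h
  obtain ⟨h1, h2⟩ := h
  subst h1
  simp only [heq_eq_eq, Prod.mk.injEq] at h2
  rw [h2.1]

theorem iota_eq_iff (p p' : PP 𝕜 T) (γ γ' : Lam T) :
    iota p γ = iota p' γ' ↔ γ = γ' ∧ rst p γ.1 = rst p' γ.1 := by
  obtain ⟨n, t⟩ := γ
  obtain ⟨m, s⟩ := γ'
  simp only [iota, Sigma.mk.injEq]
  constructor
  · rintro ⟨h1, h2⟩
    subst h1
    simp only [heq_eq_eq, Prod.mk.injEq] at h2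
    exact ⟨⟨rfl, heq_of_eq h2.1⟩, congrArg Subtype.val h2.2⟩
  · rintro ⟨⟨h1, h2⟩, h3⟩
    subst h1
    simp only [heq_eq_eq] at h2
    subst h2
    simp [h3]

theorem filter_filter_lev (x : Lam T →₀ 𝕜) {m n : ℕ} (h : m ≤ n) :
    (x.filter (· ∈ Lev T m)).filter (· ∈ Lev T n) = x.filter (· ∈ Lev T m) := by
  ext γ
  by_cases h1 : γ ∈ Lev T m
  · have h2 : γ ∈ Lev T n := le_trans h1 h
    rw [Finsupp.filter_apply_pos _ _ h2]
  · rw [Finsupp.filter_apply_neg _ x h1]
    by_cases h2 : γ ∈ Lev T n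
    · rw [Finsupp.filter_apply_pos _ _ h2, Finsupp.filter_apply_neg _ x h1]
    · rw [Finsupp.filter_apply_neg _ _ h2]

theorem rst_down {p p' : PP 𝕜 T} {m n : ℕ} (h : m ≤ n) (hn : rst p n = rst p' n) :
    rst p m = rst p' m := by
  funext x
  have := congrFun hn (x.filter (· ∈ Lev T m))
  unfold rst at this ⊢
  rwa [filter_filter_lev x h] at this

/-- Pull back to the branch. -/
noncomputable def pull (p : PP 𝕜 T) : (Theta 𝕜 T →₀ 𝕜) →ₗ[𝕜] (Lam T →₀ 𝕜) :=
  Finsupp.lcomapDomain (iota p) (iota_inj p)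

theorem pull_apply (p : PP 𝕜 T) (x : Theta 𝕜 T →₀ 𝕜) (γ : Lam T) :
    pull p x γ = x (iota p γ) := rfl

theorem le_sum_of_le_one {Γ : Type} (P : Seminorm 𝕜 (Γ →₀ 𝕜))
    (h : ∀ γ, P (Finsupp.single γ 1) ≤ 1) (x : Γ →₀ 𝕜) : P x ≤ ∑ γ ∈ x.support, ‖x γ‖ := by
  conv_lhs => rw [← Finsupp.sum_single x]
  rw [Finsupp.sum]
  refine (Finset.le_sum_of_subadditive P (map_zero P).le (map_add_le_add P) _ _).trans ?_
  refine Finset.sum_le_sum fun γ _ => ?_
  have h1 : (Finsupp.single γ (x γ) : Γ →₀ 𝕜) = (x γ) • Finsupp.single γ 1 := by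
    rw [Finsupp.smul_single, smul_eq_mul, mul_one]
  rw [h1, map_smul_eq_mul]
  exact mul_le_of_le_one_right (norm_nonneg _) (h γ)

theorem pull_single_le (p : PP 𝕜 T) (θ : Theta 𝕜 T) :
    (p.1.comp (pull p)) (Finsupp.single θ 1) ≤ 1 := by
  rw [Seminorm.comp_apply]
  by_cases h : ∃ γ, iota p γ = θ
  · obtain ⟨γ, rfl⟩ := h
    have : pull p (Finsupp.single (iota p γ) 1) = Finsupp.single γ 1 := by
      ext δ
      rw [pull_apply]
      by_cases hd : δ = γ
      · subst hd; simp
      · rw [Finsupp.single_apply, Finsupp.single_apply, if_neg, if_neg (Ne.symm hd)]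
        intro he
        exact hd (iota_inj p he).symm
    rw [this]
    exact p.2.1 γ
  · have : pull p (Finsupp.single θ 1) = 0 := by
      ext δ
      rw [pull_apply, Finsupp.single_apply, if_neg]
      · rfl
      · intro he
        exact h ⟨δ, he.symm⟩
    rw [this, map_zero]
    exact zero_le_one

variable (𝕜 T)

/-- The glued seminorm. -/
noncomputable def q : Seminorm 𝕜 (Theta 𝕜 T →₀ 𝕜) := ⨆ p : PP 𝕜 T, p.1.comp (pull p)

theorem bdd : BddAbove (Set.range fun p : PP 𝕜 T => p.1.comp (pull p)) := by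
  rw [Seminorm.bddAbove_range_iff]
  intro x
  refine ⟨∑ θ ∈ x.support, ‖x θ‖, ?_⟩
  rintro _ ⟨p, rfl⟩
  exact le_sum_of_le_one _ (pull_single_le p) x

theorem q_apply (x : Theta 𝕜 T →₀ 𝕜) : q 𝕜 T x = ⨆ p : PP 𝕜 T, p.1 (pull p x) := by
  unfold q
  rw [Seminorm.iSup_apply (bdd 𝕜 T)]
  rfl

theorem bdd' (x : Theta 𝕜 T →₀ 𝕜) : BddAbove (Set.range fun p : PP 𝕜 T => p.1 (pull p x)) := by
  have := (Seminorm.bddAbove_range_iff.1 (bdd 𝕜 T)) x
  exact this

variable {𝕜 T}

theorem le_q (p : PP 𝕜 T) (x : Theta 𝕜 T →₀ 𝕜) : p.1 (pull p x) ≤ q 𝕜 T x := by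
  rw [q_apply]
  exact le_ciSup (bdd' 𝕜 T x) p

theorem zero_mem_PP : (0 : Seminorm 𝕜 (Lam T →₀ 𝕜)) ∈ PP 𝕜 T := by
  refine ⟨fun γ => by simp, fun n x => by simp, ?_⟩
  rintro f ⟨C, hC⟩
  have : {γ | f (Finsupp.single γ 1) ≠ 0} = ∅ := by
    ext γ
    simp only [Set.mem_ofPred_eq, Set.mem_empty_iff_false, iff_false, not_not]
    have := hC (Finsupp.single γ 1)
    simpa using this
  rw [this]
  exact Set.countable_empty

instance : Nonempty (PP 𝕜 T) := ⟨⟨0, zero_mem_PP⟩⟩

theorem q_le {x : Theta 𝕜 T →₀ 𝕜} {a : ℝ} (h : ∀ p : PP 𝕜 T, p.1 (pull p x) ≤ a) :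
    q 𝕜 T x ≤ a := by
  rw [q_apply]
  exact ciSup_le h

theorem q_single_le (θ : Theta 𝕜 T) : q 𝕜 T (Finsupp.single θ 1) ≤ 1 :=
  q_le fun p => pull_single_le p θ

/-- Where two branches agree. -/
def Agr (p p' : PP 𝕜 T) : Set (Lam T) := {γ | rst p γ.1 = rst p' γ.1}

theorem pull_push (p p' : PP 𝕜 T) (y : Lam T →₀ 𝕜) :
    pull p' (Finsupp.mapDomain (iota p) y) = y.filter (· ∈ Agr p p') := by
  ext γ
  rw [pull_apply]
  by_cases h : γ ∈ Agr p p'
  · rw [Finsupp.filter_apply_pos _ _ h]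
    have : iota p' γ = iota p γ := by
      rw [iota_eq_iff]
      exact ⟨rfl, h.symm⟩
    rw [this, Finsupp.mapDomain_apply (iota_inj p)]
  · rw [Finsupp.filter_apply_neg _ _ h]
    refine Finsupp.mapDomain_of_notMem_range _ _ ?_
    rintro ⟨δ, hδ⟩
    rw [iota_eq_iff] at hδ
    obtain ⟨rfl, h2⟩ := hδ
    exact h h2

theorem q_push (p : PP 𝕜 T) (y : Lam T →₀ 𝕜) :
    q 𝕜 T (Finsupp.mapDomain (iota p) y) = p.1 y := by
  apply le_antisymm
  · refine q_le fun p' => ?_
    rw [pull_push]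
    by_cases hall : ∀ n, rst p n = rst p' n
    · have h1 : y.filter (· ∈ Agr p p') = y := by
        rw [Finsupp.filter_eq_self_iff]
        exact fun γ _ => hall γ.1
      rw [h1]
      obtain ⟨M, hM⟩ : ∃ M, y.filter (· ∈ Lev T M) = y := by
        refine ⟨y.support.sup (fun γ => γ.1), ?_⟩
        rw [Finsupp.filter_eq_self_iff]
        intro γ hγ
        exact Finset.le_sup (f := fun γ : Lam T => γ.1) (Finsupp.mem_support_iff.2 hγ)
      have := congrFun (hall M) y
      unfold rst at this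
      rw [hM] at this
      exact this.ge
    · push Not at hall
      obtain ⟨n, hn⟩ := hall
      have hex : ∃ n, ¬ rst p n = rst p' n := ⟨n, hn⟩
      set N := Nat.find hex with hN
      have hN1 : ¬ rst p N = rst p' N := Nat.find_spec hex
      have hN2 : ∀ m, m < N → rst p m = rst p' m := fun m hm => not_not.1 (Nat.find_min hex hm)
      have hN3 : ∀ m, rst p m = rst p' m → m < N := by
        intro m hm
        by_contra hc
        exact hN1 (rst_down (not_lt.1 hc) hm)
      rcases Nat.eq_zero_or_pos N with h0 | h0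
      · have : y.filter (· ∈ Agr p p') = 0 := by
          rw [Finsupp.filter_eq_zero_iff]
          intro γ hγ
          have := hN3 _ hγ
          omega
        rw [this, map_zero]
        exact apply_nonneg _ _
      · have : y.filter (· ∈ Agr p p') = y.filter (· ∈ Lev T (N - 1)) := by
          ext γ
          by_cases hg : γ ∈ Agr p p'
          · have h3 : γ ∈ Lev T (N - 1) := by
              have := hN3 _ hg
              change γ.1 ≤ N - 1
              omega
            rw [Finsupp.filter_apply_pos _ _ hg, Finsupp.filter_apply_pos _ _ h3]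
          · have h3 : γ ∉ Lev T (N - 1) := by
              intro h4
              have h5 : γ.1 ≤ N - 1 := h4
              exact hg (hN2 _ (by omega))
            rw [Finsupp.filter_apply_neg _ _ hg, Finsupp.filter_apply_neg _ _ h3]
        rw [this]
        have h1 := congrFun (hN2 (N - 1) (by omega)) y
        unfold rst at h1
        rw [← h1]
        exact p.2.2.1 (N - 1) y
  · have h1 := le_q p (Finsupp.mapDomain (iota p) y)
    rw [pull_push] at h1
    have h2 : y.filter (· ∈ Agr p p) = y := by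
      rw [Finsupp.filter_eq_self_iff]
      exact fun γ _ => rfl
    rwa [h2] at h1

theorem exists_phase (z : 𝕜) : ∃ w : 𝕜, ‖w‖ ≤ 1 ∧ w * z = (‖z‖ : 𝕜) := by
  by_cases hz : z = 0
  · exact ⟨0, by simp, by simp [hz]⟩
  · refine ⟨(‖z‖ : 𝕜) / z, ?_, ?_⟩
    · rw [norm_div, RCLike.norm_ofReal, abs_norm, div_self (norm_ne_zero_iff.2 hz)]
    · exact div_mul_cancel₀ _ hz

theorem cs_q : CS (q 𝕜 T) := by
  rintro f ⟨C, hC⟩
  -- the support is a union over levels and nodes
  have hbranch : ∀ p : PP 𝕜 T, {γ : Lam T | f (Finsupp.single (iota p γ) 1) ≠ 0}.Countable := by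
    intro p
    have h1 := p.2.2.2 (f.comp (Finsupp.lmapDomain 𝕜 𝕜 (iota p))) ⟨C, fun x => by
      have := hC (Finsupp.mapDomain (iota p) x)
      rw [q_push] at this
      exact this⟩
    have h2 : {γ : Lam T | f (Finsupp.single (iota p γ) 1) ≠ 0}
        = {γ | (f.comp (Finsupp.lmapDomain 𝕜 𝕜 (iota p))) (Finsupp.single γ 1) ≠ 0} := by
      ext γ
      simp [Finsupp.mapDomain_single]
    rw [h2]
    exact h1
  have hlevel : ∀ n : ℕ, {θ : Theta 𝕜 T | θ.1 = n ∧ f (Finsupp.single θ 1) ≠ 0}.Countable := by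
    intro n
    -- nodes which matter
    let N : Set (R 𝕜 T n) := {r | ∃ t : T n, f (Finsupp.single ⟨n, t, r⟩ 1) ≠ 0}
    have hN : N.Countable := by
      have hch : ∀ r : N, ∃ t : T n, f (Finsupp.single ⟨n, t, r.1⟩ 1) ≠ 0 := fun r => r.2
      choose t ht using hch
      have hch2 : ∀ r : N, ∃ w : 𝕜, ‖w‖ ≤ 1 ∧
          w * f (Finsupp.single ⟨n, t r, r.1⟩ 1) = (‖f (Finsupp.single ⟨n, t r, r.1⟩ 1)‖ : 𝕜) :=
        fun r => exists_phase _
      choose w hw1 hw2 using hch2
      have hsum : Summable fun r : N => ‖f (Finsupp.single ⟨n, t r, r.1⟩ 1)‖ := by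
        refine summable_of_sum_le (fun r => norm_nonneg _) (c := max C 0) fun s => ?_
        set x : Theta 𝕜 T →₀ 𝕜 := ∑ r ∈ s, w r • Finsupp.single ⟨n, t r, r.1⟩ 1 with hx
        have hfx : f x = ((∑ r ∈ s, ‖f (Finsupp.single ⟨n, t r, r.1⟩ 1)‖ : ℝ) : 𝕜) := by
          rw [hx, map_sum, RCLike.ofReal_sum]
          refine Finset.sum_congr rfl fun r _ => ?_
          rw [map_smul, smul_eq_mul, hw2]
        have hqx : q 𝕜 T x ≤ 1 := by
          refine q_le fun p => ?_
          have hp : pull p x = ∑ r ∈ s, w r • pull p (Finsupp.single ⟨n, t r, r.1⟩ 1) := by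
            rw [hx, map_sum]
            refine Finset.sum_congr rfl fun r _ => ?_
            rw [map_smul]
          by_cases hr : ∃ r ∈ s, (r.1.1 : (Lam T →₀ 𝕜) → ℝ) = rst p n
          · obtain ⟨r0, hr0, hr1⟩ := hr
            rw [hp, Finset.sum_eq_single_of_mem r0 hr0]
            · rw [map_smul_eq_mul]
              have := pull_single_le p ⟨n, t r0, r0.1⟩
              rw [Seminorm.comp_apply] at this
              exact mul_le_one₀ (hw1 r0) (apply_nonneg _ _) this
            · intro r _ hne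
              have : pull p (Finsupp.single ⟨n, t r, r.1⟩ 1) = 0 := by
                ext γ
                rw [pull_apply, Finsupp.single_apply, if_neg]
                · rfl
                · intro he
                  have h3 : (⟨n, t r, r.1⟩ : Theta 𝕜 T) = ⟨γ.1, γ.2, ⟨rst p γ.1, ⟨p, rfl⟩⟩⟩ := he
                  obtain ⟨m, g⟩ := γ
                  simp only [Sigma.mk.injEq] at h3
                  obtain ⟨h4, h5⟩ := h3
                  subst h4
                  simp only [heq_eq_eq, Prod.mk.injEq] at h5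
                  apply hne
                  apply Subtype.ext
                  apply Subtype.ext
                  rw [hr1]
                  exact congrArg Subtype.val h5.2
              rw [this, smul_zero]
          · have : pull p x = 0 := by
              rw [hp]
              refine Finset.sum_eq_zero fun r hrs => ?_
              have : pull p (Finsupp.single ⟨n, t r, r.1⟩ 1) = 0 := by
                ext γ
                rw [pull_apply, Finsupp.single_apply, if_neg]
                · rfl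
                · intro he
                  have h3 : (⟨n, t r, r.1⟩ : Theta 𝕜 T) = ⟨γ.1, γ.2, ⟨rst p γ.1, ⟨p, rfl⟩⟩⟩ := he
                  obtain ⟨m, g⟩ := γ
                  simp only [Sigma.mk.injEq] at h3
                  obtain ⟨h4, h5⟩ := h3
                  subst h4
                  simp only [heq_eq_eq, Prod.mk.injEq] at h5
                  exact hr ⟨r, hrs, congrArg Subtype.val h5.2⟩
              rw [this, smul_zero]
            rw [this, map_zero]
            exact zero_le_one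
        have h1 := hC x
        rw [hfx, RCLike.norm_ofReal, abs_of_nonneg (Finset.sum_nonneg fun _ _ => norm_nonneg _)]
          at h1
        refine h1.trans ?_
        calc C * q 𝕜 T x ≤ max C 0 * q 𝕜 T x :=
              mul_le_mul_of_nonneg_right (le_max_left _ _) (apply_nonneg _ _)
          _ ≤ max C 0 * 1 := mul_le_mul_of_nonneg_left hqx (le_max_right _ _)
          _ = max C 0 := mul_one _
      have := hsum.countable_support
      have huniv : Function.support (fun r : N => ‖f (Finsupp.single ⟨n, t r, r.1⟩ 1)‖)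
          = Set.univ := by
        ext r
        simp only [Function.mem_support, Set.mem_univ, iff_true]
        exact norm_ne_zero_iff.2 (ht r)
      rw [huniv, Set.countable_univ_iff] at this
      exact Set.countable_coe_iff.1 this
    have hsub : {θ : Theta 𝕜 T | θ.1 = n ∧ f (Finsupp.single θ 1) ≠ 0}
        ⊆ ⋃ r ∈ N, {θ : Theta 𝕜 T | ∃ t : T n, θ = ⟨n, t, r⟩ ∧ f (Finsupp.single θ 1) ≠ 0} := by
      rintro ⟨m, t, r⟩ ⟨h1, h2⟩
      simp only at h1
      subst h1
      exact Set.mem_biUnion (show r ∈ N from ⟨t, h2⟩) ⟨t, rfl, h2⟩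
    refine Set.Countable.mono hsub ?_
    refine hN.biUnion fun r _ => ?_
    obtain ⟨p, hp⟩ := r.2
    refine ((hbranch p).image (iota p)).mono ?_
    rintro θ ⟨t, rfl, h2⟩
    have h3 : iota p ⟨n, t⟩ = ⟨n, t, r⟩ := by
      unfold iota
      simp only [Sigma.mk.injEq, heq_eq_eq, Prod.mk.injEq, true_and]
      exact Subtype.ext hp
    refine ⟨⟨n, t⟩, ?_, h3⟩
    change f (Finsupp.single (iota p ⟨n, t⟩) 1) ≠ 0
    rw [h3]
    exact h2
  have hall : {θ : Theta 𝕜 T | f (Finsupp.single θ 1) ≠ 0}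
      ⊆ ⋃ n : ℕ, {θ : Theta 𝕜 T | θ.1 = n ∧ f (Finsupp.single θ 1) ≠ 0} := by
    intro θ hθ
    exact Set.mem_iUnion.2 ⟨θ.1, rfl, hθ⟩
  exact (Set.countable_iUnion hlevel).mono hall

end Pool.Agent.Helper568.Elastic
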