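import Mathlib
import Pool.Agent.Helper568.Elastic3

/-! Density characters, `ℓ¹(Γ)` and the non-embedding argument. -/

open Cardinal

namespace Pool.Agent.Helper568.Elastic

open scoped Classical ENNReal

/-- Density character: least cardinality of a dense subset. -/
noncomputable def dens (X : Type) [TopologicalSpace X] : Cardinal.{0} :=
  sInf {c : Cardinal.{0} | ∃ s : Set X, Dense s ∧ #s = c}

theorem dens_spec (X : Type) [TopologicalSpace X] : ∃ s : Set X, Dense s ∧ #s = dens X := by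
  have h : {c : Cardinal.{0} | ∃ s : Set X, Dense s ∧ #s = c}.Nonempty :=
    ⟨_, Set.univ, dense_univ, rfl⟩
  exact csInf_mem h

theorem dens_le {X : Type} [TopologicalSpace X] {s : Set X} (hs : Dense s) : dens X ≤ #s :=
  csInf_le' ⟨s, hs, rfl⟩

theorem le_dens {X I : Type} [PseudoMetricSpace X] (u : I → X)
    (hu : ∀ i j, i ≠ j → 1 ≤ dist (u i) (u j)) : #I ≤ dens X := by
  obtain ⟨s, hs, hc⟩ := dens_spec X
  rw [← hc]
  have h : ∀ i, ∃ y : s, dist (u i) y.1 < 1 / 2 := by
    intro i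
    obtain ⟨y, hy, hd⟩ := Metric.dense_iff.1 hs (u i) (1 / 2) (by norm_num)
    exact ⟨⟨y, hd⟩, by rw [dist_comm]; exact hy⟩
  choose y hy using h
  refine Cardinal.mk_le_of_injective (f := y) fun i j hij => ?_
  by_contra hne
  have h1 := hu i j hne
  have h2 := dist_triangle_right (u i) (u j) (y i).1
  have h3 := hy i
  have h4 := hy j
  rw [← hij] at h4
  linarith

variable {𝕜 : Type} [RCLike 𝕜]

section l1

variable (𝕜) (Γ : Type)

/-- `ℓ¹(Γ)`. -/
abbrev L1 : Type := lp (fun _ : Γ => 𝕜) 1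

variable {Γ} in
/-- unit vectors -/
noncomputable def ev (γ : Γ) : L1 𝕜 Γ := lp.single 1 γ (1 : 𝕜)

variable {𝕜 Γ}

theorem summable_norm (y : L1 𝕜 Γ) : Summable fun γ => ‖y γ‖ := by
  have := (lp.memℓp y).summable (by norm_num)
  simpa using this

theorem norm_eq (y : L1 𝕜 Γ) : ‖y‖ = ∑' γ, ‖y γ‖ := by
  have := lp.norm_eq_tsum_rpow (p := 1) (by norm_num) y
  simpa using this

theorem norm_apply_le (y : L1 𝕜 Γ) (γ : Γ) : ‖y γ‖ ≤ ‖y‖ := by
  rw [norm_eq]
  exact (summable_norm y).le_tsum γ fun _ _ => norm_nonneg _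

/-- Functional given by a subset. -/
theorem exists_functional_set (E : Set Γ) :
    ∃ φ : L1 𝕜 Γ →L[𝕜] 𝕜, ∀ γ, φ (ev 𝕜 γ) = if γ ∈ E then 1 else 0 := by
  let a : Γ → 𝕜 := fun γ => if γ ∈ E then 1 else 0
  have ha : ∀ γ, ‖a γ‖ ≤ 1 := by
    intro γ
    simp only [a]
    split_ifs <;> simp
  have hs : ∀ y : L1 𝕜 Γ, Summable fun γ => a γ * y γ := by
    intro y
    refine Summable.of_norm_bounded (summable_norm y) fun γ => ?_
    rw [norm_mul]
    exact mul_le_of_le_one_left (norm_nonneg _) (ha γ)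
  let φ : L1 𝕜 Γ →ₗ[𝕜] 𝕜 :=
    { toFun := fun y => ∑' γ, a γ * y γ
      map_add' := fun y z => by
        rw [← (hs y).tsum_add (hs z)]
        refine tsum_congr fun γ => ?_
        rw [lp.coeFn_add, Pi.add_apply, mul_add]
      map_smul' := fun c y => by
        simp only [RingHom.id_apply, smul_eq_mul]
        rw [← tsum_mul_left]
        refine tsum_congr fun γ => ?_
        rw [lp.coeFn_smul, Pi.smul_apply, smul_eq_mul]
        ring }
  refine ⟨φ.mkContinuous 1 fun y => ?_, fun γ => ?_⟩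
  · rw [one_mul, norm_eq]
    refine (norm_tsum_le_tsum_norm (hs y).norm).trans ?_
    refine (hs y).norm.tsum_le_tsum (fun γ => ?_) (summable_norm y)
    rw [norm_mul]
    exact mul_le_of_le_one_left (norm_nonneg _) (ha γ)
  · change ∑' δ, a δ * (ev 𝕜 γ) δ = _
    rw [tsum_eq_single γ]
    · simp [a, ev]
    · intro δ hδ
      simp only [ev]
      rw [lp.single_apply_ne _ _ _ hδ, mul_zero]

theorem one_le_dist_ev {γ δ : Γ} (h : γ ≠ δ) : 1 ≤ dist (ev 𝕜 γ) (ev 𝕜 δ) := by
  rw [dist_eq_norm]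
  have h1 := norm_apply_le (ev 𝕜 γ - ev 𝕜 δ) γ
  have h2 : (ev 𝕜 γ - ev 𝕜 δ) γ = 1 := by
    rw [lp.coeFn_sub, Pi.sub_apply]
    simp only [ev]
    rw [lp.single_apply_self, lp.single_apply_ne _ _ _ h, sub_zero]
  rw [h2, norm_one] at h1
  exact h1

theorem dens_l1 (hΓ : 𝔠 ≤ #Γ) : dens (L1 𝕜 Γ) = #Γ := by
  apply le_antisymm
  · let j : (Γ →₀ 𝕜) → L1 𝕜 Γ := fun x => ∑ γ ∈ x.support, lp.single 1 γ (x γ)
    have hdense : Dense (Set.range j) := by
      intro y
      have hsum := lp.hasSum_single (p := 1) (by norm_num) y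
      refine mem_closure_of_tendsto hsum (Filter.Eventually.of_forall fun s => ?_)
      refine ⟨∑ γ ∈ s, Finsupp.single γ (y γ), ?_⟩
      simp only [j]
      have hv : ∀ γ, (∑ δ ∈ s, Finsupp.single δ (y δ) : Γ →₀ 𝕜) γ = if γ ∈ s then y γ else 0 := by
        intro γ
        rw [Finsupp.finsetSum_apply]
        simp only [Finsupp.single_apply]
        rw [Finset.sum_ite_eq']
      have hsub : (∑ δ ∈ s, Finsupp.single δ (y δ) : Γ →₀ 𝕜).support ⊆ s := by
        intro γ hγ
        rw [Finsupp.mem_support_iff, hv] at hγ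
        by_contra hc
        rw [if_neg hc] at hγ
        exact hγ rfl
      rw [Finset.sum_subset hsub]
      · refine Finset.sum_congr rfl fun γ hγ => ?_
        rw [hv, if_pos hγ]
      · intro γ _ hγ
        rw [Finsupp.notMem_support_iff.1 hγ, lp.single_zero]
    refine (dens_le hdense).trans (Cardinal.mk_range_le.trans ?_)
    have h := mk_finsupp_le (𝕜 := 𝕜) (Γ := Γ) (B := Set.univ) hΓ (by rw [Cardinal.mk_univ])
    simpa using h
  · exact le_dens (ev 𝕜) fun i j h => one_le_dist_ev h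

end l1

/-- Few countably supported functions. -/
theorem mk_countable_supp {A : Type} (hA : #A ≤ 𝔠) :
    #{f : A → 𝕜 | {a | f a ≠ 0}.Countable} ≤ 𝔠 := by
  have h : ∀ f : {f : A → 𝕜 | {a | f a ≠ 0}.Countable}, ∃ u : ℕ → Option (A × 𝕜),
      Set.range u = insert none ((fun a => some (a, f.1 a)) '' {a | f.1 a ≠ 0}) := by
    intro f
    have h1 : (insert none ((fun a => some (a, f.1 a)) '' {a | f.1 a ≠ 0}) :
        Set (Option (A × 𝕜))).Countable := (f.2.image _).insert _
    obtain ⟨u, hu⟩ := h1.exists_eq_range ⟨none, Set.mem_insert _ _⟩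
    exact ⟨u, hu.symm⟩
  choose u hu using h
  have hinj : Function.Injective u := by
    intro f g hfg
    have h1 := hu f
    rw [hfg, hu g] at h1
    apply Subtype.ext
    funext a
    have key : ∀ f g : {f : A → 𝕜 | {a | f a ≠ 0}.Countable},
        (insert none ((fun a => some (a, g.1 a)) '' {a | g.1 a ≠ 0}) : Set (Option (A × 𝕜))) =
        insert none ((fun a => some (a, f.1 a)) '' {a | f.1 a ≠ 0}) →
        f.1 a ≠ 0 → f.1 a = g.1 a := by
      intro f g h1 ha
      have h2 : (some (a, f.1 a) : Option (A × 𝕜)) ∈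
          (insert none ((fun a => some (a, f.1 a)) '' {a | f.1 a ≠ 0}) : Set (Option (A × 𝕜))) :=
        Or.inr ⟨a, ha, rfl⟩
      rw [← h1] at h2
      rcases h2 with h2 | ⟨b, _, hb⟩
      · simp at h2
      · simp only [Option.some.injEq, Prod.mk.injEq] at hb
        obtain ⟨rfl, hb⟩ := hb
        exact hb.symm
    by_cases ha : f.1 a = 0
    · by_cases hb : g.1 a = 0
      · rw [ha, hb]
      · exact (key g f h1.symm hb).symm
    · exact key f g h1 ha
  refine (Cardinal.mk_le_of_injective hinj).trans ?_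
  have h2 : #(Option (A × 𝕜)) ≤ 𝔠 := by
    rw [Cardinal.mk_option, Cardinal.mk_prod, Cardinal.lift_id, Cardinal.lift_id]
    refine Cardinal.add_le_of_le aleph0_le_continuum ?_ ?_
    · exact Cardinal.mul_le_of_le aleph0_le_continuum hA mk_field_le
    · exact Cardinal.one_le_aleph0.trans aleph0_le_continuum
  calc #(ℕ → Option (A × 𝕜)) = #(Option (A × 𝕜)) ^ ℵ₀ := by
        rw [Cardinal.mk_arrow]; simp
    _ ≤ 𝔠 ^ ℵ₀ := Cardinal.power_le_power_right h2
    _ = 𝔠 := Cardinal.continuum_power_aleph0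

/-- `ℓ¹(Γ)` does not embed when `Γ` is at least continuum. -/
theorem no_l1 {Θ U : Type} [NormedAddCommGroup U] [NormedSpace 𝕜 U]
    (ι : (Θ →₀ 𝕜) →ₗ[𝕜] U) (hι : DenseRange ι)
    (hcs : ∀ F : U →L[𝕜] 𝕜, {θ | F (ι (Finsupp.single θ 1)) ≠ 0}.Countable)
    {Γ : Type} (hΓ : 𝔠 ≤ #Γ) (L : L1 𝕜 Γ →L[𝕜] U) {c : ℝ} (hc : 0 < c)
    (hL : ∀ y, c * ‖y‖ ≤ ‖L y‖) : False := by
  obtain ⟨j⟩ : Nonempty (ℝ ↪ Γ) := by
    rw [← Cardinal.le_def, Cardinal.mk_real]
    exact hΓ
  let x : ℝ → U := fun r => L (ev 𝕜 (j r))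
  -- countable supports of the vectors
  have h1 : ∀ r : ℝ, ∃ y : ℕ → (Θ →₀ 𝕜), Filter.Tendsto (fun n => ι (y n)) Filter.atTop
      (nhds (x r)) := by
    intro r
    obtain ⟨v, hv, hv2⟩ := mem_closure_iff_seq_limit.1 (hι (x r))
    choose y hy using hv
    exact ⟨y, by simpa [hy] using hv2⟩
  choose y hy using h1
  let A : Set Θ := ⋃ r, ⋃ n, ((y r n).support : Set Θ)
  have hA : #A ≤ 𝔠 := by
    refine (Cardinal.mk_iUnion_le _).trans ?_
    refine Cardinal.mul_le_of_le aleph0_le_continuum Cardinal.mk_real.le ?_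
    refine ciSup_le' fun r => ?_
    have : (⋃ n, ((y r n).support : Set Θ)).Countable :=
      Set.countable_iUnion fun n => (y r n).support.countable_toSet
    exact (Cardinal.le_aleph0_iff_set_countable.2 this).trans aleph0_le_continuum
  -- functionals
  have hF : ∀ E : Set ℝ, ∃ F : U →L[𝕜] 𝕜, ∀ r, F (x r) = if r ∈ E then 1 else 0 := by
    intro E
    obtain ⟨φ, hφ⟩ := exists_functional_set (𝕜 := 𝕜) (Γ := Γ) (j '' E)
    have hinj : Function.Injective L.toLinearMap := by
      rw [← LinearMap.ker_eq_bot, LinearMap.ker_eq_bot']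
      intro m hm
      have := hL m
      rw [show L m = 0 from hm, norm_zero] at this
      have h2 : ‖m‖ ≤ 0 := by
        by_contra hcon
        have := mul_pos hc (not_le.1 hcon)
        linarith
      exact norm_le_zero_iff.1 h2
    let e := LinearEquiv.ofInjective L.toLinearMap hinj
    have he : ∀ m : LinearMap.range L.toLinearMap, L (e.symm m) = m.1 := by
      intro m
      have := e.apply_symm_apply m
      exact congrArg Subtype.val this
    let G : LinearMap.range L.toLinearMap →L[𝕜] 𝕜 :=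
      (φ.toLinearMap.comp e.symm.toLinearMap).mkContinuous (‖φ‖ * c⁻¹) fun m => by
        have h2 := φ.le_opNorm (e.symm m)
        have h3 := hL (e.symm m)
        rw [he] at h3
        have h4 : ‖e.symm m‖ ≤ c⁻¹ * ‖m‖ := by
          rw [inv_mul_eq_div, le_div_iff₀ hc, mul_comm]
          exact h3
        calc ‖(φ.toLinearMap.comp e.symm.toLinearMap) m‖ ≤ ‖φ‖ * ‖e.symm m‖ := h2
          _ ≤ ‖φ‖ * (c⁻¹ * ‖m‖) := mul_le_mul_of_nonneg_left h4 (norm_nonneg _)
          _ = ‖φ‖ * c⁻¹ * ‖m‖ := by ring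
    obtain ⟨F, hF1, -⟩ := exists_extension_norm_eq (LinearMap.range L.toLinearMap) G
    refine ⟨F, fun r => ?_⟩
    have h5 : F (x r) = G ⟨x r, ⟨ev 𝕜 (j r), rfl⟩⟩ := hF1 ⟨x r, ⟨ev 𝕜 (j r), rfl⟩⟩
    have h6 : e.symm ⟨x r, ⟨ev 𝕜 (j r), rfl⟩⟩ = ev 𝕜 (j r) := by
      rw [LinearEquiv.symm_apply_eq]
      rfl
    rw [h5]
    change φ (e.symm ⟨x r, ⟨ev 𝕜 (j r), rfl⟩⟩) = _
    rw [h6, hφ]
    simp only [Set.mem_image, j.injective.eq_iff, exists_eq_right]
  choose F hF using hF
  let Φ : Set ℝ → {f : A → 𝕜 | {a | f a ≠ 0}.Countable} := fun E =>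
    ⟨fun a => F E (ι (Finsupp.single a.1 1)), by
      have := (hcs (F E)).preimage (f := (Subtype.val : A → Θ)) Subtype.val_injective
      exact this⟩
  have hΦ : Function.Injective Φ := by
    intro E E' h
    have h2 : ∀ a ∈ A, F E (ι (Finsupp.single a 1)) = F E' (ι (Finsupp.single a 1)) := by
      intro a ha
      have := congrArg Subtype.val h
      exact congrFun this ⟨a, ha⟩
    have h3 : ∀ z : Θ →₀ 𝕜, (z.support : Set Θ) ⊆ A → F E (ι z) = F E' (ι z) := by
      intro z hz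
      rw [← Finsupp.sum_single z, Finsupp.sum, map_sum, map_sum, map_sum]
      refine Finset.sum_congr rfl fun θ hθ => ?_
      have h4 : (Finsupp.single θ (z θ) : Θ →₀ 𝕜) = (z θ) • Finsupp.single θ 1 := by
        rw [Finsupp.smul_single, smul_eq_mul, mul_one]
      rw [h4, map_smul, map_smul, map_smul, h2 θ (hz hθ)]
    have h5 : ∀ r, F E (x r) = F E' (x r) := by
      intro r
      have h6 : ∀ n, F E (ι (y r n)) = F E' (ι (y r n)) := by
        intro n
        refine h3 _ ?_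
        intro θ hθ
        exact Set.mem_iUnion.2 ⟨r, Set.mem_iUnion.2 ⟨n, hθ⟩⟩
      have h7 := ((F E).continuous.tendsto _).comp (hy r)
      have h8 := ((F E').continuous.tendsto _).comp (hy r)
      refine tendsto_nhds_unique h7 (h8.congr fun n => ?_)
      exact (h6 n).symm
    ext r
    have h6 := h5 r
    rw [hF, hF] at h6
    by_cases h7 : r ∈ E <;> by_cases h8 : r ∈ E' <;> simp_all
  have h9 := (Cardinal.mk_le_of_injective hΦ).trans (mk_countable_supp hA)
  rw [Cardinal.mk_set, Cardinal.mk_real] at h9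
  exact (Cardinal.cantor 𝔠).not_ge h9

end Pool.Agent.Helper568.Elastic
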