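import Mathlib
import Pool.Agent.Helper568.Elastic4

/-! The sup norm is admissible; the main theorem. -/

open Cardinal

namespace Pool.Agent.Helper568.Elastic

open scoped Classical ENNReal

variable (𝕜 : Type) [RCLike 𝕜]

theorem bdd0 {Γ : Type} :
    BddAbove (Set.range fun γ : Γ => (normSeminorm 𝕜 𝕜).comp (Finsupp.lapply (R := 𝕜) (M := 𝕜) γ)) := by
  rw [Seminorm.bddAbove_range_iff]
  intro x
  refine ⟨∑ γ ∈ x.support, ‖x γ‖, ?_⟩
  rintro _ ⟨γ, rfl⟩
  change ‖x γ‖ ≤ _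
  by_cases h : γ ∈ x.support
  · exact Finset.single_le_sum (f := fun γ => ‖x γ‖) (fun _ _ => norm_nonneg _) h
  · rw [Finsupp.notMem_support_iff.1 h, norm_zero]
    exact Finset.sum_nonneg fun _ _ => norm_nonneg _

/-- The sup norm. -/
noncomputable def p0 (Γ : Type) : Seminorm 𝕜 (Γ →₀ 𝕜) :=
  ⨆ γ : Γ, (normSeminorm 𝕜 𝕜).comp (Finsupp.lapply (R := 𝕜) (M := 𝕜) γ)

variable {𝕜}

theorem p0_apply {Γ : Type} (x : Γ →₀ 𝕜) : p0 𝕜 Γ x = ⨆ γ, ‖x γ‖ := by
  unfold p0
  rw [Seminorm.iSup_apply (bdd0 𝕜)]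
  rfl

theorem le_p0 {Γ : Type} (x : Γ →₀ 𝕜) (γ : Γ) : ‖x γ‖ ≤ p0 𝕜 Γ x := by
  rw [p0_apply]
  have := (Seminorm.bddAbove_range_iff.1 (bdd0 𝕜 (Γ := Γ))) x
  exact le_ciSup (f := fun γ => ‖x γ‖) this γ

theorem p0_le {Γ : Type} [Nonempty Γ] {x : Γ →₀ 𝕜} {a : ℝ} (h : ∀ γ, ‖x γ‖ ≤ a) :
    p0 𝕜 Γ x ≤ a := by
  rw [p0_apply]
  exact ciSup_le h

instance : Nonempty (Lam T) := ⟨⟨0, (0 : ℝ)⟩⟩

theorem p0_mem : p0 𝕜 (Lam T) ∈ PP 𝕜 T := by
  refine ⟨fun γ => ?_, fun n x => ?_, ?_⟩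
  · refine p0_le fun δ => ?_
    rw [Finsupp.single_apply]
    split_ifs <;> simp
  · refine p0_le fun δ => ?_
    rw [Finsupp.filter_apply]
    split_ifs
    · exact le_p0 x δ
    · rw [norm_zero]; exact apply_nonneg _ _
  · rintro f ⟨C, hC⟩
    have hch : ∀ γ : Lam T, ∃ w : 𝕜, ‖w‖ ≤ 1 ∧
        w * f (Finsupp.single γ 1) = (‖f (Finsupp.single γ 1)‖ : 𝕜) := fun γ => exists_phase _
    choose w hw1 hw2 using hch
    have hsum : Summable fun γ : Lam T => ‖f (Finsupp.single γ 1)‖ := by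
      refine summable_of_sum_le (fun r => norm_nonneg _) (c := max C 0) fun s => ?_
      set x : Lam T →₀ 𝕜 := ∑ γ ∈ s, w γ • Finsupp.single γ 1 with hx
      have hfx : f x = ((∑ γ ∈ s, ‖f (Finsupp.single γ 1)‖ : ℝ) : 𝕜) := by
        rw [hx, map_sum, RCLike.ofReal_sum]
        refine Finset.sum_congr rfl fun r _ => ?_
        rw [map_smul, smul_eq_mul, hw2]
      have hqx : p0 𝕜 (Lam T) x ≤ 1 := by
        refine p0_le fun γ => ?_
        have : x γ = if γ ∈ s then w γ else 0 := by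
          rw [hx, Finsupp.finsetSum_apply]
          simp only [Finsupp.smul_apply, Finsupp.single_apply, smul_eq_mul, mul_ite, mul_one,
            mul_zero]
          rw [Finset.sum_ite_eq']
        rw [this]
        split_ifs
        · exact hw1 γ
        · simp
      have h1 := hC x
      rw [hfx, RCLike.norm_ofReal, abs_of_nonneg (Finset.sum_nonneg fun _ _ => norm_nonneg _)]
        at h1
      refine h1.trans ?_
      calc C * p0 𝕜 (Lam T) x ≤ max C 0 * p0 𝕜 (Lam T) x :=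
            mul_le_mul_of_nonneg_right (le_max_left _ _) (apply_nonneg _ _)
        _ ≤ max C 0 * 1 := mul_le_mul_of_nonneg_left hqx (le_max_right _ _)
        _ = max C 0 := mul_one _
    have := hsum.countable_support
    refine this.mono fun γ hγ => ?_
    exact norm_ne_zero_iff.2 hγ

/-- Every seminorm on `X` dominated by a multiple of the norm is of the form `‖T x‖`. -/
def StrongElastic (𝕜 X : Type) [RCLike 𝕜] [NormedAddCommGroup X] [NormedSpace 𝕜 X] : Prop :=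
  ∀ p : Seminorm 𝕜 X, (∃ C : ℝ, ∀ x, p x ≤ C * ‖x‖) → ∃ L : X →L[𝕜] X, ∀ x, ‖L x‖ = p x

variable (𝕜)

theorem main : ∃ (X : Type) (_ : NormedAddCommGroup X) (_ : NormedSpace 𝕜 X)
    (_ : CompleteSpace X), 𝔠 ≤ dens X ∧ StrongElastic 𝕜 X ∧
    ∀ Γ : Type, 𝔠 ≤ #Γ → ¬ ∃ L : L1 𝕜 Γ →L[𝕜] X, ∃ c : ℝ, 0 < c ∧ ∀ y, c * ‖y‖ ≤ ‖L y‖ := by
  obtain ⟨U, _, _, _, ι, hι, hn⟩ := Compl.exists_completion (q 𝕜 T)
  have hcsq : ∀ F : U →L[𝕜] 𝕜, {θ | F (ι (Finsupp.single θ 1)) ≠ 0}.Countable := by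
    intro F
    refine cs_q (𝕜 := 𝕜) (T := T) (F.toLinearMap.comp ι) ⟨‖F‖, fun x => ?_⟩
    have := F.le_opNorm (ι x)
    rw [hn] at this
    exact this
  refine ⟨U, inferInstance, inferInstance, inferInstance, ?_, ?_, ?_⟩
  · -- density
    let p' : PP 𝕜 T := ⟨p0 𝕜 (Lam T), p0_mem⟩
    have h1 : #(Lam T) ≤ dens U := by
      refine le_dens (fun γ => ι (Finsupp.mapDomain (iota p') (Finsupp.single γ 1))) ?_
      intro γ δ hne
      have h0 : Finsupp.mapDomain (iota p') (Finsupp.single γ (1 : 𝕜)) -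
          Finsupp.mapDomain (iota p') (Finsupp.single δ 1) =
          Finsupp.mapDomain (iota p') (Finsupp.single γ 1 - Finsupp.single δ 1) :=
        ((Finsupp.lmapDomain 𝕜 𝕜 (iota p')).map_sub _ _).symm
      rw [dist_eq_norm, ← map_sub, hn, h0, q_push]
      have h2 := le_p0 (Finsupp.single γ 1 - Finsupp.single δ 1 : Lam T →₀ 𝕜) γ
      rw [Finsupp.sub_apply, Finsupp.single_eq_same, Finsupp.single_apply, if_neg (Ne.symm hne),
        sub_zero, norm_one] at h2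
      exact h2
    refine le_trans ?_ h1
    rw [← Cardinal.mk_real]
    exact Cardinal.mk_le_of_injective (f := fun r : ℝ => (⟨0, r⟩ : Lam T)) fun a b h =>
      eq_of_heq (Sigma.mk.inj h).2
  · rintro p ⟨C, hC⟩
    have hC' : ∀ x, p x ≤ max C 1 * ‖x‖ := fun x =>
      (hC x).trans (mul_le_mul_of_nonneg_right (le_max_left _ _) (norm_nonneg _))
    have hpos : 0 < max C 1 := lt_max_of_lt_right one_pos
    obtain ⟨J, hJ⟩ := elastic (p.comp ι) hpos (fun x => by
      rw [Seminorm.comp_apply, ← hn]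
      exact hC' _)
    have hb : ∀ x, ‖(ι.comp J) x‖ ≤ max C 1 * ‖ι x‖ := by
      intro x
      rw [LinearMap.comp_apply, hn, hJ, Seminorm.comp_apply]
      exact hC' _
    refine ⟨(ι.comp J).extendOfNorm ι, ?_⟩
    have hcont : Continuous p := by
      refine (LipschitzWith.of_le_add_mul ⟨max C 1, hpos.le⟩ fun x y => ?_).continuous
      have h1 : p x ≤ p y + p (x - y) := by
        calc p x = p (y + (x - y)) := by rw [add_sub_cancel]
          _ ≤ _ := map_add_le_add _ _ _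
      rw [dist_eq_norm]
      exact h1.trans (by
        have := hC' (x - y)
        change p y + p (x - y) ≤ p y + max C 1 * ‖x - y‖
        linarith)
    intro x
    have hcl : IsClosed {x : U | ‖(ι.comp J).extendOfNorm ι x‖ = p x} :=
      isClosed_eq (by fun_prop) hcont
    refine hι.induction_on (p := fun x => ‖(ι.comp J).extendOfNorm ι x‖ = p x) x hcl fun y => ?_
    rw [LinearMap.extendOfNorm_eq hι ⟨_, hb⟩, LinearMap.comp_apply, hn, hJ, Seminorm.comp_apply]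
  · rintro Γ hΓ ⟨L, c, hc, hL⟩
    exact no_l1 ι hι hcsq hΓ L hc hL

end Pool.Agent.Helper568.Elastic
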