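import Mathlib

set_option autoImplicit false
set_option linter.unusedVariables false

open Set

namespace Pool.Agent.Helper568.Lip

/-- well ordered sets of rationals -/
def Nd : Type := {s : Set ℚ // s.IsWF}

namespace Nd

theorem ext {A B : Nd} (h : ∀ x, x ∈ A.1 ↔ x ∈ B.1) : A = B := Subtype.ext (Set.ext h)

instance : PartialOrder Nd where
  le A B := A.1 ⊆ B.1 ∧ ∀ b ∈ B.1, ∀ a ∈ A.1, b < a → b ∈ A.1
  le_refl A := ⟨subset_rfl, fun b hb _ _ _ => hb⟩
  le_trans A B C h1 h2 := ⟨h1.1.trans h2.1, fun c hc a ha hca =>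
    h1.2 c (h2.2 c hc a (h1.1 ha) hca) a ha hca⟩
  le_antisymm A B h1 h2 := Subtype.ext (h1.1.antisymm h2.1)

theorem le_def {A B : Nd} : A ≤ B ↔ A.1 ⊆ B.1 ∧ ∀ b ∈ B.1, ∀ a ∈ A.1, b < a → b ∈ A.1 := Iff.rfl

instance : SemilatticeInf Nd where
  inf A B := ⟨{x | x ∈ A.1 ∧ x ∈ B.1 ∧ ∀ y < x, (y ∈ A.1 ↔ y ∈ B.1)},
    A.2.mono fun _ hx => hx.1⟩
  inf_le_left A B := ⟨fun _ hx => hx.1, fun b hb a ha hba =>
    ⟨hb, (ha.2.2 b hba).1 hb, fun y hy => ha.2.2 y (hy.trans hba)⟩⟩
  inf_le_right A B := ⟨fun _ hx => hx.2.1, fun b hb a ha hba =>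
    ⟨(ha.2.2 b hba).2 hb, hb, fun y hy => ha.2.2 y (hy.trans hba)⟩⟩
  le_inf C A B h1 h2 := ⟨fun x hx => ⟨h1.1 hx, h2.1 hx, fun y hy =>
    ⟨fun h => h2.1 (h1.2 y h x hx hy), fun h => h1.1 (h2.2 y h x hx hy)⟩⟩,
    fun b hb a ha hba => h1.2 b hb.1 a ha hba⟩

theorem comparable {A A' B : Nd} (h : A ≤ B) (h' : A' ≤ B) : A ≤ A' ∨ A' ≤ A := by
  by_cases hx : ∃ x ∈ A.1, x ∉ A'.1
  · obtain ⟨x, hxA, hxA'⟩ := hx
    right
    refine ⟨fun y hy => ?_, fun b hb a ha hba => h'.2 b (h.1 hb) a ha hba⟩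
    by_contra hyA
    rcases lt_trichotomy x y with h1 | h1 | h1
    · exact hxA' (h'.2 x (h.1 hxA) y hy h1)
    · exact hyA (h1 ▸ hxA)
    · exact hyA (h.2 y (h'.1 hy) x hxA h1)
  · push Not at hx
    left
    exact ⟨hx, fun b hb a ha hba => h.2 b (h'.1 hb) a ha hba⟩

/-- `x` lies above every element of `A` -/
def Ab (A : Nd) (x : ℚ) : Prop := ∀ a ∈ A.1, a < x

/-- add one point -/
def ch (A : Nd) (x : ℚ) : Nd := ⟨insert x A.1, (Set.IsPWO.insert A.2.isPWO x).isWF⟩

theorem mem_ch {A : Nd} {x y : ℚ} : y ∈ (ch A x).1 ↔ y = x ∨ y ∈ A.1 := Iff.rfl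

theorem notMem_of_Ab {A : Nd} {x : ℚ} (h : Ab A x) : x ∉ A.1 := fun hx => lt_irrefl _ (h x hx)

theorem le_ch {A : Nd} {x : ℚ} (h : Ab A x) : A ≤ ch A x := by
  refine ⟨fun y hy => Or.inr hy, fun b hb a ha hba => ?_⟩
  rcases hb with rfl | hb
  · exact absurd (h a ha) (not_lt.2 hba.le)
  · exact hb

theorem lt_ch {A : Nd} {x : ℚ} (h : Ab A x) : A < ch A x := by
  refine lt_of_le_of_ne (le_ch h) fun he => ?_
  have : x ∈ A.1 := by rw [he]; exact Or.inl rfl
  exact notMem_of_Ab h this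

theorem exists_ch {A B : Nd} (h : A < B) : ∃ x, Ab A x ∧ ch A x ≤ B := by
  have hne : (B.1 \ A.1).Nonempty := by
    by_contra hcon
    rw [Set.not_nonempty_iff_eq_empty, Set.sdiff_eq_empty] at hcon
    exact h.ne (Subtype.ext (h.le.1.antisymm hcon))
  have hwf : (B.1 \ A.1).IsWF := B.2.mono Set.sdiff_subset
  set x := hwf.min hne with hx
  have hxm : x ∈ B.1 \ A.1 := hwf.min_mem hne
  have hmin : ∀ b ∈ B.1, b < x → b ∈ A.1 := by
    intro b hb hbx
    by_contra hbA
    exact hwf.not_lt_min hne ⟨hb, hbA⟩ hbx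
  have hAb : Ab A x := by
    intro a ha
    rcases lt_trichotomy a x with h1 | h1 | h1
    · exact h1
    · exact absurd (h1 ▸ ha) hxm.2
    · exact absurd (h.le.2 x hxm.1 a ha h1) hxm.2
  refine ⟨x, hAb, ?_, ?_⟩
  · rintro y (rfl | hy)
    · exact hxm.1
    · exact h.le.1 hy
  · rintro b hb a (rfl | ha) hba
    · exact Or.inr (hmin b hb hba)
    · exact Or.inr (h.le.2 b hb a ha hba)

theorem ch_unique {A B : Nd} {x y : ℚ} (hx : Ab A x) (hy : Ab A y) (h1 : ch A x ≤ B)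
    (h2 : ch A y ≤ B) : x = y := by
  have hxB : x ∈ B.1 := h1.1 (Or.inl rfl)
  have hyB : y ∈ B.1 := h2.1 (Or.inl rfl)
  rcases lt_trichotomy x y with h | h | h
  · rcases h2.2 x hxB y (Or.inl rfl) h with h3 | h3
    · exact h3
    · exact absurd h3 (notMem_of_Ab hx)
  · exact h
  · rcases h1.2 y hyB x (Or.inl rfl) h with h3 | h3
    · exact h3.symm
    · exact absurd h3 (notMem_of_Ab hy)

theorem base_unique {A A' B : Nd} {x : ℚ} (hx : Ab A x) (hx' : Ab A' x) (h1 : ch A x ≤ B)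
    (h2 : ch A' x ≤ B) : A = A' := by
  apply Nd.ext
  intro y
  constructor
  · intro hy
    rcases h2.2 y (h1.1 (Or.inr hy)) x (Or.inl rfl) (hx y hy) with h3 | h3
    · exact absurd (h3 ▸ hy) (notMem_of_Ab hx)
    · exact h3
  · intro hy
    rcases h1.2 y (h2.1 (Or.inr hy)) x (Or.inl rfl) (hx' y hy) with h3 | h3
    · exact absurd (h3 ▸ hy) (notMem_of_Ab hx')
    · exact h3

theorem le_ch_cases {A C : Nd} {x : ℚ} (hx : Ab A x) (h : C ≤ ch A x) : C ≤ A ∨ C = ch A x := by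
  by_cases hxC : x ∈ C.1
  · right
    apply le_antisymm h
    refine ⟨?_, fun b hb a ha hba => Or.inr ?_⟩
    · rintro y (rfl | hy)
      · exact hxC
      · exact h.2 y (Or.inr hy) x hxC (hx y hy)
    · rcases h.1 hb with h1 | h1
      · subst h1
        rcases ha with h2 | h2
        · exact absurd hba (by rw [h2]; exact lt_irrefl _)
        · exact absurd (hx a h2) (not_lt.2 hba.le)
      · exact h1
  · left
    have hCA : C.1 ⊆ A.1 := by
      intro y hy
      rcases h.1 hy with h1 | h1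
      · exact absurd (h1 ▸ hy) hxC
      · exact h1
    exact ⟨hCA, fun b hb a ha hba => h.2 b (Or.inr hb) a ha hba⟩

theorem countable_Iic (A : Nd) : {C : Nd | C ≤ A}.Countable := by
  have : {C : Nd | C ≤ A} ⊆ {A} ∪ Set.range (fun x : ℚ => (⟨A.1 ∩ Set.Iio x,
      A.2.mono inter_subset_left⟩ : Nd)) := by
    intro C hC
    rcases (show C ≤ A from hC).eq_or_lt with h | h
    · exact Or.inl h
    · right
      obtain ⟨x, hx1, hx2⟩ := exists_ch h
      refine ⟨x, Nd.ext fun y => ?_⟩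
      constructor
      · rintro ⟨h1, h2⟩
        rcases hx2.2 y h1 x (Or.inl rfl) h2 with h3 | h3
        · exact absurd (show y < x from h2) (by rw [h3]; exact lt_irrefl x)
        · exact h3
      · intro hy
        exact ⟨h.le.1 hy, hx1 y hy⟩
  exact ((Set.countable_singleton A).union (Set.countable_range _)).mono this

/-- the root -/
def root : Nd := ⟨∅, Set.isWF_empty⟩

theorem root_le (A : Nd) : root ≤ A := ⟨fun _ h => h.elim, fun _ _ _ h => h.elim⟩

/-- the part of `A` below `x` -/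
def below (A : Nd) (x : ℚ) : Nd := ⟨A.1 ∩ Set.Iio x, A.2.mono inter_subset_left⟩

/-- the part of `A` up to `x` -/
def upto (A : Nd) (x : ℚ) : Nd := ⟨A.1 ∩ Set.Iic x, A.2.mono inter_subset_left⟩

theorem upto_le (A : Nd) (x : ℚ) : upto A x ≤ A :=
  ⟨inter_subset_left, fun b hb _ ha hba => ⟨hb, hba.le.trans ha.2⟩⟩

end Nd

open Nd

/-- no monotone function on the tree without bad points -/
theorem kurepa (μ : Nd → ℝ) (hmono : ∀ A B : Nd, A ≤ B → μ A ≤ μ B)
    (hbad : ∀ A : Nd, ∃ δ : ℝ, 0 < δ ∧ {x : ℚ | Ab A x ∧ μ (ch A x) < μ A + δ}.Finite) : False := by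
  let good : Set Nd := {A | ∀ x ∈ A.1, μ (below A x) < x ∧ (x : ℝ) < μ (upto A x)}
  have hroot : root ∈ good := fun x hx => hx.elim
  have hchain : ∀ c ⊆ good, IsChain (· ≤ ·) c → ∀ y ∈ c, ∃ ub ∈ good, ∀ z ∈ c, z ≤ ub := by
    intro c hc hch y hy
    have hinit : ∀ A ∈ c, ∀ b ∈ ⋃ B ∈ c, B.1, ∀ a ∈ A.1, b < a → b ∈ A.1 := by
      intro A hA b hb a ha hba
      simp only [Set.mem_iUnion, exists_prop] at hb
      obtain ⟨B, hB, hbB⟩ := hb
      rcases hch.total hA hB with h | h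
      · exact h.2 b hbB a ha hba
      · exact h.1 hbB
    have hwf : (⋃ B ∈ c, B.1).IsWF := by
      rw [Set.isWF_iff_no_descending_seq]
      intro f hf hfm
      have h0 := hfm 0
      simp only [Set.mem_iUnion, exists_prop] at h0
      obtain ⟨A, hA, h0A⟩ := h0
      have hall : ∀ n, f n ∈ A.1 := by
        intro n
        rcases Nat.eq_zero_or_pos n with h | h
        · rw [h]; exact h0A
        · exact hinit A hA (f n) (hfm n) (f 0) h0A (hf h)
      exact (Set.isWF_iff_no_descending_seq.1 A.2) f hf hall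
    let V : Nd := ⟨⋃ B ∈ c, B.1, hwf⟩
    have hle : ∀ z ∈ c, z ≤ V := fun z hz =>
      ⟨Set.subset_biUnion_of_mem (u := fun B : Nd => B.1) hz, fun b hb a ha hba => hinit z hz b hb a ha hba⟩
    refine ⟨V, ?_, hle⟩
    intro x hx
    have hx' : x ∈ ⋃ B ∈ c, B.1 := hx
    simp only [Set.mem_iUnion, exists_prop] at hx'
    obtain ⟨A, hA, hxA⟩ := hx'
    have e1 : below V x = below A x := by
      apply Nd.ext
      intro y
      exact ⟨fun h => ⟨(hle A hA).2 y h.1 x hxA h.2, h.2⟩, fun h => ⟨(hle A hA).1 h.1, h.2⟩⟩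
    have e2 : upto V x = upto A x := by
      apply Nd.ext
      intro y
      refine ⟨fun h => ⟨?_, h.2⟩, fun h => ⟨(hle A hA).1 h.1, h.2⟩⟩
      rcases (show y ≤ x from h.2).eq_or_lt with h1 | h1
      · rw [h1]; exact hxA
      · exact (hle A hA).2 y h.1 x hxA h1
    rw [e1, e2]
    exact hc hA x hxA
  obtain ⟨A, hA⟩ := zorn_le_nonempty₀ good hchain root hroot
  have hAg : A ∈ good := hA.2.prop
  obtain ⟨δ, hδ, hfin⟩ := hbad A
  have hinf : {x : ℚ | μ A < x ∧ (x : ℝ) < μ A + δ}.Infinite := by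
    intro hf
    obtain ⟨a, ha1, ha2⟩ := exists_rat_btwn (show μ A < μ A + δ by linarith)
    obtain ⟨b, hb1, hb2⟩ := exists_rat_btwn ha2
    have hsub : Set.Ioo a b ⊆ {x : ℚ | μ A < x ∧ (x : ℝ) < μ A + δ} := by
      intro x hx
      have h1 : (a : ℝ) < x := by exact_mod_cast hx.1
      have h2 : (x : ℝ) < b := by exact_mod_cast hx.2
      exact ⟨ha1.trans h1, h2.trans hb2⟩
    have hab : a < b := by exact_mod_cast hb1
    exact (Set.Ioo_infinite hab) (hf.subset hsub)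
  obtain ⟨x, hx, hxn⟩ := (hinf.sdiff hfin).nonempty
  have hAb : Ab A x := by
    intro a ha
    have h1 := (hAg a ha).2
    have h2 := hmono _ _ (upto_le A a)
    have h3 : (a : ℝ) < x := by linarith [hx.1]
    exact_mod_cast h3
  have hμ : μ A + δ ≤ μ (ch A x) := by
    by_contra hcon
    exact hxn ⟨hAb, not_le.1 hcon⟩
  have hgood : ch A x ∈ good := by
    intro y hy
    rcases hy with rfl | hy
    · have e1 : below (ch A y) y = A := by
        apply Nd.ext
        intro z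
        refine ⟨fun h => ?_, fun h => ⟨Or.inr h, hAb z h⟩⟩
        rcases h.1 with h1 | h1
        · exact absurd (show z < y from h.2) (by rw [h1]; exact lt_irrefl y)
        · exact h1
      have e2 : upto (ch A y) y = ch A y := by
        apply Nd.ext
        intro z
        refine ⟨fun h => h.1, fun h => ⟨h, ?_⟩⟩
        rcases h with h1 | h1
        · exact h1.le
        · exact (hAb z h1).le
      rw [e1, e2]
      exact ⟨hx.1, by linarith [hx.2]⟩
    · have e1 : below (ch A x) y = below A y := by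
        apply Nd.ext
        intro z
        refine ⟨fun h => ⟨?_, h.2⟩, fun h => ⟨Or.inr h.1, h.2⟩⟩
        rcases h.1 with h1 | h1
        · exact absurd (hAb y hy) (not_lt.2 (h1 ▸ (show z < y from h.2)).le)
        · exact h1
      have e2 : upto (ch A x) y = upto A y := by
        apply Nd.ext
        intro z
        refine ⟨fun h => ⟨?_, h.2⟩, fun h => ⟨Or.inr h.1, h.2⟩⟩
        rcases h.1 with h1 | h1
        · exact absurd (hAb y hy) (not_lt.2 (h1 ▸ (show z ≤ y from h.2)))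
        · exact h1
      rw [e1, e2]
      exact hAg y hy
  have h1 := hA.2.le_of_ge hgood (le_ch hAb)
  exact absurd (lt_ch hAb) (not_lt_of_ge h1)

end Pool.Agent.Helper568.Lip
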