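import Pool.Agent.Helper568.Lip1

set_option autoImplicit false
set_option linter.unusedVariables false
set_option linter.unusedSectionVars false

open Set

namespace Pool.Agent.Helper568.Lip

open Nd

variable {E : Type*} [NormedAddCommGroup E] [NormedSpace ℝ E] (ev : Nd → E →ₗ[ℝ] ℝ)
  (hev : ∀ A x, |ev A x| ≤ ‖x‖) (hnorm : ∀ (x : E) (M : ℝ), 0 ≤ M → (∀ A, |ev A x| ≤ M) → ‖x‖ ≤ M)
  (eZ : Nd → E) (h1 : ∀ A B, B ≤ A → ev B (eZ A) = 1) (h0 : ∀ A B, ¬ B ≤ A → ev B (eZ A) = 0)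

/-- extensions of the branch indicator -/
def V (A : Nd) : Set E := {z | ∀ B, ¬ A < B → ev B z = ev B (eZ A)}

theorem eZ_mem (A : Nd) : eZ A ∈ V ev eZ A := fun _ _ => rfl

include h1 h0 in
theorem e_eq_of {A A' B : Nd} (h : A ≤ A') (hB : ¬ A < B) : ev B (eZ A') = ev B (eZ A) := by
  by_cases g1 : B ≤ A'
  · rw [h1 _ _ g1]
    rcases comparable g1 h with h2 | h2
    · rw [h1 _ _ h2]
    · rcases h2.eq_or_lt with h3 | h3
      · rw [h1 _ _ h3.ge]
      · exact absurd h3 hB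
  · rw [h0 _ _ g1, h0 _ _ fun h2 => g1 (h2.trans h)]

include h1 h0 in
theorem V_anti {A A' : Nd} (h : A ≤ A') : V ev eZ A' ⊆ V ev eZ A := by
  intro z hz B hB
  rw [hz B fun g1 => hB (h.trans_lt g1), e_eq_of ev eZ h1 h0 h hB]

theorem V_avg {A : Nd} {z w : E} (hz : z ∈ V ev eZ A) (hw : w ∈ V ev eZ A) :
    (1 / 2 : ℝ) • (z + w) ∈ V ev eZ A := by
  intro B hB
  rw [map_smul, map_add, hz B hB, hw B hB, smul_eq_mul]; ring

variable (N : E → ℝ) (hadd : ∀ x y, N (x + y) ≤ N x + N y)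
  (hsmul : ∀ (a : ℝ) (x : E), N (a • x) = |a| * N x)
  (c C : ℝ) (hc : 0 < c) (hC : 0 < C) (hN : ∀ x, c * ‖x‖ ≤ N x ∧ N x ≤ C * ‖x‖)

/-- the cost function -/
noncomputable def mu (A : Nd) : ℝ := sInf (N '' V ev eZ A)

include hc hN in
theorem N_nonneg (x : E) : 0 ≤ N x :=
  (mul_nonneg hc.le (norm_nonneg x)).trans (hN x).1

include hc hN in
theorem V_bdd (A : Nd) : BddBelow (N '' V ev eZ A) := by
  refine ⟨0, ?_⟩
  rintro _ ⟨z, -, rfl⟩
  exact N_nonneg N c C hc hN z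

include hc hN in
theorem mu_le {A : Nd} {z : E} (hz : z ∈ V ev eZ A) : mu ev eZ N A ≤ N z :=
  csInf_le (V_bdd ev eZ N c C hc hN A) ⟨z, hz, rfl⟩

include h1 h0 hc hN in
theorem mu_mono {A A' : Nd} (h : A ≤ A') : mu ev eZ N A ≤ mu ev eZ N A' :=
  csInf_le_csInf (V_bdd ev eZ N c C hc hN A) ⟨_, eZ A', eZ_mem ev eZ A', rfl⟩
    (Set.image_mono (V_anti ev eZ h1 h0 h))

theorem mu_approx {A : Nd} {t : ℝ} (ht : mu ev eZ N A < t) : ∃ z ∈ V ev eZ A, N z < t := by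
  obtain ⟨b, ⟨z, hz, rfl⟩, hb⟩ := exists_lt_of_csInf_lt (s := N '' V ev eZ A)
    ⟨_, eZ A, eZ_mem ev eZ A, rfl⟩ ht
  exact ⟨z, hz, hb⟩

include hev hnorm h1 h0 in
theorem norm_eZ (A : Nd) : ‖eZ A‖ = 1 := by
  apply le_antisymm
  · apply hnorm _ _ zero_le_one
    intro B
    by_cases h : B ≤ A
    · rw [h1 _ _ h]; simp
    · rw [h0 _ _ h]; simp
  · have := hev A (eZ A)
    rwa [h1 _ _ le_rfl, abs_one] at this

include h1 h0 in
/-- off the wedge of a child the extension is the indicator of the parent -/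
theorem V_child {A : Nd} {x : ℚ} (hx : Ab A x) {z : E} (hz : z ∈ V ev eZ (ch A x)) {B : Nd}
    (hB : ¬ ch A x ≤ B) : ev B z = ev B (eZ A) := by
  rw [hz B fun h => hB h.le]
  by_cases g1 : B ≤ ch A x
  · rcases le_ch_cases hx g1 with h2 | h2
    · rw [h1 _ _ g1, h1 _ _ h2]
    · exact absurd h2.ge hB
  · rw [h0 _ _ g1, h0 _ _ fun h2 => g1 (h2.trans (le_ch hx))]

include hadd hsmul in
theorem N_sum {ι : Type*} (s : Finset ι) (f : ι → E) : N (∑ i ∈ s, f i) ≤ ∑ i ∈ s, N (f i) := by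
  classical
  induction s using Finset.induction_on with
  | empty =>
    have := hsmul 0 0
    rw [zero_smul, abs_zero, zero_mul] at this
    simp [this]
  | insert a s ha ih =>
    rw [Finset.sum_insert ha, Finset.sum_insert ha]
    exact (hadd _ _).trans (by linarith)

include hev hnorm h1 h0 hadd hsmul hc hC hN in
theorem bad_attained {A : Nd}
    (hbad : ∀ δ : ℝ, 0 < δ →
      {x : ℚ | Ab A x ∧ mu ev eZ N (ch A x) < mu ev eZ N A + δ}.Infinite) :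
    N (eZ A) = mu ev eZ N A := by
  apply le_antisymm _ (mu_le ev eZ N c C hc hN (eZ_mem ev eZ A))
  apply le_of_forall_pos_le_add
  intro η hη
  set η' := min η 1 with hη'
  have hη'0 : 0 < η' := lt_min hη one_pos
  have hη'1 : η' ≤ 1 := min_le_right _ _
  set L := (mu ev eZ N A + 1) / c + 1 with hL
  have hmu0 : 0 ≤ mu ev eZ N A := by
    apply Real.sInf_nonneg
    rintro _ ⟨z, -, rfl⟩
    exact N_nonneg N c C hc hN z
  have hL0 : 0 < L := by positivity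
  obtain ⟨k, hk⟩ := exists_nat_gt (C * L / (η' / 2))
  have hk0 : (0 : ℝ) < k := lt_trans (by positivity) hk
  have hkL : C * (L / k) < η' / 2 := by
    rw [div_lt_iff₀ (by positivity)] at hk
    rw [← mul_div_assoc, div_lt_iff₀ hk0]
    linarith
  obtain ⟨t, ht, htk⟩ := (hbad (η' / 2) (by positivity)).exists_subset_card_eq k
  have hex : ∀ x : ℚ, ∃ z : E, x ∈ t → z ∈ V ev eZ (ch A x) ∧ N z < mu ev eZ N A + η' / 2 := by
    intro x
    by_cases hx : x ∈ t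
    · obtain ⟨z, h1, h2⟩ := mu_approx ev eZ N (ht hx).2
      exact ⟨z, fun _ => ⟨h1, h2⟩⟩
    · exact ⟨0, fun h => absurd h hx⟩
  choose z hz using hex
  have hzn : ∀ x ∈ t, ‖z x - eZ A‖ ≤ L := by
    intro x hx
    have g1 := (hN (z x)).1
    have h2 : ‖z x‖ ≤ (mu ev eZ N A + 1) / c := by
      rw [le_div_iff₀ hc]
      have := (hz x hx).2
      nlinarith
    refine (norm_sub_le _ _).trans ?_
    rw [norm_eZ ev hev hnorm eZ h1 h0, hL]
    linarith
  have hsum : ‖∑ x ∈ t, (z x - eZ A)‖ ≤ L := by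
    apply hnorm _ _ hL0.le
    intro B
    rw [map_sum]
    by_cases hx : ∃ x ∈ t, ch A x ≤ B
    · obtain ⟨x, hxt, hxB⟩ := hx
      rw [Finset.sum_eq_single x]
      · exact (hev B _).trans (hzn x hxt)
      · intro y hy hyx
        rw [map_sub, V_child ev eZ h1 h0 (ht hy).1 (hz y hy).1, sub_self]
        intro h
        exact hyx (ch_unique (ht hy).1 (ht hxt).1 h hxB)
      · intro h; exact absurd hxt h
    · push Not at hx
      rw [Finset.sum_eq_zero]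
      · simpa using hL0.le
      · intro x hxt
        rw [map_sub, V_child ev eZ h1 h0 (ht hxt).1 (hz x hxt).1 (hx x hxt), sub_self]
  have e2 : eZ A = (1 / (k : ℝ)) • ∑ x ∈ t, z x + (1 / (k : ℝ)) • (-∑ x ∈ t, (z x - eZ A)) := by
    rw [Finset.sum_sub_distrib, Finset.sum_const, htk, ← smul_add, neg_sub, add_sub_cancel,
      ← Nat.cast_smul_eq_nsmul ℝ, smul_smul, one_div, inv_mul_cancel₀ hk0.ne', one_smul]
  have h3 : N ((1 / (k : ℝ)) • ∑ x ∈ t, z x) ≤ mu ev eZ N A + η' / 2 := by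
    rw [hsmul, abs_of_pos (by positivity)]
    have h4 := N_sum N hadd hsmul t z
    have h5 : ∑ x ∈ t, N (z x) ≤ ∑ x ∈ t, (mu ev eZ N A + η' / 2) :=
      Finset.sum_le_sum fun x hx => (hz x hx).2.le
    rw [Finset.sum_const, htk, nsmul_eq_mul] at h5
    rw [one_div, inv_mul_le_iff₀ hk0]
    linarith
  have h4 : N ((1 / (k : ℝ)) • (-∑ x ∈ t, (z x - eZ A))) ≤ C * (L / k) := by
    refine (hN _).2.trans ?_
    apply mul_le_mul_of_nonneg_left _ hC.le
    rw [norm_smul, norm_neg, Real.norm_eq_abs, abs_of_pos (by positivity), one_div,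
      inv_mul_le_iff₀ hk0, mul_div_cancel₀ _ hk0.ne']
    exact hsum
  have h5 : N (eZ A) ≤ (mu ev eZ N A + η' / 2) + C * (L / k) := by
    calc N (eZ A) = N ((1 / (k : ℝ)) • ∑ x ∈ t, z x +
        (1 / (k : ℝ)) • (-∑ x ∈ t, (z x - eZ A))) := by rw [← e2]
      _ ≤ _ := (hadd _ _).trans (add_le_add h3 h4)
  have h6 : η' ≤ η := min_le_left _ _
  linarith

include hev hnorm h1 h0 hadd hsmul hc hC hN in
theorem no_lur (hlur : ∀ x : E, N x = 1 → ∀ ε : ℝ, 0 < ε → ∃ δ : ℝ, 0 < δ ∧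
      ∀ y : E, N y = 1 → 2 - δ < N (x + y) → N (x - y) < ε) : False := by
  apply kurepa (mu ev eZ N) (fun A B h => mu_mono ev eZ h1 h0 N c C hc hN h)
  intro A
  by_contra hcon
  have hbad : ∀ δ : ℝ, 0 < δ →
      {x : ℚ | Ab A x ∧ mu ev eZ N (ch A x) < mu ev eZ N A + δ}.Infinite :=
    fun δ hδ hf => hcon ⟨δ, hδ, hf⟩
  have ha := bad_attained ev hev hnorm eZ h1 h0 N hadd hsmul c C hc hC hN hbad
  set a := N (eZ A) with haN
  have ha0 : 0 < a := by
    have := (hN (eZ A)).1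
    rw [norm_eZ ev hev hnorm eZ h1 h0, mul_one] at this
    exact hc.trans_le this
  obtain ⟨δ, hδ, hd⟩ := hlur (a⁻¹ • eZ A) (by
    rw [hsmul, abs_of_pos (inv_pos.2 ha0), ← haN, inv_mul_cancel₀ ha0.ne']) (c / (a + 1))
    (by positivity)
  set η := min 1 (δ * a) with hη
  have hη0 : 0 < η := lt_min one_pos (by positivity)
  obtain ⟨x, hx1, hx2⟩ := (hbad η hη0).nonempty
  obtain ⟨z, hz, hzN⟩ := mu_approx ev eZ N hx2
  rw [← ha] at hzN
  set b := N z with hb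
  have hzA : z ∈ V ev eZ A := V_anti ev eZ h1 h0 (le_ch hx1) hz
  have hab : a ≤ b := by rw [ha]; exact mu_le ev eZ N c C hc hN hzA
  have hb0 : 0 < b := ha0.trans_le hab
  have hsumN : 2 * a ≤ N (eZ A + z) := by
    have g1 := mu_le ev eZ N c C hc hN (V_avg ev eZ (eZ_mem ev eZ A) hzA)
    rw [hsmul, ← ha, abs_of_pos (by norm_num)] at g1
    linarith
  have g1 : 2 - δ < N (a⁻¹ • eZ A + b⁻¹ • z) := by
    have e1 : a⁻¹ • (eZ A + z) = (a⁻¹ • eZ A + b⁻¹ • z) + (a⁻¹ - b⁻¹) • z := by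
      module
    have h2 := hadd (a⁻¹ • eZ A + b⁻¹ • z) ((a⁻¹ - b⁻¹) • z)
    rw [← e1, hsmul, hsmul, abs_of_pos (inv_pos.2 ha0), ← hb] at h2
    have hinv : b⁻¹ ≤ a⁻¹ := inv_anti₀ ha0 hab
    rw [abs_of_nonneg (by linarith)] at h2
    have h3 : a⁻¹ * (2 * a) ≤ a⁻¹ * N (eZ A + z) :=
      mul_le_mul_of_nonneg_left hsumN (inv_pos.2 ha0).le
    have h4 : a⁻¹ * (2 * a) = 2 := by field_simp
    have h5 : (a⁻¹ - b⁻¹) * b = (b - a) / a := by field_simp
    have h6 : (b - a) / a < δ := by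
      rw [div_lt_iff₀ ha0]
      have : η ≤ δ * a := min_le_right _ _
      linarith
    rw [h5] at h2
    linarith
  have h2 := hd (b⁻¹ • z) (by
    rw [hsmul, abs_of_pos (inv_pos.2 hb0), ← hb, inv_mul_cancel₀ hb0.ne']) g1
  have h3 := (hN (a⁻¹ • eZ A - b⁻¹ • z)).1
  have h4 : b⁻¹ ≤ ‖a⁻¹ • eZ A - b⁻¹ • z‖ := by
    have h5 := hev (ch A x) (a⁻¹ • eZ A - b⁻¹ • z)
    rw [map_sub, map_smul, map_smul, hz (ch A x) (lt_irrefl _), h1 _ _ le_rfl,
      h0 _ _ (not_le_of_gt (lt_ch hx1)), smul_zero, zero_sub, smul_eq_mul, mul_one, abs_neg,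
      abs_of_pos (inv_pos.2 hb0)] at h5
    exact h5
  have h5 : (a + 1)⁻¹ ≤ b⁻¹ := by
    apply inv_anti₀ hb0
    have : η ≤ 1 := min_le_left _ _
    linarith
  have h6 : c / (a + 1) = c * (a + 1)⁻¹ := div_eq_mul_inv _ _
  have h7 := mul_le_mul_of_nonneg_left (h5.trans h4) hc.le
  linarith

end Pool.Agent.Helper568.Lip
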