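import Pool.Agent.Helper568.Dent18

set_option autoImplicit false
set_option linter.unusedVariables false
set_option linter.unusedSectionVars false

open Set Filter Topology

namespace Pool.Agent.Helper568.Lip

theorem exists_pos_lower {ι : Type*} (G : Finset ι) (f : ι → ℝ) (h : ∀ i ∈ G, 0 < f i) {a : ℝ}
    (ha : 0 < a) : ∃ η : ℝ, 0 < η ∧ η ≤ a ∧ ∀ i ∈ G, η ≤ f i := by
  classical
  induction G using Finset.induction_on with
  | empty => exact ⟨a, ha, le_rfl, fun i hi => absurd hi (Finset.notMem_empty i)⟩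
  | insert i G hi ih =>
    obtain ⟨η, h1, h2, h3⟩ := ih fun j hj => h j (Finset.mem_insert_of_mem hj)
    refine ⟨min η (f i), lt_min h1 (h i (Finset.mem_insert_self i G)),
      (min_le_left _ _).trans h2, fun j hj => ?_⟩
    rcases Finset.mem_insert.1 hj with h4 | h4
    · rw [h4]; exact min_le_right _ _
    · exact (min_le_left _ _).trans (h3 j h4)

section

variable {E : Type*} [NormedAddCommGroup E] [NormedSpace ℝ E] {M : Type*} [NormedAddCommGroup M]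
  (ι : E → M) (hι : ∀ x y, ‖x - y‖ ≤ ‖ι x - ι y‖) {Γ : Type*} (D : Γ → E →L[ℝ] ℝ)
  (hfin : ∀ (x : E) (δ : ℝ), 0 < δ → {γ | δ < |D γ x|}.Finite)
  (W : Finset Γ → ℕ → M)
  (happ : ∀ (x : E) (ε : ℝ), 0 < ε → ∃ δ₁ : ℝ, 0 < δ₁ ∧ ∀ δ : ℝ, 0 < δ → δ < δ₁ →
    ∀ F : Finset Γ, (∀ γ, γ ∈ F ↔ δ < |D γ x|) → ∃ j, ‖ι x - W F j‖ < ε)

/-- the denting family -/
def VV (p : ℚ × ℚ × ℕ × ℚ × ℕ × ℚ) : Set E :=
  {y | ‖y‖ ≤ 1 ∧ ∃ F : Finset Γ, (∀ γ, γ ∈ F ↔ (p.1 : ℝ) < |D γ y|) ∧ F.card = p.2.2.1 ∧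
    (∀ γ, γ ∉ F → |D γ y| ≤ p.1 - p.2.1) ∧ (∀ γ ∈ F, (p.1 : ℝ) + p.2.1 ≤ |D γ y|) ∧
    ∑ γ ∈ F, |D γ y| ≤ p.2.2.2.1 ∧ ‖ι y - W F p.2.2.2.2.1‖ < p.2.2.2.2.2}

include hι hfin happ in
theorem dent_c0 (x : E) (hx : ‖x‖ ≤ 1) (ε : ℝ) (hε : 0 < ε) :
    ∃ p, x ∈ VV ι D W p ∧ x ∉ closure (convexHull ℝ (VV ι D W p \ Metric.ball x ε)) := by
  classical
  obtain ⟨e, he1, he2⟩ := exists_rat_btwn (show (0 : ℝ) < ε / 2 by positivity)
  obtain ⟨δ₁, hδ₁, happ'⟩ := happ x e he1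
  set G := (hfin x (δ₁ / 2) (by positivity)).toFinset with hG
  have hGm : ∀ γ, γ ∈ G ↔ δ₁ / 2 < |D γ x| := fun γ => by rw [hG, Set.Finite.mem_toFinset]; rfl
  -- a level that is not attained
  obtain ⟨δ, hδ1, hδ2, hδ3⟩ : ∃ δ : ℚ, δ₁ / 2 < δ ∧ (δ : ℝ) < δ₁ ∧ ∀ γ ∈ G, |D γ x| ≠ δ := by
    have hinf : {t : ℚ | δ₁ / 2 < t ∧ (t : ℝ) < δ₁}.Infinite := by
      intro hf
      obtain ⟨a, ha1, ha2⟩ := exists_rat_btwn (show δ₁ / 2 < δ₁ by linarith)
      obtain ⟨b, hb1, hb2⟩ := exists_rat_btwn ha2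
      have hsub : Set.Ioo a b ⊆ {t : ℚ | δ₁ / 2 < t ∧ (t : ℝ) < δ₁} := by
        intro t ht
        have h1 : (a : ℝ) < t := by exact_mod_cast ht.1
        have h2 : (t : ℝ) < b := by exact_mod_cast ht.2
        exact ⟨ha1.trans h1, h2.trans hb2⟩
      have hab : a < b := by exact_mod_cast hb1
      exact (Set.Ioo_infinite hab) (hf.subset hsub)
    have hfin2 : {t : ℚ | ∃ γ ∈ G, |D γ x| = t}.Finite := by
      have : {t : ℚ | ∃ γ ∈ G, |D γ x| = t} ⊆ ⋃ γ ∈ G, {t : ℚ | |D γ x| = t} := by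
        rintro t ⟨γ, h1, h2⟩
        simp only [Set.mem_iUnion]
        exact ⟨γ, h1, h2⟩
      refine (Set.Finite.biUnion (Finset.finite_toSet G) fun γ _ => ?_).subset this
      exact Set.Subsingleton.finite fun t ht t' ht' => by
        have : (t : ℝ) = t' := (show |D γ x| = t from ht).symm.trans ht'
        exact_mod_cast this
    obtain ⟨t, ht, htn⟩ := (hinf.sdiff hfin2).nonempty
    exact ⟨t, ht.1, ht.2, fun γ hγ h => htn ⟨γ, hγ, h⟩⟩
  have hδ0 : (0 : ℝ) < δ := by linarith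
  obtain ⟨η₀, hη₀, hη₀a, hη₀b⟩ := exists_pos_lower G (fun γ => abs (|D γ x| - δ))
    (fun γ hγ => abs_pos.2 (sub_ne_zero.2 (hδ3 γ hγ))) (show 0 < (δ : ℝ) - δ₁ / 2 by linarith)
  obtain ⟨η, hη1, hη2⟩ := exists_rat_btwn hη₀
  set F := (hfin x δ hδ0).toFinset with hF
  have hFm : ∀ γ, γ ∈ F ↔ (δ : ℝ) < |D γ x| := fun γ => by rw [hF, Set.Finite.mem_toFinset]; rfl
  have hlow : ∀ γ, γ ∉ F → |D γ x| ≤ δ - η := by
    intro γ hγ
    rw [hFm, not_lt] at hγ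
    by_cases h : γ ∈ G
    · have h1 := hη₀b γ h
      rw [abs_of_nonpos (by linarith)] at h1
      linarith
    · rw [hGm, not_lt] at h
      linarith
  have hhigh : ∀ γ ∈ F, (δ : ℝ) + η ≤ |D γ x| := by
    intro γ hγ
    rw [hFm] at hγ
    have h : γ ∈ G := (hGm γ).2 (hδ1.trans hγ)
    have h1 := hη₀b γ h
    rw [abs_of_pos (by linarith)] at h1
    linarith
  obtain ⟨q, hq1, hq2⟩ := exists_rat_btwn
    (show ∑ γ ∈ F, |D γ x| < ∑ γ ∈ F, |D γ x| + η by linarith)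
  obtain ⟨j, hj⟩ := happ' δ hδ0 hδ2 F hFm
  refine ⟨(δ, η, F.card, q, j, e), ⟨hx, F, hFm, rfl, hlow, hhigh, hq1.le, hj⟩, ?_⟩
  set V := VV ι D W (δ, η, F.card, q, j, e) with hV
  let h : E →L[ℝ] ℝ := ∑ γ ∈ F, (SignType.sign (D γ x) : ℝ) • D γ
  have hhx : h x = ∑ γ ∈ F, |D γ x| := by
    simp only [h, _root_.sum_apply, _root_.smul_apply, smul_eq_mul]
    exact Finset.sum_congr rfl fun γ _ => sign_mul_self _
  have hhy : ∀ y, h y ≤ ∑ γ ∈ F, |D γ y| := by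
    intro y
    simp only [h, _root_.sum_apply, _root_.smul_apply, smul_eq_mul]
    refine Finset.sum_le_sum fun γ _ => ?_
    have h1 : |(SignType.sign (D γ x) : ℝ)| ≤ 1 := by
      rcases lt_trichotomy (D γ x) 0 with h2 | h2 | h2
      · rw [sign_neg h2]; simp
      · rw [h2, sign_zero]; simp
      · rw [sign_pos h2]; simp
    calc (SignType.sign (D γ x) : ℝ) * D γ y ≤ |(SignType.sign (D γ x) : ℝ) * D γ y| :=
          le_abs_self _
      _ = |(SignType.sign (D γ x) : ℝ)| * |D γ y| := abs_mul _ _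
      _ ≤ 1 * |D γ y| := mul_le_mul_of_nonneg_right h1 (abs_nonneg _)
      _ = |D γ y| := one_mul _
  have hsub : V \ Metric.ball x ε ⊆ {y | h y ≤ q - η} := by
    rintro y ⟨⟨hy1, F', hF'm, hF'c, hF'l, hF'h, hF's, hF'w⟩, hyb⟩
    simp only at hF'm hF'c hF'l hF'h hF's hF'w
    by_cases hFF : F' = F
    · exfalso
      apply hyb
      rw [Metric.mem_ball, dist_eq_norm]
      rw [hFF] at hF'w
      have h1 : ‖ι y - ι x‖ ≤ ‖ι y - W F j‖ + ‖ι x - W F j‖ := by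
        have : ι y - ι x = (ι y - W F j) - (ι x - W F j) := by abel
        rw [this]; exact norm_sub_le _ _
      have h2 := hι y x
      have he2' : (e : ℝ) < ε / 2 := he2
      linarith
    · show h y ≤ q - η
      refine (hhy y).trans ?_
      have hcard : (F \ F').card = (F' \ F).card := by
        have h1 := Finset.card_sdiff_add_card_inter F F'
        have h2 := Finset.card_sdiff_add_card_inter F' F
        rw [Finset.inter_comm] at h2
        omega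
      have hpos : 0 < (F \ F').card := by
        rw [Finset.card_pos, Finset.sdiff_nonempty]
        intro hsub
        exact hFF (Finset.eq_of_subset_of_card_le hsub hF'c.le).symm
      have h1 : ∑ γ ∈ F, |D γ y| = ∑ γ ∈ F ∩ F', |D γ y| + ∑ γ ∈ F \ F', |D γ y| := by
        exact (Finset.sum_inter_add_sum_sdiff F F' _).symm
      have h2 : ∑ γ ∈ F', |D γ y| = ∑ γ ∈ F ∩ F', |D γ y| + ∑ γ ∈ F' \ F, |D γ y| := by
        rw [Finset.inter_comm]
        exact (Finset.sum_inter_add_sum_sdiff F' F _).symm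
      have h3 : ∑ γ ∈ F \ F', |D γ y| ≤ (F \ F').card * ((δ : ℝ) - η) := by
        rw [← nsmul_eq_mul]
        exact Finset.sum_le_card_nsmul _ _ _ fun γ hγ => hF'l γ (Finset.mem_sdiff.1 hγ).2
      have h4 : (F' \ F).card * ((δ : ℝ) + η) ≤ ∑ γ ∈ F' \ F, |D γ y| := by
        rw [← nsmul_eq_mul]
        exact Finset.card_nsmul_le_sum _ _ _ fun γ hγ => hF'h γ (Finset.mem_sdiff.1 hγ).1
      rw [← hcard] at h4
      have h5 : (1 : ℝ) ≤ (F \ F').card := by exact_mod_cast hpos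
      nlinarith
  intro hmem
  have hcl : closure (convexHull ℝ (V \ Metric.ball x ε)) ⊆ {y | h y ≤ q - η} := by
    apply closure_minimal
    · exact convexHull_min hsub (convex_halfSpace_le h.toLinearMap.isLinear _)
    · exact isClosed_le h.continuous continuous_const
  have h1 : h x ≤ q - η := hcl hmem
  rw [hhx] at h1
  linarith

end

section

variable {E : Type*} [NormedAddCommGroup E] [NormedSpace ℝ E]

/-- passing from sequences to the epsilon delta form -/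
theorem lur_conv (N : E → ℝ) (hadd : ∀ f g, N (f + g) ≤ N f + N g)
    (hsmul : ∀ (r : ℝ) (f : E), N (r • f) = |r| * N f)
    (hseq : ∀ (f : E) (g : ℕ → E), Tendsto (fun n => N (g n)) atTop (𝓝 (N f)) →
        Tendsto (fun n => N (f + g n)) atTop (𝓝 (2 * N f)) →
        Tendsto (fun n => N (g n - f)) atTop (𝓝 0)) :
    ∀ x : E, N x = 1 → ∀ ε : ℝ, 0 < ε → ∃ δ : ℝ, 0 < δ ∧
        ∀ y : E, N y = 1 → 2 - δ < N (x + y) → N (x - y) < ε := by
  intro x hx ε hε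
  by_contra hcon
  push Not at hcon
  have h1 : ∀ n : ℕ, ∃ y : E, N y = 1 ∧ 2 - 1 / ((n : ℝ) + 1) < N (x + y) ∧ ε ≤ N (x - y) :=
    fun n => hcon _ (by positivity)
  choose y hy1 hy2 hy3 using h1
  have h2 : Tendsto (fun n => N (y n)) atTop (𝓝 (N x)) := by
    rw [hx]
    simp only [hy1]
    exact tendsto_const_nhds
  have h3 : Tendsto (fun n => N (x + y n)) atTop (𝓝 (2 * N x)) := by
    rw [hx, mul_one]
    refine tendsto_of_tendsto_of_tendsto_of_le_of_le (g := fun n : ℕ => 2 - 1 / ((n : ℝ) + 1))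
      (h := fun _ => (2 : ℝ)) ?_ tendsto_const_nhds (fun n => (hy2 n).le) (fun n => ?_)
    · have := (tendsto_one_div_add_atTop_nhds_zero_nat (𝕜 := ℝ)).const_sub 2
      simpa using this
    · have := hadd x (y n)
      rw [hx, hy1 n] at this
      show N (x + y n) ≤ 2
      linarith
  have h4 := hseq x y h2 h3
  have h5 : ∀ n, ε ≤ N (y n - x) := by
    intro n
    have : y n - x = (-1 : ℝ) • (x - y n) := by rw [neg_one_smul, neg_sub]
    rw [this, hsmul, abs_neg, abs_one, one_mul]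
    exact hy3 n
  have h6 := ge_of_tendsto' h4 h5
  linarith

/-- a criterion for LUR renormability by operators into c_0 -/
theorem lur_of_c0 {M : Type*} [NormedAddCommGroup M]
    (ι : E → M) (hι : ∀ x y, ‖x - y‖ ≤ ‖ι x - ι y‖) {Γ : Type*} (D : Γ → E →L[ℝ] ℝ)
    (hfin : ∀ (x : E) (δ : ℝ), 0 < δ → {γ | δ < |D γ x|}.Finite)
    (W : Finset Γ → ℕ → M)
    (happ : ∀ (x : E) (ε : ℝ), 0 < ε → ∃ δ₁ : ℝ, 0 < δ₁ ∧ ∀ δ : ℝ, 0 < δ → δ < δ₁ →
      ∀ F : Finset Γ, (∀ γ, γ ∈ F ↔ δ < |D γ x|) → ∃ j, ‖ι x - W F j‖ < ε) :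
    ∃ N : E → ℝ, (∀ x y : E, N (x + y) ≤ N x + N y) ∧
      (∀ (a : ℝ) (x : E), N (a • x) = |a| * N x) ∧
      (∃ c C : ℝ, 0 < c ∧ 0 < C ∧ ∀ x : E, c * ‖x‖ ≤ N x ∧ N x ≤ C * ‖x‖) ∧
      (∀ x : E, N x = 1 → ∀ ε : ℝ, 0 < ε → ∃ δ : ℝ, 0 < δ ∧
        ∀ y : E, N y = 1 → 2 - δ < N (x + y) → N (x - y) < ε) := by
  obtain ⟨σ, hσ⟩ := exists_surjective_nat (ℚ × ℚ × ℕ × ℚ × ℕ × ℚ)
  obtain ⟨N, h1, h2, h3, h4⟩ := Dent.lur_of_family (fun k => VV ι D W (σ k))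
    (fun k y hy => mem_closedBall_zero_iff.2 hy.1) (by
      intro t ht ε hε
      obtain ⟨p, hp1, hp2⟩ := dent_c0 ι hι D hfin W happ t ht ε hε
      obtain ⟨k, hk⟩ := hσ p
      refine ⟨k, ?_, ?_⟩
      · show t ∈ VV ι D W (σ k)
        rw [hk]; exact hp1
      · show t ∉ closure (convexHull ℝ (VV ι D W (σ k) \ Metric.ball t ε))
        rw [hk]; exact hp2)
  refine ⟨N, h1, h2, ⟨1, 4, one_pos, by norm_num, fun x => ?_⟩, lur_conv N h1 h2 h4⟩
  rw [one_mul]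
  exact h3 x

end

end Pool.Agent.Helper568.Lip
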