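import Pool.Agent.Helper568.Lip2

set_option autoImplicit false
set_option linter.unusedVariables false

open Set Filter Topology BoundedContinuousFunction

namespace Pool.Agent.Helper568.Lip

open Nd

theorem mem_Dn_of_mem {R : Set Nd} {A : Nd} (h : A ∈ R) : A ∈ Dn R := ⟨A, h, le_rfl⟩

theorem Dn_down {R : Set Nd} {A B : Nd} (h : A ≤ B) (hB : B ∈ Dn R) : A ∈ Dn R := by
  obtain ⟨C, hC, hBC⟩ := hB
  exact ⟨C, hC, h.trans hBC⟩

theorem Br_mono {R R' : Set Nd} (h : R ⊆ R') : Br R ⊆ Br R' := by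
  rintro u ⟨x, y, h1, h2, h3, h4, h5, h6, h7⟩
  exact ⟨x, y, h1, h2, h3, h4, h5, Dn_mono h h6, Dn_mono h h7⟩

/-- the values of a finite combination along a branch -/
theorem Sp_step {g : B1} (hg : g ∈ Sp) : ∃ R : Set Nd, R.Finite ∧ (∀ A, A ∉ Dn R → g A = 0) ∧
    ∀ A, A ∉ R → (A, 0) ∉ Br R → ∀ x, Ab A x → ch A x ∈ Dn R → g A = g (ch A x) := by
  induction hg using Submodule.span_induction with
  | mem x hx =>
    obtain ⟨B, rfl⟩ := hx
    refine ⟨{B}, Set.finite_singleton B, fun A hA => e_of_not_le fun h => hA ⟨B, rfl, h⟩, ?_⟩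
    rintro A hA - x hx ⟨C, rfl, hC⟩
    rw [e_of_le hC, e_of_le ((le_ch hx).trans hC)]
  | zero => exact ⟨∅, Set.finite_empty, fun A _ => rfl, fun A _ _ x _ _ => rfl⟩
  | add g1 g2 _ _ h1 h2 =>
    obtain ⟨R1, a1, b1, c1⟩ := h1
    obtain ⟨R2, a2, b2, c2⟩ := h2
    have s1 : R1 ⊆ R1 ∪ R2 := fun _ h => Or.inl h
    have s2 : R2 ⊆ R1 ∪ R2 := fun _ h => Or.inr h
    have key : ∀ (g : B1) (R : Set Nd), R ⊆ R1 ∪ R2 → (∀ A, A ∉ Dn R → g A = 0) →
        (∀ A, A ∉ R → (A, 0) ∉ Br R → ∀ x, Ab A x → ch A x ∈ Dn R → g A = g (ch A x)) →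
        ∀ A, A ∉ R1 ∪ R2 → (A, 0) ∉ Br (R1 ∪ R2) → ∀ x, Ab A x → ch A x ∈ Dn (R1 ∪ R2) →
          g A = g (ch A x) := by
      intro g R hR hb hc A hA hBr x hx hch
      by_cases h : ch A x ∈ Dn R
      · exact hc A (fun h' => hA (hR h')) (fun h' => hBr (Br_mono hR h')) x hx h
      · rw [hb _ h]
        apply hb
        rintro ⟨B, hB, hAB⟩
        have hne : A ≠ B := fun h' => hA (hR (h' ▸ hB))
        obtain ⟨y, hy1, hy2⟩ := exists_ch (lt_of_le_of_ne hAB hne)
        have hxy : x ≠ y := by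
          rintro rfl
          exact h ⟨B, hB, hy2⟩
        exact hBr ⟨x, y, hxy, hx, hy1, Nat.zero_le _, Nat.zero_le _, hch, B, hR hB, hy2⟩
    refine ⟨R1 ∪ R2, a1.union a2, fun A hA => ?_, fun A hA hBr x hx hch => ?_⟩
    · rw [BoundedContinuousFunction.add_apply, b1 A fun h => hA (Dn_mono s1 h),
        b2 A fun h => hA (Dn_mono s2 h), add_zero]
    · rw [BoundedContinuousFunction.add_apply, BoundedContinuousFunction.add_apply,
        key g1 R1 s1 b1 c1 A hA hBr x hx hch, key g2 R2 s2 b2 c2 A hA hBr x hx hch]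
  | smul c g1 _ h1 =>
    obtain ⟨R1, a1, b1, c1⟩ := h1
    refine ⟨R1, a1, fun A hA => ?_, fun A hA hBr x hx hch => ?_⟩
    · rw [BoundedContinuousFunction.smul_apply, b1 A hA, smul_zero]
    · rw [BoundedContinuousFunction.smul_apply, BoundedContinuousFunction.smul_apply,
        c1 A hA hBr x hx hch]

theorem Sp_exact {g : B1} (hg : g ∈ Sp) : {A : Nd | g A ≠ gg g (A, 0)}.Finite := by
  obtain ⟨R, hR, h1, h2⟩ := Sp_step hg
  have hBr : {A : Nd | (A, 0) ∈ Br R}.Finite :=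
    (Br_finite hR).preimage (fun A _ B _ h => (Prod.ext_iff.1 h).1)
  refine (hR.union hBr).subset ?_
  intro A hA
  by_contra hcon
  rw [Set.mem_union, not_or] at hcon
  obtain ⟨hAR, hAB⟩ := hcon
  apply hA
  have hsm : ∀ ε : ℝ, 0 < ε → ∀ B, B ∉ Dn R → |g B| < ε := fun ε hε B hB => by
    rw [h1 B hB, abs_zero]; exact hε
  by_cases hx : ∃ x, Ab A x ∧ ch A x ∈ Dn R
  · obtain ⟨x, hx1, hx2⟩ := hx
    rw [h2 A hAR hAB x hx1 hx2]
    have h3 : ∀ ε : ℝ, 0 < ε → |gg g (A, 0) - g (ch A x)| ≤ ε := fun ε hε =>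
      (gg_near hε (hsm ε hε) hAB).2 x hx1 (Nat.zero_le _) hx2
    have h4 : |gg g (A, 0) - g (ch A x)| ≤ 0 := le_of_forall_pos_le_add fun ε hε => by
      rw [zero_add]; exact h3 ε hε
    have h5 := abs_nonpos_iff.1 h4
    linarith
  · push Not at hx
    have hA0 : A ∉ Dn R := by
      rintro ⟨B, hB, hAB'⟩
      have hne : A ≠ B := fun h' => hAR (h' ▸ hB)
      obtain ⟨y, hy1, hy2⟩ := exists_ch (lt_of_le_of_ne hAB' hne)
      exact hx y hy1 ⟨B, hB, hy2⟩
    rw [h1 A hA0]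
    have h3 : ∀ ε : ℝ, 0 < ε → |gg g (A, 0)| ≤ ε := fun ε hε =>
      (gg_near hε (hsm ε hε) hAB).1 fun x hx' _ => hx x hx'
    have h4 : |gg g (A, 0)| ≤ 0 := le_of_forall_pos_le_add fun ε hε => by
      rw [zero_add]; exact h3 ε hε
    exact (abs_nonpos_iff.1 h4).symm

theorem fst_fin {f : B1} (hf : f ∈ Zs) {δ : ℝ} (hδ : 0 < δ) :
    {A : Nd | δ < |f A - gg f (A, 0)|}.Finite := by
  obtain ⟨g, hg, hd⟩ := Zs_approx hf (show 0 < δ / 4 by positivity)
  refine (Sp_exact hg).subset ?_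
  intro A hA hcon
  have h1 : δ < |f A - gg f (A, 0)| := hA
  have h2 := (f - g).norm_coe_le_norm A
  have h3 := (gg f - gg g).norm_coe_le_norm (A, 0)
  have h4 := gg_lip f g
  rw [BoundedContinuousFunction.sub_apply, Real.norm_eq_abs] at h2 h3
  have h5 : f A - gg f (A, 0) = (f A - g A) - (gg f (A, 0) - gg g (A, 0)) := by
    rw [hcon]; ring
  rw [h5] at h1
  have h6 := abs_sub (f A - g A) (gg f (A, 0) - gg g (A, 0))
  linarith

theorem PP_succ {f : B1} {A : Nd} {m : ℕ} {ε : ℝ} (hε : 0 ≤ ε)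
    (h : ∀ x, Ab A x → Encodable.encode x = m → |f (ch A x)| ≤ ε) :
    |PP f (A, m) - PP f (A, m + 1)| ≤ ε := by
  have h1 : PP f (A, m + 1) ≤ PP f (A, m) := by
    apply PP_le
    intro x
    refine le_trans ?_ (tm_le_PP f (A, m) x)
    unfold tm
    by_cases hx : Ab A x ∧ m + 1 ≤ Encodable.encode x
    · rw [if_pos hx, if_pos ⟨hx.1, (Nat.le_succ m).trans hx.2⟩]
    · rw [if_neg hx]
      split_ifs
      · exact le_max_right _ _
      · exact le_rfl
  have h2 : PP f (A, m) ≤ PP f (A, m + 1) + ε := by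
    apply PP_le
    intro x
    have h3 := tm_le_PP f (A, m + 1) x
    have h4 := PP_nonneg f (A, m + 1)
    unfold tm at h3 ⊢
    by_cases hx : Ab A x ∧ m ≤ Encodable.encode x
    · rw [if_pos hx]
      rcases hx.2.eq_or_lt with h5 | h5
      · have h6 := h x hx.1 h5.symm
        refine max_le ?_ (by linarith)
        linarith [le_abs_self (f (ch A x))]
      · rw [if_pos ⟨hx.1, h5⟩] at h3
        linarith
    · rw [if_neg hx]; linarith
  rw [abs_le]
  constructor <;> linarith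

theorem C0_fin {k : B2} (hk : k ∈ C0) (m : ℕ) {δ : ℝ} (hδ : 0 < δ) :
    {A : Nd | δ ≤ |k (A, m)|}.Finite :=
  (hk δ hδ).preimage (f := fun A : Nd => (A, m)) (fun A _ B _ h => (Prod.ext_iff.1 h).1)

theorem snd_fin {x : B1 × B2} (hx : x ∈ Xs) (m : ℕ) {δ : ℝ} (hδ : 0 < δ) :
    {A : Nd | δ < |x.2 (A, m) - x.2 (A, m + 1)|}.Finite := by
  obtain ⟨hf, hk⟩ := hx
  obtain ⟨R, hR, hRf⟩ := Zs_finite hf (show 0 < δ / 8 by positivity)
  have hex : {A : Nd | ∃ y : ℚ, Encodable.encode y = m ∧ Ab A y ∧ ch A y ∈ Dn R}.Finite := by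
    by_cases hy : ∃ y : ℚ, Encodable.encode y = m
    · obtain ⟨y, hy⟩ := hy
      refine (finite_parents y hR).subset ?_
      rintro A ⟨y', h1, h2, h3⟩
      have : y' = y := Encodable.encode_injective (h1.trans hy.symm)
      subst this
      exact ⟨h2, h3⟩
    · convert Set.finite_empty
      ext A
      simp only [Set.mem_ofPred_eq, Set.mem_empty_iff_false, iff_false]
      rintro ⟨y, h1, -⟩
      exact hy ⟨y, h1⟩
  refine ((hex.union (C0_fin hk m (show 0 < δ / 4 by positivity))).union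
    (C0_fin hk (m + 1) (show 0 < δ / 4 by positivity))).subset ?_
  intro A hA
  by_contra hcon
  simp only [Set.mem_union, not_or] at hcon
  obtain ⟨⟨h1, h2⟩, h3⟩ := hcon
  have h2' : |(x.2 - gg x.1) (A, m)| < δ / 4 := not_le.1 h2
  have h3' : |(x.2 - gg x.1) (A, m + 1)| < δ / 4 := not_le.1 h3
  rw [BoundedContinuousFunction.sub_apply] at h2' h3'
  have hA' : δ < |x.2 (A, m) - x.2 (A, m + 1)| := hA
  have h4 : |PP x.1 (A, m) - PP x.1 (A, m + 1)| ≤ δ / 8 := by
    apply PP_succ (by positivity)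
    intro y hy1 hy2
    exact (hRf _ fun h => h1 ⟨y, hy2, hy1, h⟩).le
  have h5 : |PP (-x.1) (A, m) - PP (-x.1) (A, m + 1)| ≤ δ / 8 := by
    apply PP_succ (by positivity)
    intro y hy1 hy2
    rw [BoundedContinuousFunction.neg_apply, abs_neg]
    exact (hRf _ fun h => h1 ⟨y, hy2, hy1, h⟩).le
  rw [gg_apply] at h2' h3'
  rw [abs_lt] at h2' h3'
  rw [abs_le] at h4 h5
  have : |x.2 (A, m) - x.2 (A, m + 1)| ≤ δ := by
    rw [abs_le]
    constructor <;> linarith [h2'.1, h2'.2, h3'.1, h3'.2, h4.1, h4.2, h5.1, h5.2]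
  linarith

theorem fst_fin' {x : B1 × B2} (hx : x ∈ Xs) {δ : ℝ} (hδ : 0 < δ) :
    {A : Nd | δ < |x.1 A - x.2 (A, 0)|}.Finite := by
  obtain ⟨hf, hk⟩ := hx
  refine ((fst_fin hf (show 0 < δ / 2 by positivity)).union
    (C0_fin hk 0 (show 0 < δ / 2 by positivity))).subset ?_
  intro A hA
  by_contra hcon
  simp only [Set.mem_union, not_or] at hcon
  obtain ⟨h1, h2⟩ := hcon
  have h1' : |x.1 A - gg x.1 (A, 0)| ≤ δ / 2 := not_lt.1 h1
  have h2' : |(x.2 - gg x.1) (A, 0)| < δ / 2 := not_le.1 h2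
  rw [BoundedContinuousFunction.sub_apply] at h2'
  have hA' : δ < |x.1 A - x.2 (A, 0)| := hA
  rw [abs_lt] at h2'
  rw [abs_le] at h1'
  have : |x.1 A - x.2 (A, 0)| ≤ δ := by
    rw [abs_le]
    constructor <;> linarith [h2'.1, h2'.2, h1'.1, h1'.2]
  linarith

/-- the spine coordinates are small far out -/
theorem spine_small {x : B1 × B2} (hx : x ∈ Xs) (A : Nd) {ε : ℝ} (hε : 0 < ε) :
    ∃ M : ℕ, ∀ m, M ≤ m → |x.2 (A, m)| < ε := by
  obtain ⟨hf, hk⟩ := hx
  obtain ⟨R, hR, hRf⟩ := Zs_finite hf (show 0 < ε / 4 by positivity)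
  have h1 := finite_children A hR
  have h2 : {m : ℕ | ε / 2 ≤ |(x.2 - gg x.1) (A, m)|}.Finite :=
    (hk (ε / 2) (by positivity)).preimage (f := fun m : ℕ => (A, m))
      (fun m _ n _ h => (Prod.ext_iff.1 h).2)
  obtain ⟨M1, hM1⟩ := (h1.image (fun x : ℚ => Encodable.encode x)).bddAbove
  obtain ⟨M2, hM2⟩ := h2.bddAbove
  refine ⟨max M1 M2 + 1, fun m hm => ?_⟩
  have hch : ∀ y, Ab A y → m ≤ Encodable.encode y → ch A y ∉ Dn R := by
    intro y hy1 hy2 hy3
    have h3 := hM1 ⟨y, ⟨hy1, hy3⟩, rfl⟩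
    have := le_max_left M1 M2
    simp only at h3
    omega
  have h3 : |(x.2 - gg x.1) (A, m)| < ε / 2 := by
    by_contra hcon
    have h4 := hM2 (show m ∈ {m : ℕ | ε / 2 ≤ |(x.2 - gg x.1) (A, m)|} from not_lt.1 hcon)
    have := le_max_right M1 M2
    omega
  have h4 : PP x.1 (A, m) ≤ ε / 4 := by
    apply PP_le
    intro y
    unfold tm
    split_ifs with hy
    · exact max_le ((le_abs_self _).trans (hRf _ (hch y hy.1 hy.2)).le) (by positivity)
    · positivity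
  have h5 : PP (-x.1) (A, m) ≤ ε / 4 := by
    apply PP_le
    intro y
    unfold tm
    split_ifs with hy
    · refine max_le ((le_abs_self _).trans ?_) (by positivity)
      rw [BoundedContinuousFunction.neg_apply, abs_neg]
      exact (hRf _ (hch y hy.1 hy.2)).le
    · positivity
  have h6 := PP_nonneg x.1 (A, m)
  have h7 := PP_nonneg (-x.1) (A, m)
  rw [BoundedContinuousFunction.sub_apply, gg_apply, abs_lt] at h3
  rw [abs_lt]
  constructor <;> linarith [h3.1, h3.2]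

/-- nodes where the point is visible -/
theorem visible {x : B1 × B2} (hx : x ∈ Xs) (A : Nd) (h0 : x.1 A = x.2 (A, 0))
    (hs : ∀ m, x.2 (A, m) = x.2 (A, m + 1)) : x.1 A = 0 ∧ ∀ m, x.2 (A, m) = 0 := by
  have h1 : ∀ m, x.2 (A, m) = x.2 (A, 0) := by
    intro m
    induction m with
    | zero => rfl
    | succ m ih => rw [← hs m, ih]
  have h2 : x.2 (A, 0) = 0 := by
    by_contra hne
    obtain ⟨M, hM⟩ := spine_small hx A (abs_pos.2 hne)
    have := hM M le_rfl
    rw [h1 M] at this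
    exact lt_irrefl _ this
  exact ⟨h0.trans h2, fun m => (h1 m).trans h2⟩

theorem Sp_plateau {g : B1} (hg : g ∈ Sp) : ∃ P : Set Nd, P.Finite ∧ (∀ A, A ∉ Dn P → g A = 0) ∧
    ∀ A, A ∈ Dn P → ∃ b ∈ P, A ≤ b ∧ ∀ C, A ≤ C → C ≤ b → g C = g A := by
  induction hg using Submodule.span_induction with
  | mem x hx =>
    obtain ⟨B, rfl⟩ := hx
    refine ⟨{B}, Set.finite_singleton B, fun A hA => e_of_not_le fun h => hA ⟨B, rfl, h⟩, ?_⟩
    rintro A ⟨C, rfl, hC⟩
    exact ⟨C, rfl, hC, fun C' h1 h2 => by rw [e_of_le h2, e_of_le hC]⟩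
  | zero => exact ⟨∅, Set.finite_empty, fun A _ => rfl, fun A hA => by
      obtain ⟨B, hB, -⟩ := hA; exact hB.elim⟩
  | add g1 g2 _ _ h1 h2 =>
    obtain ⟨P1, a1, b1, c1⟩ := h1
    obtain ⟨P2, a2, b2, c2⟩ := h2
    set P3 : Set Nd := (fun p : Nd × Nd => p.1 ⊓ p.2) '' (P1 ×ˢ P2) with hP3
    have hP3f : P3.Finite := (a1.prod a2).image _
    have hDn : ∀ A, A ∈ Dn (P1 ∪ P2 ∪ P3) → A ∈ Dn P1 ∨ A ∈ Dn P2 := by
      rintro A ⟨B, (hB | hB) | hB, hAB⟩
      · exact Or.inl ⟨B, hB, hAB⟩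
      · exact Or.inr ⟨B, hB, hAB⟩
      · obtain ⟨⟨p, q⟩, ⟨hp, hq⟩, rfl⟩ := hB
        exact Or.inl ⟨p, hp, hAB.trans inf_le_left⟩
    refine ⟨P1 ∪ P2 ∪ P3, (a1.union a2).union hP3f, fun A hA => ?_, fun A hA => ?_⟩
    · rw [BoundedContinuousFunction.add_apply,
        b1 A fun h => hA (Dn_mono (fun _ h => Or.inl (Or.inl h)) h),
        b2 A fun h => hA (Dn_mono (fun _ h => Or.inl (Or.inr h)) h), add_zero]
    · by_cases hA1 : A ∈ Dn P1
      · obtain ⟨p, hp, hAp, hp'⟩ := c1 A hA1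
        by_cases hA2 : A ∈ Dn P2
        · obtain ⟨q, hq, hAq, hq'⟩ := c2 A hA2
          refine ⟨p ⊓ q, Or.inr ⟨(p, q), ⟨hp, hq⟩, rfl⟩, le_inf hAp hAq, fun C h1 h2 => ?_⟩
          rw [BoundedContinuousFunction.add_apply, BoundedContinuousFunction.add_apply,
            hp' C h1 (h2.trans inf_le_left), hq' C h1 (h2.trans inf_le_right)]
        · refine ⟨p, Or.inl (Or.inl hp), hAp, fun C h1 h2 => ?_⟩
          rw [BoundedContinuousFunction.add_apply, BoundedContinuousFunction.add_apply,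
            hp' C h1 h2, b2 A hA2, b2 C fun h => hA2 (Dn_down h1 h)]
      · have hA2 := (hDn A hA).resolve_left hA1
        obtain ⟨q, hq, hAq, hq'⟩ := c2 A hA2
        refine ⟨q, Or.inl (Or.inr hq), hAq, fun C h1 h2 => ?_⟩
        rw [BoundedContinuousFunction.add_apply, BoundedContinuousFunction.add_apply,
          hq' C h1 h2, b1 A hA1, b1 C fun h => hA1 (Dn_down h1 h)]
  | smul c g1 _ h1 =>
    obtain ⟨P1, a1, b1, c1⟩ := h1
    refine ⟨P1, a1, fun A hA => ?_, fun A hA => ?_⟩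
    · rw [BoundedContinuousFunction.smul_apply, b1 A hA, smul_zero]
    · obtain ⟨p, hp, hAp, hp'⟩ := c1 A hA
      refine ⟨p, hp, hAp, fun C h1 h2 => ?_⟩
      rw [BoundedContinuousFunction.smul_apply, BoundedContinuousFunction.smul_apply, hp' C h1 h2]

/-- combinations of branches below a set -/
def S1 (R : Set Nd) : Submodule ℝ B1 := Submodule.span ℝ (e '' Dn R)

theorem S1_mono {R R' : Set Nd} (h : Dn R ⊆ Dn R') : S1 R ≤ S1 R' :=
  Submodule.span_mono (Set.image_mono h)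

theorem S1_le_Sp (R : Set Nd) : S1 R ≤ Sp :=
  Submodule.span_mono (Set.image_subset_range _ _)

theorem Sp_cut {g : B1} (hg : g ∈ Sp) (b : Nd) :
    ∃ g' ∈ S1 {b}, (∀ A, A ≤ b → g' A = g A) ∧ ∀ A, ¬ A ≤ b → g' A = 0 := by
  induction hg using Submodule.span_induction with
  | mem x hx =>
    obtain ⟨B, rfl⟩ := hx
    refine ⟨e (B ⊓ b), Submodule.subset_span ⟨B ⊓ b, ⟨b, rfl, inf_le_right⟩, rfl⟩,
      fun A hA => ?_, fun A hA => e_of_not_le fun h => hA (h.trans inf_le_right)⟩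
    by_cases h : A ≤ B
    · rw [e_of_le h, e_of_le (le_inf h hA)]
    · rw [e_of_not_le h, e_of_not_le fun h' => h (h'.trans inf_le_left)]
  | zero => exact ⟨0, Submodule.zero_mem _, fun A _ => rfl, fun A _ => rfl⟩
  | add g1 g2 _ _ h1 h2 =>
    obtain ⟨g1', a1, b1, c1⟩ := h1
    obtain ⟨g2', a2, b2, c2⟩ := h2
    refine ⟨g1' + g2', Submodule.add_mem _ a1 a2, fun A hA => ?_, fun A hA => ?_⟩
    · rw [BoundedContinuousFunction.add_apply, BoundedContinuousFunction.add_apply, b1 A hA,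
        b2 A hA]
    · rw [BoundedContinuousFunction.add_apply, c1 A hA, c2 A hA, add_zero]
  | smul c g1 _ h1 =>
    obtain ⟨g1', a1, b1, c1⟩ := h1
    refine ⟨c • g1', Submodule.smul_mem _ c a1, fun A hA => ?_, fun A hA => ?_⟩
    · rw [BoundedContinuousFunction.smul_apply, BoundedContinuousFunction.smul_apply, b1 A hA]
    · rw [BoundedContinuousFunction.smul_apply, c1 A hA, smul_zero]

theorem Sp_cut_fin {g : B1} (hg : g ∈ Sp) {R : Set Nd} (hR : R.Finite) :
    ∃ g' ∈ S1 R, (∀ A, A ∈ Dn R → g' A = g A) ∧ ∀ A, A ∉ Dn R → g' A = 0 := by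
  induction R, hR using Set.Finite.induction_on with
  | empty => exact ⟨0, Submodule.zero_mem _, fun A hA => by
      obtain ⟨B, hB, -⟩ := hA; exact hB.elim, fun A _ => rfl⟩
  | insert hb hR ih =>
    rename_i b R
    obtain ⟨g1, a1, b1, c1⟩ := ih
    obtain ⟨g2, a2, b2, c2⟩ := Sp_cut hg b
    obtain ⟨g3, a3, b3, c3⟩ := Sp_cut (S1_le_Sp _ a1) b
    have s1 : Dn R ⊆ Dn (insert b R) := Dn_mono (Set.subset_insert _ _)
    have s2 : Dn {b} ⊆ Dn (insert b R) := Dn_mono fun x hx => Or.inl hx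
    refine ⟨g1 + g2 - g3, Submodule.sub_mem _ (Submodule.add_mem _ (S1_mono s1 a1)
      (S1_mono s2 a2)) (S1_mono s2 a3), fun A hA => ?_, fun A hA => ?_⟩
    · rw [BoundedContinuousFunction.sub_apply, BoundedContinuousFunction.add_apply]
      by_cases h : A ≤ b
      · rw [b2 A h, b3 A h]; ring
      · rw [c2 A h, c3 A h]
        have : A ∈ Dn R := by
          obtain ⟨B, hB | hB, hAB⟩ := hA
          · exact absurd (hB ▸ hAB) h
          · exact ⟨B, hB, hAB⟩
        rw [b1 A this]; ring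
    · have h1 : A ∉ Dn R := fun h => hA (s1 h)
      have h2 : ¬ A ≤ b := fun h => hA ⟨b, Or.inl rfl, h⟩
      rw [BoundedContinuousFunction.sub_apply, BoundedContinuousFunction.add_apply, c1 A h1,
        c2 A h2, c3 A h2]; ring

/-- approximation of the first coordinate by visible branches -/
theorem Zs_visible {f : B1} (hf : f ∈ Zs) {ε : ℝ} (hε : 0 < ε) :
    ∃ R : Set Nd, R.Finite ∧ (∀ b ∈ R, f b ≠ 0) ∧ ∃ g ∈ S1 R, ‖f - g‖ < ε := by
  obtain ⟨g, hg, hd⟩ := Zs_approx hf (show 0 < ε / 3 by positivity)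
  obtain ⟨P, hP, h1, h2⟩ := Sp_plateau hg
  set R : Set Nd := {b ∈ P | ε / 3 ≤ |g b|} with hR
  have hRf : R.Finite := hP.subset fun b hb => hb.1
  obtain ⟨g', a1, b1, c1⟩ := Sp_cut_fin hg hRf
  refine ⟨R, hRf, fun b hb h0 => ?_, g', a1, ?_⟩
  · have h3 := (f - g).norm_coe_le_norm b
    rw [BoundedContinuousFunction.sub_apply, h0, zero_sub, norm_neg, Real.norm_eq_abs] at h3
    linarith [hb.2]
  · have h3 : ‖g - g'‖ ≤ ε / 3 := by
      rw [BoundedContinuousFunction.norm_le (by positivity)]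
      intro A
      rw [BoundedContinuousFunction.sub_apply, Real.norm_eq_abs]
      by_cases hA : A ∈ Dn R
      · rw [b1 A hA, sub_self, abs_zero]; positivity
      · rw [c1 A hA, sub_zero]
        by_contra hcon
        push Not at hcon
        have hA' : A ∈ Dn P := by
          by_contra h
          rw [h1 A h, abs_zero] at hcon
          linarith
        obtain ⟨b, hb, hAb, hb'⟩ := h2 A hA'
        exact hA ⟨b, ⟨hb, by rw [hb' b hAb le_rfl]; exact hcon.le⟩, hAb⟩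
    have h4 : f - g' = (f - g) + (g - g') := by abel
    rw [h4]
    exact (norm_add_le _ _).trans_lt (by linarith)

open Classical in
/-- point masses -/
noncomputable def sg (u : Nd × ℕ) : B2 :=
  BoundedContinuousFunction.ofNormedAddCommGroupDiscrete (fun v => if v = u then (1 : ℝ) else 0) 1
    (fun v => by split_ifs <;> simp)

open Classical in
theorem sg_apply (u v : Nd × ℕ) : sg u v = if v = u then (1 : ℝ) else 0 := rfl

/-- finite combinations of point masses over a down set -/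
def S2 (R : Set Nd) : Submodule ℝ B2 := Submodule.span ℝ (sg '' {u | u.1 ∈ Dn R})

theorem S2_mono {R R' : Set Nd} (h : Dn R ⊆ Dn R') : S2 R ≤ S2 R' :=
  Submodule.span_mono (Set.image_mono fun _ hu => h hu)

theorem C0_cut {k : B2} (hk : k ∈ C0) {ε : ℝ} (hε : 0 < ε) :
    ∃ K : Set (Nd × ℕ), K.Finite ∧ (∀ u ∈ K, k u ≠ 0) ∧ ∀ R : Set Nd, (∀ u ∈ K, u.1 ∈ Dn R) →
      ∃ k' ∈ S2 R, ‖k - k'‖ ≤ ε := by
  classical
  set K := {u | ε ≤ |k u|} with hK
  have hKf : K.Finite := hk ε hε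
  refine ⟨K, hKf, fun u hu h0 => ?_, fun R hR => ?_⟩
  · have : ε ≤ |k u| := hu
    rw [h0, abs_zero] at this
    linarith
  · refine ⟨∑ u ∈ hKf.toFinset, k u • sg u, ?_, ?_⟩
    · apply Submodule.sum_mem
      intro u hu
      apply Submodule.smul_mem
      exact Submodule.subset_span ⟨u, hR u (hKf.mem_toFinset.1 hu), rfl⟩
    · rw [BoundedContinuousFunction.norm_le hε.le]
      intro v
      have h1 : (∑ u ∈ hKf.toFinset, k u • sg u) v = if v ∈ K then k v else 0 := by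
        rw [BoundedContinuousFunction.coe_sum, Finset.sum_apply]
        have h2 : ∀ u ∈ hKf.toFinset, (k u • sg u) v = if v = u then k v else 0 := by
          intro u _
          rw [BoundedContinuousFunction.smul_apply, sg_apply, smul_eq_mul]
          split_ifs with h
          · rw [h, mul_one]
          · rw [mul_zero]
        rw [Finset.sum_congr rfl h2, Finset.sum_ite_eq]
        simp only [Set.Finite.mem_toFinset]
      rw [BoundedContinuousFunction.sub_apply, h1, Real.norm_eq_abs]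
      split_ifs with h
      · rw [sub_self, abs_zero]; exact hε.le
      · rw [sub_zero]; exact (not_le.1 h).le

/-- approximation of a point of the twisted space by visible data -/
theorem Xs_visible {x : B1 × B2} (hx : x ∈ Xs) {ε : ℝ} (hε : 0 < ε) :
    ∃ R : Set Nd, R.Finite ∧ (∀ A ∈ R, x.1 A ≠ x.2 (A, 0) ∨ ∃ m, x.2 (A, m) ≠ x.2 (A, m + 1)) ∧
      ∀ R' : Set Nd, R ⊆ R' → ∃ f ∈ S1 R', ∃ k ∈ S2 R', ‖x - (f, gg f + k)‖ < ε := by
  obtain ⟨hf, hk⟩ := id hx
  have hε8 : 0 < ε / 8 := by positivity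
  obtain ⟨R1, hR1, h1, f, hf1, hf2⟩ := Zs_visible hf hε8
  obtain ⟨K, hK, h2, h3⟩ := C0_cut hk hε8
  have hvis : ∀ A, (x.1 A ≠ 0 ∨ ∃ m, x.2 (A, m) ≠ 0) →
      (x.1 A ≠ x.2 (A, 0) ∨ ∃ m, x.2 (A, m) ≠ x.2 (A, m + 1)) := by
    intro A h
    by_contra hcon
    push Not at hcon
    obtain ⟨h4, h5⟩ := visible hx A hcon.1 hcon.2
    rcases h with h | ⟨m, h⟩
    · exact h h4
    · exact h (h5 m)
  have hKex : ∀ u : Nd × ℕ, ∃ A, u ∈ K → u.1 ≤ A ∧
      (x.1 A ≠ x.2 (A, 0) ∨ ∃ m, x.2 (A, m) ≠ x.2 (A, m + 1)) := by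
    intro u
    by_cases hu : u ∈ K
    · have h4 := h2 u hu
      rw [BoundedContinuousFunction.sub_apply] at h4
      by_cases h5 : x.2 u = 0
      · have h6 : gg x.1 u ≠ 0 := by
          intro h; apply h4; rw [h5, h, sub_zero]
        have h7 : ∃ y, Ab u.1 y ∧ x.1 (ch u.1 y) ≠ 0 := by
          by_contra hcon
          push Not at hcon
          apply h6
          have h8 : ∀ φ : B1, (∀ y, Ab u.1 y → φ (ch u.1 y) = 0) → PP φ u = 0 := by
            intro φ hφ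
            apply le_antisymm _ (PP_nonneg φ u)
            apply PP_le
            intro y
            unfold tm
            split_ifs with hy
            · rw [hφ y hy.1, max_self]
            · exact le_rfl
          rw [gg_apply, h8 _ hcon, h8 (-x.1) fun y hy => by
            rw [BoundedContinuousFunction.neg_apply, hcon y hy, neg_zero], sub_zero]
        obtain ⟨y, hy1, hy2⟩ := h7
        exact ⟨ch u.1 y, fun _ => ⟨le_ch hy1, hvis _ (Or.inl hy2)⟩⟩
      · exact ⟨u.1, fun _ => ⟨le_rfl, hvis _ (Or.inr ⟨u.2, h5⟩)⟩⟩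
    · exact ⟨u.1, fun h => absurd h hu⟩
  choose a ha using hKex
  refine ⟨R1 ∪ a '' K, hR1.union (hK.image a), ?_, fun R' hR' => ?_⟩
  · rintro A (hA | ⟨u, hu, rfl⟩)
    · exact hvis A (Or.inl (h1 A hA))
    · exact (ha u hu).2
  · obtain ⟨k', hk1, hk2⟩ := h3 R' fun u hu =>
      ⟨a u, hR' (Or.inr ⟨u, hu, rfl⟩), (ha u hu).1⟩
    refine ⟨f, S1_mono (Dn_mono fun b hb => hR' (Or.inl hb)) hf1, k', hk1, ?_⟩
    have e1 : x - (f, gg f + k') = (x.1 - f, (x.2 - gg x.1 - k') + (gg x.1 - gg f)) := by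
      refine Prod.ext rfl ?_
      show x.2 - (gg f + k') = (x.2 - gg x.1 - k') + (gg x.1 - gg f)
      abel
    rw [e1, Prod.norm_def]
    have h4 := gg_lip x.1 f
    have h5 := norm_add_le (x.2 - gg x.1 - k') (gg x.1 - gg f)
    refine max_lt (by simp only; linarith) ?_
    simp only
    linarith

theorem countable_Dn {R : Set Nd} (hR : R.Finite) : (Dn R).Countable := by
  have : Dn R = ⋃ B ∈ R, {A | A ≤ B} := by
    ext A
    simp only [Set.mem_iUnion, exists_prop]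
    exact Iff.rfl
  rw [this]
  exact hR.countable.biUnion fun B _ => countable_Iic B

theorem sep_seq {R : Set Nd} (hR : R.Finite) :
    ∃ w : ℕ → B1 × B2, ∀ f ∈ S1 R, ∀ k ∈ S2 R, ∀ ε : ℝ, 0 < ε → ∃ j, ‖(f, gg f + k) - w j‖ < ε := by
  have hD := countable_Dn hR
  have s1 : TopologicalSpace.IsSeparable (S1 R : Set B1) :=
    ((hD.image e).isSeparable).span
  have s2 : TopologicalSpace.IsSeparable (S2 R : Set B2) := by
    apply TopologicalSpace.IsSeparable.span
    apply Set.Countable.isSeparable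
    apply Set.Countable.image
    have : {u : Nd × ℕ | u.1 ∈ Dn R} = Dn R ×ˢ (Set.univ : Set ℕ) := by
      ext u; simp
    rw [this]
    exact hD.prod Set.countable_univ
  have s3 : TopologicalSpace.IsSeparable ((S1 R : Set B1) ×ˢ (S2 R : Set B2)) := s1.prod s2
  have hcont : Continuous fun p : B1 × B2 => (p.1, gg p.1 + p.2) :=
    continuous_fst.prodMk ((gg_continuous.comp continuous_fst).add continuous_snd)
  obtain ⟨c, hc1, hc2⟩ := s3.image hcont
  have hne : c.Nonempty := by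
    rw [← closure_nonempty_iff]
    exact ⟨_, hc2 ⟨(0, 0), ⟨Submodule.zero_mem _, Submodule.zero_mem _⟩, rfl⟩⟩
  obtain ⟨w, hw⟩ := hc1.exists_eq_range hne
  refine ⟨w, fun f hf k hk ε hε => ?_⟩
  obtain ⟨v, hv, hd⟩ := Metric.mem_closure_iff.1 (hc2 ⟨(f, k), ⟨hf, hk⟩, rfl⟩) ε hε
  rw [hw] at hv
  obtain ⟨j, rfl⟩ := hv
  refine ⟨j, ?_⟩
  rw [dist_eq_norm] at hd
  exact hd

end Pool.Agent.Helper568.Lip
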