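import Pool.Agent.Helper568.Lip3
import Pool.Agent.Helper568.Lip4
import Pool.Agent.Helper568.Lip5

set_option autoImplicit false
set_option linter.unusedVariables false

open Set Filter Topology BoundedContinuousFunction

namespace Pool.Agent.Helper568.Lip

open Nd

/-- the LUR renormable space -/
def XT : Type := ↥Xs
noncomputable instance : NormedAddCommGroup XT := inferInstanceAs (NormedAddCommGroup ↥Xs)
noncomputable instance : NormedSpace ℝ XT := inferInstanceAs (NormedSpace ℝ ↥Xs)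
instance : CompleteSpace XT := Xs_closed.completeSpace_coe

/-- the tree space -/
def ZT : Type := ↥Zs
noncomputable instance : NormedAddCommGroup ZT := inferInstanceAs (NormedAddCommGroup ↥Zs)
noncomputable instance : NormedSpace ℝ ZT := inferInstanceAs (NormedSpace ℝ ↥Zs)
instance : CompleteSpace ZT := Zs_closed.completeSpace_coe

/-- the sequence space -/
def CT : Type := ↥C0
noncomputable instance : NormedAddCommGroup CT := inferInstanceAs (NormedAddCommGroup ↥C0)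
noncomputable instance : NormedSpace ℝ CT := inferInstanceAs (NormedSpace ℝ ↥C0)
instance : CompleteSpace CT := C0_closed.completeSpace_coe

/-- inclusion -/
noncomputable def incX : XT →L[ℝ] B1 × B2 := Xs.subtypeL

theorem incX_norm (x : XT) : ‖incX x‖ = ‖x‖ := rfl

theorem incX_mem (x : XT) : incX x ∈ Xs := Subtype.mem (show ↥Xs from x)

/-- first evaluation -/
noncomputable def ev1 (A : Nd) : XT →L[ℝ] ℝ :=
  (BoundedContinuousFunction.evalCLM ℝ A).comp ((ContinuousLinearMap.fst ℝ B1 B2).comp incX)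

/-- second evaluation -/
noncomputable def ev2 (u : Nd × ℕ) : XT →L[ℝ] ℝ :=
  (BoundedContinuousFunction.evalCLM ℝ u).comp ((ContinuousLinearMap.snd ℝ B1 B2).comp incX)

theorem ev1_apply (A : Nd) (x : XT) : ev1 A x = (incX x).1 A := rfl

theorem ev2_apply (u : Nd × ℕ) (x : XT) : ev2 u x = (incX x).2 u := rfl

theorem abs_ev1 (A : Nd) (x : XT) : |ev1 A x| ≤ ‖x‖ := by
  rw [ev1_apply]
  exact ((incX x).1.norm_coe_le_norm A).trans (norm_fst_le (incX x))

theorem abs_ev2 (u : Nd × ℕ) (x : XT) : |ev2 u x| ≤ ‖x‖ := by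
  rw [ev2_apply]
  exact ((incX x).2.norm_coe_le_norm u).trans (norm_snd_le (incX x))

/-- the coordinate functionals -/
noncomputable def DD : Nd × ℕ → XT →L[ℝ] ℝ
  | (A, 0) => ev1 A - ev2 (A, 0)
  | (A, m + 1) => ((1 / 2 : ℝ) ^ (m + 1)) • (ev2 (A, m) - ev2 (A, m + 1))

theorem DD_zero (A : Nd) (x : XT) : DD (A, 0) x = (incX x).1 A - (incX x).2 (A, 0) := rfl

theorem DD_succ (A : Nd) (m : ℕ) (x : XT) : DD (A, m + 1) x =
    (1 / 2 : ℝ) ^ (m + 1) * ((incX x).2 (A, m) - (incX x).2 (A, m + 1)) := rfl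

theorem DD_bound (A : Nd) (m : ℕ) (x : XT) : |DD (A, m) x| ≤ (1 / 2 : ℝ) ^ m * (2 * ‖x‖) := by
  cases m with
  | zero =>
    rw [DD_zero, pow_zero, one_mul, ← ev1_apply, ← ev2_apply]
    have := abs_sub (ev1 A x) (ev2 (A, 0) x)
    linarith [abs_ev1 A x, abs_ev2 (A, 0) x]
  | succ m =>
    rw [DD_succ, ← ev2_apply, ← ev2_apply, abs_mul, abs_of_pos (by positivity)]
    apply mul_le_mul_of_nonneg_left _ (by positivity)
    have := abs_sub (ev2 (A, m) x) (ev2 (A, m + 1) x)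
    linarith [abs_ev2 (A, m) x, abs_ev2 (A, m + 1) x]

theorem DD_fin (x : XT) (δ : ℝ) (hδ : 0 < δ) : {γ | δ < |DD γ x|}.Finite := by
  obtain ⟨M, hM⟩ := exists_pow_lt_of_lt_one (show 0 < δ / (2 * ‖x‖ + 1) by positivity)
    (show (1 / 2 : ℝ) < 1 by norm_num)
  have hsmall : ∀ A m, M ≤ m → |DD (A, m) x| ≤ δ := by
    intro A m hm
    refine (DD_bound A m x).trans ?_
    have h1 : (1 / 2 : ℝ) ^ m ≤ (1 / 2 : ℝ) ^ M :=
      pow_le_pow_of_le_one (by norm_num) (by norm_num) hm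
    have h2 : (1 / 2 : ℝ) ^ m * (2 * ‖x‖) ≤ δ / (2 * ‖x‖ + 1) * (2 * ‖x‖) :=
      mul_le_mul_of_nonneg_right (h1.trans hM.le) (by positivity)
    have h3 : δ / (2 * ‖x‖ + 1) * (2 * ‖x‖) ≤ δ := by
      rw [div_mul_eq_mul_div, div_le_iff₀ (by positivity)]
      nlinarith [norm_nonneg x]
    linarith
  have hcol : ∀ m, {A | δ < |DD (A, m) x|}.Finite := by
    intro m
    cases m with
    | zero =>
      exact fst_fin' (incX_mem x) hδ
    | succ m =>
      refine (snd_fin (incX_mem x) m hδ).subset ?_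
      intro A hA
      have h1 : δ < |DD (A, m + 1) x| := hA
      rw [DD_succ, abs_mul, abs_of_pos (by positivity)] at h1
      have h2 : (1 / 2 : ℝ) ^ (m + 1) ≤ 1 := pow_le_one₀ (by norm_num) (by norm_num)
      have h3 := mul_le_mul_of_nonneg_right h2 (abs_nonneg
        ((incX x).2 (A, m) - (incX x).2 (A, m + 1)))
      show δ < |(incX x).2 (A, m) - (incX x).2 (A, m + 1)|
      linarith
  have hsub : {γ : Nd × ℕ | δ < |DD γ x|} ⊆
      ⋃ m ∈ Set.Iio M, (fun A : Nd => (A, m)) '' {A | δ < |DD (A, m) x|} := by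
    rintro ⟨A, m⟩ h
    simp only [Set.mem_iUnion]
    refine ⟨m, ?_, A, h, rfl⟩
    by_contra hcon
    exact absurd (hsmall A m (not_lt.1 hcon)) (not_le.2 h)
  exact ((Set.finite_Iio M).biUnion fun m _ => (hcol m).image _).subset hsub

theorem XT_lur : ∃ N : XT → ℝ, (∀ x y : XT, N (x + y) ≤ N x + N y) ∧
      (∀ (a : ℝ) (x : XT), N (a • x) = |a| * N x) ∧
      (∃ c C : ℝ, 0 < c ∧ 0 < C ∧ ∀ x : XT, c * ‖x‖ ≤ N x ∧ N x ≤ C * ‖x‖) ∧
      (∀ x : XT, N x = 1 → ∀ ε : ℝ, 0 < ε → ∃ δ : ℝ, 0 < δ ∧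
        ∀ y : XT, N y = 1 → 2 - δ < N (x + y) → N (x - y) < ε) := by
  classical
  have hW : ∀ F : Finset (Nd × ℕ), ∃ w : ℕ → B1 × B2, ∀ f ∈ S1 (Prod.fst '' (F : Set (Nd × ℕ))),
      ∀ k ∈ S2 (Prod.fst '' (F : Set (Nd × ℕ))), ∀ ε : ℝ, 0 < ε →
        ∃ j, ‖(f, gg f + k) - w j‖ < ε := fun F => sep_seq ((Finset.finite_toSet F).image _)
  choose W hW using hW
  refine lur_of_c0 (fun x => incX x) (fun x y => ?_) DD DD_fin W ?_
  · rw [← map_sub, incX_norm]
  · intro x ε hε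
    obtain ⟨R, hR, h1, h2⟩ := Xs_visible (incX_mem x) (show 0 < ε / 2 by positivity)
    have hvis : ∀ A : Nd, ∃ m, A ∈ R → DD (A, m) x ≠ 0 := by
      intro A
      by_cases hA : A ∈ R
      · rcases h1 A hA with h | ⟨m, h⟩
        · exact ⟨0, fun _ => by rw [DD_zero]; exact sub_ne_zero.2 h⟩
        · exact ⟨m + 1, fun _ => by
            rw [DD_succ]
            exact mul_ne_zero (by positivity) (sub_ne_zero.2 h)⟩
      · exact ⟨0, fun h => absurd h hA⟩
    choose m hm using hvis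
    obtain ⟨η, hη1, -, hη2⟩ := exists_pos_lower hR.toFinset (fun A => |DD (A, m A) x|)
      (fun A hA => abs_pos.2 (hm A (hR.mem_toFinset.1 hA))) one_pos
    refine ⟨η, hη1, fun δ hδ1 hδ2 F hF => ?_⟩
    have hsub : R ⊆ Prod.fst '' (F : Set (Nd × ℕ)) := by
      intro A hA
      refine ⟨(A, m A), ?_, rfl⟩
      rw [Finset.mem_coe, hF]
      exact hδ2.trans_le (hη2 A (hR.mem_toFinset.2 hA))
    obtain ⟨f, hf, k, hk, hd⟩ := h2 _ hsub
    obtain ⟨j, hj⟩ := hW F f hf k hk (ε / 2) (by positivity)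
    refine ⟨j, ?_⟩
    have e1 : incX x - W F j = (incX x - (f, gg f + k)) + ((f, gg f + k) - W F j) := by abel
    rw [e1]
    exact (norm_add_le _ _).trans_lt (by linarith)

/-- evaluation on the tree space -/
noncomputable def evZ (A : Nd) : ZT →ₗ[ℝ] ℝ :=
  ((BoundedContinuousFunction.evalCLM ℝ A : B1 →L[ℝ] ℝ).comp Zs.subtypeL).toLinearMap

theorem evZ_apply (A : Nd) (x : ZT) : evZ A x = (show ↥Zs from x).1 A := rfl

theorem ZT_no_lur (N : ZT → ℝ) (hadd : ∀ x y, N (x + y) ≤ N x + N y)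
    (hsmul : ∀ (a : ℝ) (x : ZT), N (a • x) = |a| * N x)
    (c C : ℝ) (hc : 0 < c) (hC : 0 < C) (hN : ∀ x, c * ‖x‖ ≤ N x ∧ N x ≤ C * ‖x‖)
    (hlur : ∀ x : ZT, N x = 1 → ∀ ε : ℝ, 0 < ε → ∃ δ : ℝ, 0 < δ ∧
      ∀ y : ZT, N y = 1 → 2 - δ < N (x + y) → N (x - y) < ε) : False := by
  refine no_lur evZ ?_ ?_ (fun A => (⟨e A, e_mem A⟩ : ↥Zs)) ?_ ?_ N hadd hsmul c C hc hC hN hlur
  · intro A x
    exact (show ↥Zs from x).1.norm_coe_le_norm A
  · intro x M hM h
    exact (BoundedContinuousFunction.norm_le hM).2 h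
  · intro A B h
    exact e_of_le h
  · intro A B h
    exact e_of_not_le h

/-- the bijection between the two spaces -/
noncomputable def eqv : XT ≃ (ZT × CT) := equiv

theorem eqv_norm (x y : XT) : ‖eqv x - eqv y‖ ≤ 3 * ‖x - y‖ := equiv_norm x y

theorem eqv_symm_norm (x y : ZT × CT) : ‖eqv.symm x - eqv.symm y‖ ≤ 3 * ‖x - y‖ :=
  equiv_symm_norm x y

theorem YT_no_lur (N : ZT × CT → ℝ) (hadd : ∀ x y, N (x + y) ≤ N x + N y)
    (hsmul : ∀ (a : ℝ) (x : ZT × CT), N (a • x) = |a| * N x)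
    (c C : ℝ) (hc : 0 < c) (hC : 0 < C) (hN : ∀ x, c * ‖x‖ ≤ N x ∧ N x ≤ C * ‖x‖)
    (hlur : ∀ x : ZT × CT, N x = 1 → ∀ ε : ℝ, 0 < ε → ∃ δ : ℝ, 0 < δ ∧
      ∀ y : ZT × CT, N y = 1 → 2 - δ < N (x + y) → N (x - y) < ε) : False := by
  have e1 : ∀ x y : ZT, ((x + y, 0) : ZT × CT) = (x, 0) + (y, 0) := fun x y => by
    rw [Prod.mk_add_mk, add_zero]
  have e2 : ∀ x y : ZT, ((x - y, 0) : ZT × CT) = (x, 0) - (y, 0) := fun x y => by
    rw [Prod.mk_sub_mk, sub_zero]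
  have e3 : ∀ x : ZT, ‖((x, 0) : ZT × CT)‖ = ‖x‖ := fun x => by
    rw [Prod.norm_def]
    simp
  refine ZT_no_lur (fun x => N (x, 0)) ?_ ?_ c C hc hC ?_ ?_
  · intro x y
    simp only [e1]
    exact hadd _ _
  · intro a x
    have : ((a • x, 0) : ZT × CT) = a • (x, 0) := by
      rw [Prod.smul_mk, smul_zero]
    simp only [this]
    exact hsmul _ _
  · intro x
    have := hN (x, 0)
    rw [e3] at this
    exact this
  · intro x hx ε hε
    obtain ⟨δ, h1, h2⟩ := hlur (x, 0) hx ε hε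
    refine ⟨δ, h1, fun y hy hxy => ?_⟩
    simp only [e1, e2] at hxy ⊢
    exact h2 (y, 0) hy hxy

end Pool.Agent.Helper568.Lip
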