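import Pool.Agent.Helper568.Space

set_option autoImplicit false
open Filter Topology

namespace Pool.Agent.Helper568.Space

/-- no norm one projection of finite rank has two independent vectors in its range -/
theorem no_norm_one_projection (u : E →L[ℝ] E)
    (hfin : FiniteDimensional ℝ (LinearMap.range (u : E →ₗ[ℝ] E)))
    (hproj : u.comp u = u) (hnorm : ‖u‖ ≤ 1) {g g' : E}
    (hlin : ∀ c d : ℝ, c • u g + d • u g' = 0 → c = 0 ∧ d = 0) : False := by
  -- a nonzero vector of the kernel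
  have hker : LinearMap.ker (u : E →ₗ[ℝ] E) ≠ ⊥ := by
    intro h
    have hinj : Function.Injective (u : E →ₗ[ℝ] E) := LinearMap.ker_eq_bot.1 h
    apply not_finiteDimensional_E
    exact FiniteDimensional.of_injective ((u : E →ₗ[ℝ] E).rangeRestrict)
      (LinearMap.injective_rangeRestrict_iff _ |>.2 hinj)
  obtain ⟨h, hh, hne⟩ := Submodule.exists_mem_ne_zero_of_ne_bot hker
  apply hne
  have huh : u h = 0 := by simpa using hh
  have huu : ∀ x, u (u x) = u x := fun x => by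
    have := congrArg (fun f : E →L[ℝ] E => f x) hproj
    simpa using this
  apply noStrong (g := u g) (g' := u g') hlin
  intro c d s
  have h1 : u (c • u g + d • u g' + s • h) = c • u g + d • u g' := by
    simp only [map_add, map_smul, huu, huh, smul_zero, add_zero]
  calc ‖c • u g + d • u g'‖ = ‖u (c • u g + d • u g' + s • h)‖ := by rw [h1]
    _ ≤ ‖u‖ * ‖c • u g + d • u g' + s • h‖ := u.le_opNorm _
    _ ≤ 1 * ‖c • u g + d • u g' + s • h‖ := mul_le_mul_of_nonneg_right hnorm (norm_nonneg _)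
    _ = _ := one_mul _

/-- vectors close to `J e_0`, `J e_1` are linearly independent -/
lemma indep_of_near {x y : E} (hx : ‖x - J (ev 0)‖ ≤ 1 / 4) (hy : ‖y - J (ev 1)‖ ≤ 1 / 4) :
    ∀ c d : ℝ, c • x + d • y = 0 → c = 0 ∧ d = 0 := by
  intro c d hcd
  -- look at the first two coordinates in `ℓ²`
  have hcoord : ∀ (e : E) (i : ℕ), |(fstE e : ℕ → ℝ) i| ≤ ‖e‖ := by
    intro e i
    have h1 : ‖(fstE e : ℕ → ℝ) i‖ ≤ ‖fstE e‖ := lp.norm_apply_le_norm (by norm_num) (fstE e) i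
    rw [Real.norm_eq_abs] at h1
    exact h1.trans (norm_fstE_le e)
  have hx0 := (hcoord (x - J (ev 0)) 0).trans hx
  have hx1 := (hcoord (x - J (ev 0)) 1).trans hx
  have hy0 := (hcoord (y - J (ev 1)) 0).trans hy
  have hy1 := (hcoord (y - J (ev 1)) 1).trans hy
  have e1 : ∀ (u : E) (k i : ℕ), (fstE (u - J (ev k)) : ℕ → ℝ) i
      = (fstE u : ℕ → ℝ) i - (ev k : ℕ → ℝ) i := by
    intro u k i
    rw [map_sub, fstE_J]; rfl
  rw [e1, ev_coord] at hx0 hx1 hy0 hy1
  norm_num at hx0 hx1 hy0 hy1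
  have hc0 : c * (fstE x : ℕ → ℝ) 0 + d * (fstE y : ℕ → ℝ) 0 = 0 := by
    have := congrArg (fun e : E => (fstE e : ℕ → ℝ) 0) hcd
    simp only [map_add, map_smul, map_zero] at this
    exact this
  have hc1 : c * (fstE x : ℕ → ℝ) 1 + d * (fstE y : ℕ → ℝ) 1 = 0 := by
    have := congrArg (fun e : E => (fstE e : ℕ → ℝ) 1) hcd
    simp only [map_add, map_smul, map_zero] at this
    exact this
  set x0 := (fstE x : ℕ → ℝ) 0
  set x1 := (fstE x : ℕ → ℝ) 1
  set y0 := (fstE y : ℕ → ℝ) 0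
  set y1 := (fstE y : ℕ → ℝ) 1
  rw [abs_le] at hx0 hx1 hy0 hy1
  have hdet : x0 * y1 - x1 * y0 ≠ 0 := by
    have h1 : 9 / 16 ≤ x0 * y1 := by nlinarith
    have h2 : x1 * y0 ≤ 1 / 16 := by nlinarith
    intro h0; linarith
  have hc : c * (x0 * y1 - x1 * y0) = 0 := by linear_combination y1 * hc0 - y0 * hc1
  have hd : d * (x0 * y1 - x1 * y0) = 0 := by linear_combination x0 * hc1 - x1 * hc0
  exact ⟨(mul_eq_zero.1 hc).resolve_right hdet, (mul_eq_zero.1 hd).resolve_right hdet⟩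

/-- `E` fails the projection approximation property with constant 1. -/
theorem not_onePAP (h : ∀ Q : Set E, IsCompact Q → ∀ ε : ℝ, 0 < ε →
    ∃ u : E →L[ℝ] E, FiniteDimensional ℝ (LinearMap.range (u : E →ₗ[ℝ] E)) ∧
      u.comp u = u ∧ ‖u‖ ≤ 1 ∧ ∀ x ∈ Q, ‖u x - x‖ ≤ ε) : False := by
  obtain ⟨u, hfin, hproj, hnorm, hu⟩ := h {J (ev 0), J (ev 1)}
    ((Set.finite_singleton _).insert _).isCompact (1 / 4) (by norm_num)
  exact no_norm_one_projection u hfin hproj hnorm
    (indep_of_near (hu _ (by simp)) (hu _ (by simp)))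

lemma P_comp_P (n : ℕ) : (P n).comp (P n) = P n := by
  apply ContinuousLinearMap.ext
  intro e
  rw [ContinuousLinearMap.comp_apply, P_P le_rfl e]

/-- `E` has the projection approximation property for all constants above 1. -/
theorem exists_P_near {δ : ℝ} (hδ : 0 < δ) {Q : Set E} (hQ : IsCompact Q) {ε : ℝ} (hε : 0 < ε) :
    ∃ n, ‖P n‖ ≤ 1 + δ ∧ ∀ x ∈ Q, ‖P n x - x‖ ≤ ε := by
  have hP3 : ∀ n, ‖P n‖ ≤ 3 := by
    intro n
    refine (norm_P_le n).trans ?_
    have : (1 / 2 : ℝ) ^ n ≤ 1 := pow_le_one₀ (by norm_num) (by norm_num)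
    linarith
  obtain ⟨s, hs, hcover⟩ := hQ.totallyBounded |> Metric.totallyBounded_iff.1 |> fun h => h (ε / 8) (by positivity)
  have h1 : ∀ᶠ n in atTop, ∀ y ∈ s, ‖P n y - y‖ < ε / 2 := by
    rw [Filter.eventually_all_finite hs]
    intro y _
    have := (tendsto_P y).sub_const y
    rw [sub_self] at this
    have h2 := this.norm
    rw [norm_zero] at h2
    exact h2.eventually (eventually_lt_nhds (by positivity))
  have h2 : ∀ᶠ n : ℕ in atTop, 2 * (1 / 2 : ℝ) ^ n < δ := by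
    have := (tendsto_pow_atTop_nhds_zero_of_lt_one (r := (1 / 2 : ℝ))
      (by norm_num) (by norm_num)).const_mul 2
    rw [mul_zero] at this
    exact this.eventually (eventually_lt_nhds hδ)
  obtain ⟨n, hn1, hn2⟩ := (h1.and h2).exists
  refine ⟨n, (norm_P_le n).trans (by linarith), ?_⟩
  intro x hx
  obtain ⟨y, hy, hxy⟩ := Set.mem_iUnion₂.1 (hcover hx)
  rw [mem_ball_iff_norm] at hxy
  have e : P n x - x = P n (x - y) + (P n y - y) - (x - y) := by
    rw [map_sub]; abel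
  rw [e]
  calc ‖P n (x - y) + (P n y - y) - (x - y)‖ ≤ ‖P n (x - y)‖ + ‖P n y - y‖ + ‖x - y‖ :=
        (norm_sub_le _ _).trans (add_le_add_left (norm_add_le _ _) _)
    _ ≤ 3 * ‖x - y‖ + ‖P n y - y‖ + ‖x - y‖ := by
        have := (P n).le_of_opNorm_le (hP3 n) (x - y)
        linarith
    _ ≤ ε := by
        have := hn1 y hy
        linarith

end Pool.Agent.Helper568.Space
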