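import Pool.Agent.Helper568.Cusp

set_option autoImplicit false
open Filter Topology
open scoped RealInnerProductSpace ENNReal

namespace Pool.Agent.Helper568.Seq

open Pool.Agent.Helper568.Cusp

/-- the real Hilbert space of square summable sequences -/
abbrev H : Type := lp (fun _ : ℕ => ℝ) 2

/-- the points `t_j = 2^{-(j+1)}` -/
noncomputable def t (j : ℕ) : ℝ := (1 / 2 : ℝ) ^ (j + 1)

lemma t_pos (j : ℕ) : 0 < t j := by unfold t; positivity

lemma t_le_half (j : ℕ) : t j ≤ 1 / 2 := by
  unfold t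
  calc (1 / 2 : ℝ) ^ (j + 1) ≤ (1 / 2 : ℝ) ^ 1 :=
        pow_le_pow_of_le_one (by norm_num) (by norm_num) (by omega)
    _ = 1 / 2 := by norm_num

lemma t_succ (j : ℕ) : t (j + 1) = t j / 2 := by
  unfold t; rw [pow_succ]; ring

lemma tendsto_t : Tendsto t atTop (𝓝 0) := by
  unfold t
  have := tendsto_pow_atTop_nhds_zero_of_lt_one (r := (1 / 2 : ℝ)) (by norm_num) (by norm_num)
  exact (tendsto_add_atTop_iff_nat 1).2 this

lemma mem_a (j : ℕ) : Memℓp (fun i : ℕ => (t j) ^ i) 2 := by
  apply memℓp_gen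
  have h : (2 : ℝ≥0∞).toReal = 2 := by norm_num
  rw [h]
  have h1 : (fun i : ℕ => ‖(t j) ^ i‖ ^ (2 : ℝ)) = fun i => ((t j) ^ 2) ^ i := by
    ext i
    rw [Real.norm_eq_abs, abs_of_nonneg (by have := t_pos j; positivity)]
    rw [Real.rpow_two]; ring
  rw [h1]
  apply summable_geometric_of_lt_one (by positivity)
  have := t_le_half j; have := t_pos j
  nlinarith

/-- the vector `(t_j^i)_i` -/
noncomputable def a (j : ℕ) : H := ⟨fun i => (t j) ^ i, mem_a j⟩

lemma a_apply (j i : ℕ) : (a j : ℕ → ℝ) i = t j ^ i := rfl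

lemma inner_a (j : ℕ) (x : H) : ⟪a j, x⟫ = ∑' i, x i * t j ^ i := by
  rw [lp.inner_eq_tsum]
  rfl

lemma norm_a_le (j : ℕ) : ‖a j‖ ≤ 2 := by
  have h1 : ‖a j‖ ^ 2 = ∑' i, ((t j) ^ 2) ^ i := by
    rw [← real_inner_self_eq_norm_sq, inner_a]
    congr 1; ext i; rw [a_apply]; ring
  have ht := t_le_half j
  have ht' := t_pos j
  rw [tsum_geometric_of_lt_one (by positivity) (by nlinarith)] at h1
  have h2 : (1 - t j ^ 2)⁻¹ ≤ 4 := by
    rw [inv_le_comm₀ (by nlinarith) (by norm_num)]
    nlinarith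
  nlinarith [norm_nonneg (a j)]

/-- the functional `b_j = t_j a_j` -/
noncomputable def b (j : ℕ) : H →ₗ[ℝ] ℝ where
  toFun x := t j * ⟪a j, x⟫
  map_add' x y := by rw [inner_add_right]; ring
  map_smul' c x := by rw [inner_smul_right]; simp; ring

lemma b_apply (j : ℕ) (x : H) : b j x = t j * ⟪a j, x⟫ := rfl

/-- the bound `β_j = 2^{-j}` -/
noncomputable def β (j : ℕ) : ℝ := (1 / 2 : ℝ) ^ j

lemma β_nonneg (j : ℕ) : 0 ≤ β j := by unfold β; positivity
lemma β_le_one (j : ℕ) : β j ≤ 1 := by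
  unfold β; exact pow_le_one₀ (by norm_num) (by norm_num)
lemma summable_β : Summable β := by
  unfold β; exact summable_geometric_of_lt_one (by norm_num) (by norm_num)

lemma b_bound (j : ℕ) (x : H) : |b j x| ≤ β j * ‖x‖ := by
  rw [b_apply, abs_mul, abs_of_pos (t_pos j)]
  have h1 : |⟪a j, x⟫| ≤ ‖a j‖ * ‖x‖ := abs_real_inner_le_norm _ _
  have h2 := norm_a_le j
  have h3 : |⟪a j, x⟫| ≤ 2 * ‖x‖ := h1.trans (mul_le_mul_of_nonneg_right h2 (norm_nonneg _))
  have : t j * 2 = β j := by unfold t β; rw [pow_succ]; ring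
  calc t j * |⟪a j, x⟫| ≤ t j * (2 * ‖x‖) := mul_le_mul_of_nonneg_left h3 (t_pos j).le
    _ = β j * ‖x‖ := by rw [← this]; ring

/-- leading coefficient -/
lemma tendsto_lead {x : H} {m : ℕ} (hx : ∀ i, i < m → x i = 0) :
    Tendsto (fun j => ⟪a j, x⟫ / t j ^ m) atTop (𝓝 (x m)) := by
  have h1 : ∀ j, ⟪a j, x⟫ / t j ^ m = ∑' i, if i < m then 0 else x i * t j ^ (i - m) := by
    intro j
    rw [inner_a, ← tsum_div_const]
    congr 1; ext i
    split_ifs with h
    · rw [hx i h]; simp
    · have hne := (t_pos j).ne'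
      have : t j ^ i = t j ^ (i - m) * t j ^ m := by rw [← pow_add]; congr 1; omega
      rw [this]; field_simp
  simp_rw [h1]
  have h2 : x m = ∑' i, if i = m then x m else 0 := by rw [tsum_ite_eq]
  rw [h2]
  apply tendsto_tsum_of_dominated_convergence (bound := fun i => ‖x‖ * 2 ^ m * (1 / 2 : ℝ) ^ i)
  · exact (summable_geometric_of_lt_one (by norm_num) (by norm_num)).mul_left _
  · intro i
    by_cases h : i < m
    · simp only [h, if_true, (show i ≠ m by omega), if_false]
      exact tendsto_const_nhds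
    · by_cases h' : i = m
      · subst h'
        simp
      · simp only [h, if_false, h']
        have h3 : Tendsto (fun j => x i * t j ^ (i - m)) atTop (𝓝 (x i * 0 ^ (i - m))) :=
          (tendsto_t.pow (i - m)).const_mul _
        rwa [zero_pow (by omega), mul_zero] at h3
  · filter_upwards with j i
    split_ifs with h
    · simp only [norm_zero]; positivity
    · rw [norm_mul]
      have h3 : ‖x i‖ ≤ ‖x‖ := lp.norm_apply_le_norm (by norm_num) x i
      have h4 : ‖t j ^ (i - m)‖ ≤ 2 ^ m * (1 / 2 : ℝ) ^ i := by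
        rw [norm_pow, Real.norm_eq_abs, abs_of_pos (t_pos j)]
        calc t j ^ (i - m) ≤ (1 / 2) ^ (i - m) :=
              pow_le_pow_left₀ (t_pos j).le (t_le_half j) _
          _ = 2 ^ m * (1 / 2 : ℝ) ^ i := by
              have : (1 / 2 : ℝ) ^ i = (1 / 2) ^ (i - m) * (1 / 2) ^ m := by
                rw [← pow_add]; congr 1; omega
              rw [this, one_div_pow (2 : ℝ) m]; field_simp
      calc ‖x i‖ * ‖t j ^ (i - m)‖ ≤ ‖x‖ * (2 ^ m * (1 / 2 : ℝ) ^ i) :=
            mul_le_mul h3 h4 (norm_nonneg _) (norm_nonneg _)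
        _ = _ := by ring

lemma exists_lead {x : H} (hx : x ≠ 0) : ∃ m, x m ≠ 0 ∧ ∀ i, i < m → x i = 0 := by
  classical
  have : ∃ m, x m ≠ 0 := by
    by_contra hcon
    push Not at hcon
    apply hx
    ext i
    simpa using hcon i
  refine ⟨Nat.find this, Nat.find_spec this, ?_⟩
  intro i hi
  by_contra h
  exact Nat.find_min this hi h

lemma eventually_ne_zero {x : H} (hx : x ≠ 0) : ∀ᶠ j in atTop, ⟪a j, x⟫ ≠ 0 := by
  obtain ⟨m, hm, hm'⟩ := exists_lead hx
  have h1 := tendsto_lead hm'
  have h2 := h1.eventually_ne hm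
  filter_upwards [h2] with j hj h0
  apply hj
  rw [h0, zero_div]

/-- a positive null sequence which is eventually strictly decreasing has only finitely many
repeated values -/
lemma eventually_inj {r : ℕ → ℝ} (h0 : Tendsto r atTop (𝓝 0)) (hpos : ∀ᶠ j in atTop, 0 < r j)
    (hdec : ∀ᶠ j in atTop, r (j + 1) < r j) : ∀ᶠ j in atTop, ∀ i, i ≠ j → r i ≠ r j := by
  obtain ⟨J, hJ⟩ := eventually_atTop.1 (hpos.and hdec)
  have hanti : ∀ i j, J ≤ i → i < j → r j < r i := by
    intro i j hi hij
    induction j, hij using Nat.le_induction with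
    | base => exact (hJ i hi).2
    | succ k hk ih => exact ((hJ k (by omega)).2).trans ih
  have h1 : ∀ᶠ j in atTop, ∀ i ∈ Finset.range J, r i ≠ r j := by
    rw [Filter.eventually_all_finset]
    intro i _
    by_cases hri : r i ≤ 0
    · filter_upwards [hpos] with j hj
      intro h; rw [h] at hri; linarith
    · push Not at hri
      have := h0.eventually (eventually_lt_nhds hri)
      filter_upwards [this] with j hj
      exact hj.ne'
  filter_upwards [h1, eventually_ge_atTop J] with j hj hjJ i hij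
  by_cases hiJ : i < J
  · exact hj i (Finset.mem_range.2 hiJ)
  · push Not at hiJ
    rcases lt_or_gt_of_ne hij with h | h
    · exact (hanti i j hiJ h).ne'
    · exact (hanti j i hjJ h).ne

/-- separation of the ratios -/
lemma ratio_sep {g1 g2 : H} {m n : ℕ} (hmn : m < n) (h1 : ∀ i, i < m → g1 i = 0)
    (h1' : g1 m ≠ 0) (h2 : ∀ i, i < n → g2 i = 0) (h2' : g2 n ≠ 0) :
    ∀ᶠ j in atTop, ∀ i, i ≠ j → |⟪a i, g2⟫ / ⟪a i, g1⟫| ≠ |⟪a j, g2⟫ / ⟪a j, g1⟫| := by
  set σ : ℕ → ℝ := fun j => |(⟪a j, g2⟫ / t j ^ n) / (⟪a j, g1⟫ / t j ^ m)| with hσ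
  have hσlim : Tendsto σ atTop (𝓝 |g2 n / g1 m|) :=
    ((tendsto_lead h2).div (tendsto_lead h1) h1').abs
  have hpos : 0 < |g2 n / g1 m| := abs_pos.2 (div_ne_zero h2' h1')
  set σ0 := |g2 n / g1 m| with hσ0
  have hr : ∀ j, |⟪a j, g2⟫ / ⟪a j, g1⟫| = t j ^ (n - m) * σ j := by
    intro j
    have ht := t_pos j
    have e : t j ^ n = t j ^ (n - m) * t j ^ m := by rw [← pow_add]; congr 1; omega
    rw [hσ]
    simp only
    rw [← abs_of_pos (pow_pos ht (n - m)), ← abs_mul]
    congr 1
    rw [e]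
    by_cases hz : ⟪a j, g1⟫ = 0
    · rw [hz]; simp
    · field_simp
  apply eventually_inj
  · simp_rw [hr]
    have := (tendsto_t.pow (n - m)).mul hσlim
    rwa [zero_pow (by omega), zero_mul] at this
  · simp_rw [hr]
    filter_upwards [hσlim.eventually (eventually_gt_nhds hpos)] with j hj
    have := t_pos j
    positivity
  · simp_rw [hr]
    have e1 : ∀ᶠ j in atTop, (3 / 4) * σ0 < σ j :=
      hσlim.eventually (eventually_gt_nhds (by linarith))
    have e2 : ∀ᶠ j in atTop, σ (j + 1) < (5 / 4) * σ0 :=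
      ((tendsto_add_atTop_iff_nat 1).2 hσlim).eventually (eventually_lt_nhds (by linarith))
    filter_upwards [e1, e2] with j hj1 hj2
    have ht := t_pos j
    have hpw : 0 < t j ^ (n - m) := by positivity
    have e3 : t (j + 1) ^ (n - m) ≤ t j ^ (n - m) * (1 / 2) := by
      rw [t_succ, div_eq_mul_one_div, mul_pow]
      apply mul_le_mul_of_nonneg_left _ hpw.le
      calc (1 / 2 : ℝ) ^ (n - m) ≤ (1 / 2 : ℝ) ^ 1 :=
            pow_le_pow_of_le_one (by norm_num) (by norm_num) (by omega)
        _ = 1 / 2 := by norm_num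
    have e4 : 0 ≤ σ (j + 1) := abs_nonneg _
    calc t (j + 1) ^ (n - m) * σ (j + 1) ≤ (t j ^ (n - m) * (1 / 2)) * σ (j + 1) :=
          mul_le_mul_of_nonneg_right e3 e4
      _ = t j ^ (n - m) * (σ (j + 1) / 2) := by ring
      _ < t j ^ (n - m) * σ j := by
          apply mul_lt_mul_of_pos_left _ hpw
          linarith

/-- The key theorem: no nonzero vector `h` is orthogonal to a two dimensional subspace. -/
theorem key {g g' h : H} (hlin : ∀ c d : ℝ, c • g + d • g' = 0 → c = 0 ∧ d = 0)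
    (hmin : ∀ c d s : ℝ, FF b (c • g + d • g') ≤ FF b (c • g + d • g' + s • h)) : h = 0 := by
  classical
  -- wlog the leading index of g is at most the one of g'
  have hex : ∃ m, g m ≠ 0 ∨ g' m ≠ 0 := by
    by_contra hcon
    push Not at hcon
    have : (1 : ℝ) • g + (0 : ℝ) • g' = 0 := by
      ext i; simp [(hcon i).1]
    have := (hlin 1 0 this).1
    norm_num at this
  wlog hm : g (Nat.find hex) ≠ 0 generalizing g g'
  · have hspec := Nat.find_spec hex
    have hg' : g' (Nat.find hex) ≠ 0 := by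
      rcases hspec with h1 | h1
      · exact absurd h1 hm
      · exact h1
    have hex' : ∃ m, g' m ≠ 0 ∨ g m ≠ 0 := by
      obtain ⟨m, hm1⟩ := hex; exact ⟨m, hm1.symm⟩
    have hfind : Nat.find hex' = Nat.find hex := by
      congr 1; ext m; exact or_comm
    apply this (g := g') (g' := g) _ _ hex'
    · rw [hfind]; exact hg'
    · intro c d hcd
      have := hlin d c (by rw [add_comm]; exact hcd)
      exact ⟨this.2, this.1⟩
    · intro c d s
      have := hmin d c s
      rw [add_comm (c • g')]; exact this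
  set m := Nat.find hex with hmdef
  have hbefore : ∀ i, i < m → g i = 0 ∧ g' i = 0 := by
    intro i hi
    have := Nat.find_min hex hi
    push Not at this
    exact this
  set q := g' m / g m with hq
  set g2 : H := g' - q • g with hg2
  have hg2ne : g2 ≠ 0 := by
    intro h0
    have : (-q) • g + (1 : ℝ) • g' = 0 := by
      rw [neg_smul, one_smul, ← h0, hg2]; abel
    have := (hlin _ _ this).2
    norm_num at this
  obtain ⟨n, hn, hn'⟩ := exists_lead hg2ne
  have hg2m : ∀ i, i ≤ m → g2 i = 0 := by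
    intro i hi
    have e0 : g2 i = g' i - q * g i := rfl
    rcases lt_or_eq_of_le hi with h1 | h1
    · rw [e0, (hbefore i h1).1, (hbefore i h1).2]; ring
    · rw [e0, h1, hq]; field_simp; ring
  have hmn : m < n := by
    by_contra hcon
    push Not at hcon
    exact hn (hg2m n hcon)
  have hsep := ratio_sep hmn (fun i hi => (hbefore i hi).1) hm hn' hn
  have hgne : g ≠ 0 := by
    intro h0; apply hm; rw [h0]; rfl
  have hev := eventually_ne_zero hgne
  have hall : ∀ᶠ j in atTop, ⟪a j, h⟫ = 0 := by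
    filter_upwards [hsep, hev] with j hj hjg
    set z : H := ⟪a j, g⟫ • g2 - ⟪a j, g2⟫ • g with hz
    have hz_mem : z = (-(⟪a j, g⟫ * q) - ⟪a j, g2⟫) • g + ⟪a j, g⟫ • g' := by
      rw [hz, hg2]; module
    have hzne : z ≠ 0 := by
      intro h0
      rw [hz_mem] at h0
      exact hjg (hlin _ _ h0).2
    have hbz : ∀ i, ⟪a i, z⟫ = ⟪a j, g⟫ * ⟪a i, g2⟫ - ⟪a j, g2⟫ * ⟪a i, g⟫ := by
      intro i
      rw [hz, inner_sub_right, inner_smul_right, inner_smul_right]
    have hb : b j h = 0 := by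
      apply cusp summable_β β_nonneg β_le_one b_bound hzne (y := g) j
      · intro s _
        by_cases hzero : z + s • g = 0
        · exfalso
          rw [hz_mem] at hzero
          have : (-(⟪a j, g⟫ * q) - ⟪a j, g2⟫ + s) • g + ⟪a j, g⟫ • g' = 0 := by
            rw [← hzero]; module
          exact hjg (hlin _ _ this).2
        · apply grad_eq_zero summable_β β_nonneg β_le_one b_bound hzero
          intro s'
          have := hmin (-(⟪a j, g⟫ * q) - ⟪a j, g2⟫ + s) ⟪a j, g⟫ s'
          have e : (-(⟪a j, g⟫ * q) - ⟪a j, g2⟫ + s) • g + ⟪a j, g⟫ • g' = z + s • g := by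
            rw [hz_mem]; module
          rw [e] at this
          exact this
      · rw [b_apply, hbz]; ring
      · rw [b_apply]; exact mul_ne_zero (t_pos j).ne' hjg
      · intro i hij hbi
        rw [b_apply] at hbi ⊢
        by_contra hne
        have hig : ⟪a i, g⟫ ≠ 0 := fun h0 => hne (by rw [h0, mul_zero])
        have hz0 : ⟪a i, z⟫ = 0 := by
          rcases mul_eq_zero.1 hbi with h0 | h0
          · exact absurd h0 (t_pos i).ne'
          · exact h0
        rw [hbz] at hz0
        apply hj i hij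
        congr 1
        rw [div_eq_div_iff hig hjg]
        linarith
    rw [b_apply] at hb
    rcases mul_eq_zero.1 hb with h0 | h0
    · exact absurd h0 (t_pos j).ne'
    · exact h0
  by_contra hne
  obtain ⟨j, hj1, hj2⟩ := (hall.and (eventually_ne_zero hne)).exists
  exact hj2 hj1

end Pool.Agent.Helper568.Seq
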