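import Pool.Agent.Helper568.Space
import Pool.Agent.Helper568.Basis

set_option autoImplicit false
open Filter Topology

namespace Pool.Agent.Helper568.Series

open Pool.Agent.Helper568.Space Pool.Agent.Helper568.Seq

/-- triangular enumeration of the pairs `(n,i)` with `i ≤ n` -/
def st : ℕ → ℕ × ℕ
  | 0 => (0, 0)
  | k + 1 => if (st k).2 < (st k).1 then ((st k).1, (st k).2 + 1) else ((st k).1 + 1, 0)

lemma st_inv (k : ℕ) : (st k).2 ≤ (st k).1 ∧ 2 * k = (st k).1 * ((st k).1 + 1) + 2 * (st k).2 := by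
  induction k with
  | zero => simp [st]
  | succ k ih =>
    obtain ⟨h1, h2⟩ := ih
    rw [st]
    split_ifs with h
    · refine ⟨h, ?_⟩
      simp only
      omega
    · have h3 : (st k).2 = (st k).1 := le_antisymm h1 (by omega)
      refine ⟨Nat.zero_le _, ?_⟩
      simp only
      rw [h3] at h2
      nlinarith

/-- the weights `n / (n + 4)` -/
noncomputable def lam (n : ℕ) : ℝ := n / (n + 4)

lemma lam_zero : lam 0 = 0 := by simp [lam]

lemma lam_nonneg (n : ℕ) : 0 ≤ lam n := by unfold lam; positivity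

lemma lam_succ_sub (n : ℕ) : lam (n + 1) - lam n = 4 / ((n + 4) * (n + 5)) := by
  unfold lam
  push_cast
  have h1 : (n : ℝ) + 4 ≠ 0 := by positivity
  have h2 : (n : ℝ) + 1 + 4 ≠ 0 := by positivity
  have h3 : (n : ℝ) + 5 ≠ 0 := by positivity
  field_simp
  ring

/-- coordinate functional -/
noncomputable def coord (i : ℕ) : E →L[ℝ] ℝ :=
  LinearMap.mkContinuous
    { toFun := fun e => (fstE e : ℕ → ℝ) i
      map_add' := fun e e' => by rw [map_add]; rfl
      map_smul' := fun c e => by rw [map_smul]; rfl } 1 (by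
    intro e
    rw [one_mul]
    have h1 : ‖(fstE e : ℕ → ℝ) i‖ ≤ ‖fstE e‖ := lp.norm_apply_le_norm (by norm_num) (fstE e) i
    exact h1.trans (norm_fstE_le e))

lemma coord_apply (i : ℕ) (e : E) : coord i e = (fstE e : ℕ → ℝ) i := rfl

lemma P_zero (e : E) : P 0 e = 0 := by
  rw [P_apply, Q_eq_sum]; simp

lemma P_succ (n : ℕ) (e : E) : P (n + 1) e = P n e + coord n e • J (ev n) := by
  rw [P_apply, P_apply, Q_eq_sum, Q_eq_sum, Finset.sum_range_succ, map_add, map_smul]; rfl

/-- the coefficient at step `k` -/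
noncomputable def cf (k : ℕ) : ℝ :=
  if (st k).2 < (st k).1 then lam ((st k).1 + 1) - lam (st k).1 else lam ((st k).1 + 1)

/-- the vectors and the functionals of the rank one series -/
noncomputable def xx (k : ℕ) : E := J (ev (st k).2)

noncomputable def ff (k : ℕ) : E →L[ℝ] ℝ := cf k • coord (st k).2

lemma xx_ne_zero (k : ℕ) : xx k ≠ 0 := by
  unfold xx
  exact linearIndependent_Jev.ne_zero _

lemma partial_sum (k : ℕ) (e : E) : ∑ i ∈ Finset.range k, ff i e • xx i =
    lam (st k).1 • P (st k).1 e + (lam ((st k).1 + 1) - lam (st k).1) • P (st k).2 e := by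
  induction k with
  | zero =>
    rw [Finset.sum_range_zero]
    change 0 = lam 0 • P 0 e + (lam (0 + 1) - lam 0) • P 0 e
    rw [P_zero]; simp
  | succ k ih =>
    rw [Finset.sum_range_succ, ih]
    have hinv := (st_inv k).1
    have hff : ff k e • xx k = cf k • (coord (st k).2 e • J (ev (st k).2)) := by
      unfold ff xx
      rw [_root_.smul_apply, smul_eq_mul, mul_smul]
    rw [hff]
    have hst : st (k + 1) = if (st k).2 < (st k).1 then ((st k).1, (st k).2 + 1)
        else ((st k).1 + 1, 0) := rfl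
    rw [hst]
    unfold cf
    split_ifs with h
    · simp only
      rw [P_succ (st k).2 e, smul_add, add_assoc]
    · have h3 : (st k).2 = (st k).1 := le_antisymm hinv (by omega)
      simp only
      rw [h3, P_zero, P_succ (st k).1 e]
      module

lemma two_pow_bound (n : ℕ) : (n : ℝ) * (2 * (1 / 2) ^ n) ≤ 1 := by
  induction n with
  | zero => simp
  | succ k ih =>
    rcases Nat.eq_zero_or_pos k with h | h
    · subst h; norm_num
    · have hk : (1 : ℝ) ≤ k := by exact_mod_cast h
      push_cast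
      rw [pow_succ]
      have hp : (0 : ℝ) < (1 / 2) ^ k := by positivity
      nlinarith

lemma norm_partial_sum (k : ℕ) (e : E) : ‖∑ i ∈ Finset.range k, ff i e • xx i‖ ≤ ‖e‖ := by
  rw [partial_sum]
  set n := (st k).1
  set i := (st k).2
  have h1 : ‖P n e‖ ≤ (1 + 2 * (1 / 2) ^ n) * ‖e‖ := (P n).le_of_opNorm_le (norm_P_le n) e
  have h2 : ‖P i e‖ ≤ 3 * ‖e‖ := by
    apply (P i).le_of_opNorm_le
    refine (norm_P_le i).trans ?_
    have : (1 / 2 : ℝ) ^ i ≤ 1 := pow_le_one₀ (by norm_num) (by norm_num)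
    linarith
  have hd : 0 ≤ lam (n + 1) - lam n := by rw [lam_succ_sub]; positivity
  calc ‖lam n • P n e + (lam (n + 1) - lam n) • P i e‖
      ≤ ‖lam n • P n e‖ + ‖(lam (n + 1) - lam n) • P i e‖ := norm_add_le _ _
    _ = lam n * ‖P n e‖ + (lam (n + 1) - lam n) * ‖P i e‖ := by
        rw [norm_smul, norm_smul, Real.norm_eq_abs, Real.norm_eq_abs, abs_of_nonneg (lam_nonneg n),
          abs_of_nonneg hd]
    _ ≤ lam n * ((1 + 2 * (1 / 2) ^ n) * ‖e‖) + (lam (n + 1) - lam n) * (3 * ‖e‖) :=
        add_le_add (mul_le_mul_of_nonneg_left h1 (lam_nonneg n)) (mul_le_mul_of_nonneg_left h2 hd)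
    _ = (lam n * (1 + 2 * (1 / 2) ^ n) + (lam (n + 1) - lam n) * 3) * ‖e‖ := by ring
    _ ≤ 1 * ‖e‖ := by
        apply mul_le_mul_of_nonneg_right _ (norm_nonneg _)
        rw [lam_succ_sub]
        unfold lam
        have hn : (0 : ℝ) ≤ n := Nat.cast_nonneg n
        have h4 : (0 : ℝ) < n + 4 := by positivity
        have h5 : (0 : ℝ) < n + 5 := by positivity
        have hb := two_pow_bound n
        have e1 : (n : ℝ) / (n + 4) * (1 + 2 * (1 / 2) ^ n) + 4 / ((n + 4) * (n + 5)) * 3
            = (n + n * (2 * (1 / 2) ^ n) + 12 / (n + 5)) / (n + 4) := by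
          field_simp
          ring
        rw [e1, div_le_one h4]
        have h12 : (12 : ℝ) / (n + 5) ≤ 3 := by
          rw [div_le_iff₀ h5]; linarith
        linarith
    _ = ‖e‖ := one_mul _

lemma tendsto_st : Tendsto (fun k => (st k).1) atTop atTop := by
  rw [tendsto_atTop]
  intro N
  filter_upwards [eventually_ge_atTop (N * (N + 3))] with k hk
  obtain ⟨h1, h2⟩ := st_inv k
  by_contra hcon
  push Not at hcon
  nlinarith

lemma tendsto_lam : Tendsto lam atTop (𝓝 1) := by
  have h1 : Tendsto (fun n : ℕ => 1 - 4 / ((n : ℝ) + 4)) atTop (𝓝 (1 - 0)) := by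
    apply tendsto_const_nhds.sub
    apply Tendsto.div_atTop tendsto_const_nhds
    exact tendsto_atTop_add_const_right _ _ tendsto_natCast_atTop_atTop
  rw [sub_zero] at h1
  refine h1.congr ?_
  intro n
  unfold lam
  have h4 : (n : ℝ) + 4 ≠ 0 := by positivity
  field_simp
  ring

lemma tendsto_series (e : E) :
    Tendsto (fun k : ℕ => ∑ i ∈ Finset.range k, ff i e • xx i) atTop (𝓝 e) := by
  simp_rw [partial_sum]
  have h1 : Tendsto (fun k => lam (st k).1 • P (st k).1 e) atTop (𝓝 ((1 : ℝ) • e)) :=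
    (tendsto_lam.comp tendsto_st).smul ((tendsto_P e).comp tendsto_st)
  have h2 : Tendsto (fun k => (lam ((st k).1 + 1) - lam (st k).1) • P (st k).2 e) atTop (𝓝 0) := by
    have h3 : Tendsto (fun n => lam (n + 1) - lam n) atTop (𝓝 0) := by
      have := ((tendsto_add_atTop_iff_nat 1).2 tendsto_lam).sub tendsto_lam
      rwa [sub_self] at this
    have h4 : Tendsto (fun k => (lam ((st k).1 + 1) - lam (st k).1) * (3 * ‖e‖)) atTop (𝓝 0) := by
      have := (h3.comp tendsto_st).mul_const (3 * ‖e‖)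
      rwa [zero_mul] at this
    apply squeeze_zero_norm _ h4
    intro k
    have hd : 0 ≤ lam ((st k).1 + 1) - lam (st k).1 := by rw [lam_succ_sub]; positivity
    rw [norm_smul, Real.norm_eq_abs, abs_of_nonneg hd]
    apply mul_le_mul_of_nonneg_left _ hd
    apply (P (st k).2).le_of_opNorm_le
    refine (norm_P_le _).trans ?_
    have : (1 / 2 : ℝ) ^ (st k).2 ≤ 1 := pow_le_one₀ (by norm_num) (by norm_num)
    linarith
  have := h1.add h2
  rwa [one_smul, add_zero] at this

open Pool.Agent.Helper568.Basis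

/-- the embedding of `E` -/
noncomputable def io : E →ₗ[ℝ] BB xx := iota xx ff tendsto_series

lemma norm_io (e : E) : ‖io e‖ = ‖e‖ := norm_iota norm_partial_sum e

lemma lim_io (e : E) : limB xx (io e) = e := limB_iota (hlim := tendsto_series) e

/-- the 1-complemented copy of `E` in `B` -/
noncomputable def F : Submodule ℝ (BB xx) := LinearMap.range io

lemma isClosed_F : IsClosed (F : Set (BB xx)) := by
  have hiso : Isometry io := AddMonoidHomClass.isometry_of_norm io norm_io
  have := hiso.isClosedEmbedding.isClosed_range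
  have e : (F : Set (BB xx)) = Set.range io := LinearMap.coe_range io
  rw [e]; exact this

lemma io_injective : Function.Injective io := by
  intro x y h
  have := congrArg (limB xx) h
  rwa [lim_io, lim_io] at this

lemma not_finiteDimensional_F : ¬ FiniteDimensional ℝ F := by
  intro h
  apply not_finiteDimensional_E
  have h1 : Module.Finite ℝ (LinearMap.range io) := h
  exact Module.Finite.equiv (LinearEquiv.ofInjective io io_injective).symm

/-- the norm one projection -/
noncomputable def PF : BB xx →L[ℝ] BB xx :=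
  LinearMap.mkContinuous (io.comp (limB xx : BB xx →ₗ[ℝ] E)) 1 (by
    intro s
    rw [LinearMap.comp_apply, norm_io, one_mul]
    exact norm_limB_le s)

lemma PF_apply (s : BB xx) : PF s = io (limB xx s) := rfl

lemma PF_mem (s : BB xx) : PF s ∈ F := ⟨limB xx s, rfl⟩

lemma PF_fix (s : BB xx) (hs : s ∈ F) : PF s = s := by
  obtain ⟨e, rfl⟩ := hs
  rw [PF_apply, lim_io]

lemma norm_PF : ‖PF‖ ≤ 1 := LinearMap.mkContinuous_norm_le _ zero_le_one _

/-- `F` has no monotone basis. -/
theorem no_monotone_basis (f : ℕ → BB xx) (hf : ∀ i, f i ∈ F)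
    (hbasis : ∀ x ∈ F, ∃! a : ℕ → ℝ,
      Tendsto (fun n : ℕ => ∑ i ∈ Finset.range n, a i • f i) atTop (𝓝 x))
    (hmono : ∀ (a : ℕ → ℝ) (n m : ℕ), n ≤ m →
      ‖∑ i ∈ Finset.range n, a i • f i‖ ≤ ‖∑ i ∈ Finset.range m, a i • f i‖) : False :=
  Basis.abstract_no_basis io norm_io (fun _ _ _ h1 h2 => noStrong h1 h2) f hf hbasis hmono

end Pool.Agent.Helper568.Series
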