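import Mathlib

set_option autoImplicit false
set_option linter.unusedVariables false

open Set

namespace Pool.Agent.Helper568.Sm

/-- The well-ordered set of type `ω₁`. -/
abbrev W : Type := (Cardinal.aleph 1).ord.ToType

instance : NoMaxOrder W := Cardinal.noMaxOrder (Cardinal.aleph0_le_aleph 1)

instance : Nonempty W := by
  have : (Cardinal.aleph 1).ord ≠ 0 := by
    simp only [Cardinal.ord_aleph]
    exact (Ordinal.omega_pos 1).ne'
  exact Ordinal.nonempty_toType_iff.2 this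

theorem countable_IioW (a : W) : (Set.Iio a).Countable := by
  have h := Cardinal.mk_Iio_lt (α := W) a (by simp)
  rw [Cardinal.mk_toType, Cardinal.card_ord, Cardinal.lt_aleph_one_iff] at h
  exact Cardinal.le_aleph0_iff_set_countable.1 h

theorem uncountable_W : ¬ (Set.univ : Set W).Countable := by
  rw [← Cardinal.le_aleph0_iff_set_countable, ← Cardinal.lt_aleph_one_iff]
  simp

theorem exists_ubW {s : Set W} (hs : s.Countable) : ∃ b : W, ∀ x ∈ s, x < b := by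
  by_contra h
  push Not at h
  apply uncountable_W
  have : (Set.univ : Set W) ⊆ ⋃ x ∈ s, (Set.Iio x ∪ {x}) := by
    intro b _
    obtain ⟨x, hx, hbx⟩ := h b
    simp only [Set.mem_iUnion]
    refine ⟨x, hx, ?_⟩
    rcases hbx.eq_or_lt with h1 | h1
    · exact Or.inr h1
    · exact Or.inl h1
  exact (hs.biUnion fun x _ => (countable_IioW x).union (Set.countable_singleton x)).mono this

/-- labelled points -/
abbrev K : Type := W × ℕ

/-- the nodes: sets of labelled points with both coordinates injective -/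
def Nd : Type := {s : Set K // ∀ p ∈ s, ∀ q ∈ s, p.1 = q.1 ∨ p.2 = q.2 → p = q}

namespace Nd

theorem ext {A B : Nd} (h : ∀ x, x ∈ A.1 ↔ x ∈ B.1) : A = B := Subtype.ext (Set.ext h)

instance : PartialOrder Nd where
  le A B := A.1 ⊆ B.1 ∧ ∀ b ∈ B.1, ∀ a ∈ A.1, b.1 < a.1 → b ∈ A.1
  le_refl A := ⟨subset_rfl, fun b hb _ _ _ => hb⟩
  le_trans A B C h1 h2 := ⟨h1.1.trans h2.1, fun c hc a ha hca =>
    h1.2 c (h2.2 c hc a (h1.1 ha) hca) a ha hca⟩
  le_antisymm A B h1 h2 := Subtype.ext (h1.1.antisymm h2.1)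

theorem le_def {A B : Nd} : A ≤ B ↔ A.1 ⊆ B.1 ∧ ∀ b ∈ B.1, ∀ a ∈ A.1, b.1 < a.1 → b ∈ A.1 :=
  Iff.rfl

instance : SemilatticeInf Nd where
  inf A B := ⟨{x | x ∈ A.1 ∧ x ∈ B.1 ∧ ∀ y : K, y.1 < x.1 → (y ∈ A.1 ↔ y ∈ B.1)},
    fun p hp q hq h => A.2 p hp.1 q hq.1 h⟩
  inf_le_left A B := ⟨fun _ hx => hx.1, fun b hb a ha hba =>
    ⟨hb, (ha.2.2 b hba).1 hb, fun y hy => ha.2.2 y (hy.trans hba)⟩⟩
  inf_le_right A B := ⟨fun _ hx => hx.2.1, fun b hb a ha hba =>
    ⟨(ha.2.2 b hba).2 hb, hb, fun y hy => ha.2.2 y (hy.trans hba)⟩⟩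
  le_inf C A B h1 h2 := ⟨fun x hx => ⟨h1.1 hx, h2.1 hx, fun y hy =>
    ⟨fun h => h2.1 (h1.2 y h x hx hy), fun h => h1.1 (h2.2 y h x hx hy)⟩⟩,
    fun b hb a ha hba => h1.2 b hb.1 a ha hba⟩

theorem comparable {A A' B : Nd} (h : A ≤ B) (h' : A' ≤ B) : A ≤ A' ∨ A' ≤ A := by
  by_cases hx : ∃ x ∈ A.1, x ∉ A'.1
  · obtain ⟨x, hxA, hxA'⟩ := hx
    right
    refine ⟨fun y hy => ?_, fun b hb a ha hba => h'.2 b (h.1 hb) a ha hba⟩
    by_contra hyA
    rcases lt_trichotomy x.1 y.1 with h1 | h1 | h1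
    · exact hxA' (h'.2 x (h.1 hxA) y hy h1)
    · have := B.2 x (h.1 hxA) y (h'.1 hy) (Or.inl h1)
      exact hyA (this ▸ hxA)
    · exact hyA (h.2 y (h'.1 hy) x hxA h1)
  · push Not at hx
    left
    exact ⟨hx, fun b hb a ha hba => h.2 b (h'.1 hb) a ha hba⟩

/-- `x` lies above every element of `A` and has a new label -/
def Ab (A : Nd) (x : K) : Prop := ∀ a ∈ A.1, a.1 < x.1 ∧ a.2 ≠ x.2

/-- add one point -/
def ch (A : Nd) (x : K) : Nd := ⟨{y | y ∈ A.1 ∨ (y = x ∧ Ab A x)}, by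
  rintro p (hp | ⟨rfl, hp⟩) q (hq | ⟨rfl, hq⟩) h
  · exact A.2 p hp q hq h
  · rcases h with h | h
    · exact absurd h (hq p hp).1.ne
    · exact absurd h (hq p hp).2
  · rcases h with h | h
    · exact absurd h (hp q hq).1.ne'
    · exact absurd h.symm (hp q hq).2
  · rfl⟩

theorem mem_ch {A : Nd} {x y : K} (h : Ab A x) : y ∈ (ch A x).1 ↔ y = x ∨ y ∈ A.1 := by
  constructor
  · rintro (h1 | ⟨h1, -⟩)
    · exact Or.inr h1
    · exact Or.inl h1
  · rintro (h1 | h1)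
    · exact Or.inr ⟨h1, h⟩
    · exact Or.inl h1

theorem self_mem_ch {A : Nd} {x : K} (h : Ab A x) : x ∈ (ch A x).1 := (mem_ch h).2 (Or.inl rfl)

theorem mem_ch_of_mem {A : Nd} {x y : K} (h : y ∈ A.1) : y ∈ (ch A x).1 := Or.inl h

theorem notMem_of_Ab {A : Nd} {x : K} (h : Ab A x) : x ∉ A.1 := fun hx => lt_irrefl _ (h x hx).1

theorem le_ch {A : Nd} {x : K} (h : Ab A x) : A ≤ ch A x := by
  refine ⟨fun y hy => Or.inl hy, fun b hb a ha hba => ?_⟩
  rcases (mem_ch h).1 hb with rfl | hb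
  · exact absurd (h a ha).1 (not_lt.2 hba.le)
  · exact hb

theorem lt_ch {A : Nd} {x : K} (h : Ab A x) : A < ch A x := by
  refine lt_of_le_of_ne (le_ch h) fun he => ?_
  have : x ∈ A.1 := by rw [he]; exact self_mem_ch h
  exact notMem_of_Ab h this

theorem exists_ch {A B : Nd} (h : A < B) : ∃ x, Ab A x ∧ ch A x ≤ B := by
  have hne : (Prod.fst '' (B.1 \ A.1)).Nonempty := by
    apply Set.Nonempty.image
    by_contra hcon
    rw [Set.not_nonempty_iff_eq_empty, Set.sdiff_eq_empty] at hcon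
    exact h.ne (Subtype.ext (h.le.1.antisymm hcon))
  obtain ⟨w, ⟨x, hxm, rfl⟩, hw⟩ := (wellFounded_lt (α := W)).has_min _ hne
  have hmin : ∀ b ∈ B.1, b.1 < x.1 → b ∈ A.1 := by
    intro b hb hbx
    by_contra hbA
    exact hw b.1 ⟨b, ⟨hb, hbA⟩, rfl⟩ hbx
  have hAb : Ab A x := by
    intro a ha
    have hax : a ≠ x := fun h => hxm.2 (h ▸ ha)
    refine ⟨?_, fun h1 => hax (B.2 a (h.le.1 ha) x hxm.1 (Or.inr h1))⟩
    rcases lt_trichotomy a.1 x.1 with h1 | h1 | h1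
    · exact h1
    · exact absurd (B.2 a (h.le.1 ha) x hxm.1 (Or.inl h1)) hax
    · exact absurd (h.le.2 x hxm.1 a ha h1) hxm.2
  refine ⟨x, hAb, ?_, ?_⟩
  · intro y hy
    rcases (mem_ch hAb).1 hy with rfl | hy
    · exact hxm.1
    · exact h.le.1 hy
  · intro b hb a ha hba
    rw [mem_ch hAb]
    rcases (mem_ch hAb).1 ha with rfl | ha
    · exact Or.inr (hmin b hb hba)
    · exact Or.inr (h.le.2 b hb a ha hba)

theorem ch_unique {A B : Nd} {x y : K} (hx : Ab A x) (hy : Ab A y) (h1 : ch A x ≤ B)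
    (h2 : ch A y ≤ B) : x = y := by
  have hxB : x ∈ B.1 := h1.1 (self_mem_ch hx)
  have hyB : y ∈ B.1 := h2.1 (self_mem_ch hy)
  rcases lt_trichotomy x.1 y.1 with h | h | h
  · rcases (mem_ch hy).1 (h2.2 x hxB y (self_mem_ch hy) h) with h3 | h3
    · exact h3
    · exact absurd h3 (notMem_of_Ab hx)
  · exact B.2 x hxB y hyB (Or.inl h)
  · rcases (mem_ch hx).1 (h1.2 y hyB x (self_mem_ch hx) h) with h3 | h3
    · exact h3.symm
    · exact absurd h3 (notMem_of_Ab hy)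

theorem label_unique {A A' B : Nd} {x x' : K} (hx : Ab A x) (hx' : Ab A' x') (hl : x.2 = x'.2)
    (h1 : ch A x ≤ B) (h2 : ch A' x' ≤ B) : A = A' := by
  have hxx : x = x' := B.2 x (h1.1 (self_mem_ch hx)) x' (h2.1 (self_mem_ch hx')) (Or.inr hl)
  subst hxx
  apply Nd.ext
  intro y
  constructor
  · intro hy
    rcases (mem_ch hx').1 (h2.2 y (h1.1 (mem_ch_of_mem hy)) x (self_mem_ch hx') (hx y hy).1)
      with h3 | h3
    · exact absurd (h3 ▸ hy) (notMem_of_Ab hx)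
    · exact h3
  · intro hy
    rcases (mem_ch hx).1 (h1.2 y (h2.1 (mem_ch_of_mem hy)) x (self_mem_ch hx) (hx' y hy).1)
      with h3 | h3
    · exact absurd (h3 ▸ hy) (notMem_of_Ab hx')
    · exact h3

theorem le_ch_cases {A C : Nd} {x : K} (hx : Ab A x) (h : C ≤ ch A x) : C ≤ A ∨ C = ch A x := by
  by_cases hxC : x ∈ C.1
  · right
    apply le_antisymm h
    refine ⟨?_, fun b hb a ha hba => h.1 hb⟩
    intro y hy
    rcases (mem_ch hx).1 hy with rfl | hy'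
    · exact hxC
    · exact h.2 y hy x hxC (hx y hy').1
  · left
    have hCA : C.1 ⊆ A.1 := by
      intro y hy
      rcases (mem_ch hx).1 (h.1 hy) with h1 | h1
      · exact absurd (h1 ▸ hy) hxC
      · exact h1
    exact ⟨hCA, fun b hb a ha hba => h.2 b (Or.inl hb) a ha hba⟩

theorem countable_Iic (A : Nd) : {C : Nd | C ≤ A}.Countable := by
  have : {C : Nd | C ≤ A} ⊆ {A} ∪ Set.range (fun n : ℕ => (⟨{p | p ∈ A.1 ∧ ∃ q ∈ A.1, q.2 = n ∧
      p.1 < q.1}, fun p hp q hq h => A.2 p hp.1 q hq.1 h⟩ : Nd)) := by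
    intro C hC
    rcases (show C ≤ A from hC).eq_or_lt with h | h
    · exact Or.inl h
    · right
      obtain ⟨x, hx1, hx2⟩ := exists_ch h
      have hxA : x ∈ A.1 := hx2.1 (self_mem_ch hx1)
      refine ⟨x.2, Nd.ext fun y => ?_⟩
      constructor
      · rintro ⟨h1, q, hq1, hq2, hq3⟩
        have hqx : q = x := A.2 q hq1 x hxA (Or.inr hq2)
        subst hqx
        rcases (mem_ch hx1).1 (hx2.2 y h1 q (self_mem_ch hx1) hq3) with h3 | h3
        · exact absurd hq3 (by rw [h3]; exact lt_irrefl _)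
        · exact h3
      · intro hy
        exact ⟨h.le.1 hy, x, hxA, rfl, (hx1 y hy).1⟩
  exact ((Set.countable_singleton A).union (Set.countable_range _)).mono this

theorem countable_node (A : Nd) : A.1.Countable :=
  MapsTo.countable_of_injOn (f := Prod.snd) (Set.mapsTo_univ _ _)
    (fun p hp q hq h => A.2 p hp q hq (Or.inr h)) Set.countable_univ

theorem exists_above (A : Nd) : ∃ ξ : W, ∀ p ∈ A.1, p.1 < ξ := by
  obtain ⟨b, hb⟩ := exists_ubW ((countable_node A).image Prod.fst)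
  exact ⟨b, fun p hp => hb p.1 ⟨p, hp, rfl⟩⟩

/-- height -/
noncomputable def ub (A : Nd) : W :=
  (wellFounded_lt (α := W)).min {ξ | ∀ p ∈ A.1, p.1 < ξ} (exists_above A)

theorem lt_ub (A : Nd) : ∀ p ∈ A.1, p.1 < ub A :=
  (wellFounded_lt (α := W)).min_mem {ξ | ∀ p ∈ A.1, p.1 < ξ} (exists_above A)

theorem ub_lt {A B : Nd} (h : A < B) : ub A < ub B := by
  obtain ⟨x, hx1, hx2⟩ := exists_ch h
  have h1 : x.1 < ub B := lt_ub B x (hx2.1 (self_mem_ch hx1))
  have h2 : ¬ x.1 < ub A :=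
    (wellFounded_lt (α := W)).not_lt_min (s := {ξ | ∀ p ∈ A.1, p.1 < ξ})
      (x := x.1) (fun a ha => (hx1 a ha).1)
  exact (not_lt.1 h2).trans_lt h1

instance : WellFoundedLT Nd :=
  ⟨Subrelation.wf (r := InvImage (· < ·) ub) (fun h => ub_lt h) (InvImage.wf _ wellFounded_lt)⟩

/-- the root -/
def root : Nd := ⟨∅, fun _ h => h.elim⟩

theorem root_le (A : Nd) : root ≤ A := ⟨fun _ h => h.elim, fun _ _ _ h => h.elim⟩

/-- the labels used by a node -/
def labs (A : Nd) : Set ℕ := Prod.snd '' A.1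

/-- the top child with a given label -/
theorem exists_child (A : Nd) {n : ℕ} (hn : n ∉ labs A) : Ab A (ub A, n) :=
  fun a ha => ⟨lt_ub A a ha, fun h => hn ⟨a, ha, h⟩⟩

/-- union of an increasing sequence -/
def un (A : ℕ → Nd) (hA : ∀ m n, m ≤ n → A m ≤ A n) : Nd :=
  ⟨⋃ n, (A n).1, by
    intro p hp q hq h
    rw [Set.mem_iUnion] at hp hq
    obtain ⟨m, hm⟩ := hp
    obtain ⟨n, hn⟩ := hq
    exact (A (max m n)).2 p ((hA m _ (le_max_left _ _)).1 hm) q ((hA n _ (le_max_right _ _)).1 hn) h⟩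

theorem le_un (A : ℕ → Nd) (hA : ∀ m n, m ≤ n → A m ≤ A n) (n : ℕ) : A n ≤ un A hA := by
  refine ⟨Set.subset_iUnion (fun n => (A n).1) n, fun b hb a ha hba => ?_⟩
  obtain ⟨m, hm⟩ := Set.mem_iUnion.1 hb
  have h1 : b ∈ (A (max m n)).1 := (hA m _ (le_max_left _ _)).1 hm
  exact (hA n _ (le_max_right m n)).2 b h1 a ha hba

theorem un_le (A : ℕ → Nd) (hA : ∀ m n, m ≤ n → A m ≤ A n) {B : Nd} (h : ∀ n, A n ≤ B) :
    un A hA ≤ B := by
  refine ⟨Set.iUnion_subset fun n => (h n).1, fun b hb a ha hba => ?_⟩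
  obtain ⟨m, hm⟩ := Set.mem_iUnion.1 ha
  exact Set.mem_iUnion.2 ⟨m, (h m).2 b hb a hm hba⟩

end Nd

end Pool.Agent.Helper568.Sm
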