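import Pool.Agent.Helper568.Sm1

set_option autoImplicit false
set_option linter.unusedVariables false

open Set Filter Topology BoundedContinuousFunction

namespace Pool.Agent.Helper568.Sm

open Nd

instance : TopologicalSpace Nd := ⊥
instance : DiscreteTopology Nd := ⟨rfl⟩

/-- bounded functions on the tree -/
abbrev B1 := Nd →ᵇ ℝ
/-- bounded functions on the spine points -/
abbrev B2 := (Nd × ℕ) →ᵇ ℝ

open Classical in
/-- indicator of a branch -/
noncomputable def e (B : Nd) : B1 :=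
  BoundedContinuousFunction.ofNormedAddCommGroupDiscrete (fun A => if A ≤ B then (1 : ℝ) else 0) 1
    (fun A => by split_ifs <;> simp)

open Classical in
theorem e_apply (B A : Nd) : e B A = if A ≤ B then (1 : ℝ) else 0 := rfl

theorem e_of_le {B A : Nd} (h : A ≤ B) : e B A = 1 := by rw [e_apply, if_pos h]

theorem e_of_not_le {B A : Nd} (h : ¬ A ≤ B) : e B A = 0 := by rw [e_apply, if_neg h]

/-- finite combinations of branch indicators -/
def Sp : Submodule ℝ B1 := Submodule.span ℝ (Set.range e)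

/-- the tree space -/
noncomputable def Zs : Submodule ℝ B1 := Sp.topologicalClosure

theorem e_mem (B : Nd) : e B ∈ Zs :=
  Submodule.le_topologicalClosure _ (Submodule.subset_span ⟨B, rfl⟩)

theorem Zs_approx {f : B1} (hf : f ∈ Zs) {ε : ℝ} (hε : 0 < ε) :
    ∃ g ∈ Sp, ‖f - g‖ < ε := by
  have h1 : f ∈ closure (Sp : Set B1) := hf
  obtain ⟨g, hg, hd⟩ := Metric.mem_closure_iff.1 h1 ε hε
  exact ⟨g, hg, by rwa [dist_eq_norm] at hd⟩

/-- down set -/
def Dn (R : Set Nd) : Set Nd := {A | ∃ B ∈ R, A ≤ B}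

theorem Sp_finite {g : B1} (hg : g ∈ Sp) :
    ∃ R : Set Nd, R.Finite ∧ ∀ A, A ∉ Dn R → g A = 0 := by
  induction hg using Submodule.span_induction with
  | mem x hx =>
    obtain ⟨B, rfl⟩ := hx
    refine ⟨{B}, Set.finite_singleton B, fun A hA => e_of_not_le fun h => hA ⟨B, rfl, h⟩⟩
  | zero => exact ⟨∅, Set.finite_empty, fun A _ => rfl⟩
  | add x y _ _ h1 h2 =>
    obtain ⟨R1, a1, b1⟩ := h1
    obtain ⟨R2, a2, b2⟩ := h2
    refine ⟨R1 ∪ R2, a1.union a2, fun A hA => ?_⟩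
    rw [BoundedContinuousFunction.add_apply, b1 A, b2 A, add_zero]
    · rintro ⟨B, hB, hAB⟩; exact hA ⟨B, Or.inr hB, hAB⟩
    · rintro ⟨B, hB, hAB⟩; exact hA ⟨B, Or.inl hB, hAB⟩
  | smul c x _ h1 =>
    obtain ⟨R1, a1, b1⟩ := h1
    refine ⟨R1, a1, fun A hA => ?_⟩
    rw [BoundedContinuousFunction.smul_apply, b1 A hA, smul_zero]

theorem Zs_finite {f : B1} (hf : f ∈ Zs) {ε : ℝ} (hε : 0 < ε) :
    ∃ R : Set Nd, R.Finite ∧ ∀ A, A ∉ Dn R → |f A| < ε := by
  obtain ⟨g, hg, hd⟩ := Zs_approx hf hε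
  obtain ⟨R, hR, h⟩ := Sp_finite hg
  refine ⟨R, hR, fun A hA => ?_⟩
  have h1 := (f - g).norm_coe_le_norm A
  rw [BoundedContinuousFunction.sub_apply, h A hA, sub_zero, Real.norm_eq_abs] at h1
  exact h1.trans_lt hd

theorem Dn_mono {R R' : Set Nd} (h : R ⊆ R') : Dn R ⊆ Dn R' :=
  fun _ ⟨B, hB, hAB⟩ => ⟨B, h hB, hAB⟩

/-- at most finitely many children of `A` are below a finite set -/
theorem finite_children (A : Nd) {R : Set Nd} (hR : R.Finite) :
    {x : K | Ab A x ∧ ch A x ∈ Dn R}.Finite := by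
  have : {x : K | Ab A x ∧ ch A x ∈ Dn R} ⊆ ⋃ B ∈ R, {x : K | Ab A x ∧ ch A x ≤ B} := by
    rintro x ⟨h1, B, hB, h2⟩
    simp only [Set.mem_iUnion]
    exact ⟨B, hB, h1, h2⟩
  refine (hR.biUnion fun B _ => ?_).subset this
  exact Set.Subsingleton.finite fun x hx y hy => ch_unique hx.1 hy.1 hx.2 hy.2

/-- at most finitely many nodes whose child with a given label is below a finite set -/
theorem finite_parents (m : ℕ) {R : Set Nd} (hR : R.Finite) :
    {A : Nd | ∃ x : K, x.2 = m ∧ Ab A x ∧ ch A x ∈ Dn R}.Finite := by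
  have : {A : Nd | ∃ x : K, x.2 = m ∧ Ab A x ∧ ch A x ∈ Dn R} ⊆
      ⋃ B ∈ R, {A : Nd | ∃ x : K, x.2 = m ∧ Ab A x ∧ ch A x ≤ B} := by
    rintro A ⟨x, h0, h1, B, hB, h2⟩
    simp only [Set.mem_iUnion]
    exact ⟨B, hB, x, h0, h1, h2⟩
  refine (hR.biUnion fun B _ => ?_).subset this
  refine Set.Subsingleton.finite ?_
  rintro A ⟨x, h0, h1, h2⟩ A' ⟨x', h0', h1', h2'⟩
  exact label_unique h1 h1' (h0.trans h0'.symm) h2 h2'

/-- branching points -/
def Br (R : Set Nd) : Set (Nd × ℕ) :=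
  {u | ∃ x y, x ≠ y ∧ Ab u.1 x ∧ Ab u.1 y ∧ u.2 ≤ x.2 ∧ u.2 ≤ y.2 ∧
    ch u.1 x ∈ Dn R ∧ ch u.1 y ∈ Dn R}

theorem Br_finite {R : Set Nd} (hR : R.Finite) : (Br R).Finite := by
  have : Br R ⊆ ⋃ B ∈ R, ⋃ B' ∈ R, {u : Nd × ℕ | ∃ x y, x ≠ y ∧ Ab u.1 x ∧ Ab u.1 y ∧
      u.2 ≤ x.2 ∧ ch u.1 x ≤ B ∧ ch u.1 y ≤ B'} := by
    rintro u ⟨x, y, h1, h2, h3, h4, h5, ⟨B, hB, h6⟩, ⟨B', hB', h7⟩⟩
    simp only [Set.mem_iUnion]
    exact ⟨B, hB, B', hB', x, y, h1, h2, h3, h4, h6, h7⟩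
  refine (hR.biUnion fun B _ => hR.biUnion fun B' _ => ?_).subset this
  by_cases hne : {u : Nd × ℕ | ∃ x y, x ≠ y ∧ Ab u.1 x ∧ Ab u.1 y ∧
      u.2 ≤ x.2 ∧ ch u.1 x ≤ B ∧ ch u.1 y ≤ B'}.Nonempty
  · obtain ⟨⟨A, m⟩, x, y, h1, h2, h3, h4, h5, h6⟩ := hne
    simp only at h2 h3 h4 h5 h6
    have hsub : {u : Nd × ℕ | ∃ x y, x ≠ y ∧ Ab u.1 x ∧ Ab u.1 y ∧
        u.2 ≤ x.2 ∧ ch u.1 x ≤ B ∧ ch u.1 y ≤ B'} ⊆
        ({A} : Set Nd) ×ˢ Set.Iic (x.2) := by
      rintro ⟨A', m'⟩ ⟨x', y', g1, g2, g3, g4, g5, g6⟩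
      simp only at g2 g3 g4 g5 g6
      have hAA : A' = A := by
        rcases comparable ((le_ch g2).trans g5) ((le_ch h2).trans h5) with h | h
        · rcases h.eq_or_lt with h' | h'
          · exact h'
          · exfalso
            obtain ⟨z, z1, z2⟩ := exists_ch h'
            have e1 := ch_unique z1 g2 (z2.trans ((le_ch h2).trans h5)) g5
            have e2 := ch_unique z1 g3 (z2.trans ((le_ch h3).trans h6)) g6
            exact g1 (e1.symm.trans e2)
        · rcases h.eq_or_lt with h' | h'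
          · exact h'.symm
          · exfalso
            obtain ⟨z, z1, z2⟩ := exists_ch h'
            have e1 := ch_unique z1 h2 (z2.trans ((le_ch g2).trans g5)) h5
            have e2 := ch_unique z1 h3 (z2.trans ((le_ch g3).trans g6)) h6
            exact h1 (e1.symm.trans e2)
      subst hAA
      have hxx := ch_unique g2 h2 g5 h5
      subst hxx
      exact ⟨rfl, g4⟩
    exact ((Set.finite_singleton A).prod (Set.finite_Iic _)).subset hsub
  · rw [Set.not_nonempty_iff_eq_empty] at hne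
    rw [hne]; exact Set.finite_empty

open Classical in
/-- one term of the supremum -/
noncomputable def tm (f : B1) (u : Nd × ℕ) (x : K) : ℝ :=
  if Ab u.1 x ∧ u.2 ≤ x.2 then max (f (ch u.1 x)) 0 else 0

theorem tm_nonneg (f : B1) (u : Nd × ℕ) (x : K) : 0 ≤ tm f u x := by
  unfold tm; split_ifs
  · exact le_max_right _ _
  · exact le_rfl

theorem tm_le (f : B1) (u : Nd × ℕ) (x : K) : tm f u x ≤ ‖f‖ := by
  unfold tm; split_ifs
  · exact max_le ((le_abs_self _).trans (f.norm_coe_le_norm _)) (norm_nonneg _)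
  · exact norm_nonneg _

theorem tm_bdd (f : B1) (u : Nd × ℕ) : BddAbove (Set.range (tm f u)) :=
  ⟨‖f‖, by rintro _ ⟨x, rfl⟩; exact tm_le f u x⟩

/-- supremum over the remaining children -/
noncomputable def PP (f : B1) (u : Nd × ℕ) : ℝ := ⨆ x : K, tm f u x

theorem PP_nonneg (f : B1) (u : Nd × ℕ) : 0 ≤ PP f u :=
  (tm_nonneg f u (Classical.arbitrary K)).trans (le_ciSup (tm_bdd f u) (Classical.arbitrary K))

theorem tm_le_PP (f : B1) (u : Nd × ℕ) (x : K) : tm f u x ≤ PP f u := le_ciSup (tm_bdd f u) x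

theorem PP_le {f : B1} {u : Nd × ℕ} {c : ℝ} (hc : ∀ x, tm f u x ≤ c) : PP f u ≤ c := ciSup_le hc

theorem PP_le_norm (f : B1) (u : Nd × ℕ) : PP f u ≤ ‖f‖ := PP_le (tm_le f u)

theorem tm_lip (f f' : B1) (u : Nd × ℕ) (x : K) : tm f u x ≤ tm f' u x + ‖f - f'‖ := by
  unfold tm
  split_ifs
  · have h1 : f (ch u.1 x) - f' (ch u.1 x) ≤ ‖f - f'‖ := by
      have := (f - f').norm_coe_le_norm (ch u.1 x)
      rw [BoundedContinuousFunction.sub_apply] at this
      exact (le_abs_self _).trans this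
    refine max_le ?_ ?_
    · linarith [le_max_left (f' (ch u.1 x)) 0]
    · exact add_nonneg (le_max_right _ _) (norm_nonneg _)
  · linarith [norm_nonneg (f - f')]

theorem PP_lip (f f' : B1) (u : Nd × ℕ) : PP f u ≤ PP f' u + ‖f - f'‖ :=
  PP_le fun x => (tm_lip f f' u x).trans (by linarith [tm_le_PP f' u x])

theorem PP_abs (f f' : B1) (u : Nd × ℕ) : |PP f u - PP f' u| ≤ ‖f - f'‖ := by
  rw [abs_le]
  constructor
  · have := PP_lip f' f u
    rw [norm_sub_rev] at this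
    linarith
  · have := PP_lip f f' u
    linarith

/-- the nonlinear lifting -/
noncomputable def gg (f : B1) : B2 :=
  BoundedContinuousFunction.ofNormedAddCommGroupDiscrete (fun u => PP f u - PP (-f) u) ‖f‖
    (fun u => by
      rw [Real.norm_eq_abs, abs_le]
      have h1 := PP_nonneg f u
      have h2 := PP_nonneg (-f) u
      have h3 := PP_le_norm f u
      have h4 := PP_le_norm (-f) u
      rw [norm_neg] at h4
      constructor <;> linarith)

theorem gg_apply (f : B1) (u : Nd × ℕ) : gg f u = PP f u - PP (-f) u := rfl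

theorem gg_lip (f f' : B1) : ‖gg f - gg f'‖ ≤ 2 * ‖f - f'‖ := by
  rw [BoundedContinuousFunction.norm_le (by positivity)]
  intro u
  rw [BoundedContinuousFunction.sub_apply, gg_apply, gg_apply, Real.norm_eq_abs]
  have h1 := abs_le.1 (PP_abs f f' u)
  have h2 := abs_le.1 (PP_abs (-f) (-f') u)
  have h3 : ‖-f - -f'‖ = ‖f - f'‖ := by
    rw [← norm_neg (f - f')]; congr 1; abel
  rw [h3] at h2
  rw [abs_le]
  constructor <;> linarith [h1.1, h1.2, h2.1, h2.2]

theorem tm_smul {c : ℝ} (hc : 0 ≤ c) (f : B1) (u : Nd × ℕ) (x : K) :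
    tm (c • f) u x = c * tm f u x := by
  unfold tm
  split_ifs
  · rw [BoundedContinuousFunction.smul_apply, smul_eq_mul, mul_max_of_nonneg _ _ hc, mul_zero]
  · rw [mul_zero]

theorem PP_smul {c : ℝ} (hc : 0 ≤ c) (f : B1) (u : Nd × ℕ) : PP (c • f) u = c * PP f u := by
  unfold PP
  rw [Real.mul_iSup_of_nonneg hc]
  congr 1
  funext x
  exact tm_smul hc f u x

theorem gg_smul (c : ℝ) (f : B1) : gg (c • f) = c • gg f := by
  ext u
  rw [BoundedContinuousFunction.smul_apply, gg_apply, gg_apply, smul_eq_mul]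
  rcases le_total 0 c with hc | hc
  · have e0 : -(c • f) = c • (-f) := by
      ext x; simp
    rw [e0, PP_smul hc, PP_smul hc]; ring
  · have e1 : c • f = (-c) • (-f) := by
      ext x; simp
    have e2 : -(c • f) = (-c) • f := by
      ext x; simp
    have hc' : 0 ≤ -c := by linarith
    rw [e2, PP_smul hc' f, e1, PP_smul hc' (-f)]; ring

/-- functions vanishing at infinity -/
def C0 : Submodule ℝ B2 where
  carrier := {k | ∀ ε : ℝ, 0 < ε → {u | ε ≤ |k u|}.Finite}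
  add_mem' := by
    intro a b ha hb ε hε
    refine ((ha (ε / 2) (by positivity)).union (hb (ε / 2) (by positivity))).subset ?_
    intro u hu
    by_contra hcon
    simp only [Set.mem_union, Set.mem_ofPred_eq, not_or, not_le] at hcon
    have h1 : ε ≤ |(a + b) u| := hu
    rw [BoundedContinuousFunction.add_apply] at h1
    have := abs_add_le (a u) (b u)
    linarith [hcon.1, hcon.2]
  zero_mem' := by
    intro ε hε
    convert Set.finite_empty
    ext u
    simp only [BoundedContinuousFunction.coe_zero, Pi.zero_apply, abs_zero, Set.mem_ofPred_eq,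
      Set.mem_empty_iff_false, iff_false, not_le]
    exact hε
  smul_mem' := by
    intro c a ha ε hε
    rcases eq_or_ne c 0 with hc | hc
    · subst hc
      convert Set.finite_empty
      ext u
      simp only [zero_smul, BoundedContinuousFunction.coe_zero, Pi.zero_apply, abs_zero,
        Set.mem_ofPred_eq, Set.mem_empty_iff_false, iff_false, not_le]
      exact hε
    · have hc' : 0 < |c| := abs_pos.2 hc
      refine (ha (ε / |c|) (by positivity)).subset ?_
      intro u hu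
      have h1 : ε ≤ |(c • a) u| := hu
      rw [BoundedContinuousFunction.smul_apply, smul_eq_mul, abs_mul] at h1
      show ε / |c| ≤ |a u|
      rw [div_le_iff₀ hc']
      linarith

theorem mem_C0 {k : B2} : k ∈ C0 ↔ ∀ ε : ℝ, 0 < ε → {u | ε ≤ |k u|}.Finite := Iff.rfl

theorem C0_closed : IsClosed (C0 : Set B2) := by
  rw [← isSeqClosed_iff_isClosed]
  intro a k ha hk ε hε
  obtain ⟨n, hn⟩ := (Metric.tendsto_atTop.1 hk (ε / 2) (by positivity))
  have h1 := hn n le_rfl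
  rw [dist_eq_norm] at h1
  refine (ha n (ε / 2) (by positivity)).subset ?_
  intro u hu
  have h2 : ε ≤ |k u| := hu
  show ε / 2 ≤ |a n u|
  have h3 := (a n - k).norm_coe_le_norm u
  rw [BoundedContinuousFunction.sub_apply, Real.norm_eq_abs] at h3
  have h4 : |k u| ≤ |a n u| + |a n u - k u| := by
    have := abs_sub_abs_le_abs_sub (k u) (a n u)
    rw [abs_sub_comm] at this
    linarith
  linarith

/-- the lifting near a node with at most one relevant child -/
theorem PP_near {φ : B1} {R : Set Nd} {ε : ℝ} (hε : 0 < ε) (hφ : ∀ A, A ∉ Dn R → |φ A| < ε)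
    {u : Nd × ℕ} (hu : u ∉ Br R) :
    ((∀ x, Ab u.1 x → u.2 ≤ x.2 → ch u.1 x ∉ Dn R) → PP φ u ≤ ε) ∧
    (∀ x, Ab u.1 x → u.2 ≤ x.2 → ch u.1 x ∈ Dn R →
      max (φ (ch u.1 x)) 0 ≤ PP φ u ∧ PP φ u ≤ max (φ (ch u.1 x)) 0 + ε) := by
  constructor
  · intro h
    apply PP_le
    intro x
    unfold tm
    split_ifs with hx
    · exact max_le ((le_abs_self _).trans (hφ _ (h x hx.1 hx.2)).le) hε.le
    · exact hε.le
  · intro x hx1 hx2 hx3
    constructor
    · have h1 := tm_le_PP φ u x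
      unfold tm at h1
      rwa [if_pos ⟨hx1, hx2⟩] at h1
    · apply PP_le
      intro y
      unfold tm
      split_ifs with hy
      · by_cases hxy : x = y
        · subst hxy; linarith
        · have h1 : ch u.1 y ∉ Dn R := fun h => hu ⟨x, y, hxy, hx1, hy.1, hx2, hy.2, hx3, h⟩
          have h2 := hφ _ h1
          have h3 := le_max_right (φ (ch u.1 x)) 0
          refine max_le ?_ (by linarith)
          linarith [le_abs_self (φ (ch u.1 y))]
      · have h3 := le_max_right (φ (ch u.1 x)) 0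
        linarith

theorem gg_near {φ : B1} {R : Set Nd} {ε : ℝ} (hε : 0 < ε) (hφ : ∀ A, A ∉ Dn R → |φ A| < ε)
    {u : Nd × ℕ} (hu : u ∉ Br R) :
    ((∀ x, Ab u.1 x → u.2 ≤ x.2 → ch u.1 x ∉ Dn R) → |gg φ u| ≤ ε) ∧
    (∀ x, Ab u.1 x → u.2 ≤ x.2 → ch u.1 x ∈ Dn R →
      |gg φ u - φ (ch u.1 x)| ≤ ε) := by
  have hφ' : ∀ A, A ∉ Dn R → |(-φ) A| < ε := by
    intro A hA
    rw [BoundedContinuousFunction.neg_apply, abs_neg]
    exact hφ A hA
  have h1 := PP_near hε hφ hu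
  have h2 := PP_near hε hφ' hu
  have p1 := PP_nonneg φ u
  have p2 := PP_nonneg (-φ) u
  constructor
  · intro h
    have a1 := h1.1 h
    have a2 := h2.1 h
    rw [gg_apply, abs_le]
    constructor <;> linarith
  · intro x hx1 hx2 hx3
    obtain ⟨a1, a2⟩ := h1.2 x hx1 hx2 hx3
    obtain ⟨b1, b2⟩ := h2.2 x hx1 hx2 hx3
    rw [BoundedContinuousFunction.neg_apply] at b1 b2
    have h3 : max (φ (ch u.1 x)) 0 - max (-φ (ch u.1 x)) 0 = φ (ch u.1 x) := by
      rcases le_total 0 (φ (ch u.1 x)) with h | h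
      · rw [max_eq_left h, max_eq_right (by linarith)]; ring
      · rw [max_eq_right h, max_eq_left (by linarith)]; ring
    rw [gg_apply, abs_le]
    constructor <;> linarith

theorem gg_add {f f' : B1} (hf : f ∈ Zs) (hf' : f' ∈ Zs) :
    gg (f + f') - gg f - gg f' ∈ C0 := by
  rw [mem_C0]
  intro ε hε
  have hε4 : 0 < ε / 4 := by positivity
  obtain ⟨R1, a1, b1⟩ := Zs_finite hf hε4
  obtain ⟨R2, a2, b2⟩ := Zs_finite hf' hε4
  obtain ⟨R3, a3, b3⟩ := Zs_finite (Zs.add_mem hf hf') hε4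
  set R := R1 ∪ R2 ∪ R3 with hR
  have hRf : R.Finite := (a1.union a2).union a3
  have c1 : ∀ A, A ∉ Dn R → |f A| < ε / 4 := fun A hA =>
    b1 A fun h => hA (Dn_mono (fun _ h => Or.inl (Or.inl h)) h)
  have c2 : ∀ A, A ∉ Dn R → |f' A| < ε / 4 := fun A hA =>
    b2 A fun h => hA (Dn_mono (fun _ h => Or.inl (Or.inr h)) h)
  have c3 : ∀ A, A ∉ Dn R → |(f + f') A| < ε / 4 := fun A hA =>
    b3 A fun h => hA (Dn_mono (fun _ h => Or.inr h) h)
  refine (Br_finite hRf).subset ?_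
  intro u hu
  by_contra hcon
  have h1 := gg_near hε4 c1 hcon
  have h2 := gg_near hε4 c2 hcon
  have h3 := gg_near hε4 c3 hcon
  have hu' : ε ≤ |gg (f + f') u - gg f u - gg f' u| := hu
  by_cases hx : ∃ x, Ab u.1 x ∧ u.2 ≤ x.2 ∧ ch u.1 x ∈ Dn R
  · obtain ⟨x, x1, x2, x3⟩ := hx
    have g1 := abs_le.1 (h1.2 x x1 x2 x3)
    have g2 := abs_le.1 (h2.2 x x1 x2 x3)
    have g3 := abs_le.1 (h3.2 x x1 x2 x3)
    rw [BoundedContinuousFunction.add_apply] at g3
    have : |gg (f + f') u - gg f u - gg f' u| < ε := by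
      rw [abs_lt]
      constructor <;> linarith [g1.1, g1.2, g2.1, g2.2, g3.1, g3.2]
    linarith
  · push Not at hx
    have g1 := abs_le.1 (h1.1 hx)
    have g2 := abs_le.1 (h2.1 hx)
    have g3 := abs_le.1 (h3.1 hx)
    have : |gg (f + f') u - gg f u - gg f' u| < ε := by
      rw [abs_lt]
      constructor <;> linarith [g1.1, g1.2, g2.1, g2.2, g3.1, g3.2]
    linarith

/-- the twisted space -/
noncomputable def Xs : Submodule ℝ (B1 × B2) where
  carrier := {x | x.1 ∈ Zs ∧ x.2 - gg x.1 ∈ C0}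
  add_mem' := by
    rintro x y ⟨hx1, hx2⟩ ⟨hy1, hy2⟩
    refine ⟨Zs.add_mem hx1 hy1, ?_⟩
    have e1 : (x + y).2 - gg (x + y).1 = (x.2 - gg x.1) + (y.2 - gg y.1) -
        (gg (x.1 + y.1) - gg x.1 - gg y.1) := by
      show x.2 + y.2 - gg (x.1 + y.1) = _
      abel
    rw [e1]
    exact C0.sub_mem (C0.add_mem hx2 hy2) (gg_add hx1 hy1)
  zero_mem' := by
    refine ⟨Zs.zero_mem, ?_⟩
    have : gg (0 : B1) = 0 := by
      have := gg_smul 0 (0 : B1)
      rwa [zero_smul, zero_smul] at this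
    show (0 : B2) - gg (0 : B1) ∈ C0
    rw [this, sub_zero]
    exact C0.zero_mem
  smul_mem' := by
    rintro c x ⟨hx1, hx2⟩
    refine ⟨Zs.smul_mem c hx1, ?_⟩
    show c • x.2 - gg (c • x.1) ∈ C0
    have e1 : c • x.2 - gg (c • x.1) = c • (x.2 - gg x.1) := by
      rw [gg_smul]
      ext u
      simp only [BoundedContinuousFunction.sub_apply, BoundedContinuousFunction.smul_apply,
        smul_eq_mul]
      ring
    rw [e1]
    exact C0.smul_mem c hx2

theorem mem_Xs {x : B1 × B2} : x ∈ Xs ↔ x.1 ∈ Zs ∧ x.2 - gg x.1 ∈ C0 := Iff.rfl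

theorem gg_continuous : Continuous gg := by
  have : LipschitzWith 2 gg := by
    apply LipschitzWith.of_dist_le_mul
    intro f f'
    rw [dist_eq_norm, dist_eq_norm]
    exact gg_lip f f'
  exact this.continuous

theorem Zs_closed : IsClosed (Zs : Set B1) := Submodule.isClosed_topologicalClosure _

theorem Xs_closed : IsClosed (Xs : Set (B1 × B2)) := by
  have : (Xs : Set (B1 × B2)) = (fun x : B1 × B2 => x.1) ⁻¹' (Zs : Set B1) ∩
      (fun x : B1 × B2 => x.2 - gg x.1) ⁻¹' (C0 : Set B2) := by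
    ext x; exact Iff.rfl
  rw [this]
  exact (Zs_closed.preimage continuous_fst).inter
    (C0_closed.preimage (continuous_snd.sub (gg_continuous.comp continuous_fst)))

noncomputable instance : CompleteSpace Zs := Zs_closed.completeSpace_coe
noncomputable instance : CompleteSpace C0 := C0_closed.completeSpace_coe
noncomputable instance : CompleteSpace Xs := Xs_closed.completeSpace_coe

/-- the Lipschitz homeomorphism -/
noncomputable def equiv : Xs ≃ (Zs × C0) where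
  toFun x := (⟨x.1.1, x.2.1⟩, ⟨x.1.2 - gg x.1.1, x.2.2⟩)
  invFun y := ⟨(y.1.1, y.2.1 + gg y.1.1), y.1.2, by
    show y.2.1 + gg y.1.1 - gg y.1.1 ∈ C0
    rw [add_sub_cancel_right]
    exact y.2.2⟩
  left_inv x := by
    apply Subtype.ext
    refine Prod.ext rfl ?_
    show x.1.2 - gg x.1.1 + gg x.1.1 = x.1.2
    abel
  right_inv y := by
    refine Prod.ext rfl ?_
    apply Subtype.ext
    show y.2.1 + gg y.1.1 - gg y.1.1 = y.2.1
    abel

theorem equiv_norm (x y : Xs) : ‖equiv x - equiv y‖ ≤ 3 * ‖x - y‖ := by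
  have h1 : ‖x.1.1 - y.1.1‖ ≤ ‖x - y‖ := le_max_left _ _
  have h2 : ‖x.1.2 - y.1.2‖ ≤ ‖x - y‖ := le_max_right _ _
  have h3 := gg_lip x.1.1 y.1.1
  have h0 := norm_nonneg (x - y)
  show max ‖x.1.1 - y.1.1‖ ‖(x.1.2 - gg x.1.1) - (y.1.2 - gg y.1.1)‖ ≤ (3 : ℝ) * ‖x - y‖
  refine max_le (by linarith) ?_
  have e1 : (x.1.2 - gg x.1.1) - (y.1.2 - gg y.1.1) =
      (x.1.2 - y.1.2) - (gg x.1.1 - gg y.1.1) := by abel
  rw [e1]
  exact (norm_sub_le _ _).trans (by linarith)

theorem equiv_symm_norm (x y : Zs × C0) : ‖equiv.symm x - equiv.symm y‖ ≤ 3 * ‖x - y‖ := by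
  have h1 : ‖x.1.1 - y.1.1‖ ≤ ‖x - y‖ := le_max_left _ _
  have h2 : ‖x.2.1 - y.2.1‖ ≤ ‖x - y‖ := le_max_right _ _
  have h3 := gg_lip x.1.1 y.1.1
  have h0 := norm_nonneg (x - y)
  show max ‖x.1.1 - y.1.1‖ ‖(x.2.1 + gg x.1.1) - (y.2.1 + gg y.1.1)‖ ≤ (3 : ℝ) * ‖x - y‖
  refine max_le (by linarith) ?_
  have e1 : (x.2.1 + gg x.1.1) - (y.2.1 + gg y.1.1) =
      (x.2.1 - y.2.1) + (gg x.1.1 - gg y.1.1) := by abel
  rw [e1]
  exact (norm_add_le _ _).trans (by linarith)

theorem lip_of_norm {E F : Type*} [NormedAddCommGroup E] [NormedAddCommGroup F] (f : E → F)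
    (h : ∀ x y, ‖f x - f y‖ ≤ 3 * ‖x - y‖) : LipschitzWith 3 f := by
  apply LipschitzWith.of_dist_le_mul
  intro x y
  rw [dist_eq_norm, dist_eq_norm]
  exact h x y

end Pool.Agent.Helper568.Sm
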