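import Pool.Agent.Helper568.Sm2

set_option autoImplicit false
set_option linter.unusedVariables false

open Set Filter Topology BoundedContinuousFunction

namespace Pool.Agent.Helper568.Sm

open Nd

theorem mem_Dn_of_mem {R : Set Nd} {A : Nd} (h : A ∈ R) : A ∈ Dn R := ⟨A, h, le_rfl⟩

theorem Dn_down {R : Set Nd} {A B : Nd} (h : A ≤ B) (hB : B ∈ Dn R) : A ∈ Dn R := by
  obtain ⟨C, hC, hBC⟩ := hB
  exact ⟨C, hC, h.trans hBC⟩

theorem Br_mono {R R' : Set Nd} (h : R ⊆ R') : Br R ⊆ Br R' := by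
  rintro u ⟨x, y, h1, h2, h3, h4, h5, h6, h7⟩
  exact ⟨x, y, h1, h2, h3, h4, h5, Dn_mono h h6, Dn_mono h h7⟩

/-- the values of a finite combination along a branch -/
theorem Sp_step {g : B1} (hg : g ∈ Sp) : ∃ R : Set Nd, R.Finite ∧ (∀ A, A ∉ Dn R → g A = 0) ∧
    ∀ A, A ∉ R → (A, 0) ∉ Br R → ∀ x, Ab A x → ch A x ∈ Dn R → g A = g (ch A x) := by
  induction hg using Submodule.span_induction with
  | mem x hx =>
    obtain ⟨B, rfl⟩ := hx
    refine ⟨{B}, Set.finite_singleton B, fun A hA => e_of_not_le fun h => hA ⟨B, rfl, h⟩, ?_⟩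
    rintro A hA - x hx ⟨C, rfl, hC⟩
    rw [e_of_le hC, e_of_le ((le_ch hx).trans hC)]
  | zero => exact ⟨∅, Set.finite_empty, fun A _ => rfl, fun A _ _ x _ _ => rfl⟩
  | add g1 g2 _ _ h1 h2 =>
    obtain ⟨R1, a1, b1, c1⟩ := h1
    obtain ⟨R2, a2, b2, c2⟩ := h2
    have s1 : R1 ⊆ R1 ∪ R2 := fun _ h => Or.inl h
    have s2 : R2 ⊆ R1 ∪ R2 := fun _ h => Or.inr h
    have key : ∀ (g : B1) (R : Set Nd), R ⊆ R1 ∪ R2 → (∀ A, A ∉ Dn R → g A = 0) →
        (∀ A, A ∉ R → (A, 0) ∉ Br R → ∀ x, Ab A x → ch A x ∈ Dn R → g A = g (ch A x)) →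
        ∀ A, A ∉ R1 ∪ R2 → (A, 0) ∉ Br (R1 ∪ R2) → ∀ x, Ab A x → ch A x ∈ Dn (R1 ∪ R2) →
          g A = g (ch A x) := by
      intro g R hR hb hc A hA hBr x hx hch
      by_cases h : ch A x ∈ Dn R
      · exact hc A (fun h' => hA (hR h')) (fun h' => hBr (Br_mono hR h')) x hx h
      · rw [hb _ h]
        apply hb
        rintro ⟨B, hB, hAB⟩
        have hne : A ≠ B := fun h' => hA (hR (h' ▸ hB))
        obtain ⟨y, hy1, hy2⟩ := exists_ch (lt_of_le_of_ne hAB hne)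
        have hxy : x ≠ y := by
          rintro rfl
          exact h ⟨B, hB, hy2⟩
        exact hBr ⟨x, y, hxy, hx, hy1, Nat.zero_le _, Nat.zero_le _, hch, B, hR hB, hy2⟩
    refine ⟨R1 ∪ R2, a1.union a2, fun A hA => ?_, fun A hA hBr x hx hch => ?_⟩
    · rw [BoundedContinuousFunction.add_apply, b1 A fun h => hA (Dn_mono s1 h),
        b2 A fun h => hA (Dn_mono s2 h), add_zero]
    · rw [BoundedContinuousFunction.add_apply, BoundedContinuousFunction.add_apply,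
        key g1 R1 s1 b1 c1 A hA hBr x hx hch, key g2 R2 s2 b2 c2 A hA hBr x hx hch]
  | smul c g1 _ h1 =>
    obtain ⟨R1, a1, b1, c1⟩ := h1
    refine ⟨R1, a1, fun A hA => ?_, fun A hA hBr x hx hch => ?_⟩
    · rw [BoundedContinuousFunction.smul_apply, b1 A hA, smul_zero]
    · rw [BoundedContinuousFunction.smul_apply, BoundedContinuousFunction.smul_apply,
        c1 A hA hBr x hx hch]

theorem Sp_exact {g : B1} (hg : g ∈ Sp) : {A : Nd | g A ≠ gg g (A, 0)}.Finite := by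
  obtain ⟨R, hR, h1, h2⟩ := Sp_step hg
  have hBr : {A : Nd | (A, 0) ∈ Br R}.Finite :=
    (Br_finite hR).preimage (fun A _ B _ h => (Prod.ext_iff.1 h).1)
  refine (hR.union hBr).subset ?_
  intro A hA
  by_contra hcon
  rw [Set.mem_union, not_or] at hcon
  obtain ⟨hAR, hAB⟩ := hcon
  apply hA
  have hsm : ∀ ε : ℝ, 0 < ε → ∀ B, B ∉ Dn R → |g B| < ε := fun ε hε B hB => by
    rw [h1 B hB, abs_zero]; exact hε
  by_cases hx : ∃ x, Ab A x ∧ ch A x ∈ Dn R
  · obtain ⟨x, hx1, hx2⟩ := hx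
    rw [h2 A hAR hAB x hx1 hx2]
    have h3 : ∀ ε : ℝ, 0 < ε → |gg g (A, 0) - g (ch A x)| ≤ ε := fun ε hε =>
      (gg_near hε (hsm ε hε) hAB).2 x hx1 (Nat.zero_le _) hx2
    have h4 : |gg g (A, 0) - g (ch A x)| ≤ 0 := le_of_forall_pos_le_add fun ε hε => by
      rw [zero_add]; exact h3 ε hε
    have h5 := abs_nonpos_iff.1 h4
    linarith
  · push Not at hx
    have hA0 : A ∉ Dn R := by
      rintro ⟨B, hB, hAB'⟩
      have hne : A ≠ B := fun h' => hAR (h' ▸ hB)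
      obtain ⟨y, hy1, hy2⟩ := exists_ch (lt_of_le_of_ne hAB' hne)
      exact hx y hy1 ⟨B, hB, hy2⟩
    rw [h1 A hA0]
    have h3 : ∀ ε : ℝ, 0 < ε → |gg g (A, 0)| ≤ ε := fun ε hε =>
      (gg_near hε (hsm ε hε) hAB).1 fun x hx' _ => hx x hx'
    have h4 : |gg g (A, 0)| ≤ 0 := le_of_forall_pos_le_add fun ε hε => by
      rw [zero_add]; exact h3 ε hε
    exact (abs_nonpos_iff.1 h4).symm

theorem fst_fin {f : B1} (hf : f ∈ Zs) {δ : ℝ} (hδ : 0 < δ) :
    {A : Nd | δ < |f A - gg f (A, 0)|}.Finite := by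
  obtain ⟨g, hg, hd⟩ := Zs_approx hf (show 0 < δ / 4 by positivity)
  refine (Sp_exact hg).subset ?_
  intro A hA hcon
  have h1 : δ < |f A - gg f (A, 0)| := hA
  have h2 := (f - g).norm_coe_le_norm A
  have h3 := (gg f - gg g).norm_coe_le_norm (A, 0)
  have h4 := gg_lip f g
  rw [BoundedContinuousFunction.sub_apply, Real.norm_eq_abs] at h2 h3
  have h5 : f A - gg f (A, 0) = (f A - g A) - (gg f (A, 0) - gg g (A, 0)) := by
    rw [hcon]; ring
  rw [h5] at h1
  have h6 := abs_sub (f A - g A) (gg f (A, 0) - gg g (A, 0))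
  linarith

theorem PP_succ {f : B1} {A : Nd} {m : ℕ} {ε : ℝ} (hε : 0 ≤ ε)
    (h : ∀ x, Ab A x → x.2 = m → |f (ch A x)| ≤ ε) :
    |PP f (A, m) - PP f (A, m + 1)| ≤ ε := by
  have h1 : PP f (A, m + 1) ≤ PP f (A, m) := by
    apply PP_le
    intro x
    refine le_trans ?_ (tm_le_PP f (A, m) x)
    unfold tm
    by_cases hx : Ab A x ∧ m + 1 ≤ x.2
    · rw [if_pos hx, if_pos ⟨hx.1, (Nat.le_succ m).trans hx.2⟩]
    · rw [if_neg hx]
      split_ifs
      · exact le_max_right _ _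
      · exact le_rfl
  have h2 : PP f (A, m) ≤ PP f (A, m + 1) + ε := by
    apply PP_le
    intro x
    have h3 := tm_le_PP f (A, m + 1) x
    have h4 := PP_nonneg f (A, m + 1)
    unfold tm at h3 ⊢
    by_cases hx : Ab A x ∧ m ≤ x.2
    · rw [if_pos hx]
      rcases hx.2.eq_or_lt with h5 | h5
      · have h6 := h x hx.1 h5.symm
        refine max_le ?_ (by linarith)
        linarith [le_abs_self (f (ch A x))]
      · rw [if_pos ⟨hx.1, h5⟩] at h3
        linarith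
    · rw [if_neg hx]; linarith
  rw [abs_le]
  constructor <;> linarith

theorem C0_fin {k : B2} (hk : k ∈ C0) (m : ℕ) {δ : ℝ} (hδ : 0 < δ) :
    {A : Nd | δ ≤ |k (A, m)|}.Finite :=
  (hk δ hδ).preimage (f := fun A : Nd => (A, m)) (fun A _ B _ h => (Prod.ext_iff.1 h).1)

theorem snd_fin {x : B1 × B2} (hx : x ∈ Xs) (m : ℕ) {δ : ℝ} (hδ : 0 < δ) :
    {A : Nd | δ < |x.2 (A, m) - x.2 (A, m + 1)|}.Finite := by
  obtain ⟨hf, hk⟩ := hx
  obtain ⟨R, hR, hRf⟩ := Zs_finite hf (show 0 < δ / 8 by positivity)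
  have hex : {A : Nd | ∃ y : K, y.2 = m ∧ Ab A y ∧ ch A y ∈ Dn R}.Finite := finite_parents m hR
  refine ((hex.union (C0_fin hk m (show 0 < δ / 4 by positivity))).union
    (C0_fin hk (m + 1) (show 0 < δ / 4 by positivity))).subset ?_
  intro A hA
  by_contra hcon
  simp only [Set.mem_union, not_or] at hcon
  obtain ⟨⟨h1, h2⟩, h3⟩ := hcon
  have h2' : |(x.2 - gg x.1) (A, m)| < δ / 4 := not_le.1 h2
  have h3' : |(x.2 - gg x.1) (A, m + 1)| < δ / 4 := not_le.1 h3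
  rw [BoundedContinuousFunction.sub_apply] at h2' h3'
  have hA' : δ < |x.2 (A, m) - x.2 (A, m + 1)| := hA
  have h4 : |PP x.1 (A, m) - PP x.1 (A, m + 1)| ≤ δ / 8 := by
    apply PP_succ (by positivity)
    intro y hy1 hy2
    exact (hRf _ fun h => h1 ⟨y, hy2, hy1, h⟩).le
  have h5 : |PP (-x.1) (A, m) - PP (-x.1) (A, m + 1)| ≤ δ / 8 := by
    apply PP_succ (by positivity)
    intro y hy1 hy2
    rw [BoundedContinuousFunction.neg_apply, abs_neg]
    exact (hRf _ fun h => h1 ⟨y, hy2, hy1, h⟩).le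
  rw [gg_apply] at h2' h3'
  rw [abs_lt] at h2' h3'
  rw [abs_le] at h4 h5
  have : |x.2 (A, m) - x.2 (A, m + 1)| ≤ δ := by
    rw [abs_le]
    constructor <;> linarith [h2'.1, h2'.2, h3'.1, h3'.2, h4.1, h4.2, h5.1, h5.2]
  linarith

theorem fst_fin' {x : B1 × B2} (hx : x ∈ Xs) {δ : ℝ} (hδ : 0 < δ) :
    {A : Nd | δ < |x.1 A - x.2 (A, 0)|}.Finite := by
  obtain ⟨hf, hk⟩ := hx
  refine ((fst_fin hf (show 0 < δ / 2 by positivity)).union
    (C0_fin hk 0 (show 0 < δ / 2 by positivity))).subset ?_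
  intro A hA
  by_contra hcon
  simp only [Set.mem_union, not_or] at hcon
  obtain ⟨h1, h2⟩ := hcon
  have h1' : |x.1 A - gg x.1 (A, 0)| ≤ δ / 2 := not_lt.1 h1
  have h2' : |(x.2 - gg x.1) (A, 0)| < δ / 2 := not_le.1 h2
  rw [BoundedContinuousFunction.sub_apply] at h2'
  have hA' : δ < |x.1 A - x.2 (A, 0)| := hA
  rw [abs_lt] at h2'
  rw [abs_le] at h1'
  have : |x.1 A - x.2 (A, 0)| ≤ δ := by
    rw [abs_le]
    constructor <;> linarith [h2'.1, h2'.2, h1'.1, h1'.2]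
  linarith

/-- the spine coordinates are small far out -/
theorem spine_small {x : B1 × B2} (hx : x ∈ Xs) (A : Nd) {ε : ℝ} (hε : 0 < ε) :
    ∃ M : ℕ, ∀ m, M ≤ m → |x.2 (A, m)| < ε := by
  obtain ⟨hf, hk⟩ := hx
  obtain ⟨R, hR, hRf⟩ := Zs_finite hf (show 0 < ε / 4 by positivity)
  have h1 := finite_children A hR
  have h2 : {m : ℕ | ε / 2 ≤ |(x.2 - gg x.1) (A, m)|}.Finite :=
    (hk (ε / 2) (by positivity)).preimage (f := fun m : ℕ => (A, m))
      (fun m _ n _ h => (Prod.ext_iff.1 h).2)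
  obtain ⟨M1, hM1⟩ := (h1.image (fun x : K => x.2)).bddAbove
  obtain ⟨M2, hM2⟩ := h2.bddAbove
  refine ⟨max M1 M2 + 1, fun m hm => ?_⟩
  have hch : ∀ y, Ab A y → m ≤ y.2 → ch A y ∉ Dn R := by
    intro y hy1 hy2 hy3
    have h3 := hM1 ⟨y, ⟨hy1, hy3⟩, rfl⟩
    have := le_max_left M1 M2
    simp only at h3
    omega
  have h3 : |(x.2 - gg x.1) (A, m)| < ε / 2 := by
    by_contra hcon
    have h4 := hM2 (show m ∈ {m : ℕ | ε / 2 ≤ |(x.2 - gg x.1) (A, m)|} from not_lt.1 hcon)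
    have := le_max_right M1 M2
    omega
  have h4 : PP x.1 (A, m) ≤ ε / 4 := by
    apply PP_le
    intro y
    unfold tm
    split_ifs with hy
    · exact max_le ((le_abs_self _).trans (hRf _ (hch y hy.1 hy.2)).le) (by positivity)
    · positivity
  have h5 : PP (-x.1) (A, m) ≤ ε / 4 := by
    apply PP_le
    intro y
    unfold tm
    split_ifs with hy
    · refine max_le ((le_abs_self _).trans ?_) (by positivity)
      rw [BoundedContinuousFunction.neg_apply, abs_neg]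
      exact (hRf _ (hch y hy.1 hy.2)).le
    · positivity
  have h6 := PP_nonneg x.1 (A, m)
  have h7 := PP_nonneg (-x.1) (A, m)
  rw [BoundedContinuousFunction.sub_apply, gg_apply, abs_lt] at h3
  rw [abs_lt]
  constructor <;> linarith [h3.1, h3.2]

theorem Sp_cut {g : B1} (hg : g ∈ Sp) (b : Nd) :
    ∃ g' ∈ Sp, (∀ A, A ≤ b → g' A = g A) ∧ ∀ A, ¬ A ≤ b → g' A = 0 := by
  induction hg using Submodule.span_induction with
  | mem x hx =>
    obtain ⟨B, rfl⟩ := hx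
    refine ⟨e (B ⊓ b), Submodule.subset_span ⟨B ⊓ b, rfl⟩,
      fun A hA => ?_, fun A hA => e_of_not_le fun h => hA (h.trans inf_le_right)⟩
    by_cases h : A ≤ B
    · rw [e_of_le h, e_of_le (le_inf h hA)]
    · rw [e_of_not_le h, e_of_not_le fun h' => h (h'.trans inf_le_left)]
  | zero => exact ⟨0, Submodule.zero_mem _, fun A _ => rfl, fun A _ => rfl⟩
  | add g1 g2 _ _ h1 h2 =>
    obtain ⟨g1', a1, b1, c1⟩ := h1
    obtain ⟨g2', a2, b2, c2⟩ := h2
    refine ⟨g1' + g2', Submodule.add_mem _ a1 a2, fun A hA => ?_, fun A hA => ?_⟩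
    · rw [BoundedContinuousFunction.add_apply, BoundedContinuousFunction.add_apply, b1 A hA,
        b2 A hA]
    · rw [BoundedContinuousFunction.add_apply, c1 A hA, c2 A hA, add_zero]
  | smul c g1 _ h1 =>
    obtain ⟨g1', a1, b1, c1⟩ := h1
    refine ⟨c • g1', Submodule.smul_mem _ c a1, fun A hA => ?_, fun A hA => ?_⟩
    · rw [BoundedContinuousFunction.smul_apply, BoundedContinuousFunction.smul_apply, b1 A hA]
    · rw [BoundedContinuousFunction.smul_apply, c1 A hA, smul_zero]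


theorem exists_pos_lower {ι : Type*} (s : Finset ι) (f : ι → ℝ) (hf : ∀ i ∈ s, 0 < f i) {δ : ℝ}
    (hδ : 0 < δ) : ∃ η, 0 < η ∧ η ≤ δ ∧ ∀ i ∈ s, η ≤ f i := by
  classical
  induction s using Finset.induction_on with
  | empty => exact ⟨δ, hδ, le_rfl, fun i hi => absurd hi (Finset.notMem_empty i)⟩
  | insert a s ha ih =>
    obtain ⟨η, h1, h2, h3⟩ := ih fun i hi => hf i (Finset.mem_insert_of_mem hi)
    refine ⟨min η (f a), lt_min h1 (hf a (Finset.mem_insert_self _ _)),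
      (min_le_left _ _).trans h2, fun i hi => ?_⟩
    rcases Finset.mem_insert.1 hi with h | h
    · rw [h]; exact min_le_right _ _
    · exact (min_le_left _ _).trans (h3 i h)

/-- left continuity: finite exceptional set below -/
theorem Sp_lc {g : B1} (hg : g ∈ Sp) (A : Nd) : ∃ F : Set Nd, F.Finite ∧ (∀ C ∈ F, C < A) ∧
    ∀ D, D ≤ A → (∀ C ∈ F, ¬ D ≤ C) → g D = g A := by
  induction hg using Submodule.span_induction with
  | mem x hx =>
    obtain ⟨B, rfl⟩ := hx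
    by_cases h : A ≤ B
    · exact ⟨∅, Set.finite_empty, fun _ h => h.elim, fun D hD _ => by
        rw [e_of_le h, e_of_le (hD.trans h)]⟩
    · refine ⟨{A ⊓ B}, Set.finite_singleton _, ?_, fun D hD hD' => ?_⟩
      · rintro C rfl
        exact lt_of_le_of_ne inf_le_left fun h' => h (h' ▸ inf_le_right)
      · rw [e_of_not_le h, e_of_not_le fun h' => hD' _ rfl (le_inf hD h')]
  | zero => exact ⟨∅, Set.finite_empty, fun _ h => h.elim, fun D hD _ => rfl⟩
  | add g1 g2 _ _ h1 h2 =>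
    obtain ⟨F1, a1, b1, c1⟩ := h1
    obtain ⟨F2, a2, b2, c2⟩ := h2
    refine ⟨F1 ∪ F2, a1.union a2, ?_, fun D hD hD' => ?_⟩
    · rintro C (h | h)
      · exact b1 C h
      · exact b2 C h
    · rw [BoundedContinuousFunction.add_apply, BoundedContinuousFunction.add_apply,
        c1 D hD fun C hC => hD' C (Or.inl hC), c2 D hD fun C hC => hD' C (Or.inr hC)]
  | smul c g1 _ h1 =>
    obtain ⟨F1, a1, b1, c1⟩ := h1
    refine ⟨F1, a1, b1, fun D hD hD' => ?_⟩
    rw [BoundedContinuousFunction.smul_apply, BoundedContinuousFunction.smul_apply, c1 D hD hD']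

theorem Zs_lc {f : B1} (hf : f ∈ Zs) (A : Nd) {ε : ℝ} (hε : 0 < ε) :
    ∃ F : Set Nd, F.Finite ∧ (∀ C ∈ F, C < A) ∧
      ∀ D, D ≤ A → (∀ C ∈ F, ¬ D ≤ C) → |f D - f A| ≤ ε := by
  obtain ⟨g, hg, hd⟩ := Zs_approx hf (show 0 < ε / 2 by positivity)
  obtain ⟨F, a, b, c⟩ := Sp_lc hg A
  refine ⟨F, a, b, fun D hD hD' => ?_⟩
  have h1 := (f - g).norm_coe_le_norm D
  have h2 := (f - g).norm_coe_le_norm A
  rw [BoundedContinuousFunction.sub_apply, Real.norm_eq_abs] at h1 h2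
  have h3 := c D hD hD'
  have h4 : f D - f A = (f D - g D) - (f A - g A) := by rw [h3]; ring
  rw [h4]
  have h5 := abs_sub (f D - g D) (f A - g A)
  linarith

/-- the norm is attained on the tree space -/
theorem Zs_att {f : B1} (hf : f ∈ Zs) (h0 : 0 < ‖f‖) : ∃ A, |f A| = ‖f‖ := by
  have hex : ∃ A : Nd, ∀ ε : ℝ, 0 < ε → ∃ C, C ≤ A ∧ ‖f‖ - ε < |f C| := by
    by_contra hcon
    push Not at hcon
    choose δ hδ1 hδ2 using hcon
    obtain ⟨R, hR, hRf⟩ := Zs_finite hf (show 0 < ‖f‖ / 2 by positivity)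
    obtain ⟨η, hη1, hη2, hη3⟩ := exists_pos_lower hR.toFinset δ (fun A _ => hδ1 A)
      (show 0 < ‖f‖ / 2 by positivity)
    have : ‖f‖ ≤ ‖f‖ - η := by
      rw [BoundedContinuousFunction.norm_le (by linarith)]
      intro A
      rw [Real.norm_eq_abs]
      by_cases hA : A ∈ Dn R
      · obtain ⟨B, hB, hAB⟩ := hA
        have h1 := hδ2 B A hAB
        have h2 := hη3 B (hR.mem_toFinset.2 hB)
        linarith
      · have := hRf A hA
        linarith
    linarith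
  obtain ⟨A, hA1, hA2⟩ := (wellFounded_lt (α := Nd)).has_min
    {A : Nd | ∀ ε : ℝ, 0 < ε → ∃ C, C ≤ A ∧ ‖f‖ - ε < |f C|} hex
  refine ⟨A, le_antisymm (f.norm_coe_le_norm A) ?_⟩
  apply le_of_forall_pos_le_add
  intro ε hε
  obtain ⟨F, hF, hF1, hF2⟩ := Zs_lc hf A (show 0 < ε / 2 by positivity)
  have hF3 : ∀ C : Nd, ∃ δ : ℝ, 0 < δ ∧ (C ∈ F → ∀ D, D ≤ C → |f D| ≤ ‖f‖ - δ) := by
    intro C
    by_cases hC : C ∈ F
    · have h1 := hA2 C
      by_contra hcon
      push Not at hcon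
      apply hA2 C _ (hF1 C hC)
      intro δ hδ
      obtain ⟨-, D, hD1, hD2⟩ := hcon δ hδ
      exact ⟨D, hD1, hD2⟩
    · exact ⟨1, one_pos, fun h => absurd h hC⟩
  choose δ hδ1 hδ2 using hF3
  obtain ⟨η, hη1, hη2, hη3⟩ := exists_pos_lower hF.toFinset δ (fun A _ => hδ1 A)
    (show 0 < ε / 2 by positivity)
  obtain ⟨D, hD1, hD2⟩ := hA1 η hη1
  have h3 := hF2 D hD1 fun C hC hDC => by
    have h4 := hδ2 C hC D hDC
    have h5 := hη3 C (hF.mem_toFinset.2 hC)
    linarith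
  have h4 := abs_sub_abs_le_abs_sub (f D) (f A)
  linarith

theorem gg_norm (f : B1) : ‖gg f‖ ≤ ‖f‖ := by
  rw [BoundedContinuousFunction.norm_le (norm_nonneg _)]
  intro u
  rw [gg_apply, Real.norm_eq_abs, abs_le]
  have h1 := PP_nonneg f u
  have h2 := PP_nonneg (-f) u
  have h3 := PP_le_norm f u
  have h4 := PP_le_norm (-f) u
  rw [norm_neg] at h4
  constructor <;> linarith

/-- the norm is attained on the twisted space -/
theorem Xs_att {x : B1 × B2} (hx : x ∈ Xs) (h0 : 0 < ‖x‖) :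
    (∃ A, |x.1 A| = ‖x‖) ∨ ∃ u, |x.2 u| = ‖x‖ := by
  obtain ⟨hf, hk⟩ := hx
  rcases (norm_fst_le x).eq_or_lt with h1 | h1
  · left
    rw [← h1] at h0 ⊢
    exact Zs_att hf h0
  · right
    have h2 : ‖x.2‖ = ‖x‖ := by
      rw [Prod.norm_def] at h1 ⊢
      rcases le_total ‖x.1‖ ‖x.2‖ with h | h
      · rw [max_eq_right h]
      · rw [max_eq_left h] at h1
        exact absurd h1 (lt_irrefl _)
    set ε := (‖x‖ - ‖x.1‖) / 2 with hε
    have hε0 : 0 < ε := by rw [hε]; linarith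
    by_contra hcon
    push Not at hcon
    have hlt : ∀ u, |x.2 u| < ‖x‖ := fun u =>
      lt_of_le_of_ne (by rw [← h2]; exact x.2.norm_coe_le_norm u) (hcon u)
    have hKf : {u | ε ≤ |(x.2 - gg x.1) u|}.Finite := hk ε hε0
    obtain ⟨η, hη1, hη2, hη3⟩ := exists_pos_lower hKf.toFinset (fun u => ‖x‖ - |x.2 u|)
      (fun u _ => by linarith [hlt u]) hε0
    have h3 : ‖x.2‖ ≤ ‖x‖ - η := by
      rw [BoundedContinuousFunction.norm_le (by linarith [norm_nonneg x.1])]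
      intro u
      rw [Real.norm_eq_abs]
      by_cases hu : ε ≤ |(x.2 - gg x.1) u|
      · have := hη3 u (hKf.mem_toFinset.2 hu)
        linarith
      · push Not at hu
        rw [BoundedContinuousFunction.sub_apply] at hu
        have h4 := (gg x.1).norm_coe_le_norm u
        rw [Real.norm_eq_abs] at h4
        have h5 := gg_norm x.1
        have h6 := abs_sub_abs_le_abs_sub (x.2 u) (gg x.1 u)
        linarith
    linarith

end Pool.Agent.Helper568.Sm
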