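import Mathlib

set_option autoImplicit false
set_option linter.unusedVariables false

open Set Filter Topology
open scoped ContDiff

namespace Pool.Agent.Helper568.Sm

/-- a smooth convex function vanishing on the negative half line -/
noncomputable def kk (r : ℝ) : ℝ := ∫ t in (0 : ℝ)..r, expNegInvGlue t

theorem eng_cont : Continuous expNegInvGlue := (expNegInvGlue.contDiff (n := 0)).continuous

theorem kk_deriv (r : ℝ) : HasDerivAt kk (expNegInvGlue r) r :=
  intervalIntegral.integral_hasDerivAt_right (eng_cont.intervalIntegrable _ _)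
    (eng_cont.stronglyMeasurableAtFilter _ _) eng_cont.continuousAt

theorem kk_contDiff : ContDiff ℝ ∞ kk := by
  rw [contDiff_infty_iff_deriv]
  refine ⟨fun r => (kk_deriv r).differentiableAt, ?_⟩
  have : deriv kk = expNegInvGlue := funext fun r => (kk_deriv r).deriv
  rw [this]
  exact expNegInvGlue.contDiff

theorem kk_mono : Monotone kk := by
  apply monotone_of_deriv_nonneg (fun r => (kk_deriv r).differentiableAt)
  intro r
  rw [(kk_deriv r).deriv]
  exact expNegInvGlue.nonneg r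

theorem kk_convex : ConvexOn ℝ Set.univ kk := by
  apply Monotone.convexOn_univ_of_deriv (fun r => (kk_deriv r).differentiableAt)
  have : deriv kk = expNegInvGlue := funext fun r => (kk_deriv r).deriv
  rw [this]
  exact expNegInvGlue.monotone

theorem kk_zero {r : ℝ} (hr : r ≤ 0) : kk r = 0 := by
  unfold kk
  rw [intervalIntegral.integral_congr (g := fun _ => (0 : ℝ))]
  · simp
  · intro t ht
    rw [Set.uIcc_of_ge hr] at ht
    exact expNegInvGlue.zero_of_nonpos ht.2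

theorem kk_nonneg (r : ℝ) : 0 ≤ kk r := by
  rcases le_total r 0 with h | h
  · rw [kk_zero h]
  · rw [← kk_zero le_rfl]
    exact kk_mono h

theorem kk_unbounded : ∃ M : ℝ, 0 < M ∧ 1 < kk M := by
  have h0 : 0 < expNegInvGlue 1 := expNegInvGlue.pos_of_pos one_pos
  refine ⟨1 + 2 / expNegInvGlue 1, by positivity, ?_⟩
  have h1 := kk_convex.deriv_le_slope (x := 1) (y := 1 + 2 / expNegInvGlue 1)
    (Set.mem_univ _) (Set.mem_univ _) (by linarith [show 0 < 2 / expNegInvGlue 1 by positivity])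
    (kk_deriv 1).differentiableAt
  rw [(kk_deriv 1).deriv, slope_def_field, le_div_iff₀ (by
    linarith [show 0 < 2 / expNegInvGlue 1 by positivity])] at h1
  have h2 : expNegInvGlue 1 * (1 + 2 / expNegInvGlue 1 - 1) = 2 := by
    rw [add_sub_cancel_left]
    field_simp
  have h3 := kk_nonneg 1
  linarith

theorem kk_pos_arg {r : ℝ} (h : kk r ≠ 0) : 0 < r := by
  by_contra hcon
  exact h (kk_zero (not_lt.1 hcon))

section
variable {E : Type*} [NormedAddCommGroup E] [NormedSpace ℝ E] {ι : Type*}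

/-- ratio -/
noncomputable def uu (ev D : E →L[ℝ] ℝ) (v : E × ℝ) : ℝ :=
  (D v.1) ^ 2 / (v.2 ^ 2 - (ev v.1) ^ 2)

/-- the function -/
noncomputable def TH (ev D : ι → E →L[ℝ] ℝ) (v : E × ℝ) : ℝ :=
  ∑ᶠ i, kk (uu (ev i) (D i) v - 1)

variable {ev D : ι → E →L[ℝ] ℝ} (hev : ∀ i x, |ev i x| ≤ ‖x‖)
  (hD : ∀ i x, |D i x| ≤ 2 * ‖x‖)
  (hfin : ∀ (x : E) (δ : ℝ), 0 < δ → {i | δ < |D i x|}.Finite)

include hev in
theorem den_ge {v : E × ℝ} (hv : ‖v.1‖ < v.2) (i : ι) :
    (v.2 - ‖v.1‖) ^ 2 ≤ v.2 ^ 2 - (ev i v.1) ^ 2 := by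
  have h1 := hev i v.1
  have h2 : (ev i v.1) ^ 2 ≤ ‖v.1‖ ^ 2 := by
    rw [← sq_abs]
    exact pow_le_pow_left₀ (abs_nonneg _) h1 2
  nlinarith [norm_nonneg v.1]

include hev in
theorem den_pos {v : E × ℝ} (hv : ‖v.1‖ < v.2) (i : ι) :
    0 < v.2 ^ 2 - (ev i v.1) ^ 2 :=
  lt_of_lt_of_le (by have : 0 < v.2 - ‖v.1‖ := by linarith
                     positivity) (den_ge hev hv i)

include hev hD hfin in
theorem TH_loc {v : E × ℝ} (hv : ‖v.1‖ < v.2) : ∃ F : Finset ι,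
    ∀ᶠ w in 𝓝 v, ‖w.1‖ < w.2 ∧ ∀ i, i ∉ F → kk (uu (ev i) (D i) w - 1) = 0 := by
  set ρ := (v.2 - ‖v.1‖) / 4 with hρ
  have hρ0 : 0 < ρ := by rw [hρ]; linarith
  refine ⟨(hfin v.1 (ρ / 2) (by positivity)).toFinset, ?_⟩
  have h1 : ∀ᶠ w : E × ℝ in 𝓝 v, ‖w.1 - v.1‖ < ρ / 4 := by
    have : Tendsto (fun w : E × ℝ => ‖w.1 - v.1‖) (𝓝 v) (𝓝 ‖v.1 - v.1‖) :=
      ((continuous_fst.sub continuous_const).norm).tendsto v
    rw [sub_self, norm_zero] at this
    exact this.eventually (gt_mem_nhds (by positivity))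
  have h2 : ∀ᶠ w : E × ℝ in 𝓝 v, |w.2 - v.2| < ρ := by
    have : Tendsto (fun w : E × ℝ => |w.2 - v.2|) (𝓝 v) (𝓝 |v.2 - v.2|) :=
      ((continuous_snd.sub continuous_const).abs).tendsto v
    rw [sub_self, abs_zero] at this
    exact this.eventually (gt_mem_nhds (by positivity))
  filter_upwards [h1, h2] with w hw1 hw2
  have h3 : ‖w.1‖ ≤ ‖v.1‖ + ρ / 4 := by
    have := norm_le_norm_add_norm_sub' w.1 v.1
    linarith
  have h4 := abs_lt.1 hw2
  have h5 : 2 * ρ ≤ w.2 - ‖w.1‖ := by linarith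
  have h6 : ‖w.1‖ < w.2 := by linarith
  refine ⟨h6, fun i hi => ?_⟩
  have h7 : |D i v.1| ≤ ρ / 2 := by
    by_contra hcon
    exact hi ((hfin v.1 (ρ / 2) (by positivity)).mem_toFinset.2 (not_le.1 hcon))
  have h8 : |D i w.1| ≤ ρ := by
    have e1 : D i w.1 = D i v.1 + D i (w.1 - v.1) := by rw [map_sub]; ring
    rw [e1]
    have := abs_add_le (D i v.1) (D i (w.1 - v.1))
    have := hD i (w.1 - v.1)
    linarith
  apply kk_zero
  have h9 := den_ge hev h6 i
  have h10 := den_pos hev h6 i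
  unfold uu
  rw [sub_nonpos, div_le_one h10]
  have h11 : (D i w.1) ^ 2 ≤ ρ ^ 2 := by
    rw [← sq_abs]
    exact pow_le_pow_left₀ (abs_nonneg _) h8 2
  nlinarith

include hev hD hfin in
theorem TH_supp {v : E × ℝ} (hv : ‖v.1‖ < v.2) :
    (Function.support fun i => kk (uu (ev i) (D i) v - 1)).Finite := by
  obtain ⟨F, hF⟩ := TH_loc hev hD hfin hv
  refine F.finite_toSet.subset fun i hi => ?_
  by_contra hcon
  exact hi (hF.self_of_nhds.2 i hcon)

include hev hD hfin in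
theorem TH_eq {v : E × ℝ} (hv : ‖v.1‖ < v.2) : ∃ F : Finset ι,
    TH ev D =ᶠ[𝓝 v] fun w => ∑ i ∈ F, kk (uu (ev i) (D i) w - 1) := by
  obtain ⟨F, hF⟩ := TH_loc hev hD hfin hv
  refine ⟨F, ?_⟩
  filter_upwards [hF] with w hw
  unfold TH
  apply finsum_eq_sum_of_support_subset
  intro i hi
  by_contra hcon
  exact hi (hw.2 i hcon)

include hev in
theorem uu_contDiffAt {v : E × ℝ} (hv : ‖v.1‖ < v.2) (i : ι) :
    ContDiffAt ℝ ∞ (uu (ev i) (D i)) v := by
  have h1 : ContDiffAt ℝ ∞ (fun w : E × ℝ => (D i w.1) ^ 2) v :=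
    (((D i).contDiff.comp contDiff_fst).pow 2).contDiffAt
  have h2 : ContDiffAt ℝ ∞ (fun w : E × ℝ => w.2 ^ 2 - (ev i w.1) ^ 2) v :=
    ((contDiff_snd.pow 2).sub (((ev i).contDiff.comp contDiff_fst).pow 2)).contDiffAt
  exact h1.div h2 (den_pos hev hv i).ne'

include hev hD hfin in
theorem TH_contDiffAt {v : E × ℝ} (hv : ‖v.1‖ < v.2) : ContDiffAt ℝ ∞ (TH ev D) v := by
  obtain ⟨F, hF⟩ := TH_eq hev hD hfin hv
  refine ContDiffAt.congr_of_eventuallyEq ?_ hF
  apply ContDiffAt.sum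
  intro i _
  exact kk_contDiff.contDiffAt.comp v ((uu_contDiffAt hev hv i).sub contDiffAt_const)

include hev in
theorem uu_deriv {x : E} {l : ℝ} (hv : ‖x‖ < l) (i : ι) :
    HasDerivAt (fun l => uu (ev i) (D i) (x, l))
      (-(2 * l * (D i x) ^ 2 / (l ^ 2 - (ev i x) ^ 2) ^ 2)) l := by
  have h0 := den_pos hev (v := (x, l)) hv i
  simp only at h0
  have h1 : HasDerivAt (fun l : ℝ => l ^ 2 - (ev i x) ^ 2) (2 * l) l := by
    have := (hasDerivAt_pow 2 l).sub_const ((ev i x) ^ 2)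
    simpa using this
  have h2 := (hasDerivAt_const l ((D i x) ^ 2)).div h1 h0.ne'
  convert! h2 using 1
  simp only [zero_mul, zero_sub]
  ring

include hev hD hfin in
theorem TH_partial {x : E} {l : ℝ} (hv : ‖x‖ < l) (h1 : TH ev D (x, l) ≠ 0) :
    ∃ c : ℝ, c < 0 ∧ HasDerivAt (fun l => TH ev D (x, l)) c l := by
  obtain ⟨F, hF⟩ := TH_eq hev hD hfin (v := (x, l)) hv
  have hcont : Tendsto (fun l : ℝ => (x, l)) (𝓝 l) (𝓝 (x, l)) :=
    (Continuous.prodMk_right x).tendsto l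
  have hF' : (fun l => TH ev D (x, l)) =ᶠ[𝓝 l]
      fun l => ∑ i ∈ F, kk (uu (ev i) (D i) (x, l) - 1) := hcont.eventually hF
  have hd : ∀ i, HasDerivAt (fun l => kk (uu (ev i) (D i) (x, l) - 1))
      (expNegInvGlue (uu (ev i) (D i) (x, l) - 1) *
        (-(2 * l * (D i x) ^ 2 / (l ^ 2 - (ev i x) ^ 2) ^ 2))) l := by
    intro i
    have a1 := (uu_deriv (D := D) hev hv i).sub_const 1
    exact (kk_deriv _).comp l a1
  have hl : 0 < l := lt_of_le_of_lt (norm_nonneg x) hv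
  refine ⟨∑ i ∈ F, expNegInvGlue (uu (ev i) (D i) (x, l) - 1) *
        (-(2 * l * (D i x) ^ 2 / (l ^ 2 - (ev i x) ^ 2) ^ 2)), ?_, ?_⟩
  · have hex : ∃ i ∈ F, kk (uu (ev i) (D i) (x, l) - 1) ≠ 0 := by
      by_contra hcon
      push Not at hcon
      apply h1
      rw [hF.self_of_nhds]
      exact Finset.sum_eq_zero hcon
    obtain ⟨i, hi, hne⟩ := hex
    have hp := kk_pos_arg hne
    have hDi : D i x ≠ 0 := by
      intro h0
      unfold uu at hp
      rw [h0] at hp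
      norm_num at hp
    refine Finset.sum_neg' (fun j _ => ?_) ⟨i, hi, ?_⟩
    · rw [mul_neg, neg_nonpos]
      exact mul_nonneg (expNegInvGlue.nonneg _) (by positivity)
    · rw [mul_neg, neg_lt_zero]
      have h3 := den_pos hev (v := (x, l)) hv i
      simp only at h3
      have h4 := expNegInvGlue.pos_of_pos hp
      positivity
  · refine HasDerivAt.congr_of_eventuallyEq ?_ hF'
    exact HasDerivAt.fun_sum fun i _ => hd i


theorem uu_nonneg {ev D : E →L[ℝ] ℝ} (hev : ∀ x, |ev x| ≤ ‖x‖) {v : E × ℝ} (hv : ‖v.1‖ < v.2) :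
    0 ≤ uu ev D v := by
  have := den_pos (ι := Unit) (ev := fun _ => ev) (fun _ => hev) hv ()
  unfold uu
  positivity

include hev in
theorem uu_convex {x y : E} {l m : ℝ} (hx : ‖x‖ < l) (hy : ‖y‖ < m) (i : ι) :
    uu (ev i) (D i) (x + y, l + m) ≤
      l / (l + m) * uu (ev i) (D i) (x, l) + m / (l + m) * uu (ev i) (D i) (y, m) := by
  have hl : 0 < l := lt_of_le_of_lt (norm_nonneg x) hx
  have hm : 0 < m := lt_of_le_of_lt (norm_nonneg y) hy
  have hP := den_pos hev (v := (x, l)) hx i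
  have hQ := den_pos hev (v := (y, m)) hy i
  have hxy : ‖x + y‖ < l + m := (norm_add_le x y).trans_lt (by linarith)
  have hR := den_pos hev (v := (x + y, l + m)) hxy i
  simp only at hP hQ hR
  unfold uu
  simp only [map_add] at hR ⊢
  set d := D i x
  set d' := D i y
  set f := ev i x
  set g := ev i y
  set P := l ^ 2 - f ^ 2 with hPdef
  set Q := m ^ 2 - g ^ 2 with hQdef
  rw [div_le_iff₀ hR]
  have hs : 0 < l + m := by linarith
  -- Cauchy-Schwarz
  have h1 : (d + d') ^ 2 ≤ (l * d ^ 2 / P + m * d' ^ 2 / Q) * (P / l + Q / m) := by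
    have e1 : (l * d ^ 2 / P + m * d' ^ 2 / Q) * (P / l + Q / m) =
        d ^ 2 + d' ^ 2 + (l * Q / (m * P) * d ^ 2 + m * P / (l * Q) * d' ^ 2) := by
      field_simp
      ring
    rw [e1]
    have h2 : 0 < l * Q / (m * P) := by positivity
    have e2 : m * P / (l * Q) = (l * Q / (m * P))⁻¹ := by
      rw [inv_div]
    rw [e2]
    set r := l * Q / (m * P) with hr
    have h3 : 2 * d * d' ≤ r * d ^ 2 + r⁻¹ * d' ^ 2 := by
      have h4 : 0 ≤ r * (d - r⁻¹ * d') ^ 2 := by positivity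
      have h5 : r * (d - r⁻¹ * d') ^ 2 = r * d ^ 2 - 2 * d * d' * (r * r⁻¹) +
          (r * r⁻¹) * r⁻¹ * d' ^ 2 := by ring
      rw [h5, mul_inv_cancel₀ h2.ne'] at h4
      linarith
    nlinarith
  have h2 : P / l + Q / m ≤ ((l + m) ^ 2 - (f + g) ^ 2) / (l + m) := by
    rw [le_div_iff₀ hs]
    have e1 : (P / l + Q / m) * (l + m) = (l + m) ^ 2 - (f ^ 2 / l + g ^ 2 / m) * (l + m) := by
      rw [hPdef, hQdef]
      field_simp
      ring
    rw [e1]
    have e2 : (f ^ 2 / l + g ^ 2 / m) * (l + m) = f ^ 2 + g ^ 2 + (m / l * f ^ 2 + l / m * g ^ 2) := by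
      field_simp
      ring
    rw [e2]
    have h2 : 0 < m / l := by positivity
    have e3 : l / m = (m / l)⁻¹ := by rw [inv_div]
    rw [e3]
    set r := m / l with hr
    have h3 : 2 * f * g ≤ r * f ^ 2 + r⁻¹ * g ^ 2 := by
      have h4 : 0 ≤ r * (f - r⁻¹ * g) ^ 2 := by positivity
      have h5 : r * (f - r⁻¹ * g) ^ 2 = r * f ^ 2 - 2 * f * g * (r * r⁻¹) +
          (r * r⁻¹) * r⁻¹ * g ^ 2 := by ring
      rw [h5, mul_inv_cancel₀ h2.ne'] at h4
      linarith
    nlinarith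
  have h3 : 0 ≤ l * d ^ 2 / P + m * d' ^ 2 / Q := by positivity
  calc (d + d') ^ 2 ≤ (l * d ^ 2 / P + m * d' ^ 2 / Q) * (P / l + Q / m) := h1
    _ ≤ (l * d ^ 2 / P + m * d' ^ 2 / Q) * (((l + m) ^ 2 - (f + g) ^ 2) / (l + m)) :=
        mul_le_mul_of_nonneg_left h2 h3
    _ = (l / (l + m) * (d ^ 2 / P) + m / (l + m) * (d' ^ 2 / Q)) * ((l + m) ^ 2 - (f + g) ^ 2) := by
        ring

include hev hD hfin in
theorem TH_convex {x y : E} {l m : ℝ} (hx : ‖x‖ < l) (hy : ‖y‖ < m) :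
    TH ev D (x + y, l + m) ≤ l / (l + m) * TH ev D (x, l) + m / (l + m) * TH ev D (y, m) := by
  have hl : 0 < l := lt_of_le_of_lt (norm_nonneg x) hx
  have hm : 0 < m := lt_of_le_of_lt (norm_nonneg y) hy
  have hs : 0 < l + m := by linarith
  have hxy : ‖x + y‖ < l + m := (norm_add_le x y).trans_lt (by linarith)
  have s1 := TH_supp hev hD hfin (v := (x, l)) hx
  have s2 := TH_supp hev hD hfin (v := (y, m)) hy
  have s3 := TH_supp hev hD hfin (v := (x + y, l + m)) hxy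
  have hF := (s1.union s2).union s3
  have e1 : TH ev D (x, l) = ∑ i ∈ hF.toFinset, kk (uu (ev i) (D i) (x, l) - 1) :=
    finsum_eq_sum_of_support_subset _ fun i hi => hF.mem_toFinset.2 (Or.inl (Or.inl hi))
  have e2 : TH ev D (y, m) = ∑ i ∈ hF.toFinset, kk (uu (ev i) (D i) (y, m) - 1) :=
    finsum_eq_sum_of_support_subset _ fun i hi => hF.mem_toFinset.2 (Or.inl (Or.inr hi))
  have e3 : TH ev D (x + y, l + m) =
      ∑ i ∈ hF.toFinset, kk (uu (ev i) (D i) (x + y, l + m) - 1) :=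
    finsum_eq_sum_of_support_subset _ fun i hi => hF.mem_toFinset.2 (Or.inr hi)
  rw [e1, e2, e3, Finset.mul_sum, Finset.mul_sum, ← Finset.sum_add_distrib]
  apply Finset.sum_le_sum
  intro i _
  have h1 := uu_convex (D := D) hev hx hy i
  have h2 : l / (l + m) + m / (l + m) = 1 := by field_simp
  have h3 : uu (ev i) (D i) (x + y, l + m) - 1 ≤
      l / (l + m) * (uu (ev i) (D i) (x, l) - 1) + m / (l + m) * (uu (ev i) (D i) (y, m) - 1) := by
    have : l / (l + m) * (uu (ev i) (D i) (x, l) - 1) + m / (l + m) * (uu (ev i) (D i) (y, m) - 1)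
        = l / (l + m) * uu (ev i) (D i) (x, l) + m / (l + m) * uu (ev i) (D i) (y, m) -
          (l / (l + m) + m / (l + m)) := by ring
    rw [this, h2]
    linarith
  refine (kk_mono h3).trans ?_
  exact kk_convex.2 (Set.mem_univ _) (Set.mem_univ _) (by positivity) (by positivity) h2

theorem TH_hom (c : ℝ) (hc : c ≠ 0) (x : E) (l : ℝ) :
    TH ev D (c • x, |c| * l) = TH ev D (x, l) := by
  unfold TH
  congr 1
  funext i
  unfold uu
  simp only [map_smul, smul_eq_mul]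
  have h1 : (c * D i x) ^ 2 / ((|c| * l) ^ 2 - (c * ev i x) ^ 2) =
      (D i x) ^ 2 / (l ^ 2 - (ev i x) ^ 2) := by
    rw [mul_pow, mul_pow, mul_pow, sq_abs, ← mul_sub, mul_div_mul_left _ _ (pow_ne_zero 2 hc)]
  rw [h1]

theorem TH_nonneg (v : E × ℝ) : 0 ≤ TH ev D v := finsum_nonneg fun i => kk_nonneg _

include hev hD in
theorem TH_big {x : E} (hx : x ≠ 0) : TH ev D (x, 3 * ‖x‖) = 0 := by
  have hn : 0 < ‖x‖ := norm_pos_iff.2 hx
  have hlt : ‖x‖ < 3 * ‖x‖ := by linarith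
  unfold TH
  apply finsum_eq_zero_of_forall_eq_zero
  intro i
  apply kk_zero
  have h1 := den_pos hev (v := (x, 3 * ‖x‖)) hlt i
  unfold uu
  rw [sub_nonpos, div_le_one h1]
  simp only
  have h2 : (D i x) ^ 2 ≤ (2 * ‖x‖) ^ 2 := by
    rw [← sq_abs]
    exact pow_le_pow_left₀ (abs_nonneg _) (hD i x) 2
  have h3 : (ev i x) ^ 2 ≤ ‖x‖ ^ 2 := by
    rw [← sq_abs]
    exact pow_le_pow_left₀ (abs_nonneg _) (hev i x) 2
  nlinarith

variable (htal : ∀ x : E, x ≠ 0 → ∃ i, |ev i x| = ‖x‖ ∧ D i x ≠ 0)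

include hev hD hfin htal in
theorem TH_near {x : E} (hx : x ≠ 0) :
    ∃ δ : ℝ, 0 < δ ∧ ∀ l, ‖x‖ < l → l < ‖x‖ + δ → 1 < TH ev D (x, l) := by
  obtain ⟨M, hM0, hM⟩ := kk_unbounded
  obtain ⟨i, hi1, hi2⟩ := htal x hx
  have h1 : Tendsto (fun l : ℝ => (l ^ 2 - ‖x‖ ^ 2) * (M + 1)) (𝓝 ‖x‖)
      (𝓝 ((‖x‖ ^ 2 - ‖x‖ ^ 2) * (M + 1))) := by
    apply Continuous.tendsto
    fun_prop
  rw [sub_self, zero_mul] at h1
  have h2 : 0 < (D i x) ^ 2 := by positivity
  have h3 := h1.eventually (gt_mem_nhds h2)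
  obtain ⟨δ, hδ, h4⟩ := Metric.eventually_nhds_iff.1 h3
  refine ⟨δ, hδ, fun l hl1 hl2 => ?_⟩
  have h5 := h4 (y := l) (by
    rw [Real.dist_eq, abs_of_pos (by linarith)]; linarith)
  have h6 := den_pos hev (v := (x, l)) hl1 i
  have h7 : M ≤ uu (ev i) (D i) (x, l) - 1 := by
    unfold uu
    simp only at h6 ⊢
    rw [le_sub_iff_add_le, le_div_iff₀ h6]
    have h8 : (ev i x) ^ 2 = ‖x‖ ^ 2 := by rw [← sq_abs, hi1]
    rw [h8]
    linarith
  have h9 := TH_supp hev hD hfin (v := (x, l)) hl1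
  have h10 : kk (uu (ev i) (D i) (x, l) - 1) ≤ TH ev D (x, l) :=
    single_le_finsum i h9 fun j => kk_nonneg _
  have h11 := kk_mono h7
  linarith

/-- the renorming -/
noncomputable def NN (ev D : ι → E →L[ℝ] ℝ) (x : E) : ℝ :=
  sInf {l : ℝ | ‖x‖ < l ∧ TH ev D (x, l) ≤ 1}

theorem NN_bdd (x : E) : BddBelow {l : ℝ | ‖x‖ < l ∧ TH ev D (x, l) ≤ 1} :=
  ⟨‖x‖, fun l hl => hl.1.le⟩

include hev hD in
theorem NN_ne (x : E) : {l : ℝ | ‖x‖ < l ∧ TH ev D (x, l) ≤ 1}.Nonempty := by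
  by_cases hx : x = 0
  · refine ⟨1, by rw [hx, norm_zero]; exact one_pos, ?_⟩
    have : TH ev D (x, 1) = 0 := by
      unfold TH
      apply finsum_eq_zero_of_forall_eq_zero
      intro i
      apply kk_zero
      unfold uu
      rw [hx]
      norm_num
    rw [this]
    exact zero_le_one
  · refine ⟨3 * ‖x‖, ?_, ?_⟩
    · have : 0 < ‖x‖ := norm_pos_iff.2 hx
      linarith
    · rw [TH_big hev hD hx]
      exact zero_le_one

include hev hD in
theorem NN_ge (x : E) : ‖x‖ ≤ NN ev D x :=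
  le_csInf (NN_ne hev hD x) fun l hl => hl.1.le

theorem NN_zero : NN ev D 0 = 0 := by
  unfold NN
  have : {l : ℝ | ‖(0 : E)‖ < l ∧ TH ev D (0, l) ≤ 1} = Set.Ioi 0 := by
    ext l
    simp only [norm_zero, Set.mem_ofPred_eq, Set.mem_Ioi, and_iff_left_iff_imp]
    intro _
    have : TH ev D (0, l) = 0 := by
      unfold TH
      apply finsum_eq_zero_of_forall_eq_zero
      intro i
      apply kk_zero
      unfold uu
      norm_num
    rw [this]
    exact zero_le_one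
  rw [this, csInf_Ioi]

include hev hD in
theorem NN_le (x : E) : NN ev D x ≤ 3 * ‖x‖ := by
  by_cases hx : x = 0
  · rw [hx, NN_zero, norm_zero, mul_zero]
  · have : 0 < ‖x‖ := norm_pos_iff.2 hx
    exact csInf_le (NN_bdd x) ⟨by linarith, by rw [TH_big hev hD hx]; exact zero_le_one⟩

include hev hD in
theorem NN_smul_le (c : ℝ) (hc : c ≠ 0) (x : E) : NN ev D (c • x) ≤ |c| * NN ev D x := by
  have hc' : 0 < |c| := abs_pos.2 hc
  rw [← div_le_iff₀' hc']
  apply le_csInf (NN_ne hev hD x)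
  rintro l ⟨hl1, hl2⟩
  rw [div_le_iff₀' hc']
  apply csInf_le (NN_bdd _)
  refine ⟨?_, ?_⟩
  · rw [norm_smul, Real.norm_eq_abs]
    exact mul_lt_mul_of_pos_left hl1 hc'
  · rw [TH_hom c hc]
    exact hl2

include hev hD in
theorem NN_smul (c : ℝ) (x : E) : NN ev D (c • x) = |c| * NN ev D x := by
  by_cases hc : c = 0
  · rw [hc, zero_smul, NN_zero, abs_zero, zero_mul]
  · apply le_antisymm (NN_smul_le hev hD c hc x)
    have h1 := NN_smul_le hev hD c⁻¹ (inv_ne_zero hc) (c • x)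
    rw [smul_smul, inv_mul_cancel₀ hc, one_smul, abs_inv] at h1
    have hc' : 0 < |c| := abs_pos.2 hc
    rw [← div_eq_inv_mul, le_div_iff₀' hc'] at h1
    exact h1

include hev hD hfin in
theorem NN_add (x y : E) : NN ev D (x + y) ≤ NN ev D x + NN ev D y := by
  rw [← sub_le_iff_le_add]
  apply le_csInf (NN_ne hev hD x)
  rintro l ⟨hl1, hl2⟩
  rw [sub_le_comm]
  apply le_csInf (NN_ne hev hD y)
  rintro m ⟨hm1, hm2⟩
  rw [sub_le_iff_le_add]
  apply csInf_le (NN_bdd _)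
  have hl : 0 < l := lt_of_le_of_lt (norm_nonneg x) hl1
  have hm : 0 < m := lt_of_le_of_lt (norm_nonneg y) hm1
  refine ⟨(norm_add_le x y).trans_lt (by linarith), ?_⟩
  rw [add_comm m l]
  refine (TH_convex hev hD hfin hl1 hm1).trans ?_
  have h2 : l / (l + m) + m / (l + m) = 1 := by field_simp
  have h3 : l / (l + m) * TH ev D (x, l) ≤ l / (l + m) * 1 :=
    mul_le_mul_of_nonneg_left hl2 (by positivity)
  have h4 : m / (l + m) * TH ev D (y, m) ≤ m / (l + m) * 1 :=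
    mul_le_mul_of_nonneg_left hm2 (by positivity)
  linarith

include hev hD hfin in
theorem NN_continuous : Continuous (NN ev D) := by
  have : LipschitzWith 3 (NN ev D) := by
    apply LipschitzWith.of_le_add_mul
    intro x y
    have h1 := NN_add hev hD hfin (x - y) y
    rw [sub_add_cancel] at h1
    have h2 := NN_le hev hD (x - y)
    rw [dist_eq_norm]
    have e3 : ((3 : NNReal) : ℝ) = 3 := rfl
    rw [e3]
    linarith
  exact this.continuous

include hev hD hfin htal in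
theorem NN_gt {x : E} (hx : x ≠ 0) : ‖x‖ < NN ev D x := by
  obtain ⟨δ, hδ, h⟩ := TH_near hev hD hfin htal hx
  have : ‖x‖ + δ ≤ NN ev D x := by
    apply le_csInf (NN_ne hev hD x)
    rintro l ⟨hl1, hl2⟩
    by_contra hcon
    exact absurd (h l hl1 (not_le.1 hcon)) (not_lt.2 hl2)
  linarith

include hev hD hfin htal in
theorem NN_eq {x : E} (hx : x ≠ 0) : TH ev D (x, NN ev D x) = 1 := by
  have h1 := NN_gt hev hD hfin htal hx
  have hc : ContinuousAt (fun l => TH ev D (x, l)) (NN ev D x) := by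
    have h2 : ContinuousAt (TH ev D) (x, NN ev D x) :=
      (TH_contDiffAt hev hD hfin (v := (x, NN ev D x)) h1).continuousAt
    exact h2.comp (Continuous.prodMk_right x).continuousAt
  apply le_antisymm
  · by_contra hcon
    push Not at hcon
    have h2 := hc.eventually (lt_mem_nhds hcon)
    obtain ⟨δ, hδ, h3⟩ := Metric.eventually_nhds_iff.1 h2
    obtain ⟨l, ⟨hl1, hl2⟩, hl3⟩ := exists_lt_of_csInf_lt (NN_ne hev hD x)
      (show sInf {l : ℝ | ‖x‖ < l ∧ TH ev D (x, l) ≤ 1} < NN ev D x + δ by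
        show NN ev D x < NN ev D x + δ
        linarith)
    have h4 : NN ev D x ≤ l := csInf_le (NN_bdd x) ⟨hl1, hl2⟩
    have h5 := h3 (y := l) (by rw [Real.dist_eq, abs_of_nonneg (by linarith)]; linarith)
    exact absurd h5 (not_lt.2 hl2)
  · by_contra hcon
    push Not at hcon
    have h2 := hc.eventually (gt_mem_nhds hcon)
    have h3 : ∀ᶠ l in 𝓝 (NN ev D x), ‖x‖ < l := lt_mem_nhds h1
    obtain ⟨δ, hδ, h4⟩ := Metric.eventually_nhds_iff.1 (h2.and h3)
    have h5 := h4 (y := NN ev D x - δ / 2) (by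
      rw [Real.dist_eq, sub_sub_cancel_left, abs_neg, abs_of_pos (by positivity)]; linarith)
    have h6 : NN ev D x ≤ NN ev D x - δ / 2 := csInf_le (NN_bdd x) ⟨h5.2, h5.1.le⟩
    linarith

include hev hD hfin htal in
theorem NN_smooth [CompleteSpace E] {x : E} (hx : x ≠ 0) : ContDiffAt ℝ ∞ (NN ev D) x := by
  have h1 := NN_gt hev hD hfin htal hx
  have h2 := NN_eq hev hD hfin htal hx
  have hcd : ContDiffAt ℝ ∞ (TH ev D) (x, NN ev D x) :=
    TH_contDiffAt hev hD hfin (v := (x, NN ev D x)) h1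
  have hn0 : (∞ : WithTop ℕ∞) ≠ 0 := by simp
  obtain ⟨c, hc, hd⟩ := TH_partial hev hD hfin h1 (by rw [h2]; exact one_ne_zero)
  have hfd : HasFDerivAt (TH ev D) (fderiv ℝ (TH ev D) (x, NN ev D x)) (x, NN ev D x) :=
    (hcd.differentiableAt hn0).hasFDerivAt
  have hline : HasDerivAt (fun l : ℝ => (x, l)) ((0 : E), (1 : ℝ)) (NN ev D x) :=
    (hasDerivAt_const _ x).prodMk (hasDerivAt_id _)
  have hd2 : HasDerivAt (fun l => TH ev D (x, l))
      (fderiv ℝ (TH ev D) (x, NN ev D x) ((0 : E), (1 : ℝ))) (NN ev D x) :=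
    HasFDerivAt.comp_hasDerivAt (NN ev D x) hfd hline
  have hceq := hd.unique hd2
  have hinv : (fderiv ℝ (TH ev D) (x, NN ev D x) ∘L .inr ℝ E ℝ).IsInvertible := by
    refine ⟨ContinuousLinearEquiv.unitsEquivAut ℝ (Units.mk0 c hc.ne), ?_⟩
    ext
    simp only [ContinuousLinearEquiv.coe_coe, ContinuousLinearEquiv.unitsEquivAut_apply,
      Units.val_mk0, one_mul, ContinuousLinearMap.coe_comp, Function.comp_apply,
      ContinuousLinearMap.inr_apply]
    exact hceq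
  have h3 := hcd.eventually_apply_eq_iff_implicitFunction hn0 hinv
  have h4 := hcd.contDiffAt_implicitFunction hn0 hinv
  refine ContDiffAt.congr_of_eventuallyEq (show ContDiffAt ℝ ∞ _ x from h4) ?_
  have h5 : Tendsto (fun y => (y, NN ev D y)) (𝓝 x) (𝓝 (x, NN ev D x)) :=
    (continuous_id.prodMk (NN_continuous hev hD hfin)).tendsto x
  filter_upwards [h5.eventually h3, isOpen_compl_singleton.mem_nhds hx] with y hy1 hy2
  have h6 := NN_eq hev hD hfin htal hy2
  exact (hy1.1 (by rw [h6, h2])).symm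

end

end Pool.Agent.Helper568.Sm
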