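import Pool.Agent.Helper568.Sm3
import Pool.Agent.Helper568.Sm4

set_option autoImplicit false
set_option linter.unusedVariables false

open Set Filter Topology BoundedContinuousFunction
open scoped ContDiff

namespace Pool.Agent.Helper568.Sm

open Nd

/-- the LUR renormable space -/
def XT : Type := ↥Xs
noncomputable instance : NormedAddCommGroup XT := inferInstanceAs (NormedAddCommGroup ↥Xs)
noncomputable instance : NormedSpace ℝ XT := inferInstanceAs (NormedSpace ℝ ↥Xs)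
instance : CompleteSpace XT := Xs_closed.completeSpace_coe

/-- the tree space -/
def ZT : Type := ↥Zs
noncomputable instance : NormedAddCommGroup ZT := inferInstanceAs (NormedAddCommGroup ↥Zs)
noncomputable instance : NormedSpace ℝ ZT := inferInstanceAs (NormedSpace ℝ ↥Zs)
instance : CompleteSpace ZT := Zs_closed.completeSpace_coe

/-- the sequence space -/
def CT : Type := ↥C0
noncomputable instance : NormedAddCommGroup CT := inferInstanceAs (NormedAddCommGroup ↥C0)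
noncomputable instance : NormedSpace ℝ CT := inferInstanceAs (NormedSpace ℝ ↥C0)
instance : CompleteSpace CT := C0_closed.completeSpace_coe

/-- inclusion -/
noncomputable def incX : XT →L[ℝ] B1 × B2 := Xs.subtypeL

theorem incX_norm (x : XT) : ‖incX x‖ = ‖x‖ := rfl

theorem incX_mem (x : XT) : incX x ∈ Xs := Subtype.mem (show ↥Xs from x)

/-- first evaluation -/
noncomputable def ev1 (A : Nd) : XT →L[ℝ] ℝ :=
  (BoundedContinuousFunction.evalCLM ℝ A).comp ((ContinuousLinearMap.fst ℝ B1 B2).comp incX)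

/-- second evaluation -/
noncomputable def ev2 (u : Nd × ℕ) : XT →L[ℝ] ℝ :=
  (BoundedContinuousFunction.evalCLM ℝ u).comp ((ContinuousLinearMap.snd ℝ B1 B2).comp incX)

theorem ev1_apply (A : Nd) (x : XT) : ev1 A x = (incX x).1 A := rfl

theorem ev2_apply (u : Nd × ℕ) (x : XT) : ev2 u x = (incX x).2 u := rfl

theorem abs_ev1 (A : Nd) (x : XT) : |ev1 A x| ≤ ‖x‖ := by
  rw [ev1_apply]
  exact ((incX x).1.norm_coe_le_norm A).trans (norm_fst_le (incX x))

theorem abs_ev2 (u : Nd × ℕ) (x : XT) : |ev2 u x| ≤ ‖x‖ := by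
  rw [ev2_apply]
  exact ((incX x).2.norm_coe_le_norm u).trans (norm_snd_le (incX x))

/-- the coordinate functionals -/
noncomputable def DD : Nd × ℕ → XT →L[ℝ] ℝ
  | (A, 0) => ev1 A - ev2 (A, 0)
  | (A, m + 1) => ((1 / 2 : ℝ) ^ (m + 1)) • (ev2 (A, m) - ev2 (A, m + 1))

theorem DD_zero (A : Nd) (x : XT) : DD (A, 0) x = (incX x).1 A - (incX x).2 (A, 0) := rfl

theorem DD_succ (A : Nd) (m : ℕ) (x : XT) : DD (A, m + 1) x =
    (1 / 2 : ℝ) ^ (m + 1) * ((incX x).2 (A, m) - (incX x).2 (A, m + 1)) := rfl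

theorem DD_bound (A : Nd) (m : ℕ) (x : XT) : |DD (A, m) x| ≤ (1 / 2 : ℝ) ^ m * (2 * ‖x‖) := by
  cases m with
  | zero =>
    rw [DD_zero, pow_zero, one_mul, ← ev1_apply, ← ev2_apply]
    have := abs_sub (ev1 A x) (ev2 (A, 0) x)
    linarith [abs_ev1 A x, abs_ev2 (A, 0) x]
  | succ m =>
    rw [DD_succ, ← ev2_apply, ← ev2_apply, abs_mul, abs_of_pos (by positivity)]
    apply mul_le_mul_of_nonneg_left _ (by positivity)
    have := abs_sub (ev2 (A, m) x) (ev2 (A, m + 1) x)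
    linarith [abs_ev2 (A, m) x, abs_ev2 (A, m + 1) x]

theorem DD_fin (x : XT) (δ : ℝ) (hδ : 0 < δ) : {γ | δ < |DD γ x|}.Finite := by
  obtain ⟨M, hM⟩ := exists_pow_lt_of_lt_one (show 0 < δ / (2 * ‖x‖ + 1) by positivity)
    (show (1 / 2 : ℝ) < 1 by norm_num)
  have hsmall : ∀ A m, M ≤ m → |DD (A, m) x| ≤ δ := by
    intro A m hm
    refine (DD_bound A m x).trans ?_
    have h1 : (1 / 2 : ℝ) ^ m ≤ (1 / 2 : ℝ) ^ M :=
      pow_le_pow_of_le_one (by norm_num) (by norm_num) hm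
    have h2 : (1 / 2 : ℝ) ^ m * (2 * ‖x‖) ≤ δ / (2 * ‖x‖ + 1) * (2 * ‖x‖) :=
      mul_le_mul_of_nonneg_right (h1.trans hM.le) (by positivity)
    have h3 : δ / (2 * ‖x‖ + 1) * (2 * ‖x‖) ≤ δ := by
      rw [div_mul_eq_mul_div, div_le_iff₀ (by positivity)]
      nlinarith [norm_nonneg x]
    linarith
  have hcol : ∀ m, {A | δ < |DD (A, m) x|}.Finite := by
    intro m
    cases m with
    | zero =>
      exact fst_fin' (incX_mem x) hδ
    | succ m =>
      refine (snd_fin (incX_mem x) m hδ).subset ?_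
      intro A hA
      have h1 : δ < |DD (A, m + 1) x| := hA
      rw [DD_succ, abs_mul, abs_of_pos (by positivity)] at h1
      have h2 : (1 / 2 : ℝ) ^ (m + 1) ≤ 1 := pow_le_one₀ (by norm_num) (by norm_num)
      have h3 := mul_le_mul_of_nonneg_right h2 (abs_nonneg
        ((incX x).2 (A, m) - (incX x).2 (A, m + 1)))
      show δ < |(incX x).2 (A, m) - (incX x).2 (A, m + 1)|
      linarith
  have hsub : {γ : Nd × ℕ | δ < |DD γ x|} ⊆
      ⋃ m ∈ Set.Iio M, (fun A : Nd => (A, m)) '' {A | δ < |DD (A, m) x|} := by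
    rintro ⟨A, m⟩ h
    simp only [Set.mem_iUnion]
    refine ⟨m, ?_, A, h, rfl⟩
    by_contra hcon
    exact absurd (hsmall A m (not_lt.1 hcon)) (not_le.2 h)
  exact ((Set.finite_Iio M).biUnion fun m _ => (hcol m).image _).subset hsub

/-- all evaluations -/
noncomputable def EV : Nd × ℕ → XT →L[ℝ] ℝ
  | (A, 0) => ev1 A
  | (A, m + 1) => ev2 (A, m)

theorem EV_zero (A : Nd) (x : XT) : EV (A, 0) x = (incX x).1 A := rfl

theorem EV_succ (A : Nd) (m : ℕ) (x : XT) : EV (A, m + 1) x = (incX x).2 (A, m) := rfl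

theorem EV_le (i : Nd × ℕ) (x : XT) : |EV i x| ≤ ‖x‖ := by
  obtain ⟨A, m⟩ := i
  cases m with
  | zero => exact abs_ev1 A x
  | succ m => exact abs_ev2 (A, m) x

theorem DD_le (i : Nd × ℕ) (x : XT) : |DD i x| ≤ 2 * ‖x‖ := by
  obtain ⟨A, m⟩ := i
  refine (DD_bound A m x).trans ?_
  have h1 : (1 / 2 : ℝ) ^ m ≤ 1 := pow_le_one₀ (by norm_num) (by norm_num)
  have h2 : 0 ≤ 2 * ‖x‖ := by positivity
  nlinarith

theorem DD_eq (A : Nd) (m : ℕ) (x : XT) (h : DD (A, m) x = 0) :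
    EV (A, m) x = EV (A, m + 1) x := by
  cases m with
  | zero =>
    rw [DD_zero] at h
    rw [EV_zero, EV_succ]
    linarith
  | succ m =>
    rw [DD_succ] at h
    rw [EV_succ, EV_succ]
    rcases mul_eq_zero.1 h with h1 | h1
    · exact absurd h1 (by positivity)
    · linarith

theorem DD_tal (x : XT) (hx : x ≠ 0) : ∃ i, |EV i x| = ‖x‖ ∧ DD i x ≠ 0 := by
  have h0 : 0 < ‖x‖ := norm_pos_iff.2 hx
  have h1 : ∃ A m, |EV (A, m) x| = ‖x‖ := by
    rcases Xs_att (incX_mem x) (by rw [incX_norm]; exact h0) with ⟨A, hA⟩ | ⟨⟨A, m⟩, hA⟩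
    · exact ⟨A, 0, by rw [EV_zero, hA, incX_norm]⟩
    · exact ⟨A, m + 1, by rw [EV_succ, hA, incX_norm]⟩
  obtain ⟨A, m, hm⟩ := h1
  by_contra hcon
  push Not at hcon
  have h2 : ∀ j, |EV (A, m + j) x| = ‖x‖ := by
    intro j
    induction j with
    | zero => exact hm
    | succ j ih =>
      rw [← add_assoc, ← DD_eq A (m + j) x (hcon _ ih)]
      exact ih
  obtain ⟨M, hM⟩ := spine_small (incX_mem x) A h0
  have h3 := h2 (M + 1)
  rw [← add_assoc, EV_succ] at h3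
  have h4 := hM (m + M) (by omega)
  linarith

theorem XT_smooth : ∃ N : XT → ℝ, (∀ x y : XT, N (x + y) ≤ N x + N y) ∧
      (∀ (a : ℝ) (x : XT), N (a • x) = |a| * N x) ∧
      (∃ c C : ℝ, 0 < c ∧ 0 < C ∧ ∀ x : XT, c * ‖x‖ ≤ N x ∧ N x ≤ C * ‖x‖) ∧
      (∀ x : XT, x ≠ 0 → ContDiffAt ℝ ∞ N x) := by
  refine ⟨NN EV DD, NN_add EV_le DD_le DD_fin, NN_smul EV_le DD_le, ⟨1, 3, one_pos, by norm_num,
    fun x => ⟨?_, NN_le EV_le DD_le x⟩⟩, fun x hx => NN_smooth EV_le DD_le DD_fin DD_tal hx⟩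
  rw [one_mul]
  exact NN_ge EV_le DD_le x

/-- evaluation on the tree space -/
noncomputable def evZ (A : Nd) : ZT →ₗ[ℝ] ℝ :=
  ((BoundedContinuousFunction.evalCLM ℝ A : B1 →L[ℝ] ℝ).comp Zs.subtypeL).toLinearMap

theorem evZ_apply (A : Nd) (x : ZT) : evZ A x = (show ↥Zs from x).1 A := rfl

/-- the bijection between the two spaces -/
noncomputable def eqv : XT ≃ (ZT × CT) := equiv

theorem eqv_norm (x y : XT) : ‖eqv x - eqv y‖ ≤ 3 * ‖x - y‖ := equiv_norm x y

theorem eqv_symm_norm (x y : ZT × CT) : ‖eqv.symm x - eqv.symm y‖ ≤ 3 * ‖x - y‖ :=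
  equiv_symm_norm x y


end Pool.Agent.Helper568.Sm
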