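import Pool.Agent.Helper568.Sm5

set_option autoImplicit false
set_option linter.unusedVariables false

open Set Filter Topology BoundedContinuousFunction

namespace Pool.Agent.Helper568.Sm

open Nd

open Classical in
/-- restriction to a branch -/
noncomputable def cutB (b : Nd) (f : B1) : B1 :=
  BoundedContinuousFunction.ofNormedAddCommGroupDiscrete (fun A => if A ≤ b then f A else 0) ‖f‖
    (fun A => by
      split_ifs
      · exact f.norm_coe_le_norm A
      · rw [norm_zero]; exact norm_nonneg _)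

open Classical in
theorem cutB_apply (b : Nd) (f : B1) (A : Nd) : cutB b f A = if A ≤ b then f A else 0 := rfl

theorem cutB_Sp (b : Nd) {g : B1} (hg : g ∈ Sp) : cutB b g ∈ Sp := by
  obtain ⟨g', h1, h2, h3⟩ := Sp_cut hg b
  have : cutB b g = g' := by
    ext A
    rw [cutB_apply]
    split_ifs with h
    · exact (h2 A h).symm
    · exact (h3 A h).symm
  rw [this]
  exact h1

theorem cutB_mem (b : Nd) {f : B1} (hf : f ∈ Zs) : cutB b f ∈ Zs := by
  have : cutB b f ∈ closure (Sp : Set B1) := by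
    rw [Metric.mem_closure_iff]
    intro ε hε
    obtain ⟨g, hg, hd⟩ := Zs_approx hf (show 0 < ε / 2 by positivity)
    refine ⟨cutB b g, cutB_Sp b hg, ?_⟩
    rw [dist_eq_norm]
    have : ‖cutB b f - cutB b g‖ ≤ ε / 2 := by
      rw [BoundedContinuousFunction.norm_le (by positivity)]
      intro A
      rw [BoundedContinuousFunction.sub_apply, cutB_apply, cutB_apply]
      split_ifs
      · have := (f - g).norm_coe_le_norm A
        rw [BoundedContinuousFunction.sub_apply] at this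
        exact this.trans hd.le
      · rw [sub_zero, norm_zero]; positivity
    linarith
  exact this

/-- the element of the tree space given by a member of the submodule -/
def mkZ (f : B1) (hf : f ∈ Zs) : ZT := (⟨f, hf⟩ : ↥Zs)

theorem evZ_mkZ (f : B1) (hf : f ∈ Zs) (A : Nd) : evZ A (mkZ f hf) = f A := rfl

theorem ZT_norm_le {x : ZT} {M : ℝ} (hM : 0 ≤ M) (h : ∀ A, |evZ A x| ≤ M) : ‖x‖ ≤ M :=
  (BoundedContinuousFunction.norm_le hM).2 h

theorem abs_evZ (A : Nd) (x : ZT) : |evZ A x| ≤ ‖x‖ :=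
  (show ↥Zs from x).1.norm_coe_le_norm A

theorem ZT_ext {x y : ZT} (h : ∀ A, evZ A x = evZ A y) : x = y := by
  apply Subtype.ext
  ext A
  exact h A

/-- branch indicator -/
noncomputable def eZ (B : Nd) : ZT := mkZ (e B) (e_mem B)

open Classical in
theorem evZ_eZ (A B : Nd) : evZ A (eZ B) = if A ≤ B then (1 : ℝ) else 0 := rfl

/-- restriction -/
noncomputable def cutZ (b : Nd) (x : ZT) : ZT :=
  mkZ (cutB b (show ↥Zs from x).1) (cutB_mem b (show ↥Zs from x).2)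

open Classical in
theorem evZ_cutZ (A b : Nd) (x : ZT) : evZ A (cutZ b x) = if A ≤ b then evZ A x else 0 := rfl

theorem ZT_lc (x : ZT) (A : Nd) {ε : ℝ} (hε : 0 < ε) :
    ∃ F : Set Nd, F.Finite ∧ (∀ C ∈ F, C < A) ∧
      ∀ D, D ≤ A → (∀ C ∈ F, ¬ D ≤ C) → |evZ D x - evZ A x| ≤ ε :=
  Zs_lc (show ↥Zs from x).2 A hε

theorem ZT_dense (r : Nd) : ∃ w : ℕ → ZT, ∀ (x : ZT) (δ : ℝ), 0 < δ →
    ∃ j, ∀ t, t ≤ r → |evZ t x - evZ t (w j)| ≤ δ := by
  have hsub : (Submodule.span ℝ (e '' {B | B ≤ r}) : Submodule ℝ B1) ≤ Sp :=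
    Submodule.span_mono (Set.image_subset_range _ _)
  have hsep : TopologicalSpace.IsSeparable
      ((Submodule.span ℝ (e '' {B | B ≤ r}) : Submodule ℝ B1) : Set B1) :=
    (((countable_Iic r).image e).isSeparable).span
  obtain ⟨c, hc1, hc2, hc3⟩ := hsep.exists_countable_dense_subset
  have hne : c.Nonempty := by
    rw [← closure_nonempty_iff]
    exact ⟨0, hc3 (Submodule.zero_mem _)⟩
  obtain ⟨w, hw⟩ := hc2.exists_eq_range hne
  have hwm : ∀ j, w j ∈ Zs := fun j => by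
    have : w j ∈ c := by rw [hw]; exact ⟨j, rfl⟩
    exact Submodule.le_topologicalClosure _ (hsub (hc1 this))
  refine ⟨fun j => mkZ (w j) (hwm j), fun x δ hδ => ?_⟩
  obtain ⟨g, hg, hd⟩ := Zs_approx (show ↥Zs from x).2 (show 0 < δ / 2 by positivity)
  have hcut : ∃ g' ∈ (Submodule.span ℝ (e '' {B | B ≤ r}) : Submodule ℝ B1),
      ∀ A, A ≤ r → g' A = g A := by
    clear hd
    induction hg using Submodule.span_induction with
    | mem x hx =>
      obtain ⟨B, rfl⟩ := hx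
      refine ⟨e (B ⊓ r), Submodule.subset_span ⟨B ⊓ r, show B ⊓ r ≤ r from inf_le_right, rfl⟩, fun A hA => ?_⟩
      by_cases h : A ≤ B
      · rw [e_of_le h, e_of_le (le_inf h hA)]
      · rw [e_of_not_le h, e_of_not_le fun h' => h (h'.trans inf_le_left)]
    | zero => exact ⟨0, Submodule.zero_mem _, fun A _ => rfl⟩
    | add g1 g2 _ _ h1 h2 =>
      obtain ⟨g1', a1, b1⟩ := h1
      obtain ⟨g2', a2, b2⟩ := h2
      refine ⟨g1' + g2', Submodule.add_mem _ a1 a2, fun A hA => ?_⟩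
      rw [BoundedContinuousFunction.add_apply, BoundedContinuousFunction.add_apply, b1 A hA,
          b2 A hA]
    | smul c g1 _ h1 =>
      obtain ⟨g1', a1, b1⟩ := h1
      refine ⟨c • g1', Submodule.smul_mem _ c a1, fun A hA => ?_⟩
      rw [BoundedContinuousFunction.smul_apply, BoundedContinuousFunction.smul_apply, b1 A hA]
  obtain ⟨g', hg1, hg2⟩ := hcut
  obtain ⟨u, hu, hd2⟩ := Metric.mem_closure_iff.1 (hc3 hg1) (δ / 2) (by positivity)
  rw [hw] at hu
  obtain ⟨j, rfl⟩ := hu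
  refine ⟨j, fun t ht => ?_⟩
  rw [dist_eq_norm] at hd2
  have h1 := ((show ↥Zs from x).1 - g).norm_coe_le_norm t
  have h2 := (g' - w j).norm_coe_le_norm t
  rw [BoundedContinuousFunction.sub_apply, Real.norm_eq_abs] at h1 h2
  rw [hg2 t ht] at h2
  have h3 : evZ t x - evZ t (mkZ (w j) (hwm j)) = ((show ↥Zs from x).1 t - g t) + (g t - w j t) := by
    rw [evZ_apply, evZ_mkZ]; ring
  rw [h3]
  have := abs_add_le ((show ↥Zs from x).1 t - g t) (g t - w j t)
  linarith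

/-- the competitors -/
def Feas (x : ZT) (r : Nd) (R : ℝ) (v : Nd) : Set ZT :=
  {y | (∀ t, ¬ (t ≤ v ∨ v ≤ t) → evZ t y = 0) ∧ (∀ t, t ≤ r → evZ t y = evZ t x) ∧
    ∀ t, t ≤ v → ¬ t ≤ r → evZ t y = R}

/-- the value function -/
noncomputable def VV (p : ZT → ℝ) (x : ZT) (r : Nd) (R : ℝ) (v : Nd) : ℝ := sInf (p '' Feas x r R v)

theorem Feas_anti (x : ZT) (r : Nd) (R : ℝ) {v v' : Nd} (h : v ≤ v') :
    Feas x r R v' ⊆ Feas x r R v := by
  rintro y ⟨h1, h2, h3⟩
  refine ⟨fun t ht => h1 t fun ht' => ht ?_, h2, fun t ht => h3 t (ht.trans h)⟩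
  rcases ht' with h4 | h4
  · exact comparable h4 h
  · exact Or.inr (h.trans h4)

/-- the model competitor -/
noncomputable def GG (x : ZT) (r : Nd) (R : ℝ) (v : Nd) : ZT := cutZ r x + R • (eZ v - eZ r)

open Classical in
theorem evZ_GG (x : ZT) {r v : Nd} (hrv : r ≤ v) (R : ℝ) (t : Nd) :
    evZ t (GG x r R v) = if t ≤ r then evZ t x else if t ≤ v then R else 0 := by
  unfold GG
  rw [map_add, map_smul, map_sub, evZ_cutZ, evZ_eZ, evZ_eZ, smul_eq_mul]
  by_cases h1 : t ≤ r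
  · rw [if_pos h1, if_pos h1, if_pos (h1.trans hrv), if_pos h1]; ring
  · rw [if_neg h1, if_neg h1, if_neg h1]
    by_cases h2 : t ≤ v
    · rw [if_pos h2, if_pos h2]; ring
    · rw [if_neg h2, if_neg h2]; ring

theorem GG_mem (x : ZT) {r v : Nd} (hrv : r ≤ v) (R : ℝ) : GG x r R v ∈ Feas x r R v := by
  refine ⟨fun t ht => ?_, fun t ht => ?_, fun t ht1 ht2 => ?_⟩
  · rw [evZ_GG x hrv, if_neg fun h => ht (Or.inl (h.trans hrv)), if_neg fun h => ht (Or.inl h)]
  · rw [evZ_GG x hrv, if_pos ht]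
  · rw [evZ_GG x hrv, if_neg ht2, if_pos ht1]

theorem GG_norm (x : ZT) {r v : Nd} (hrv : r ≤ v) (R : ℝ) : ‖GG x r R v‖ ≤ ‖x‖ + |R| := by
  apply ZT_norm_le (by positivity)
  intro t
  rw [evZ_GG x hrv]
  split_ifs
  · have := abs_evZ t x
    linarith [abs_nonneg R]
  · linarith [norm_nonneg x]
  · rw [abs_zero]; positivity

section
variable {p : ZT → ℝ} (hadd : ∀ x y, p (x + y) ≤ p x + p y)
  (hsmul : ∀ (a : ℝ) (x : ZT), p (a • x) = |a| * p x)
  {a C : ℝ} (ha : 0 < a) (hC : 0 < C) (hp : ∀ x, a * ‖x‖ ≤ p x ∧ p x ≤ C * ‖x‖)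

include ha hp in
theorem p_nonneg (x : ZT) : 0 ≤ p x := le_trans (by positivity) (hp x).1

include hadd hp in
theorem p_lip (x y : ZT) : p x ≤ p y + C * ‖x - y‖ := by
  have h1 := hadd (x - y) y
  rw [sub_add_cancel] at h1
  linarith [(hp (x - y)).2]

include ha hp in
theorem VV_bdd (x : ZT) (r : Nd) (R : ℝ) (v : Nd) : BddBelow (p '' Feas x r R v) :=
  ⟨0, by rintro _ ⟨y, -, rfl⟩; exact p_nonneg ha hp y⟩

include ha hp in
theorem VV_le {x : ZT} {r : Nd} {R : ℝ} {v : Nd} {y : ZT} (hy : y ∈ Feas x r R v) :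
    VV p x r R v ≤ p y := csInf_le (VV_bdd ha hp x r R v) ⟨y, hy, rfl⟩

theorem VV_ne (x : ZT) {r v : Nd} (hrv : r ≤ v) (R : ℝ) : (p '' Feas x r R v).Nonempty :=
  ⟨_, _, GG_mem x hrv R, rfl⟩

theorem VV_exists (x : ZT) {r v : Nd} (hrv : r ≤ v) (R : ℝ) {η : ℝ} (hη : 0 < η) :
    ∃ y ∈ Feas x r R v, p y < VV p x r R v + η := by
  obtain ⟨_, ⟨y, hy, rfl⟩, h⟩ := exists_lt_of_csInf_lt (VV_ne (p := p) x hrv R)
    (show sInf (p '' Feas x r R v) < VV p x r R v + η by
      show VV p x r R v < VV p x r R v + η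
      linarith)
  exact ⟨y, hy, h⟩

include ha hp in
theorem VV_mono (x : ZT) {r v v' : Nd} (hrv : r ≤ v) (hv : v ≤ v') (R : ℝ) :
    VV p x r R v ≤ VV p x r R v' :=
  csInf_le_csInf (VV_bdd ha hp x r R v) (VV_ne x (hrv.trans hv) R)
    (Set.image_mono (Feas_anti x r R hv))

include ha hp in
theorem VV_bound (x : ZT) {r v : Nd} (hrv : r ≤ v) (R : ℝ) :
    VV p x r R v ≤ C * (‖x‖ + |R|) := by
  refine (VV_le ha hp (GG_mem x hrv R)).trans ?_
  refine ((hp _).2).trans ?_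
  have hC : 0 ≤ C := by
    by_contra hcon
    have h1 := hp (eZ r)
    have h2 : 0 < ‖eZ r‖ := by
      have := abs_evZ r (eZ r)
      rw [evZ_eZ, if_pos le_rfl, abs_one] at this
      linarith
    have h3 := h1.1.trans h1.2
    have h4 : C * ‖eZ r‖ < 0 := mul_neg_of_neg_of_pos (not_le.1 hcon) h2
    have h5 : 0 < a * ‖eZ r‖ := by positivity
    linarith
  exact mul_le_mul_of_nonneg_left (GG_norm x hrv R) hC

include hadd ha hC hp in
theorem VV_lip {x x' : ZT} {r v : Nd} (hrv : r ≤ v) {R R' δ : ℝ} (hδ : 0 ≤ δ)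
    (hx : ∀ t, t ≤ r → |evZ t x - evZ t x'| ≤ δ) (hR : |R - R'| ≤ δ) :
    VV p x r R v ≤ VV p x' r R' v + C * δ := by
  rw [← sub_le_iff_le_add]
  apply le_csInf (VV_ne x' hrv R')
  rintro _ ⟨y', ⟨h1, h2, h3⟩, rfl⟩
  rw [sub_le_iff_le_add]
  have hy : y' + GG (x - x') r (R - R') v ∈ Feas x r R v := by
    refine ⟨fun t ht => ?_, fun t ht => ?_, fun t ht1 ht2 => ?_⟩
    · rw [map_add, h1 t ht, evZ_GG _ hrv, if_neg fun h => ht (Or.inl (h.trans hrv)),
        if_neg fun h => ht (Or.inl h), add_zero]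
    · rw [map_add, h2 t ht, evZ_GG _ hrv, if_pos ht, map_sub]; ring
    · rw [map_add, h3 t ht1 ht2, evZ_GG _ hrv, if_neg ht2, if_pos ht1]; ring
  refine (VV_le ha hp hy).trans ?_
  refine (p_lip hadd hp _ y').trans ?_
  rw [add_sub_cancel_left]
  have h4 : ‖GG (x - x') r (R - R') v‖ ≤ δ := by
    apply ZT_norm_le hδ
    intro t
    rw [evZ_GG _ hrv]
    split_ifs with h5
    · rw [map_sub]; exact hx t h5
    · exact hR
    · rw [abs_zero]; exact hδ
  have := mul_le_mul_of_nonneg_left h4 hC.le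
  linarith

end

end Pool.Agent.Helper568.Sm
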