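import Pool.Agent.Helper568.Sm6

set_option autoImplicit false
set_option linter.unusedVariables false

open Set Filter Topology BoundedContinuousFunction

namespace Pool.Agent.Helper568.Sm

open Nd

theorem split_inf {M : Set ℕ} (hM : M.Infinite) : ∃ P Q : Set ℕ, P ⊆ M ∧ Q ⊆ M ∧ P.Infinite ∧
    Q.Infinite ∧ ∀ k ∈ P, k ∉ Q := by
  obtain ⟨t, u, h1, h2, h3⟩ := hM.exists_union_disjoint_cardinal_eq_of_infinite
  have hfin : t.Finite ↔ u.Finite := by
    rw [← Cardinal.lt_aleph0_iff_set_finite, ← Cardinal.lt_aleph0_iff_set_finite, h3]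
  have ht : t.Infinite := fun h => hM (by rw [← h1]; exact h.union (hfin.1 h))
  have hu : u.Infinite := fun h => ht (hfin.2 h)
  exact ⟨t, u, h1 ▸ Set.subset_union_left, h1 ▸ Set.subset_union_right, ht, hu,
    fun k hk hk' => Set.disjoint_left.1 h2 hk hk'⟩

/-- above `A` with new labels in `M` -/
def Cn (A : Nd) (M : Set ℕ) (v : Nd) : Prop := A ≤ v ∧ ∀ q ∈ v.1, q ∉ A.1 → q.2 ∈ M

theorem Cn_trans {A B C : Nd} {M M' : Set ℕ} (h1 : Cn A M B) (h2 : Cn B M' C) (h : M' ⊆ M) :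
    Cn A M C := by
  refine ⟨h1.1.trans h2.1, fun q hq hqA => ?_⟩
  by_cases hqB : q ∈ B.1
  · exact h1.2 q hqB hqA
  · exact h (h2.2 q hq hqB)

/-- stabilisation -/
theorem stab {f : Nd → ℝ} {r : Nd} {B : ℝ} (hB : ∀ v, r ≤ v → f v ≤ B) {η : ℝ} (hη : 0 < η) :
    ∀ (n : ℕ) (A : Nd) (M : Set ℕ), r ≤ A → M.Infinite → (∀ k ∈ M, k ∉ labs A) →
      B - f A ≤ n * η → ∃ (A' : Nd) (M' : Set ℕ), Cn A M A' ∧ M' ⊆ M ∧ M'.Infinite ∧
        (∀ k ∈ M', k ∉ labs A') ∧ ∀ v, Cn A' M' v → f v ≤ f A' + η := by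
  intro n
  induction n with
  | zero =>
    intro A M hA hM hdis h0
    refine ⟨A, M, ⟨le_rfl, fun q hq hq' => absurd hq hq'⟩, subset_rfl, hM, hdis, fun v hv => ?_⟩
    have := hB v (hA.trans hv.1)
    push_cast at h0
    linarith
  | succ n ih =>
    intro A M hA hM hdis h0
    obtain ⟨P, Q, h1, h2, h3, h4, h5⟩ := split_inf hM
    by_cases hst : ∀ v, Cn A P v → f v ≤ f A + η
    · exact ⟨A, P, ⟨le_rfl, fun q hq hq' => absurd hq hq'⟩, h1, h3, fun k hk => hdis k (h1 hk), hst⟩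
    · push Not at hst
      obtain ⟨v, hv1, hv2⟩ := hst
      obtain ⟨A', M', g1, g2, g3, g4, g5⟩ := ih v Q (hA.trans hv1.1) h4 (fun k hk hk' => by
        obtain ⟨q, hq, rfl⟩ := hk'
        by_cases hqA : q ∈ A.1
        · exact hdis _ (h2 hk) ⟨q, hqA, rfl⟩
        · exact h5 _ (hv1.2 q hq hqA) hk) (by
        push_cast at h0
        linarith)
      refine ⟨A', M', ⟨hv1.1.trans g1.1, fun q hq hqA => ?_⟩, g2.trans h2, g3, g4, g5⟩
      by_cases hqv : q ∈ v.1
      · exact h1 (hv1.2 q hqv hqA)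
      · exact h2 (g1.2 q hq hqv)

/-- a chain meeting all the requirements -/
theorem fusion {σ : Type*} (Rl : σ → σ → Prop) (htr : ∀ a b c, Rl a b → Rl b c → Rl a c)
    (D : σ → ℕ → σ → Prop) (hD : ∀ a i b, (a = b ∨ Rl a b) → ∃ c, Rl b c ∧ D a i c) (a0 : σ) :
    ∃ s : ℕ → σ, s 0 = a0 ∧ (∀ n m, n < m → Rl (s n) (s m)) ∧
      ∀ n i, ∃ k, n < k ∧ D (s n) i (s k) := by
  classical
  -- histories
  have hstep : ∀ (k : ℕ) (h : ℕ → σ), ∃ c, (h k.unpair.1 = h k ∨ Rl (h k.unpair.1) (h k)) →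
      Rl (h k) c ∧ D (h k.unpair.1) k.unpair.2 c := by
    intro k h
    by_cases hc : h k.unpair.1 = h k ∨ Rl (h k.unpair.1) (h k)
    · obtain ⟨c, hc1, hc2⟩ := hD _ k.unpair.2 _ hc
      exact ⟨c, fun _ => ⟨hc1, hc2⟩⟩
    · exact ⟨a0, fun h => absurd h hc⟩
  choose nx hnx using hstep
  let H : ℕ → ℕ → σ := fun k => Nat.rec (fun _ => a0) (fun k h => Function.update h (k + 1) (nx k h)) k
  have H0 : H 0 = fun _ => a0 := rfl
  have HS : ∀ k, H (k + 1) = Function.update (H k) (k + 1) (nx k (H k)) := fun k => rfl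
  have Hstab : ∀ k n, n ≤ k → H k n = H n n := by
    intro k
    induction k with
    | zero => intro n hn; rw [Nat.le_zero.1 hn]
    | succ k ih =>
      intro n hn
      rcases Nat.lt_or_eq_of_le hn with h | h
      · rw [HS, Function.update_of_ne (by omega), ih n (by omega)]
      · rw [h]
  set s : ℕ → σ := fun n => H n n with hs
  have hs1 : ∀ k, s (k + 1) = nx k (H k) := by
    intro k
    show H (k + 1) (k + 1) = _
    rw [HS, Function.update_self]
  have key : ∀ k, (∀ n m, n < m → m ≤ k → Rl (s n) (s m)) := by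
    intro k
    induction k with
    | zero => intro n m hnm hm; omega
    | succ k ih =>
      intro n m hnm hm
      rcases Nat.lt_or_eq_of_le hm with h | h
      · exact ih n m hnm (by omega)
      · subst h
        have e1 : H k k.unpair.1 = s k.unpair.1 := Hstab k _ (Nat.unpair_left_le k)
        have e2 : H k k = s k := rfl
        have hprem : H k k.unpair.1 = H k k ∨ Rl (H k k.unpair.1) (H k k) := by
          rw [e1, e2]
          rcases Nat.lt_or_eq_of_le (Nat.unpair_left_le k) with h1 | h1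
          · exact Or.inr (ih _ _ h1 le_rfl)
          · left; rw [h1]
        have h2 := (hnx k (H k) hprem).1
        rw [← hs1, e2] at h2
        rcases Nat.lt_or_eq_of_le (Nat.lt_succ_iff.1 hnm) with h3 | h3
        · exact htr _ _ _ (ih n k h3 le_rfl) h2
        · rw [h3]; exact h2
  refine ⟨s, rfl, fun n m hnm => key m n m hnm le_rfl, fun n i => ?_⟩
  set k := Nat.pair n i with hk
  have e0 : k.unpair = (n, i) := Nat.unpair_pair n i
  have e1 : H k k.unpair.1 = s k.unpair.1 := Hstab k _ (Nat.unpair_left_le k)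
  have hprem : H k k.unpair.1 = H k k ∨ Rl (H k k.unpair.1) (H k k) := by
    rw [e1]
    rcases Nat.lt_or_eq_of_le (Nat.unpair_left_le k) with h1 | h1
    · exact Or.inr (key k _ _ h1 le_rfl)
    · left; show s _ = s k; rw [h1]
  have h2 := (hnx k (H k) hprem).2
  rw [← hs1, e1, e0] at h2
  refine ⟨k + 1, ?_, h2⟩
  have := Nat.left_le_pair n i
  omega

/-- states of the construction -/
structure St where
  A : Nd
  M : Set ℕ
  m : ℕ
  inf : M.Infinite
  dis : ∀ k ∈ M, k ∉ labs A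
  mem : m ∈ M

/-- extension of states -/
def RS (a b : St) : Prop := a.A < b.A ∧ (∀ q ∈ b.A.1, q ∉ a.A.1 → q.2 ∈ a.M ∧ q.2 ≠ a.m) ∧
  b.M ⊆ a.M ∧ a.m ∉ b.M

theorem RS_trans (a b c : St) (h1 : RS a b) (h2 : RS b c) : RS a c := by
  refine ⟨h1.1.trans h2.1, fun q hq hqa => ?_, h2.2.2.1.trans h1.2.2.1,
    fun h => h1.2.2.2 (h2.2.2.1 h)⟩
  by_cases hqb : q ∈ b.A.1
  · exact h1.2.1 q hqb hqa
  · have h3 := (h2.2.1 q hq hqb).1
    exact ⟨h1.2.2.1 h3, fun h => h1.2.2.2 (h ▸ h3)⟩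

/-- extension with stabilisation -/
theorem St_ext (b : St) {f : Nd → ℝ} {r : Nd} {B : ℝ} (hr : r ≤ b.A)
    (hB : ∀ v, r ≤ v → f v ≤ B) {η : ℝ} (hη : 0 < η) :
    ∃ c : St, RS b c ∧ ∀ v, Cn c.A c.M v → f v ≤ f c.A + η := by
  have hM0 : (b.M \ {b.m}).Infinite := b.inf.sdiff (Set.finite_singleton _)
  obtain ⟨k, hk1, hk2⟩ := hM0.nonempty
  have hAb : Ab b.A (ub b.A, k) := exists_child b.A (b.dis k hk1)
  set A1 := ch b.A (ub b.A, k) with hA1
  have hM1 : ((b.M \ {b.m}) \ {k}).Infinite := hM0.sdiff (Set.finite_singleton _)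
  obtain ⟨n, hn⟩ := exists_nat_ge ((B - f A1) / η)
  rw [div_le_iff₀ hη] at hn
  obtain ⟨A', M', g1, g2, g3, g4, g5⟩ := stab hB hη n A1 _ (hr.trans (le_ch hAb)) hM1 (by
    rintro l ⟨⟨hl1, hl2⟩, hl3⟩ ⟨q, hq, hql⟩
    rcases (mem_ch hAb).1 hq with h | h
    · rw [h] at hql
      exact hl3 hql.symm
    · exact b.dis l hl1 ⟨q, h, hql⟩) hn
  obtain ⟨m', hm'⟩ := g3.nonempty
  refine ⟨⟨A', M', m', g3, g4, hm'⟩, ⟨(lt_ch hAb).trans_le g1.1, fun q hq hqb => ?_,
    fun l hl => (g2 hl).1.1, fun h => (g2 h).1.2 rfl⟩, g5⟩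
  by_cases hq1 : q ∈ A1.1
  · rcases (mem_ch hAb).1 hq1 with h | h
    · rw [h]
      exact ⟨hk1, hk2⟩
    · exact absurd h hqb
  · have := g1.2 q hq hq1
    exact ⟨this.1.1, this.1.2⟩

section
variable {p : ZT → ℝ} (hadd : ∀ x y, p (x + y) ≤ p x + p y)
  (hsmul : ∀ (a : ℝ) (x : ZT), p (a • x) = |a| * p x)
  {a C : ℝ} (ha : 0 < a) (hC : 0 < C) (hp : ∀ x, a * ‖x‖ ≤ p x ∧ p x ≤ C * ‖x‖)

include hadd ha hC hp in
theorem exists_sys : ∃ (A : ℕ → Nd) (s : Nd) (v : ℕ → Nd), (∀ m n, m < n → A m < A n) ∧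
    (∀ n, A n ≤ s) ∧ (∀ B, (∀ n, A n ≤ B) → s ≤ B) ∧ (∀ j, s < v j) ∧
    (∀ j t, t ≤ v j → t ≤ s ∨ t = v j) ∧ Function.Injective v ∧
    ∀ (n : ℕ) (x : ZT) (R η : ℝ), 0 < η → ∃ k0, n < k0 ∧ ∀ k, k0 ≤ k → ∀ j, k ≤ j →
      VV p x (A n) R (v j) ≤ VV p x (A n) R (A k) + η := by
  choose w hw using ZT_dense
  obtain ⟨τ, hτ⟩ := exists_surjective_nat (ℕ × ℚ × ℕ)
  -- the first state
  let a0 : St := ⟨root, Set.univ, 0, Set.infinite_univ, fun k _ hk => by
    obtain ⟨q, hq, -⟩ := hk; exact hq.elim, Set.mem_univ _⟩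
  let D : St → ℕ → St → Prop := fun st i st' => ∀ v, Cn st'.A st'.M v →
    VV p (w st.A (τ i).1) st.A ((τ i).2.1 : ℝ) v ≤
      VV p (w st.A (τ i).1) st.A ((τ i).2.1 : ℝ) st'.A + 1 / ((τ i).2.2 + 1 : ℝ)
  have hD : ∀ st i b, (st = b ∨ RS st b) → ∃ c, RS b c ∧ D st i c := by
    intro st i b hb
    have hle : st.A ≤ b.A := by
      rcases hb with h | h
      · rw [h]
      · exact h.1.le
    exact St_ext b hle (fun v hv => VV_bound ha hp (w st.A (τ i).1) hv ((τ i).2.1 : ℝ))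
      (show (0 : ℝ) < 1 / ((τ i).2.2 + 1 : ℝ) by positivity)
  obtain ⟨st, -, hR, hDD⟩ := fusion RS RS_trans D hD a0
  have hmono : ∀ m n, m ≤ n → (st m).A ≤ (st n).A := by
    intro m n hmn
    rcases hmn.eq_or_lt with h | h
    · rw [h]
    · exact (hR m n h).1.le
  set s := un (fun n => (st n).A) hmono with hs
  have hsle : ∀ n, (st n).A ≤ s := le_un _ hmono
  have hml : ∀ j, (st j).m ∉ labs s := by
    rintro j ⟨q, hq, hqm⟩
    obtain ⟨k, hk⟩ := Set.mem_iUnion.1 hq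
    by_cases hqj : q ∈ (st j).A.1
    · exact (st j).dis _ (st j).mem ⟨q, hqj, hqm⟩
    · rcases Nat.lt_or_ge j k with h | h
      · exact ((hR j k h).2.1 q hk hqj).2 hqm
      · exact hqj ((hmono k j h).1 hk)
  have hAb : ∀ j, Ab s (ub s, (st j).m) := fun j => exists_child s (hml j)
  set v : ℕ → Nd := fun j => ch s (ub s, (st j).m) with hv
  have hinj : Function.Injective v := by
    intro i j hij
    have h1 := ch_unique (hAb i) (hAb j) (le_refl (v i)) (show ch s (ub s, (st j).m) ≤ v i by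
      rw [hij])
    have h2 : (st i).m = (st j).m := (Prod.ext_iff.1 h1).2
    rcases lt_trichotomy i j with h | h | h
    · exact absurd (h2 ▸ (st j).mem) (hR i j h).2.2.2
    · exact h
    · exact absurd (h2.symm ▸ (st i).mem) (hR j i h).2.2.2
  have hMm : ∀ k j, k ≤ j → (st j).M ⊆ (st k).M := by
    intro k j hkj
    rcases hkj.eq_or_lt with h | h
    · rw [h]
    · exact (hR k j h).2.2.1
  have hcone : ∀ k j, k ≤ j → Cn (st k).A (st k).M (v j) := by
    intro k j hkj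
    refine ⟨(hsle k).trans (le_ch (hAb j)), fun q hq hqk => ?_⟩
    rcases (mem_ch (hAb j)).1 hq with h | h
    · rw [h]
      exact hMm k j hkj (st j).mem
    · obtain ⟨l, hl⟩ := Set.mem_iUnion.1 h
      rcases Nat.lt_or_ge k l with h1 | h1
      · exact ((hR k l h1).2.1 q hl hqk).1
      · exact absurd ((hmono l k h1).1 hl) hqk
  refine ⟨fun n => (st n).A, s, v, fun m n h => (hR m n h).1, hsle,
    fun B hB => un_le _ hmono hB, fun j => lt_ch (hAb j), fun j t ht => le_ch_cases (hAb j) ht,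
    hinj, ?_⟩
  intro n x R η hη
  -- choose the approximate data
  set δ := η / (4 * C) with hδ
  have hδ0 : 0 < δ := by positivity
  obtain ⟨j0, hj0⟩ := hw (st n).A x δ hδ0
  obtain ⟨q, hq1, hq2⟩ := exists_rat_btwn (show R - δ < R by linarith)
  obtain ⟨l, hl⟩ := exists_nat_one_div_lt (show 0 < η / 2 by positivity)
  obtain ⟨i, hi⟩ := hτ (j0, q, l)
  obtain ⟨k0, hk1, hk2⟩ := hDD n i
  refine ⟨k0, hk1, fun k hk j hj => ?_⟩
  have h1 := hk2 (v j) (hcone k0 j (hk.trans hj))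
  simp only [hi] at h1
  have hnk : (st n).A ≤ (st k0).A := hmono n k0 hk1.le
  have h2 := VV_mono ha hp (w (st n).A j0) hnk (hmono k0 k hk) (q : ℝ)
  have hRq : |R - q| ≤ δ := by
    rw [abs_le]; constructor <;> linarith
  have h3 := VV_lip hadd ha hC hp (v := v j) ((hsle n).trans (le_ch (hAb j))) hδ0.le hj0 hRq
  have h4 := VV_lip hadd ha hC hp (x := w (st n).A j0) (x' := x) (v := (st k).A)
    (hnk.trans (hmono k0 k hk)) hδ0.le
    (fun t ht => by rw [abs_sub_comm]; exact hj0 t ht) (R := q) (R' := R)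
    (by rw [abs_sub_comm]; exact hRq)
  have h5 : C * δ = η / 4 := by
    rw [hδ]; field_simp
  rw [h5] at h3 h4
  simp only at h3 h4 ⊢
  linarith

end

end Pool.Agent.Helper568.Sm
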