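import Pool.Agent.Helper568.Sm7

set_option autoImplicit false
set_option linter.unusedVariables false

open Set Filter Topology BoundedContinuousFunction

namespace Pool.Agent.Helper568.Sm

open Nd

/-- Ekeland variational principle -/
theorem ekeland {X : Type*} [MetricSpace X] [CompleteSpace X] (S : Set X) (hS : IsClosed S)
    (x0 : X) (hx0 : x0 ∈ S) (E : X → ℝ) (hE : Continuous E) (m : ℝ) (hm : ∀ x ∈ S, m ≤ E x)
    {ε : ℝ} (hε : 0 < ε) : ∃ x ∈ S, ∀ y ∈ S, E x ≤ E y + ε * dist x y := by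
  classical
  let T : {x // x ∈ S} → Set ℝ := fun x => {e | ∃ y ∈ S, E y + ε * dist x.1 y ≤ E x.1 ∧ E y = e}
  have hTb : ∀ x, BddBelow (T x) := by
    intro x
    refine ⟨m, ?_⟩
    rintro e ⟨y, hy, -, rfl⟩
    exact hm y hy
  have hTne : ∀ x, (T x).Nonempty := fun x => ⟨E x.1, x.1, x.2, by simp, rfl⟩
  have hnext : ∀ x : {x // x ∈ S}, ∃ y : {x // x ∈ S}, E y.1 + ε * dist x.1 y.1 ≤ E x.1 ∧
      E y.1 ≤ (E x.1 + sInf (T x)) / 2 := by
    intro x
    have h1 : sInf (T x) ≤ E x.1 := csInf_le (hTb x) ⟨x.1, x.2, by simp, rfl⟩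
    rcases h1.eq_or_lt with h | h
    · exact ⟨x, by simp, by rw [h]; simp⟩
    · obtain ⟨e, ⟨y, hy, hy1, rfl⟩, hy2⟩ := exists_lt_of_csInf_lt (hTne x)
        (show sInf (T x) < (E x.1 + sInf (T x)) / 2 by linarith)
      exact ⟨⟨y, hy⟩, hy1, hy2.le⟩
  choose nxt hn1 hn2 using hnext
  let s : ℕ → {x // x ∈ S} := fun n => Nat.rec ⟨x0, hx0⟩ (fun _ q => nxt q) n
  have hs1 : ∀ n, s (n + 1) = nxt (s n) := fun n => rfl
  have hstep : ∀ n, E (s (n + 1)).1 + ε * dist (s n).1 (s (n + 1)).1 ≤ E (s n).1 := by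
    intro n; rw [hs1]; exact hn1 _
  have hchain : ∀ n k, E (s (n + k)).1 + ε * dist (s n).1 (s (n + k)).1 ≤ E (s n).1 := by
    intro n k
    induction k with
    | zero => simp
    | succ k ih =>
      have h1 := hstep (n + k)
      have h2 := dist_triangle (s n).1 (s (n + k)).1 (s (n + k + 1)).1
      have h3 := mul_le_mul_of_nonneg_left h2 hε.le
      rw [mul_add] at h3
      show E (s (n + k + 1)).1 + ε * dist (s n).1 (s (n + k + 1)).1 ≤ E (s n).1
      linarith
  have hanti : Antitone fun n => E (s n).1 := by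
    apply antitone_nat_of_succ_le
    intro n
    have h1 := hstep n
    have h2 : 0 ≤ ε * dist (s n).1 (s (n + 1)).1 := mul_nonneg hε.le dist_nonneg
    linarith
  have hbdd : BddBelow (Set.range fun n => E (s n).1) :=
    ⟨m, by rintro _ ⟨n, rfl⟩; exact hm _ (s n).2⟩
  have hlim := tendsto_atTop_ciInf hanti hbdd
  set e := ⨅ n, E (s n).1 with he
  have hele : ∀ n, e ≤ E (s n).1 := fun n => ciInf_le hbdd n
  have hcauchy : CauchySeq fun n => (s n).1 := by
    apply cauchySeq_of_le_tendsto_0 (fun n => (E (s n).1 - e) / ε)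
    · have key : ∀ n k N, N ≤ n → n ≤ k → dist (s n).1 (s k).1 ≤ (E (s N).1 - e) / ε := by
        intro n k N hN hk
        obtain ⟨j, rfl⟩ := Nat.exists_eq_add_of_le hk
        rw [le_div_iff₀ hε]
        have h1 := hchain n j
        have h2 := hele (n + j)
        have h3 := hanti hN
        simp only at h3
        linarith
      intro n k N hN hk
      rcases le_total n k with h | h
      · exact key n k N hN h
      · rw [dist_comm]; exact key k n N hk h
    · have h1 : Tendsto (fun n => (E (s n).1 - e) / ε) atTop (𝓝 ((e - e) / ε)) :=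
        (hlim.sub_const e).div_const ε
      simpa using h1
  obtain ⟨x, hx⟩ := cauchySeq_tendsto_of_complete hcauchy
  have hxS : x ∈ S := hS.mem_of_tendsto hx (Eventually.of_forall fun n => (s n).2)
  have hEx : Tendsto (fun n => E (s n).1) atTop (𝓝 (E x)) := (hE.tendsto x).comp hx
  have heq : E x = e := tendsto_nhds_unique hEx hlim
  have hxT : ∀ n, E x + ε * dist (s n).1 x ≤ E (s n).1 := by
    intro n
    have h1 : Tendsto (fun k => E (s (n + k)).1 + ε * dist (s n).1 (s (n + k)).1) atTop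
        (𝓝 (E x + ε * dist (s n).1 x)) := by
      have h2 : Tendsto (fun k => n + k) atTop atTop := 
        tendsto_atTop_mono (fun k => Nat.le_add_left k n) tendsto_id
      have h3 := hx.comp h2
      have h4 := hEx.comp h2
      exact h4.add ((tendsto_const_nhds.dist h3).const_mul ε)
    exact le_of_tendsto' h1 (hchain n)
  refine ⟨x, hxS, fun y hy => ?_⟩
  by_contra hcon
  push Not at hcon
  have h1 : ∀ n, sInf (T (s n)) ≤ E y := by
    intro n
    apply csInf_le (hTb _)
    refine ⟨y, hy, ?_, rfl⟩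
    have h2 := hxT n
    have h3 := mul_le_mul_of_nonneg_left (dist_triangle (s n).1 x y) hε.le
    rw [mul_add] at h3
    linarith
  have h2 : ∀ n, E (s (n + 1)).1 ≤ (E (s n).1 + E y) / 2 := by
    intro n
    have h3 := hn2 (s n)
    rw [← hs1] at h3
    have h4 := h1 n
    linarith
  have h3 : e ≤ (e + E y) / 2 := by
    have h4 : Tendsto (fun n => E (s (n + 1)).1) atTop (𝓝 e) :=
      hlim.comp (tendsto_add_atTop_nat 1)
    have h5 : Tendsto (fun n => (E (s n).1 + E y) / 2) atTop (𝓝 ((e + E y) / 2)) :=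
      (hlim.add_const _).div_const 2
    exact le_of_tendsto_of_tendsto' h4 h5 h2
  have h4 : 0 ≤ ε * dist x y := mul_nonneg hε.le dist_nonneg
  linarith


theorem sum_one {f : ℕ → ℝ} {K : ℝ} (hK : 0 ≤ K) (h1 : ∀ j, |f j| ≤ K)
    (h2 : ∀ i j, i ≠ j → f i = 0 ∨ f j = 0) (N : ℕ) : |∑ j ∈ Finset.range N, f j| ≤ K := by
  by_cases h : ∃ j ∈ Finset.range N, f j ≠ 0
  · obtain ⟨j, hj, hne⟩ := h
    rw [Finset.sum_eq_single_of_mem j hj fun i _ hij => (h2 i j hij).resolve_right hne]
    exact h1 j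
  · push Not at h
    rw [Finset.sum_eq_zero h, abs_zero]
    exact hK

theorem evZ_continuous (t : Nd) : Continuous (evZ t) := by
  have : LipschitzWith 1 (evZ t) := by
    apply LipschitzWith.of_dist_le_mul
    intro x y
    rw [Real.dist_eq, dist_eq_norm, ← map_sub, NNReal.coe_one, one_mul]
    exact abs_evZ t (x - y)
  exact this.continuous

section
variable {p : ZT → ℝ} (hadd : ∀ x y, p (x + y) ≤ p x + p y)
  (hsmul : ∀ (a : ℝ) (x : ZT), p (a • x) = |a| * p x)
  {a C : ℝ} (ha : 0 < a) (hC : 0 < C) (hp : ∀ x, a * ‖x‖ ≤ p x ∧ p x ≤ C * ‖x‖)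

include hadd hsmul in
theorem p_sum_le {M : ℝ} (f : ℕ → ZT) (h : ∀ i, p (f i) ≤ M) (N : ℕ) :
    p (∑ i ∈ Finset.range N, f i) ≤ N * M := by
  induction N with
  | zero =>
    have := hsmul 0 0
    rw [zero_smul, abs_zero, zero_mul] at this
    rw [Finset.sum_range_zero, this]
    simp
  | succ N ih =>
    rw [Finset.sum_range_succ]
    refine (hadd _ _).trans ?_
    push_cast
    linarith [h N]

include hadd hsmul ha hC hp in
theorem star2 {A : ℕ → Nd} {s : Nd} {v : ℕ → Nd} (hA : ∀ m n, m < n → A m < A n)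
    (hAs : ∀ n, A n ≤ s) (hv : ∀ j, s < v j) (hv2 : ∀ j t, t ≤ v j → t ≤ s ∨ t = v j)
    (hinj : Function.Injective v)
    (hstar : ∀ (n : ℕ) (x : ZT) (R η : ℝ), 0 < η → ∃ k0, n < k0 ∧ ∀ k, k0 ≤ k → ∀ j, k ≤ j →
      VV p x (A n) R (v j) ≤ VV p x (A n) R (A k) + η)
    (n : ℕ) (x : ZT) (R η : ℝ) (hη : 0 < η) : ∃ k0, n < k0 ∧ ∀ k, k0 ≤ k →
      ∀ y ∈ Feas x (A n) R (A k), p (GG x (A n) R s) ≤ p y + η := by
  obtain ⟨k0, h1, h2⟩ := hstar n x R (η / 4) (by positivity)
  refine ⟨k0, h1, fun k hk y hy => ?_⟩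
  have hAv : ∀ j, A n ≤ v j := fun j => (hAs n).trans (hv j).le
  have hex : ∀ j, ∃ Y ∈ Feas x (A n) R (v (k + j)), p Y ≤ p y + η / 2 := by
    intro j
    obtain ⟨Y, hY1, hY2⟩ := VV_exists (p := p) x (hAv (k + j)) R (show 0 < η / 4 by positivity)
    refine ⟨Y, hY1, ?_⟩
    have h3 := h2 k hk (k + j) (by omega)
    have h4 := VV_le ha hp hy
    linarith
  choose Y hY1 hY2 using hex
  set Kb := (p y + η / 2) / a with hKb
  have hpy := p_nonneg ha hp y
  have hKb0 : 0 ≤ Kb := by rw [hKb]; positivity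
  have hYn : ∀ j, ‖Y j‖ ≤ Kb := by
    intro j
    rw [hKb, le_div_iff₀ ha]
    have := (hp (Y j)).1
    linarith [hY2 j]
  obtain ⟨N, hN⟩ := exists_nat_gt (C * Kb / (η / 2))
  rw [div_lt_iff₀ (by positivity)] at hN
  have hNpos : (0 : ℝ) < N := by
    by_contra hcon
    have : (N : ℝ) * (η / 2) ≤ 0 := mul_nonpos_of_nonpos_of_nonneg (not_lt.1 hcon) (by positivity)
    have : 0 ≤ C * Kb := by positivity
    linarith
  set Yb := (1 / (N : ℝ)) • ∑ j ∈ Finset.range N, Y j with hYb
  have hpYb : p Yb ≤ p y + η / 2 := by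
    rw [hYb, hsmul, abs_of_pos (by positivity)]
    have h3 := p_sum_le hadd hsmul Y hY2 N
    have h4 := mul_le_mul_of_nonneg_left h3 (show 0 ≤ 1 / (N : ℝ) by positivity)
    refine h4.trans (le_of_eq ?_)
    field_simp
  have hdiff : ‖GG x (A n) R s - Yb‖ ≤ Kb / N := by
    apply ZT_norm_le (by positivity)
    intro t
    have e1 : evZ t Yb = 1 / (N : ℝ) * ∑ j ∈ Finset.range N, evZ t (Y j) := by
      rw [hYb, map_smul, map_sum, smul_eq_mul]
    rw [map_sub, e1, evZ_GG x (hAs n)]
    by_cases ht1 : t ≤ A n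
    · rw [if_pos ht1]
      have e2 : ∀ j ∈ Finset.range N, evZ t (Y j) = evZ t x := fun j _ => (hY1 j).2.1 t ht1
      rw [Finset.sum_congr rfl e2, Finset.sum_const, Finset.card_range, nsmul_eq_mul]
      have e3 : evZ t x - 1 / (N : ℝ) * (N * evZ t x) = 0 := by field_simp; ring
      rw [e3, abs_zero]; positivity
    · rw [if_neg ht1]
      by_cases ht2 : t ≤ s
      · rw [if_pos ht2]
        have e2 : ∀ j ∈ Finset.range N, evZ t (Y j) = R := fun j _ =>
          (hY1 j).2.2 t (ht2.trans (hv _).le) ht1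
        rw [Finset.sum_congr rfl e2, Finset.sum_const, Finset.card_range, nsmul_eq_mul]
        have e3 : R - 1 / (N : ℝ) * (N * R) = 0 := by field_simp; ring
        rw [e3, abs_zero]; positivity
      · rw [if_neg ht2, zero_sub, abs_neg, abs_mul, abs_of_pos (show 0 < 1 / (N : ℝ) by positivity)]
        have h5 : |∑ j ∈ Finset.range N, evZ t (Y j)| ≤ Kb := by
          apply sum_one hKb0 (fun j => (abs_evZ t (Y j)).trans (hYn j))
          intro i j hij
          by_contra hcon
          push Not at hcon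
          have key : ∀ i, evZ t (Y i) ≠ 0 → v (k + i) ≤ t := by
            intro i hi
            by_contra hcon2
            apply hi
            apply (hY1 i).1
            rintro (h6 | h6)
            · rcases hv2 _ _ h6 with h7 | h7
              · exact ht2 h7
              · exact hcon2 h7.ge
            · exact hcon2 h6
          have h6 := key i hcon.1
          have h7 := key j hcon.2
          have h8 : ∀ i j, v i ≤ v j → i = j := by
            intro i j h
            rcases hv2 _ _ h with h9 | h9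
            · exact absurd h9 (not_le_of_gt (hv i))
            · exact hinj h9
          rcases comparable h6 h7 with h9 | h9
          · have := h8 _ _ h9
            exact hij (by omega)
          · have := h8 _ _ h9
            exact hij (by omega)
        rw [one_div, inv_mul_eq_div]
        exact div_le_div_of_nonneg_right h5 hNpos.le
  have h3 := p_lip hadd hp (GG x (A n) R s) Yb
  have h4 := mul_le_mul_of_nonneg_left hdiff hC.le
  have h5 : C * (Kb / N) ≤ η / 2 := by
    rw [← mul_div_assoc, div_le_iff₀ hNpos]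
    linarith
  linarith

include hadd hsmul ha hC hp in
theorem ZT_no_frechet (hdiff : ∀ x, x ≠ 0 → DifferentiableAt ℝ p x) : False := by
  obtain ⟨A, s, v, hA, hAs, hsup, hv, hv2, hinj, hstar⟩ := exists_sys hadd ha hC hp
  have hst := star2 hadd hsmul ha hC hp hA hAs hv hv2 hinj hstar
  have hmono : ∀ m n, m ≤ n → A m ≤ A n := by
    intro m n h
    rcases h.eq_or_lt with h1 | h1
    · rw [h1]
    · exact (hA m n h1).le
  have hlt : ∀ n, A n < s := fun n => (hA n (n + 1) (Nat.lt_succ_self n)).trans_le (hAs _)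
  -- Ekeland
  set S : Set ZT := {x | (∀ t, ¬ t ≤ s → evZ t x = 0) ∧ 1 ≤ evZ s x} with hS
  have hSc : IsClosed S := by
    have : S = (⋂ t, ⋂ (_ : ¬ t ≤ s), {x | evZ t x = 0}) ∩ {x | 1 ≤ evZ s x} := by
      ext x
      simp only [Set.mem_inter_iff, Set.mem_iInter]
      exact Iff.rfl
    rw [this]
    refine IsClosed.inter (isClosed_iInter fun t => isClosed_iInter fun _ => ?_) ?_
    · exact isClosed_eq (evZ_continuous t) continuous_const
    · exact isClosed_le continuous_const (evZ_continuous s)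
  have hSne : eZ s ∈ S := by
    refine ⟨fun t ht => ?_, ?_⟩
    · rw [evZ_eZ, if_neg ht]
    · rw [evZ_eZ, if_pos le_rfl]
  have hpc : Continuous p := by
    have : LipschitzWith (Real.toNNReal C) p := by
      apply LipschitzWith.of_le_add_mul
      intro x y
      rw [dist_eq_norm, Real.coe_toNNReal C hC.le]
      exact p_lip hadd hp x y
    exact this.continuous
  obtain ⟨x, hxS, hxE⟩ := ekeland S hSc (eZ s) hSne (fun x => p x - a / 2 * evZ s x)
    (hpc.sub ((evZ_continuous s).const_mul _)) 0 (fun x hx => by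
      have h1 := (hp x).1
      have h2 := (le_abs_self _).trans (abs_evZ s x)
      have h3 := norm_nonneg x
      nlinarith) (show 0 < a / 4 by positivity)
  have hx0 : x ≠ 0 := by
    intro h
    have h1 := hxS.2
    rw [h, map_zero] at h1
    linarith
  set c := evZ s x with hc
  have hc1 : 1 ≤ c := hxS.2
  have hφ := (hdiff x hx0).hasFDerivAt
  set φ := fderiv ℝ p x with hφdef
  have hφ2 := hφ.isLittleO.def (show 0 < a / 16 by positivity)
  obtain ⟨θ0, hθ0, hθ⟩ := Metric.eventually_nhds_iff.1 hφ2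
  set θ := θ0 / 2 with hθdef
  have hθpos : 0 < θ := by positivity
  have hder : ∀ h : ZT, ‖h‖ ≤ θ → p (x + h) ≤ p x + φ h + a / 16 * ‖h‖ := by
    intro h hh
    have h1 := hθ (y := x + h) (by rw [dist_eq_norm, add_sub_cancel_left]; linarith)
    rw [add_sub_cancel_left, Real.norm_eq_abs] at h1
    linarith [(abs_le.1 h1).2]
  set η := a * θ / (16 * (C + 1 + a)) with hηdef
  have hηpos : 0 < η := by positivity
  have hη1 : (C + 1 + a / 4) * η ≤ a * θ / 16 := by
    have h1 : (C + 1 + a) * η = a * θ / 16 := by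
      rw [hηdef]; field_simp
    nlinarith
  -- tail
  obtain ⟨F, hF, hF1, hF2⟩ := ZT_lc x s hηpos
  have hn0 : ∃ n0, ∀ t, t ≤ s → A n0 ≤ t → |evZ t x - c| ≤ η := by
    have h1 : ∀ B : Nd, ∃ n, B ∈ F → ¬ A n ≤ B := by
      intro B
      by_cases hB : B ∈ F
      · by_contra hcon
        push Not at hcon
        exact absurd (hsup B fun n => (hcon n).2) (not_le_of_gt (hF1 B hB))
      · exact ⟨0, fun h => absurd h hB⟩
    choose g hg using h1
    refine ⟨hF.toFinset.sup g, fun t ht1 ht2 => hF2 t ht1 fun B hB htB => ?_⟩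
    apply hg B hB
    exact (hmono _ _ (Finset.le_sup (hF.mem_toFinset.2 hB))).trans (ht2.trans htB)
  obtain ⟨n0, hn0⟩ := hn0
  have hclaim : ∀ n, n0 ≤ n → ∃ k, n < k ∧ a / 8 ≤ φ (eZ (A k) - eZ (A n)) := by
    intro n hn
    obtain ⟨k, hk1, hk2⟩ := hst n x (c + θ) η hηpos
    refine ⟨k, hk1, ?_⟩
    have hnk : A n ≤ A k := (hA n k hk1).le
    have htail : ∀ t, t ≤ s → ¬ t ≤ A n → |evZ t x - c| ≤ η := by
      intro t ht1 ht2
      apply hn0 t ht1
      rcases comparable ht1 (hAs n) with h | h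
      · exact absurd h ht2
      · exact (hmono n0 n hn).trans h
    set h := eZ (A k) - eZ (A n) with hh
    have hht : ∀ t, (t ≤ A n → evZ t h = 0) ∧ (¬ t ≤ A n → t ≤ A k → evZ t h = 1) ∧
        (¬ t ≤ A k → evZ t h = 0) := by
      intro t
      refine ⟨fun h1 => ?_, fun h1 h2 => ?_, fun h1 => ?_⟩
      · rw [hh, map_sub, evZ_eZ, evZ_eZ, if_pos (h1.trans hnk), if_pos h1, sub_self]
      · rw [hh, map_sub, evZ_eZ, evZ_eZ, if_pos h2, if_neg h1, sub_zero]
      · rw [hh, map_sub, evZ_eZ, evZ_eZ, if_neg h1, if_neg fun h2 => h1 (h2.trans hnk), sub_zero]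
    have hhn : ‖h‖ ≤ 1 := by
      apply ZT_norm_le zero_le_one
      intro t
      by_cases h1 : t ≤ A n
      · rw [(hht t).1 h1, abs_zero]; exact zero_le_one
      · by_cases h2 : t ≤ A k
        · rw [(hht t).2.1 h1 h2, abs_one]
        · rw [(hht t).2.2 h2, abs_zero]; exact zero_le_one
    set w := c • h - (cutZ (A k) x - cutZ (A n) x) with hw
    have hwt : ∀ t, (t ≤ A n → evZ t w = 0) ∧ (¬ t ≤ A n → t ≤ A k → evZ t w = c - evZ t x) ∧
        (¬ t ≤ A k → evZ t w = 0) := by
      intro t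
      refine ⟨fun h1 => ?_, fun h1 h2 => ?_, fun h1 => ?_⟩
      · rw [hw, map_sub, map_smul, (hht t).1 h1, map_sub, evZ_cutZ, evZ_cutZ,
          if_pos (h1.trans hnk), if_pos h1, smul_zero, sub_self, sub_self]
      · rw [hw, map_sub, map_smul, (hht t).2.1 h1 h2, map_sub, evZ_cutZ, evZ_cutZ,
          if_pos h2, if_neg h1, smul_eq_mul, mul_one, sub_zero]
      · rw [hw, map_sub, map_smul, (hht t).2.2 h1, map_sub, evZ_cutZ, evZ_cutZ,
          if_neg h1, if_neg fun h2 => h1 (h2.trans hnk), smul_zero, sub_self, sub_self]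
    have hwn : ‖w‖ ≤ η := by
      apply ZT_norm_le hηpos.le
      intro t
      by_cases h1 : t ≤ A n
      · rw [(hwt t).1 h1, abs_zero]; exact hηpos.le
      · by_cases h2 : t ≤ A k
        · rw [(hwt t).2.1 h1 h2, abs_sub_comm]
          exact htail t (h2.trans (hAs k)) h1
        · rw [(hwt t).2.2 h2, abs_zero]; exact hηpos.le
    have hy : (x + θ • h) + w ∈ Feas x (A n) (c + θ) (A k) := by
      refine ⟨fun t ht => ?_, fun t ht => ?_, fun t ht1 ht2 => ?_⟩
      · have h1 : ¬ t ≤ A k := fun h => ht (Or.inl h)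
        have h2 : ¬ t ≤ s := fun h => ht (comparable h (hAs k))
        rw [map_add, map_add, map_smul, hxS.1 t h2, (hht t).2.2 h1, (hwt t).2.2 h1, smul_zero]
        ring
      · rw [map_add, map_add, map_smul, (hht t).1 ht, (hwt t).1 ht, smul_zero]
        ring
      · rw [map_add, map_add, map_smul, (hht t).2.1 ht2 ht1, (hwt t).2.1 ht2 ht1, smul_eq_mul]
        ring
    have h1 := hk2 k le_rfl _ hy
    have h2 := p_lip hadd hp ((x + θ • h) + w) (x + θ • h)
    rw [add_sub_cancel_left] at h2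
    have h3 := mul_le_mul_of_nonneg_left hwn hC.le
    have hθh : ‖θ • h‖ ≤ θ := by
      rw [norm_smul, Real.norm_eq_abs, abs_of_pos hθpos]
      nlinarith
    have h4 := hder (θ • h) hθh
    rw [map_smul, smul_eq_mul] at h4
    have h4' : a / 16 * ‖θ • h‖ ≤ a / 16 * θ := mul_le_mul_of_nonneg_left hθh (by positivity)
    -- the model competitor
    set G := GG x (A n) (c + θ) s with hG
    have hGt : ∀ t, evZ t G = _ := fun t => evZ_GG x (hAs n) (c + θ) t
    have hsn : ¬ s ≤ A n := not_le_of_gt (hlt n)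
    have hGs : evZ s G = c + θ := by
      rw [hGt, if_neg hsn, if_pos le_rfl]
    have hGS : G ∈ S := by
      refine ⟨fun t ht => ?_, ?_⟩
      · rw [hGt, if_neg fun h => ht (h.trans (hAs n)), if_neg ht]
      · rw [hGs]; linarith
    have hGx : ‖x - G‖ ≤ θ + η := by
      apply ZT_norm_le (by positivity)
      intro t
      rw [map_sub, hGt]
      by_cases h5 : t ≤ A n
      · rw [if_pos h5, sub_self, abs_zero]; positivity
      · rw [if_neg h5]
        by_cases h6 : t ≤ s
        · rw [if_pos h6]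
          have h7 := abs_le.1 (htail t h6 h5)
          rw [abs_le]
          constructor <;> linarith [h7.1, h7.2]
        · rw [if_neg h6, hxS.1 t h6, sub_zero, abs_zero]; positivity
    have h5 := hxE G hGS
    rw [dist_eq_norm, hGs] at h5
    have h6 := mul_le_mul_of_nonneg_left hGx (show 0 ≤ a / 4 by positivity)
    have h7 : a / 8 * θ ≤ φ h * θ := by linarith
    exact le_of_mul_le_mul_right h7 hθpos
  -- iterate
  have hit : ∀ m : ℕ, ∃ n, n0 ≤ n ∧ m * (a / 8) ≤ φ (eZ (A n) - eZ (A n0)) := by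
    intro m
    induction m with
    | zero => exact ⟨n0, le_rfl, by simp⟩
    | succ m ih =>
      obtain ⟨n, hn1, hn2⟩ := ih
      obtain ⟨k, hk1, hk2⟩ := hclaim n hn1
      refine ⟨k, by omega, ?_⟩
      have e1 : eZ (A k) - eZ (A n0) = (eZ (A k) - eZ (A n)) + (eZ (A n) - eZ (A n0)) := by abel
      rw [e1, map_add]
      push_cast
      linarith
  obtain ⟨m, hm⟩ := exists_nat_gt (‖φ‖ / (a / 8))
  rw [div_lt_iff₀ (by positivity)] at hm
  obtain ⟨n, hn1, hn2⟩ := hit m
  have h1 : ‖eZ (A n) - eZ (A n0)‖ ≤ 1 := by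
    apply ZT_norm_le zero_le_one
    intro t
    rw [map_sub, evZ_eZ, evZ_eZ]
    split_ifs <;> simp
  have h2 := (le_abs_self _).trans (φ.le_opNorm (eZ (A n) - eZ (A n0)))
  have h3 := mul_le_mul_of_nonneg_left h1 (norm_nonneg φ)
  linarith

end

end Pool.Agent.Helper568.Sm
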