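import Pool.Agent.Helper568.Sm8

set_option autoImplicit false
set_option linter.unusedVariables false

open Set Filter Topology BoundedContinuousFunction

namespace Pool.Agent.Helper568.Sm

open Nd

theorem YT_no_frechet (N : ZT × CT → ℝ) (hadd : ∀ x y, N (x + y) ≤ N x + N y)
    (hsmul : ∀ (a : ℝ) (x : ZT × CT), N (a • x) = |a| * N x)
    (c C : ℝ) (hc : 0 < c) (hC : 0 < C) (hN : ∀ x, c * ‖x‖ ≤ N x ∧ N x ≤ C * ‖x‖)
    (hd : ∀ x : ZT × CT, x ≠ 0 → DifferentiableAt ℝ N x) : False := by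
  have e1 : ∀ x y : ZT, ((x + y, 0) : ZT × CT) = (x, 0) + (y, 0) := fun x y => by
    rw [Prod.mk_add_mk, add_zero]
  have e3 : ∀ x : ZT, ‖((x, 0) : ZT × CT)‖ = ‖x‖ := fun x => by
    rw [Prod.norm_def]
    simp
  refine ZT_no_frechet (p := fun x => N (x, 0)) (a := c) (C := C) ?_ ?_ hc hC ?_ ?_
  · intro x y
    simp only [e1]
    exact hadd _ _
  · intro a x
    have : ((a • x, 0) : ZT × CT) = a • (x, 0) := by
      rw [Prod.smul_mk, smul_zero]
    simp only [this]
    exact hsmul _ _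
  · intro x
    have := hN (x, 0)
    rw [e3] at this
    exact this
  · intro x hx
    have h1 : ((x, 0) : ZT × CT) ≠ 0 := by
      intro h
      exact hx (Prod.ext_iff.1 h).1
    have h2 : DifferentiableAt ℝ (fun z : ZT => ((z, 0) : ZT × CT)) x :=
      (ContinuousLinearMap.inl ℝ ZT CT).differentiableAt
    exact (hd (x, 0) h1).comp x h2

end Pool.Agent.Helper568.Sm
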