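import Pool.Agent.Helper568.Seq

set_option autoImplicit false
open Filter Topology
open scoped RealInnerProductSpace ENNReal

namespace Pool.Agent.Helper568.Space

open Pool.Agent.Helper568.Cusp Pool.Agent.Helper568.Seq

/-- the exponent `3/2` -/
noncomputable abbrev pp : ℝ≥0∞ := 3 / 2

lemma pp_toReal : pp.toReal = 3 / 2 := by simp [pp]

lemma pp_pos : 0 < pp.toReal := by rw [pp_toReal]; norm_num

instance fact_pp : Fact (1 ≤ pp) := ⟨by
  have h : (1 : ℝ≥0∞) = ENNReal.ofReal 1 := by simp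
  have h2 : pp = ENNReal.ofReal (3 / 2) := by
    rw [ENNReal.ofReal_div_of_pos (by norm_num)]; simp [pp]
  rw [h, h2]
  exact ENNReal.ofReal_le_ofReal (by norm_num)⟩

lemma pp_ne_top : pp ≠ ⊤ := by
  intro h
  have := pp_toReal
  rw [h] at this
  norm_num at this

/-- the space of 3/2 summable sequences -/
abbrev Y : Type := lp (fun _ : ℕ => ℝ) pp

lemma rpow_eq_phi {s : ℝ} (hs : 0 ≤ s) : s ^ pp.toReal = phi s := by
  rw [pp_toReal, show (3 / 2 : ℝ) = 1 + 1 / 2 by norm_num,
    Real.rpow_add_of_nonneg hs (by norm_num) (by norm_num), Real.rpow_one, ← Real.sqrt_eq_rpow]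
  unfold phi; rw [abs_of_nonneg hs]

lemma norm_rpow_eq_phi (s : ℝ) : ‖s‖ ^ pp.toReal = phi s := by
  rw [rpow_eq_phi (norm_nonneg s)]; unfold phi; rw [Real.norm_eq_abs, abs_abs]

lemma phi_nonneg (s : ℝ) : 0 ≤ phi s := by unfold phi; positivity

lemma phi_mul (s r : ℝ) : phi (s * r) = phi s * phi r := by
  unfold phi; rw [abs_mul, Real.sqrt_mul (abs_nonneg s)]; ring

lemma phi_mono {s r : ℝ} (h : |s| ≤ |r|) : phi s ≤ phi r := by
  unfold phi
  exact mul_le_mul h (Real.sqrt_le_sqrt h) (Real.sqrt_nonneg _) (abs_nonneg _)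

lemma phi_le_iff {s r : ℝ} (hs : 0 ≤ s) (hr : 0 ≤ r) : phi s ≤ phi r ↔ s ≤ r := by
  rw [← rpow_eq_phi hs, ← rpow_eq_phi hr]
  exact Real.rpow_le_rpow_iff hs hr pp_pos

lemma phi_le_self {s : ℝ} (hs : 0 ≤ s) (h1 : s ≤ 1) : phi s ≤ s := by
  unfold phi
  rw [abs_of_nonneg hs]
  have : Real.sqrt s ≤ 1 := by rw [← Real.sqrt_one]; exact Real.sqrt_le_sqrt h1
  nlinarith

lemma mem_T (x : H) : Memℓp (fun j : ℕ => b j x) pp := by
  apply memℓp_gen
  simp_rw [norm_rpow_eq_phi]
  exact summable_phi summable_β β_nonneg β_le_one b_bound x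

/-- the operator `x ↦ (b_j x)_j` -/
noncomputable def Tl : H →ₗ[ℝ] Y where
  toFun x := ⟨fun j => b j x, mem_T x⟩
  map_add' x y := by
    ext j; change b j (x + y) = b j x + b j y; rw [map_add]
  map_smul' c x := by
    ext j; change b j (c • x) = c • b j x; rw [map_smul]

lemma Tl_apply (x : H) (j : ℕ) : Tl x j = b j x := rfl

lemma phi_norm_Tl (x : H) : phi ‖Tl x‖ = ∑' j, phi (b j x) := by
  rw [← rpow_eq_phi (norm_nonneg _), lp.norm_rpow_eq_tsum pp_pos]
  congr 1; ext j; rw [Tl_apply, norm_rpow_eq_phi]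

lemma tsum_β : ∑' j, β j = 2 := by
  unfold β
  rw [tsum_geometric_of_lt_one (by norm_num) (by norm_num)]; norm_num

lemma norm_Tl_le {x : H} {M : ℝ} (hM : 0 ≤ M) (h : ∀ j, |b j x| ≤ β j * M) : ‖Tl x‖ ≤ 2 * M := by
  rw [← phi_le_iff (norm_nonneg _) (by positivity), phi_norm_Tl]
  have h1 : ∀ j, phi (b j x) ≤ β j * phi M := by
    intro j
    calc phi (b j x) ≤ phi (β j * M) := by
          apply phi_mono
          rw [abs_of_nonneg (mul_nonneg (β_nonneg j) hM)]; exact h j
      _ = phi (β j) * phi M := phi_mul _ _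
      _ ≤ β j * phi M :=
          mul_le_mul_of_nonneg_right (phi_le_self (β_nonneg j) (β_le_one j)) (phi_nonneg _)
  have h2 : ∑' j, phi (b j x) ≤ ∑' j, β j * phi M :=
    Summable.tsum_le_tsum h1 (summable_phi summable_β β_nonneg β_le_one b_bound x)
      (summable_β.mul_right _)
  rw [tsum_mul_right, tsum_β] at h2
  refine h2.trans ?_
  rw [phi_mul]
  apply mul_le_mul_of_nonneg_right _ (phi_nonneg _)
  unfold phi
  rw [abs_of_pos (by norm_num : (0 : ℝ) < 2)]
  have : (1 : ℝ) ≤ Real.sqrt 2 := by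
    rw [show (1 : ℝ) = Real.sqrt 1 by simp]; exact Real.sqrt_le_sqrt (by norm_num)
  linarith

/-- the operator `x ↦ (b_j x)_j`, as a continuous linear map -/
noncomputable def T : H →L[ℝ] Y := Tl.mkContinuous 2 (fun x => norm_Tl_le (norm_nonneg x)
  (fun j => b_bound j x))

lemma T_apply (x : H) : T x = Tl x := rfl

/-- the ambient space -/
abbrev W : Type := WithLp pp (H × Y)

/-- the graph embedding -/
noncomputable def emb : H →L[ℝ] W :=
  (WithLp.prodContinuousLinearEquiv pp ℝ H Y).symm.toContinuousLinearMap.comp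
    (ContinuousLinearMap.prod (ContinuousLinearMap.id ℝ H) T)

lemma emb_fst (x : H) : (emb x).fst = x := rfl
lemma emb_snd (x : H) : (emb x).snd = T x := rfl

lemma phi_norm_W (w : W) : phi ‖w‖ = phi ‖w.fst‖ + phi ‖w.snd‖ := by
  rw [← rpow_eq_phi (norm_nonneg _), WithLp.prod_norm_eq_add pp_pos, ← Real.rpow_mul (by positivity),
    one_div, inv_mul_cancel₀ pp_pos.ne', Real.rpow_one, rpow_eq_phi (norm_nonneg _),
    rpow_eq_phi (norm_nonneg _)]

lemma phi_norm_emb (x : H) : phi ‖emb x‖ = FF b x := by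
  rw [phi_norm_W, emb_fst, emb_snd, T_apply, phi_norm_Tl]; rfl

lemma norm_le_norm_emb (x : H) : ‖x‖ ≤ ‖emb x‖ := by
  have := WithLp.norm_fst_le H (emb x)
  rwa [emb_fst] at this

/-- The Banach space `E`: the graph of `T`, which is `ℓ²` with an equivalent norm. -/
abbrev E : Type := LinearMap.range (emb : H →ₗ[ℝ] W)

lemma isClosed_range : IsClosed (LinearMap.range (emb : H →ₗ[ℝ] W) : Set W) := by
  have h : AntilipschitzWith 1 emb := by
    apply AddMonoidHomClass.antilipschitz_of_bound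
    intro x; simpa using norm_le_norm_emb x
  have := h.isClosed_range emb.uniformContinuous
  exact this

instance completeSpace_E : CompleteSpace E := isClosed_range.completeSpace_coe

/-- the canonical map from `ℓ²` onto `E` -/
noncomputable def J : H →ₗ[ℝ] E := (emb : H →ₗ[ℝ] W).rangeRestrict

/-- the inverse of `J` -/
noncomputable def fstE : E →ₗ[ℝ] H where
  toFun e := e.1.fst
  map_add' _ _ := rfl
  map_smul' _ _ := rfl

lemma J_coe (x : H) : (J x : W) = emb x := rfl

lemma fstE_J (x : H) : fstE (J x) = x := rfl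

lemma J_fstE (e : E) : J (fstE e) = e := by
  obtain ⟨x, hx⟩ := e.2
  have : e = J x := Subtype.ext hx.symm
  rw [this, fstE_J]

lemma norm_J (x : H) : ‖J x‖ = ‖emb x‖ := rfl

lemma norm_J_le_iff (x y : H) : ‖J x‖ ≤ ‖J y‖ ↔ FF b x ≤ FF b y := by
  rw [norm_J, norm_J, ← phi_norm_emb, ← phi_norm_emb, phi_le_iff (norm_nonneg _) (norm_nonneg _)]

lemma norm_fstE_le (e : E) : ‖fstE e‖ ≤ ‖e‖ := by
  have := norm_le_norm_emb (fstE e)
  rw [← norm_J, J_fstE] at this
  exact this

/-- No nonzero vector of `E` is Birkhoff orthogonal to a two dimensional subspace. -/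
theorem noStrong {g g' h : E} (hlin : ∀ c d : ℝ, c • g + d • g' = 0 → c = 0 ∧ d = 0)
    (hmin : ∀ c d s : ℝ, ‖c • g + d • g'‖ ≤ ‖c • g + d • g' + s • h‖) : h = 0 := by
  have h1 : fstE h = 0 := by
    apply key (g := fstE g) (g' := fstE g')
    · intro c d hcd
      apply hlin
      have : J (c • fstE g + d • fstE g') = 0 := by rw [hcd, map_zero]
      rwa [map_add, map_smul, map_smul, J_fstE, J_fstE] at this
    · intro c d s
      rw [← norm_J_le_iff]
      simpa only [map_add, map_smul, J_fstE] using hmin c d s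
  rw [← J_fstE h, h1, map_zero]

/-- coordinate projection on `ℓ²` -/
noncomputable def Q (n : ℕ) : H →ₗ[ℝ] H where
  toFun x := ∑ i ∈ Finset.range n, lp.single 2 i (x i)
  map_add' x y := by
    rw [← Finset.sum_add_distrib]
    apply Finset.sum_congr rfl
    intro i _
    rw [← lp.single_add]; rfl
  map_smul' c x := by
    rw [RingHom.id_apply, Finset.smul_sum]
    apply Finset.sum_congr rfl
    intro i _
    rw [← lp.single_smul]; rfl

lemma Q_apply (n : ℕ) (x : H) : Q n x = ∑ i ∈ Finset.range n, lp.single 2 i (x i) := rfl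

lemma Q_coord (n : ℕ) (x : H) (i : ℕ) : Q n x i = if i < n then x i else 0 := by
  rw [Q_apply]
  have h1 : (∑ k ∈ Finset.range n, lp.single 2 k (x k) : H) i
      = ∑ k ∈ Finset.range n, (lp.single 2 k (x k) : H) i := by
    rw [lp.coeFn_sum]; simp
  rw [h1]
  split_ifs with h
  · rw [Finset.sum_eq_single i]
    · simp
    · intro k _ hk
      exact lp.single_apply_ne (E := fun _ : ℕ => ℝ) 2 k (x k) hk.symm
    · intro hi; exact absurd (Finset.mem_range.2 h) hi
  · apply Finset.sum_eq_zero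
    intro k hk
    have : k < n := Finset.mem_range.1 hk
    exact lp.single_apply_ne (E := fun _ : ℕ => ℝ) 2 k (x k) (by omega)

lemma norm_Q_le (n : ℕ) (x : H) : ‖Q n x‖ ≤ ‖x‖ := by
  have h2 : (0 : ℝ) < (2 : ℝ≥0∞).toReal := by norm_num
  rw [← Real.rpow_le_rpow_iff (norm_nonneg _) (norm_nonneg _) h2, Q_apply,
    lp.norm_sum_single h2]
  exact lp.sum_rpow_le_norm_rpow h2 x _

lemma tendsto_Q (x : H) : Tendsto (fun n => Q n x) atTop (𝓝 x) := by
  have := (lp.hasSum_single (p := 2) (by norm_num) x).tendsto_sum_nat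
  exact this

lemma Q_Q {m n : ℕ} (hmn : m ≤ n) (x : H) : Q n (Q m x) = Q m x := by
  ext i
  rw [Q_coord, Q_coord]
  split_ifs <;> first | rfl | omega

/-- tail estimate for the functionals -/
lemma b_tail (n : ℕ) (x : H) (j : ℕ) : |b j (Q n x - x)| ≤ β j * ((1 / 2) ^ n * ‖x‖) := by
  rw [b_apply, inner_a, abs_mul, abs_of_pos (t_pos j)]
  have ht := t_pos j
  have ht2 := t_le_half j
  have h1 : ∀ i, ‖(Q n x - x) i * t j ^ i‖ ≤ (if i < n then 0 else t j ^ i) * ‖x‖ := by
    intro i
    have e : (Q n x - x) i = Q n x i - x i := rfl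
    rw [e, Q_coord]
    split_ifs with h
    · simp
    · rw [zero_sub, norm_mul, norm_neg, norm_pow, Real.norm_eq_abs (t j), abs_of_pos ht, mul_comm]
      exact mul_le_mul_of_nonneg_left (lp.norm_apply_le_norm (by norm_num) x i) (by positivity)
  have hs : Summable (fun i => (if i < n then (0 : ℝ) else t j ^ i)) := by
    apply Summable.of_nonneg_of_le (f := fun i => t j ^ i)
    · intro i; split_ifs <;> positivity
    · intro i; split_ifs
      · positivity
      · exact le_rfl
    · exact summable_geometric_of_lt_one ht.le (by linarith)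
  have h2 : |∑' i, (Q n x - x) i * t j ^ i| ≤ ∑' i, (if i < n then (0 : ℝ) else t j ^ i) * ‖x‖ := by
    rw [← Real.norm_eq_abs]
    exact tsum_of_norm_bounded (hs.mul_right _).hasSum h1
  rw [tsum_mul_right] at h2
  have h3 : ∑' i, (if i < n then (0 : ℝ) else t j ^ i) = t j ^ n * (1 - t j)⁻¹ := by
    rw [← Summable.sum_add_tsum_nat_add n hs]
    have e1 : ∑ i ∈ Finset.range n, (if i < n then (0 : ℝ) else t j ^ i) = 0 := by
      apply Finset.sum_eq_zero
      intro i hi
      rw [if_pos (Finset.mem_range.1 hi)]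
    have e2 : ∀ i, (if i + n < n then (0 : ℝ) else t j ^ (i + n)) = t j ^ n * t j ^ i := by
      intro i
      rw [if_neg (by omega), pow_add]; ring
    simp_rw [e2]
    rw [e1, zero_add, tsum_mul_left, tsum_geometric_of_lt_one ht.le (by linarith)]
  rw [h3] at h2
  have h4 : (1 - t j)⁻¹ ≤ 2 := by
    rw [inv_le_comm₀ (by linarith) (by norm_num)]; linarith
  have h5 : t j ^ n ≤ (1 / 2) ^ n := pow_le_pow_left₀ ht.le ht2 n
  have h6 : t j * 2 = β j := by unfold t β; rw [pow_succ]; ring
  calc t j * |∑' i, (Q n x - x) i * t j ^ i| ≤ t j * (t j ^ n * (1 - t j)⁻¹ * ‖x‖) :=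
        mul_le_mul_of_nonneg_left h2 ht.le
    _ ≤ t j * ((1 / 2) ^ n * 2 * ‖x‖) := by
        apply mul_le_mul_of_nonneg_left _ ht.le
        apply mul_le_mul_of_nonneg_right _ (norm_nonneg _)
        apply mul_le_mul h5 h4 (inv_nonneg.2 (by linarith)) (by positivity)
    _ = β j * ((1 / 2) ^ n * ‖x‖) := by rw [← h6]; ring

lemma norm_emb_Q_le (n : ℕ) (x : H) : ‖emb (Q n x)‖ ≤ (1 + 2 * (1 / 2) ^ n) * ‖emb x‖ := by
  -- compare with the point `(Q x, T x)`
  set w : W := WithLp.toLp pp (Q n x, T x) with hw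
  have h1 : ‖w‖ ≤ ‖emb x‖ := by
    rw [← phi_le_iff (norm_nonneg _) (norm_nonneg _), phi_norm_W, phi_norm_W]
    have e1 : w.fst = Q n x := rfl
    have e2 : w.snd = T x := rfl
    rw [e1, e2, emb_fst, emb_snd]
    have := phi_mono (s := ‖Q n x‖) (r := ‖x‖) (by
      rw [abs_norm, abs_norm]; exact norm_Q_le n x)
    linarith
  have h2 : ‖emb (Q n x) - w‖ = ‖T (Q n x - x)‖ := by
    have hc : phi ‖emb (Q n x) - w‖ = phi ‖T (Q n x - x)‖ := by
      rw [phi_norm_W]
      have e1 : (emb (Q n x) - w).fst = 0 := by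
        change Q n x - Q n x = 0; rw [sub_self]
      have e2 : (emb (Q n x) - w).snd = T (Q n x - x) := by
        rw [map_sub]; rfl
      rw [e1, e2]
      simp [phi]
    apply le_antisymm
    · rw [← phi_le_iff (norm_nonneg _) (norm_nonneg _)]; exact hc.le
    · rw [← phi_le_iff (norm_nonneg _) (norm_nonneg _)]; exact hc.ge
  have h3 : ‖T (Q n x - x)‖ ≤ 2 * ((1 / 2) ^ n * ‖x‖) :=
    norm_Tl_le (by positivity) (b_tail n x)
  have h4 : ‖emb (Q n x)‖ ≤ ‖w‖ + ‖emb (Q n x) - w‖ := by
    have : emb (Q n x) = w + (emb (Q n x) - w) := by abel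
    calc ‖emb (Q n x)‖ = ‖w + (emb (Q n x) - w)‖ := by rw [← this]
      _ ≤ _ := norm_add_le _ _
  rw [h2] at h4
  have h5 := norm_le_norm_emb x
  have h6 : (0 : ℝ) < (1 / 2) ^ n := by positivity
  nlinarith [norm_nonneg x, mul_le_mul_of_nonneg_left h5 h6.le]

/-- coordinate projection on `E` -/
noncomputable def P (n : ℕ) : E →L[ℝ] E :=
  LinearMap.mkContinuous (J.comp ((Q n).comp fstE)) (1 + 2 * (1 / 2) ^ n) (by
    intro e
    have := norm_emb_Q_le n (fstE e)
    rw [← norm_J, ← norm_J, J_fstE] at this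
    exact this)

lemma P_apply (n : ℕ) (e : E) : P n e = J (Q n (fstE e)) := rfl

lemma P_J (n : ℕ) (x : H) : P n (J x) = J (Q n x) := rfl

lemma norm_P_le (n : ℕ) : ‖P n‖ ≤ 1 + 2 * (1 / 2) ^ n :=
  LinearMap.mkContinuous_norm_le _ (by positivity) _

lemma P_P {m n : ℕ} (hmn : m ≤ n) (e : E) : P n (P m e) = P m e := by
  rw [P_apply, P_apply, fstE_J, Q_Q hmn]

lemma continuous_J : Continuous J := by
  apply Continuous.subtype_mk
  exact emb.continuous

lemma tendsto_P (e : E) : Tendsto (fun n => P n e) atTop (𝓝 e) := by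
  have h := (continuous_J.tendsto (fstE e)).comp (tendsto_Q (fstE e))
  rw [J_fstE] at h
  exact h

/-- the unit vectors -/
noncomputable def ev (i : ℕ) : H := lp.single 2 i (1 : ℝ)

lemma Q_eq_sum (n : ℕ) (x : H) : Q n x = ∑ i ∈ Finset.range n, x i • ev i := by
  rw [Q_apply]
  apply Finset.sum_congr rfl
  intro i _
  unfold ev
  rw [← lp.single_smul, smul_eq_mul, mul_one]

instance finiteDimensional_range_P (n : ℕ) :
    FiniteDimensional ℝ (LinearMap.range (P n : E →ₗ[ℝ] E)) := by
  have h : LinearMap.range (P n : E →ₗ[ℝ] E) ≤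
      Submodule.span ℝ ((fun i => J (ev i)) '' (Finset.range n : Set ℕ)) := by
    rintro _ ⟨e, rfl⟩
    change P n e ∈ _
    rw [P_apply, Q_eq_sum, map_sum]
    apply Submodule.sum_mem
    intro i hi
    rw [map_smul]
    apply Submodule.smul_mem
    apply Submodule.subset_span
    exact ⟨i, hi, rfl⟩
  have hfin : ((fun i => J (ev i)) '' (Finset.range n : Set ℕ)).Finite :=
    (Finset.finite_toSet _).image _
  have := FiniteDimensional.span_of_finite ℝ hfin
  exact Submodule.finiteDimensional_of_le h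

lemma ev_coord (i k : ℕ) : ev i k = if k = i then 1 else 0 := by
  unfold ev
  rw [lp.single_apply]
  split_ifs with h
  · subst h; simp
  · simp [h]

lemma linearIndependent_ev : LinearIndependent ℝ ev := by
  rw [linearIndependent_iff']
  intro s g hg i hi
  have h1 : (∑ k ∈ s, g k • ev k : H) i = 0 := by rw [hg]; rfl
  have h2 : (∑ k ∈ s, g k • ev k : H) i = ∑ k ∈ s, g k * ev k i := by
    rw [lp.coeFn_sum]; simp
  rw [h2, Finset.sum_eq_single i] at h1
  · rw [ev_coord, if_pos rfl, mul_one] at h1; exact h1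
  · intro k _ hk
    rw [ev_coord, if_neg (Ne.symm hk), mul_zero]
  · intro h; exact absurd hi h

lemma J_injective : Function.Injective J := by
  intro x y h
  have := congrArg fstE h
  rwa [fstE_J, fstE_J] at this

lemma linearIndependent_Jev : LinearIndependent ℝ (fun i => J (ev i)) :=
  linearIndependent_ev.map' J (LinearMap.ker_eq_bot.2 J_injective)

lemma not_finiteDimensional_E : ¬ FiniteDimensional ℝ E := by
  intro h
  have := linearIndependent_Jev.finite
  exact not_finite ℕ

instance separableSpace_H : TopologicalSpace.SeparableSpace H := by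
  rw [← TopologicalSpace.isSeparable_univ_iff]
  have h1 : TopologicalSpace.IsSeparable (Submodule.span ℝ (Set.range ev) : Set H) :=
    (Set.countable_range ev).isSeparable.span
  have h2 := h1.closure
  apply h2.mono
  intro x _
  apply mem_closure_of_tendsto (tendsto_Q x)
  filter_upwards with n
  rw [Q_eq_sum]
  apply Submodule.sum_mem
  intro i _
  exact Submodule.smul_mem _ _ (Submodule.subset_span ⟨i, rfl⟩)

instance separableSpace_E : TopologicalSpace.SeparableSpace E := by
  have hsurj : Function.Surjective J := fun e => ⟨fstE e, J_fstE e⟩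
  exact hsurj.denseRange.separableSpace continuous_J

end Pool.Agent.Helper568.Space
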